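import Mathlib

/-!
The exponential weight `exp (-t |n|)` as a mixture of Gaussians, and the one-bond lemma.
-/

set_option autoImplicit false

open scoped BigOperators
open MeasureTheory Set

namespace Pool.Agent.Helper95_SOS

theorem gfun_integrable {b : ℝ} (hb : 0 < b) :
    IntegrableOn (fun x : ℝ => Real.exp (-(x - b / x)^2)) (Ioi 0) := by
  have h1 : IntegrableOn (fun x : ℝ => Real.exp (2 * b) * Real.exp (-1 * x^2)) (Ioi 0) :=
    ((integrable_exp_neg_mul_sq (b := 1) one_pos).const_mul _).integrableOn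
  refine Integrable.mono' h1 ?_ ?_
  · apply Measurable.aestronglyMeasurable
    fun_prop
  · rw [ae_restrict_iff' measurableSet_Ioi]
    refine Filter.Eventually.of_forall (fun x hx => ?_)
    have hx0 : (0:ℝ) < x := hx
    rw [Real.norm_of_nonneg (Real.exp_pos _).le, ← Real.exp_add]
    apply Real.exp_le_exp.mpr
    have e : (x - b/x)^2 = x^2 - 2 * b + (b/x)^2 := by
      field_simp
      ring
    rw [e]
    linarith only [sq_nonneg (b/x)]

theorem glasser {b : ℝ} (hb : 0 < b) :
    ∫ x in Ioi (0:ℝ), Real.exp (-(x - b / x)^2) = Real.sqrt Real.pi / 2 := by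
  set G : ℝ → ℝ := fun x => Real.exp (-(x - b / x)^2) with hG
  -- first substitution
  have hd1 : ∀ x ∈ Ioi (0:ℝ), HasDerivWithinAt (fun x : ℝ => x - b / x) (1 + b / x^2) (Ioi 0) x := by
    intro x hx
    have hx0 : x ≠ 0 := ne_of_gt hx
    have h1 : HasDerivAt (fun x : ℝ => b / x) (-(b / x^2)) x := by
      have := (hasDerivAt_inv hx0).const_mul b
      refine this.congr_deriv ?_ |>.congr_of_eventuallyEq ?_
      · field_simp
      · exact Filter.Eventually.of_forall (fun y => by simp [div_eq_mul_inv])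
    have h2 := (hasDerivAt_id x).sub h1
    refine (h2.congr_deriv ?_).hasDerivWithinAt
    ring
  have hmono : StrictMonoOn (fun x : ℝ => x - b / x) (Ioi 0) := by
    intro x hx y hy hxy
    have hx0 : (0:ℝ) < x := hx
    simp only
    have : b / y < b / x := div_lt_div_of_pos_left hb hx0 hxy
    linarith
  have himg : (fun x : ℝ => x - b / x) '' (Ioi 0) = univ := by
    apply Set.eq_univ_of_forall
    intro y
    refine ⟨(y + Real.sqrt (y^2 + 4 * b)) / 2, ?_, ?_⟩
    · have h1 : |y| < Real.sqrt (y^2 + 4 * b) := by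
        rw [← Real.sqrt_sq_eq_abs]
        apply Real.sqrt_lt_sqrt (sq_nonneg _)
        linarith
      have h2 := neg_abs_le y
      simp only [mem_Ioi]
      linarith
    · have h1 : |y| < Real.sqrt (y^2 + 4 * b) := by
        rw [← Real.sqrt_sq_eq_abs]
        apply Real.sqrt_lt_sqrt (sq_nonneg _)
        linarith
      have h2 := neg_abs_le y
      have h3 : 0 < y + Real.sqrt (y^2 + 4 * b) := by linarith
      have h4 : Real.sqrt (y^2 + 4 * b)^2 = y^2 + 4 * b := Real.sq_sqrt (by positivity)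
      simp only
      field_simp
      linarith only [h4]
  have s1 := integral_image_eq_integral_abs_deriv_smul measurableSet_Ioi hd1 hmono.injOn
    (fun y => Real.exp (-y^2))
  rw [himg, Measure.restrict_univ] at s1
  have hg1 : ∫ y : ℝ, Real.exp (-y^2) = Real.sqrt Real.pi := by
    have := integral_gaussian 1
    simpa using this
  rw [hg1] at s1
  -- second substitution
  have hd2 : ∀ x ∈ Ioi (0:ℝ), HasDerivWithinAt (fun x : ℝ => b / x) (-(b / x^2)) (Ioi 0) x := by
    intro x hx
    have hx0 : x ≠ 0 := ne_of_gt hx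
    have := (hasDerivAt_inv hx0).const_mul b
    have h1 : HasDerivAt (fun x : ℝ => b / x) (-(b / x^2)) x := by
      refine this.congr_deriv ?_ |>.congr_of_eventuallyEq ?_
      · field_simp
      · exact Filter.Eventually.of_forall (fun y => by simp [div_eq_mul_inv])
    exact h1.hasDerivWithinAt
  have hinj2 : InjOn (fun x : ℝ => b / x) (Ioi 0) := by
    intro x hx y hy hxy
    have hx0 : (0:ℝ) < x := hx
    have hy0 : (0:ℝ) < y := hy
    simp only at hxy
    field_simp at hxy
    linarith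
  have himg2 : (fun x : ℝ => b / x) '' (Ioi 0) = Ioi 0 := by
    ext y
    constructor
    · rintro ⟨x, hx, rfl⟩
      exact div_pos hb hx
    · intro hy
      have hy0 : (0:ℝ) < y := hy
      exact ⟨b / y, div_pos hb hy0, by field_simp⟩
  have s2 := integral_image_eq_integral_abs_deriv_smul measurableSet_Ioi hd2 hinj2 G
  have i2 := integrableOn_image_iff_integrableOn_abs_deriv_smul measurableSet_Ioi hd2 hinj2 G
  rw [himg2] at s2 i2
  have hGi := gfun_integrable hb
  have i3 := i2.mp hGi
  have e2 : ∀ x ∈ Ioi (0:ℝ), |-(b/x^2)| • G (b / x) = (b/x^2) * G x := by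
    intro x hx
    have hx0 : (0:ℝ) < x := hx
    rw [smul_eq_mul, abs_neg, abs_of_pos (by positivity)]
    congr 1
    simp only [hG]
    congr 1
    have : b / (b / x) = x := by field_simp
    rw [this]
    ring
  rw [setIntegral_congr_fun measurableSet_Ioi e2] at s2
  have i4 : IntegrableOn (fun x => (b/x^2) * G x) (Ioi 0) :=
    i3.congr_fun e2 measurableSet_Ioi
  have e1 : ∀ x ∈ Ioi (0:ℝ), |1 + b/x^2| • Real.exp (-(x - b / x)^2) = G x + (b/x^2) * G x := by
    intro x hx
    have hx0 : (0:ℝ) < x := hx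
    rw [smul_eq_mul, abs_of_pos (by positivity)]
    simp only [hG]
    ring
  rw [setIntegral_congr_fun measurableSet_Ioi e1] at s1
  rw [integral_add hGi i4] at s1
  linarith only [s1, s2]

/-- the mixing density -/
noncomputable def pden (v : ℝ) : ℝ := 2 / Real.sqrt Real.pi * Real.exp (-v^2)

theorem pden_nonneg (v : ℝ) : 0 ≤ pden v := by unfold pden; positivity

theorem pden_integrable : IntegrableOn pden (Ioi 0) := by
  have h := (integrable_exp_neg_mul_sq (b := 1) one_pos).const_mul (2 / Real.sqrt Real.pi)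
  refine (h.congr (Filter.Eventually.of_forall (fun x => ?_))).integrableOn
  simp [pden]

theorem pden_integral : ∫ v in Ioi (0:ℝ), pden v = 1 := by
  have h := integral_gaussian_Ioi 1
  have h1 : ∫ v in Ioi (0:ℝ), Real.exp (-v^2) = Real.sqrt Real.pi / 2 := by simpa using h
  unfold pden
  rw [integral_const_mul, h1]
  have : Real.sqrt Real.pi ≠ 0 := (Real.sqrt_pos.mpr Real.pi_pos).ne'
  field_simp

theorem pden_mix (t : ℝ) (ht : 0 < t) (n : ℤ) :
    ∫ v in Ioi (0:ℝ), pden v * Real.exp (-((1/2) * (t^2 / (2 * v^2)) * (n:ℝ)^2))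
      = Real.exp (-(t * |(n:ℝ)|)) := by
  rcases eq_or_ne n 0 with h | h
  · subst h
    simp [pden_integral]
  · have hn : (0:ℝ) < |(n:ℝ)| := by
      rw [abs_pos]; exact_mod_cast h
    set b := t * |(n:ℝ)| / 2 with hb
    have hbp : 0 < b := by positivity
    have hG := glasser hbp
    have e : ∀ v ∈ Ioi (0:ℝ), pden v * Real.exp (-((1/2) * (t^2 / (2 * v^2)) * (n:ℝ)^2))
        = (2 / Real.sqrt Real.pi * Real.exp (-(t * |(n:ℝ)|))) * Real.exp (-(v - b / v)^2) := by
      intro v hv
      have hv0 : (0:ℝ) < v := hv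
      unfold pden
      rw [mul_assoc (2 / Real.sqrt Real.pi), mul_assoc (2 / Real.sqrt Real.pi), ← Real.exp_add,
        ← Real.exp_add]
      congr 2
      have e1 : (v - b/v)^2 = v^2 - 2 * b + (b/v)^2 := by
        field_simp
        ring
      rw [e1]
      have e2 : (b / v)^2 = (1/2) * (t^2 / (2 * v^2)) * (n:ℝ)^2 := by
        rw [hb]
        rw [← sq_abs (n:ℝ)]
        field_simp
        try ring
      rw [e2, hb]
      ring
    rw [setIntegral_congr_fun measurableSet_Ioi e, integral_const_mul, hG]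
    have : Real.sqrt Real.pi ≠ 0 := (Real.sqrt_pos.mpr Real.pi_pos).ne'
    field_simp


/-- variance parameter -/
noncomputable def upar (t v : ℝ) : ℝ := t^2 / (2 * v^2)

theorem min_le_exp {u : ℝ} (hu : 0 ≤ u) : min u 1 ≤ 3 * (1 - Real.exp (-((1/2) * u))) := by
  have h1 : Real.exp (-((1/2) * u)) ≤ 1 / (1 + u / 2) := by
    rw [Real.exp_neg, ← one_div]
    apply one_div_le_one_div_of_le (by positivity)
    have := Real.add_one_le_exp ((1/2) * u)
    linarith only [this]
  have h2 : 1 - 1 / (1 + u/2) = u / (2 + u) := by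
    field_simp
    ring
  have h3 : min u 1 ≤ 3 * (u / (2 + u)) := by
    rw [mul_div_assoc', le_div_iff₀ (by positivity)]
    rcases le_total u 1 with h | h
    · rw [min_eq_left h]; nlinarith only [hu, h]
    · rw [min_eq_right h]; nlinarith
  linarith

theorem mix_integrable (t : ℝ) (g : ℝ → ℝ) (hg : Measurable g) (C : ℝ) (hC : ∀ v, |g v| ≤ C) :
    IntegrableOn (fun v => pden v * g v) (Ioi 0) := by
  have h1 := pden_integrable.const_mul C
  refine Integrable.mono' h1 ?_ ?_
  · apply Measurable.aestronglyMeasurable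
    unfold pden
    fun_prop
  · refine Filter.Eventually.of_forall (fun v => ?_)
    rw [Real.norm_eq_abs, abs_mul, abs_of_nonneg (pden_nonneg v)]
    have := hC v
    have := pden_nonneg v
    nlinarith

theorem meas_exp (t : ℝ) (n : ℤ) : Measurable (fun v : ℝ =>
    Real.exp (-((1/2) * upar t v * (n:ℝ)^2))) := by
  unfold upar
  fun_prop

theorem meas_min (t : ℝ) : Measurable (fun v : ℝ => min (upar t v) 1) := by
  unfold upar
  fun_prop

theorem upar_nonneg (t v : ℝ) : 0 ≤ upar t v := by unfold upar; positivity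

theorem exp_upar_le (t : ℝ) (n : ℤ) (v : ℝ) : |Real.exp (-((1/2) * upar t v * (n:ℝ)^2))| ≤ 1 := by
  rw [abs_of_pos (Real.exp_pos _), Real.exp_le_one_iff]
  have := upar_nonneg t v
  have : 0 ≤ (1/2) * upar t v * (n:ℝ)^2 := by positivity
  linarith

theorem min_upar_le (t v : ℝ) : |min (upar t v) 1| ≤ 1 := by
  rw [abs_of_nonneg (le_min (upar_nonneg t v) zero_le_one)]
  exact min_le_right _ _

theorem mean_min (t : ℝ) (ht : 0 < t) :
    ∫ v in Ioi (0:ℝ), pden v * min (upar t v) 1 ≤ 3 * t := by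
  have h1 := pden_mix t ht 1
  have i1 := mix_integrable t _ (meas_exp t 1) 1 (exp_upar_le t 1)
  have i2 := mix_integrable t _ (meas_min t) 1 (min_upar_le t)
  have h2 : ∫ v in Ioi (0:ℝ), pden v * min (upar t v) 1 ≤
      ∫ v in Ioi (0:ℝ), (3 * pden v - 3 * (pden v * Real.exp (-((1/2) * upar t v * ((1:ℤ):ℝ)^2)))) := by
    apply integral_mono i2 ((pden_integrable.const_mul 3).sub (i1.const_mul 3))
    intro v
    show pden v * min (upar t v) 1 ≤ 3 * pden v - 3 * (pden v * Real.exp (-((1/2) * upar t v * ((1:ℤ):ℝ)^2)))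
    have := min_le_exp (upar_nonneg t v)
    have h3 := mul_le_mul_of_nonneg_left this (pden_nonneg v)
    have e : Real.exp (-((1/2) * upar t v * ((1:ℤ):ℝ)^2)) = Real.exp (-((1/2) * upar t v)) := by
      simp
    rw [e]
    linarith only [h3]
  rw [integral_sub (pden_integrable.const_mul 3) (i1.const_mul 3), integral_const_mul,
    integral_const_mul, pden_integral] at h2
  have h3 : ∫ v in Ioi (0:ℝ), pden v * Real.exp (-((1/2) * upar t v * ((1:ℤ):ℝ)^2)) =
      Real.exp (-(t * |((1:ℤ):ℝ)|)) := h1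
  rw [h3] at h2
  have h4 : 1 - t ≤ Real.exp (-(t * |((1:ℤ):ℝ)|)) := by
    have := Real.add_one_le_exp (-(t * |((1:ℤ):ℝ)|))
    simp only [Int.cast_one, abs_one, mul_one] at this ⊢
    linarith
  linarith only [h2, h4]

/-- pointwise Chebyshev -/
theorem cheb (t : ℝ) (ht : 0 < t) (n : ℤ) :
    ∫ v in Ioi (0:ℝ), pden v * (min (upar t v) 1 * Real.exp (-((1/2) * upar t v * (n:ℝ)^2))) ≤
      3 * t * Real.exp (-(t * |(n:ℝ)|)) := by
  have hmix := pden_mix t ht n
  have i1 : IntegrableOn (fun v => pden v * Real.exp (-((1/2) * upar t v * (n:ℝ)^2))) (Ioi 0) :=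
    mix_integrable t _ (meas_exp t n) 1 (exp_upar_le t n)
  have i2 : IntegrableOn (fun v => pden v * (min (upar t v) 1 *
      Real.exp (-((1/2) * upar t v * (n:ℝ)^2)))) (Ioi 0) :=
    mix_integrable t _ ((meas_min t).mul (meas_exp t n)) 1 (fun v => by
    simp only [Pi.mul_apply, abs_mul]
    have h1 := min_upar_le t v
    have h2 := exp_upar_le t n v
    have := abs_nonneg (min (upar t v) 1)
    nlinarith only [h1, h2, this])
  have i3 : IntegrableOn (fun v => pden v * min (upar t v) 1) (Ioi 0) :=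
    mix_integrable t _ (meas_min t) 1 (min_upar_le t)
  have hmix' : ∫ v in Ioi (0:ℝ), pden v * Real.exp (-((1/2) * upar t v * (n:ℝ)^2)) =
      Real.exp (-(t * |(n:ℝ)|)) := hmix
  rcases le_total 1 (3 * t) with h | h
  · -- trivial case
    have h1 : ∫ v in Ioi (0:ℝ), pden v * (min (upar t v) 1 * Real.exp (-((1/2) * upar t v * (n:ℝ)^2))) ≤
        ∫ v in Ioi (0:ℝ), pden v * Real.exp (-((1/2) * upar t v * (n:ℝ)^2)) := by
      apply integral_mono i2 i1
      intro v
      apply mul_le_mul_of_nonneg_left _ (pden_nonneg v)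
      have h2 : min (upar t v) 1 ≤ 1 := min_le_right _ _
      have h3 := Real.exp_pos (-((1/2) * upar t v * (n:ℝ)^2))
      nlinarith only [h2, h3]
    rw [hmix'] at h1
    have := Real.exp_pos (-(t * |(n:ℝ)|))
    nlinarith
  · set μ := 3 * t with hμ
    have hμp : 0 < μ := by positivity
    -- crossing point
    set vs := t / Real.sqrt (2 * μ) with hvs
    have hsq : 0 < Real.sqrt (2 * μ) := Real.sqrt_pos.mpr (by positivity)
    have hvsp : 0 < vs := by positivity
    have hvs2 : vs^2 = t^2 / (2 * μ) := by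
      rw [hvs, div_pow, Real.sq_sqrt (by positivity)]
    set h0 := Real.exp (-((1/2) * upar t vs * (n:ℝ)^2)) with hh0
    have hcross : ∀ v ∈ Ioi (0:ℝ), (min (upar t v) 1 - μ) *
        (Real.exp (-((1/2) * upar t v * (n:ℝ)^2)) - h0) ≤ 0 := by
      intro v hv
      have hv0 : (0:ℝ) < v := hv
      rcases le_total v vs with hle | hle
      · have hu : upar t vs ≤ upar t v := by
          unfold upar
          apply div_le_div_of_nonneg_left (sq_nonneg _) (by positivity)
          have := pow_le_pow_left₀ hv0.le hle 2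
          linarith
        have hu2 : μ ≤ upar t vs := by
          unfold upar
          rw [hvs2]
          apply le_of_eq
          field_simp
        have h1 : 0 ≤ min (upar t v) 1 - μ := by
          rw [sub_nonneg, le_min_iff]
          exact ⟨le_trans hu2 hu, h⟩
        have h2 : Real.exp (-((1/2) * upar t v * (n:ℝ)^2)) - h0 ≤ 0 := by
          rw [sub_nonpos, hh0]
          apply Real.exp_le_exp.mpr
          have := mul_le_mul_of_nonneg_right hu (sq_nonneg (n:ℝ))
          linarith only [this]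
        exact mul_nonpos_of_nonneg_of_nonpos h1 h2
      · have hu : upar t v ≤ upar t vs := by
          unfold upar
          apply div_le_div_of_nonneg_left (sq_nonneg _) (by positivity)
          have := pow_le_pow_left₀ hvsp.le hle 2
          linarith
        have hu2 : upar t vs ≤ μ := by
          unfold upar
          rw [hvs2]
          apply le_of_eq
          field_simp
        have h1 : min (upar t v) 1 - μ ≤ 0 := by
          rw [sub_nonpos]
          exact le_trans (min_le_left _ _) (le_trans hu hu2)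
        have h2 : 0 ≤ Real.exp (-((1/2) * upar t v * (n:ℝ)^2)) - h0 := by
          rw [sub_nonneg, hh0]
          apply Real.exp_le_exp.mpr
          have := mul_le_mul_of_nonneg_right hu (sq_nonneg (n:ℝ))
          linarith
        exact mul_nonpos_of_nonpos_of_nonneg h1 h2
    have hint : ∫ v in Ioi (0:ℝ), pden v * ((min (upar t v) 1 - μ) *
        (Real.exp (-((1/2) * upar t v * (n:ℝ)^2)) - h0)) ≤ 0 := by
      apply setIntegral_nonpos measurableSet_Ioi
      intro v hv
      exact mul_nonpos_of_nonneg_of_nonpos (pden_nonneg v) (hcross v hv)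
    have e : ∀ v, pden v * ((min (upar t v) 1 - μ) *
        (Real.exp (-((1/2) * upar t v * (n:ℝ)^2)) - h0)) =
        (pden v * (min (upar t v) 1 * Real.exp (-((1/2) * upar t v * (n:ℝ)^2)))
          - μ * (pden v * Real.exp (-((1/2) * upar t v * (n:ℝ)^2))))
        - (h0 * (pden v * min (upar t v) 1) - h0 * μ * pden v) := by
      intro v; ring
    simp_rw [e] at hint
    have j1 : IntegrableOn (fun v => μ * (pden v * Real.exp (-((1/2) * upar t v * (n:ℝ)^2)))) (Ioi 0) :=
      i1.const_mul μ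
    have j3 : IntegrableOn (fun v => h0 * (pden v * min (upar t v) 1)) (Ioi 0) := i3.const_mul h0
    have j4 : IntegrableOn (fun v => h0 * μ * pden v) (Ioi 0) := pden_integrable.const_mul (h0 * μ)
    have j5 : IntegrableOn (fun v => pden v * (min (upar t v) 1 * Real.exp (-((1/2) * upar t v * (n:ℝ)^2)))
          - μ * (pden v * Real.exp (-((1/2) * upar t v * (n:ℝ)^2)))) (Ioi 0) := i2.sub j1
    have j6 : IntegrableOn (fun v => h0 * (pden v * min (upar t v) 1) - h0 * μ * pden v) (Ioi 0) :=
      j3.sub j4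
    rw [integral_sub j5 j6, integral_sub i2 j1, integral_sub j3 j4,
      integral_const_mul, integral_const_mul, integral_const_mul, pden_integral, hmix'] at hint
    have hm := mean_min t ht
    have hh0p : 0 < h0 := Real.exp_pos _
    have := mul_le_mul_of_nonneg_left hm hh0p.le
    linarith only [hint, this]

/-- **One-bond lemma.** -/
theorem one_bond {Ψ : Type} [Countable Ψ] (W F : Ψ → ℝ) (n : Ψ → ℤ) {t A b : ℝ} (ht : 0 < t)
    (hb : 0 ≤ b) (hW : ∀ ψ, 0 ≤ W ψ) (hF : ∀ ψ, |F ψ| ≤ 1)
    (hs : Summable (fun ψ => W ψ * Real.exp (-(t * |(n ψ : ℝ)|))))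
    (hu : ∀ u : ℝ, 0 < u → Summable (fun ψ => W ψ * Real.exp (-((1/2) * u * (n ψ : ℝ)^2))))
    (hyp : ∀ u : ℝ, 0 < u → ∑' ψ, W ψ * Real.exp (-((1/2) * u * (n ψ : ℝ)^2)) * F ψ ≤
      (A + b * min u 1) * ∑' ψ, W ψ * Real.exp (-((1/2) * u * (n ψ : ℝ)^2))) :
    ∑' ψ, W ψ * Real.exp (-(t * |(n ψ : ℝ)|)) * F ψ ≤
      (A + b * (3 * t)) * ∑' ψ, W ψ * Real.exp (-(t * |(n ψ : ℝ)|)) := by
  -- the combined integrand
  let H : Ψ → ℝ → ℝ := fun ψ v => pden v * ((F ψ - A - b * min (upar t v) 1) *
    (W ψ * Real.exp (-((1/2) * upar t v * (n ψ:ℝ)^2))))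
  have i0 : ∀ ψ, IntegrableOn (fun v => pden v * Real.exp (-((1/2) * upar t v * (n ψ:ℝ)^2))) (Ioi 0) :=
    fun ψ => mix_integrable t _ (meas_exp t (n ψ)) 1 (exp_upar_le t (n ψ))
  have i1 : ∀ ψ, IntegrableOn (fun v => pden v * (min (upar t v) 1 *
      Real.exp (-((1/2) * upar t v * (n ψ:ℝ)^2)))) (Ioi 0) :=
    fun ψ => mix_integrable t _ ((meas_min t).mul (meas_exp t (n ψ))) 1 (fun v => by
      simp only [Pi.mul_apply, abs_mul]
      have h1 := min_upar_le t v
      have h2 := exp_upar_le t (n ψ) v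
      have := abs_nonneg (min (upar t v) 1)
      nlinarith)
  have eH : ∀ ψ v, H ψ v = ((F ψ - A) * W ψ) * (pden v * Real.exp (-((1/2) * upar t v * (n ψ:ℝ)^2)))
      - (b * W ψ) * (pden v * (min (upar t v) 1 * Real.exp (-((1/2) * upar t v * (n ψ:ℝ)^2)))) := by
    intro ψ v
    simp only [H]
    ring
  have iH : ∀ ψ, IntegrableOn (H ψ) (Ioi 0) := by
    intro ψ
    have := ((i0 ψ).const_mul ((F ψ - A) * W ψ)).sub ((i1 ψ).const_mul (b * W ψ))
    refine this.congr (Filter.Eventually.of_forall (fun v => ?_))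
    simp only [Pi.sub_apply]
    rw [eH]
  have hmix : ∀ ψ, ∫ v in Ioi (0:ℝ), pden v * Real.exp (-((1/2) * upar t v * (n ψ:ℝ)^2)) =
      Real.exp (-(t * |(n ψ:ℝ)|)) := fun ψ => pden_mix t ht (n ψ)
  have hnorm : ∀ ψ, ∫ v in Ioi (0:ℝ), ‖H ψ v‖ ≤
      (1 + |A| + b) * (W ψ * Real.exp (-(t * |(n ψ:ℝ)|))) := by
    intro ψ
    rw [← hmix ψ, ← integral_const_mul, ← integral_const_mul]
    apply integral_mono (iH ψ).norm (((i0 ψ).const_mul _).const_mul _)
    intro v
    simp only
    rw [Real.norm_eq_abs]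
    simp only [H]
    rw [abs_mul, abs_mul, abs_of_nonneg (pden_nonneg v), abs_of_nonneg
      (mul_nonneg (hW ψ) (Real.exp_pos _).le)]
    have h1 : |F ψ - A - b * min (upar t v) 1| ≤ 1 + |A| + b := by
      have a1 := hF ψ
      have a2 := min_upar_le t v
      have a3 : |b * min (upar t v) 1| ≤ b := by
        rw [abs_mul, abs_of_nonneg hb]
        nlinarith
      calc |F ψ - A - b * min (upar t v) 1| ≤ |F ψ - A| + |b * min (upar t v) 1| := abs_sub _ _
        _ ≤ |F ψ| + |A| + |b * min (upar t v) 1| := by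
            have := abs_sub (F ψ) A
            linarith
        _ ≤ 1 + |A| + b := by linarith
    have h2 : 0 ≤ pden v * (W ψ * Real.exp (-((1/2) * upar t v * (n ψ:ℝ)^2))) :=
      mul_nonneg (pden_nonneg v) (mul_nonneg (hW ψ) (Real.exp_pos _).le)
    have := mul_le_mul_of_nonneg_right h1 h2
    linarith only [this]
  have hsumn : Summable (fun ψ => ∫ v in Ioi (0:ℝ), ‖H ψ v‖) := by
    refine Summable.of_nonneg_of_le (fun ψ => ?_) hnorm (hs.mul_left _)
    exact integral_nonneg (fun v => norm_nonneg _)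
  have key := hasSum_integral_of_summable_integral_norm (μ := volume.restrict (Ioi 0)) iH hsumn
  have hneg : ∫ v in Ioi (0:ℝ), ∑' ψ, H ψ v ≤ 0 := by
    apply setIntegral_nonpos measurableSet_Ioi
    intro v hv
    have hv0 : (0:ℝ) < v := hv
    have hup : 0 < upar t v := by unfold upar; positivity
    have h1 := hyp _ hup
    have h2 := hu _ hup
    have e : ∀ ψ, H ψ v = pden v * (W ψ * Real.exp (-((1/2) * upar t v * (n ψ:ℝ)^2)) * F ψ
        - (A + b * min (upar t v) 1) * (W ψ * Real.exp (-((1/2) * upar t v * (n ψ:ℝ)^2)))) := by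
      intro ψ
      simp only [H]
      ring
    have h3 : Summable (fun ψ => W ψ * Real.exp (-((1/2) * upar t v * (n ψ:ℝ)^2)) * F ψ) := by
      refine Summable.of_norm_bounded h2 (fun ψ => ?_)
      rw [Real.norm_eq_abs, abs_mul, abs_of_nonneg (mul_nonneg (hW ψ) (Real.exp_pos _).le)]
      have h4 := mul_nonneg (hW ψ) (Real.exp_pos (-((1/2) * upar t v * (n ψ:ℝ)^2))).le
      have := hF ψ
      nlinarith only [h4, this]
    simp_rw [e]
    rw [tsum_mul_left, h3.tsum_sub (h2.mul_left _), tsum_mul_left]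
    apply mul_nonpos_of_nonneg_of_nonpos (pden_nonneg v)
    linarith
  have hval : ∀ ψ, ((F ψ - A - b * (3 * t)) * (W ψ * Real.exp (-(t * |(n ψ:ℝ)|)))) ≤
      ∫ v in Ioi (0:ℝ), H ψ v := by
    intro ψ
    have e : ∫ v in Ioi (0:ℝ), H ψ v = ((F ψ - A) * W ψ) * Real.exp (-(t * |(n ψ:ℝ)|))
        - (b * W ψ) * ∫ v in Ioi (0:ℝ), (pden v * (min (upar t v) 1 *
          Real.exp (-((1/2) * upar t v * (n ψ:ℝ)^2)))) := by
      simp_rw [eH]
      rw [integral_sub ((i0 ψ).const_mul _) ((i1 ψ).const_mul _), integral_const_mul,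
        integral_const_mul, hmix]
    rw [e]
    have h1 := cheb t ht (n ψ)
    have h2 := mul_le_mul_of_nonneg_left h1 (mul_nonneg hb (hW ψ))
    linarith only [h2]
  have hFs : Summable (fun ψ => W ψ * Real.exp (-(t * |(n ψ : ℝ)|)) * F ψ) := by
    refine Summable.of_norm_bounded hs (fun ψ => ?_)
    rw [Real.norm_eq_abs, abs_mul, abs_of_nonneg (mul_nonneg (hW ψ) (Real.exp_pos _).le)]
    have h4 := mul_nonneg (hW ψ) (Real.exp_pos (-(t * |(n ψ : ℝ)|))).le
    have := hF ψ
    nlinarith
  have hls : HasSum (fun ψ => (F ψ - A - b * (3 * t)) * (W ψ * Real.exp (-(t * |(n ψ:ℝ)|))))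
      (∑' ψ, W ψ * Real.exp (-(t * |(n ψ : ℝ)|)) * F ψ -
        (A + b * (3 * t)) * ∑' ψ, W ψ * Real.exp (-(t * |(n ψ : ℝ)|))) := by
    have := hFs.hasSum.sub (hs.hasSum.mul_left (A + b * (3 * t)))
    refine this.congr_fun ?_ |> id
    intro ψ
    ring
  have hfin := hasSum_le hval hls key
  linarith

end Pool.Agent.Helper95_SOS
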