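import Pool.Agent.Helper95_SOS.Flat

/-!
Logarithmic bump functions.
-/

set_option autoImplicit false

open scoped BigOperators

namespace Pool.Agent.Helper95_SOS

/-- clamp profile -/
noncomputable def tau (r g : ℝ) : ℝ := max 0 (min 1 ((3 * r - g) / r))

theorem tau_one {r g : ℝ} (hr : 0 < r) (h : g ≤ 2 * r) : tau r g = 1 := by
  unfold tau
  have : 1 ≤ (3 * r - g) / r := by rw [le_div_iff₀ hr]; linarith
  rw [min_eq_left this]
  norm_num

theorem tau_zero {r g : ℝ} (hr : 0 < r) (h : 3 * r ≤ g) : tau r g = 0 := by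
  unfold tau
  have : (3 * r - g) / r ≤ 0 := by
    apply div_nonpos_of_nonpos_of_nonneg _ hr.le
    linarith
  rw [max_eq_left]
  exact le_trans (min_le_right _ _) this

theorem tau_lip {r g g' : ℝ} (hr : 0 < r) : |tau r g - tau r g'| ≤ |g - g'| / r := by
  unfold tau
  have h1 := abs_max_sub_max_le_abs (0:ℝ) 0 (min 1 ((3 * r - g) / r)) |> fun _ => True.intro
  have h2 : |max 0 (min 1 ((3 * r - g) / r)) - max 0 (min 1 ((3 * r - g') / r))| ≤
      |min 1 ((3 * r - g) / r) - min 1 ((3 * r - g') / r)| := by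
    have := abs_max_sub_max_le_max (0:ℝ) (min 1 ((3 * r - g) / r)) 0 (min 1 ((3 * r - g') / r))
    simpa using this
  have h3 : |min 1 ((3 * r - g) / r) - min 1 ((3 * r - g') / r)| ≤
      |(3 * r - g) / r - (3 * r - g') / r| := by
    have := abs_min_sub_min_le_max (1:ℝ) ((3 * r - g) / r) 1 ((3 * r - g') / r)
    simpa using this
  have h4 : |(3 * r - g) / r - (3 * r - g') / r| = |g - g'| / r := by
    rw [← sub_div, abs_div, abs_of_pos hr]
    congr 1
    rw [abs_sub_comm]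
    congr 1
    ring
  linarith

/-- bump function -/
noncomputable def bump (π : Pt → EE) (c : Pt) (b L : ℕ) (x : Pt) : ℝ :=
  (∑ l ∈ Finset.range L, tau (4^l * b) ‖π x - toE c‖) / L

theorem bump_const {π : Pt → EE} {c : Pt} {b L : ℕ} {x y : Pt} (h : π x = π y) :
    bump π c b L x = bump π c b L y := by
  unfold bump
  rw [h]

section
variable {ob : Set (Set Pt)} {lip d : ℝ} {π : Pt → EE} (h : Flat ob lip d π) (hlip : lip ≤ 2)
  {b L : ℕ} (hb : 16 ≤ b) (hL : 0 < L) (hd : d ≤ b / 4) (c : Pt)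

include h hb hL hd in
theorem bump_one {x : Pt} (hx : nm (x - c) ≤ b) : bump π c b L x = 1 := by
  unfold bump
  have hb' : (16:ℝ) ≤ b := by exact_mod_cast hb
  have h1 : ∀ l ∈ Finset.range L, tau (4^l * b) ‖π x - toE c‖ = 1 := by
    intro l _
    have h4 : (1:ℝ) ≤ 4^l := one_le_pow₀ (by norm_num)
    have hp : (0:ℝ) < 4^l * b := by positivity
    apply tau_one hp
    have h2 := h.disp x
    have h3 : ‖toE x - toE c‖ ≤ b := by rw [norm_toE_sub]; exact_mod_cast hx
    have h5 : ‖π x - toE c‖ ≤ b + b/4 := by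
      calc ‖π x - toE c‖ = ‖(π x - toE x) + (toE x - toE c)‖ := by congr 1; abel
        _ ≤ _ := norm_add_le _ _
        _ ≤ b + b/4 := by linarith
    nlinarith
  rw [Finset.sum_congr rfl h1]
  have : (L:ℝ) ≠ 0 := by exact_mod_cast hL.ne'
  simp [this]

include h hb hd in
theorem bump_zero {x : Pt} (hx : (7/8) * (4^L * (b:ℝ)) ≤ ((nm (x - c) : ℤ) : ℝ)) :
    bump π c b L x = 0 := by
  unfold bump
  have hb' : (16:ℝ) ≤ b := by exact_mod_cast hb
  have h1 : ∀ l ∈ Finset.range L, tau (4^l * b) ‖π x - toE c‖ = 0 := by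
    intro l hl
    have h4 : (1:ℝ) ≤ 4^l := one_le_pow₀ (by norm_num)
    have hp : (0:ℝ) < 4^l * b := by positivity
    apply tau_zero hp
    have h2 := h.disp x
    rw [← norm_toE_sub] at hx
    have h5 : ‖toE x - toE c‖ ≤ ‖π x - toE c‖ + b/4 := by
      calc ‖toE x - toE c‖ = ‖(π x - toE c) - (π x - toE x)‖ := by congr 1; abel
        _ ≤ _ := norm_sub_le _ _
        _ ≤ _ := by linarith
    have h6 : (4:ℝ)^(l+1) ≤ 4^L := pow_le_pow_right₀ (by norm_num) (Finset.mem_range.mp hl)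
    have h7 : (4:ℝ)^(l+1) = 4 * 4^l := by ring
    rw [h7] at h6
    have h8 := mul_le_mul_of_nonneg_right h6 (by linarith : (0:ℝ) ≤ b)
    nlinarith
  rw [Finset.sum_congr rfl h1]
  simp

include h hlip hb hd in
theorem tau_edge {x y : Pt} (hxy : nm (x - y) ≤ 1) (l : ℕ) :
    (tau (4^l * b) ‖π x - toE c‖ - tau (4^l * b) ‖π y - toE c‖ ≠ 0 →
      (2 * (4^l * b) - 2 ≤ ‖π y - toE c‖ ∧ ‖π y - toE c‖ ≤ 3 * (4^l * b) + 2)) ∧
    (tau (4^l * b) ‖π x - toE c‖ - tau (4^l * b) ‖π y - toE c‖)^2 ≤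
      if nm (y - c) ≤ 4 * (4^l * b) then 4 / ((4:ℝ)^l * b)^2 else 0 := by
  have hb' : (16:ℝ) ≤ b := by exact_mod_cast hb
  have h4 : (1:ℝ) ≤ 4^l := one_le_pow₀ (by norm_num)
  have hp : (0:ℝ) < 4^l * b := by positivity
  have hbr : (b:ℝ) ≤ 4^l * b := by nlinarith
  have hg : |‖π x - toE c‖ - ‖π y - toE c‖| ≤ 2 := by
    have h1 := abs_norm_sub_norm_le (π x - toE c) (π y - toE c)
    have h2 : (π x - toE c) - (π y - toE c) = π x - π y := by abel
    rw [h2] at h1
    exact le_trans h1 (le_trans (h.lip_le x y hxy) hlip)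
  have hg' := abs_le.mp hg
  set r : ℝ := 4^l * b with hr
  have key : tau r ‖π x - toE c‖ - tau r ‖π y - toE c‖ ≠ 0 →
      (2 * r - 2 ≤ ‖π y - toE c‖ ∧ ‖π y - toE c‖ ≤ 3 * r + 2) := by
    intro hne
    constructor
    · by_contra hcon
      push Not at hcon
      apply hne
      rw [tau_one hp (by linarith), tau_one hp (by linarith)]
      ring
    · by_contra hcon
      push Not at hcon
      apply hne
      rw [tau_zero hp (by linarith), tau_zero hp (by linarith)]
      ring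
  refine ⟨key, ?_⟩
  by_cases hne : tau r ‖π x - toE c‖ - tau r ‖π y - toE c‖ = 0
  · rw [hne, zero_pow two_ne_zero]
    split_ifs
    · positivity
    · exact le_rfl
  · have h1 := key hne
    have h2 := h.disp y
    have h3 : ‖toE y - toE c‖ ≤ ‖π y - toE c‖ + d := by
      calc ‖toE y - toE c‖ = ‖(π y - toE c) - (π y - toE y)‖ := by congr 1; abel
        _ ≤ _ := norm_sub_le _ _
        _ ≤ _ := by linarith
    have h5 : ‖toE y - toE c‖ ≤ 4 * r := by linarith [h1.2]
    rw [norm_toE_sub] at h5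
    have h6 : nm (y - c) ≤ 4 * (4^l * b) := by
      have : ((nm (y - c) : ℤ) : ℝ) ≤ ((4 * (4^l * b) : ℤ) : ℝ) := by push_cast; exact h5
      exact_mod_cast this
    rw [if_pos h6]
    have h7 := tau_lip (g := ‖π x - toE c‖) (g' := ‖π y - toE c‖) hp
    have h8 : |tau r ‖π x - toE c‖ - tau r ‖π y - toE c‖| ≤ 2 / r :=
      le_trans h7 (div_le_div_of_nonneg_right hg hp.le)
    have h9 := pow_le_pow_left₀ (abs_nonneg _) h8 2
    rw [sq_abs] at h9
    refine le_trans h9 (le_of_eq ?_)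
    rw [div_pow]; norm_num

include h hlip hb hL hd in
theorem bump_edge {x y : Pt} (hxy : nm (x - y) ≤ 1) :
    (bump π c b L x - bump π c b L y)^2 ≤
      (∑ l ∈ Finset.range L, if nm (y - c) ≤ 4 * (4^l * b) then 4 / ((4:ℝ)^l * b)^2 else 0) / (L:ℝ)^2 := by
  have hb' : (16:ℝ) ≤ b := by exact_mod_cast hb
  have hLr : (0:ℝ) < L := by exact_mod_cast hL
  have e1 : bump π c b L x - bump π c b L y =
      (∑ l ∈ Finset.range L, (tau (4^l * b) ‖π x - toE c‖ - tau (4^l * b) ‖π y - toE c‖)) / L := by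
    unfold bump
    rw [Finset.sum_sub_distrib, sub_div]
  rw [e1, div_pow]
  apply div_le_div_of_nonneg_right _ (by positivity)
  set a : ℕ → ℝ := fun l => tau (4^l * b) ‖π x - toE c‖ - tau (4^l * b) ‖π y - toE c‖ with ha
  have huniq : ∀ l l' : ℕ, l < l' → a l ≠ 0 → a l' ≠ 0 → False := by
    intro l l' hll hl hl'
    have h1 := (tau_edge h hlip hb hd c hxy l).1 hl
    have h2 := (tau_edge h hlip hb hd c hxy l').1 hl'
    have h3 : (4:ℝ)^(l+1) ≤ 4^l' := pow_le_pow_right₀ (by norm_num) hll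
    have h4 : (4:ℝ)^(l+1) = 4 * 4^l := by ring
    rw [h4] at h3
    have h5 := mul_le_mul_of_nonneg_right h3 (by linarith : (0:ℝ) ≤ b)
    have h6 : (1:ℝ) ≤ 4^l := one_le_pow₀ (by norm_num)
    have h7 : (b:ℝ) ≤ 4^l * b := by nlinarith
    linarith [h1.2, h2.1]
  have hsq : (∑ l ∈ Finset.range L, a l)^2 ≤ ∑ l ∈ Finset.range L, (a l)^2 := by
    by_cases hex : ∃ l ∈ Finset.range L, a l ≠ 0
    · obtain ⟨l0, hl0, hne⟩ := hex
      have hz : ∀ l ∈ Finset.range L, l ≠ l0 → a l = 0 := by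
        intro l _ hl
        by_contra hcon
        rcases lt_or_gt_of_ne hl with hlt | hlt
        · exact huniq _ _ hlt hcon hne
        · exact huniq _ _ hlt hne hcon
      rw [Finset.sum_eq_single l0 hz (fun h => absurd hl0 h)]
      exact Finset.single_le_sum (f := fun l => (a l)^2) (fun l _ => sq_nonneg _) hl0
    · push Not at hex
      rw [Finset.sum_eq_zero hex]
      simp only [ne_eq, OfNat.ofNat_ne_zero, not_false_eq_true, zero_pow]
      exact Finset.sum_nonneg (fun l _ => sq_nonneg _)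
  refine le_trans hsq (Finset.sum_le_sum (fun l _ => ?_))
  exact (tau_edge h hlip hb hd c hxy l).2

theorem count_ball (F : Finset Pt) (c : Pt) (m : ℕ) :
    ((F.filter (fun x => nm (x - c) ≤ (m:ℤ))).card : ℝ) ≤ (2 * (m:ℝ) + 1)^2 := by
  have hsub : F.filter (fun x => nm (x - c) ≤ (m:ℤ)) ⊆
      Finset.Icc (c.1 - m) (c.1 + m) ×ˢ Finset.Icc (c.2 - m) (c.2 + m) := by
    intro x hx
    rw [Finset.mem_filter] at hx
    have := hx.2
    rw [nm_le_iff, abs_le, abs_le] at this
    simp only [Prod.fst_sub, Prod.snd_sub] at this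
    simp only [Finset.mem_product, Finset.mem_Icc]
    omega
  have h1 := Finset.card_le_card hsub
  rw [Finset.card_product, Int.card_Icc, Int.card_Icc] at h1
  have e1 : (c.1 + m + 1 - (c.1 - m)).toNat = 2 * m + 1 := by omega
  have e2 : (c.2 + m + 1 - (c.2 - m)).toNat = 2 * m + 1 := by omega
  rw [e1, e2] at h1
  have h2 : ((F.filter (fun x => nm (x - c) ≤ (m:ℤ))).card : ℝ) ≤ (((2 * m + 1) * (2 * m + 1) : ℕ) : ℝ) := by
    exact_mod_cast h1
  refine le_trans h2 (le_of_eq ?_)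
  push_cast
  ring

include h hlip hb hL hd in
theorem bump_sum (F : Finset Pt) (e : Pt) (he : nm e ≤ 1) :
    ∑ x ∈ F, (bump π c b L (x + e) - bump π c b L x)^2 ≤ 324 / L := by
  have hb' : (16:ℝ) ≤ b := by exact_mod_cast hb
  have hLr : (0:ℝ) < L := by exact_mod_cast hL
  have h1 : ∀ x ∈ F, (bump π c b L (x + e) - bump π c b L x)^2 ≤
      (∑ l ∈ Finset.range L, if nm (x - c) ≤ 4 * (4^l * b) then 4 / ((4:ℝ)^l * b)^2 else 0) / (L:ℝ)^2 := by
    intro x _
    apply bump_edge h hlip hb hL hd c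
    simpa using he
  refine le_trans (Finset.sum_le_sum h1) ?_
  rw [← Finset.sum_div, Finset.sum_comm, div_le_div_iff₀ (by positivity) hLr]
  have h2 : ∀ l ∈ Finset.range L, ∑ x ∈ F,
      (if nm (x - c) ≤ 4 * (4^l * (b:ℤ)) then 4 / ((4:ℝ)^l * b)^2 else 0) ≤ 324 := by
    intro l _
    rw [← Finset.sum_filter, Finset.sum_const, nsmul_eq_mul]
    have hc := count_ball F c (4 * (4^l * b))
    have e : (((4 * (4^l * b) : ℕ)) : ℤ) = 4 * (4^l * (b:ℤ)) := by push_cast; ring
    rw [e] at hc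
    have h4 : (1:ℝ) ≤ 4^l := one_le_pow₀ (by norm_num)
    set r : ℝ := 4^l * b with hr
    have hr1 : 1 ≤ r := by nlinarith
    have e2 : (((4 * (4^l * b) : ℕ)) : ℝ) = 4 * r := by push_cast; ring
    rw [e2] at hc
    have h5 : (2 * (4 * r) + 1)^2 ≤ 81 * r^2 := by nlinarith
    rw [mul_div_assoc', div_le_iff₀ (by positivity)]
    nlinarith
  have h3 := Finset.sum_le_sum h2
  simp only [Finset.sum_const, Finset.card_range, nsmul_eq_mul] at h3
  nlinarith

include h hlip hb hL hd in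
theorem bump_energy (F : Finset Pt) : ∑ x ∈ F, gd (bump π c b L) x ≤ 648 / L := by
  have h1 := bump_sum h hlip hb hL hd c F (1, 0) (by simp [nm])
  have h2 := bump_sum h hlip hb hL hd c F (0, 1) (by simp [nm])
  have e : ∑ x ∈ F, gd (bump π c b L) x =
      ∑ x ∈ F, (bump π c b L (x + (1,0)) - bump π c b L x)^2 +
      ∑ x ∈ F, (bump π c b L (x + (0,1)) - bump π c b L x)^2 := by
    rw [← Finset.sum_add_distrib]
    refine Finset.sum_congr rfl (fun x _ => ?_)
    unfold gd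
    congr 4 <;> ext <;> simp
  rw [e]
  have : (648:ℝ) / L = 324 / L + 324 / L := by ring
  linarith

end

end Pool.Agent.Helper95_SOS
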