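import Mathlib

/-!
Sums over `ι → ℤ` of product functions, and Gaussian bounds.
-/

set_option autoImplicit false

open scoped BigOperators

namespace Pool.Agent.Helper95_SOS

theorem hasSum_pi_prod_fin {κ : Type} (n : ℕ) : ∀ (f : Fin n → κ → ℝ),
    (∀ i k, 0 ≤ f i k) → (∀ i, Summable (f i)) →
      HasSum (fun q : Fin n → κ => ∏ i, f i (q i)) (∏ i, ∑' k, f i k) := by
  induction n with
  | zero =>
      intro f _ _
      simp
  | succ n ih =>
      intro f h0 hs
      have h1 := ih (fun i => f i.succ) (fun i k => h0 _ _) (fun i => hs _)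
      have h2 : HasSum (fun k => f 0 k) (∑' k, f 0 k) := (hs 0).hasSum
      have hnn : ∀ q : Fin n → κ, 0 ≤ ∏ i, f (Fin.succ i) (q i) :=
        fun q => Finset.prod_nonneg (fun i _ => h0 _ _)
      have hsm : Summable (fun x : κ × (Fin n → κ) => f 0 x.1 * ∏ i, f (Fin.succ i) (x.2 i)) :=
        Summable.mul_of_nonneg (f := fun k => f 0 k)
          (g := fun q : Fin n → κ => ∏ i, f (Fin.succ i) (q i)) h2.summable h1.summable
          (fun k => h0 0 k) hnn
      have h3 : HasSum (fun x : κ × (Fin n → κ) => f 0 x.1 * ∏ i, f (Fin.succ i) (x.2 i))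
          ((∑' k, f 0 k) * ∏ i, ∑' k, f (Fin.succ i) k) :=
        HasSum.mul (f := fun k => f 0 k)
          (g := fun q : Fin n → κ => ∏ i, f (Fin.succ i) (q i)) h2 h1 hsm
      have h4 := (Fin.consEquiv (fun _ : Fin (n+1) => κ)).hasSum_iff
        (f := fun q : Fin (n+1) → κ => ∏ i, f i (q i)) (a := ∏ i, ∑' k, f i k)
      refine h4.mp ?_
      rw [Fin.prod_univ_succ]
      have h5 : ((fun q : Fin (n+1) → κ => ∏ i, f i (q i)) ∘
          (Fin.consEquiv (fun _ : Fin (n+1) => κ))) =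
          fun x : κ × (Fin n → κ) => f 0 x.1 * ∏ i, f (Fin.succ i) (x.2 i) := by
        funext x
        simp [Fin.consEquiv, Fin.prod_univ_succ]
      rw [h5]
      exact h3

/-- Sum over a finite product of copies of a countable type of a product function. -/
theorem hasSum_pi_prod {κ ι : Type} [Fintype ι] (f : ι → κ → ℝ)
    (h0 : ∀ i n, 0 ≤ f i n) (hs : ∀ i, Summable (f i)) :
      HasSum (fun q : ι → κ => ∏ i, f i (q i)) (∏ i, ∑' n, f i n) := by
  classical
  let e : ι ≃ Fin (Fintype.card ι) := Fintype.equivFin ι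
  have h1 := hasSum_pi_prod_fin (Fintype.card ι) (fun a => f (e.symm a)) (fun i n => h0 _ _)
    (fun i => hs _)
  have e2 : (∏ i, ∑' n, f i n) = ∏ i : Fin (Fintype.card ι), ∑' n, f (e.symm i) n :=
    (Equiv.prod_comp e.symm (fun i => ∑' n, f i n)).symm
  rw [e2, ← (Equiv.arrowCongr e.symm (Equiv.refl κ)).hasSum_iff]
  convert h1 using 1
  funext q
  simp only [Function.comp]
  rw [← Equiv.prod_comp e.symm]
  refine Finset.prod_congr rfl ?_
  intro i _
  simp [Equiv.arrowCongr]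

theorem summable_pi_prod {κ ι : Type} [Fintype ι] (f : ι → κ → ℝ)
    (h0 : ∀ i n, 0 ≤ f i n) (hs : ∀ i, Summable (f i)) :
      Summable (fun q : ι → κ => ∏ i, f i (q i)) := (hasSum_pi_prod f h0 hs).summable

theorem tsum_pi_prod {κ ι : Type} [Fintype ι] (f : ι → κ → ℝ)
    (h0 : ∀ i n, 0 ≤ f i n) (hs : ∀ i, Summable (f i)) :
      ∑' q : ι → κ, ∏ i, f i (q i) = ∏ i, ∑' n, f i n := (hasSum_pi_prod f h0 hs).tsum_eq

/-- one-dimensional Gaussian sums -/
theorem summable_gauss {c : ℝ} (hc : 0 < c) : Summable (fun n : ℤ => Real.exp (-(c * (n:ℝ)^2))) := by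
  have h1 : Summable (fun n : ℤ => Real.exp (-(c * |(n:ℝ)|))) := by
    have h2 : Summable (fun n : ℕ => Real.exp (-(c * (n:ℝ)))) := by
      have := Real.summable_exp_nat_mul_iff (a := -c)
      have h := this.mpr (by linarith)
      refine h.congr (fun n => ?_)
      ring_nf
    refine Summable.of_nat_of_neg ?_ ?_
    · refine h2.congr (fun n => ?_)
      simp
    · refine h2.congr (fun n => ?_)
      simp
  refine Summable.of_nonneg_of_le (fun n => (Real.exp_pos _).le) (fun n => ?_) h1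
  apply Real.exp_le_exp.mpr
  have h3 : |(n:ℝ)| ≤ (n:ℝ)^2 := by
    rcases eq_or_ne n 0 with h | h
    · simp [h]
    · have h4 : (1:ℝ) ≤ |(n:ℝ)| := by
        have : (1:ℤ) ≤ |n| := Int.one_le_abs h
        exact_mod_cast this
      rw [← sq_abs]; nlinarith
  nlinarith

/-- shifted Gaussian sums are bounded uniformly in the shift. -/
theorem gauss_shift_bound {c : ℝ} (hc : 0 < c) : ∃ C : ℝ, 0 < C ∧ ∀ x : ℝ,
    Summable (fun n : ℤ => Real.exp (-(c * (x + (n:ℝ))^2))) ∧
    ∑' n : ℤ, Real.exp (-(c * (x + (n:ℝ))^2)) ≤ C := by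
  have hc4 : 0 < c / 4 := by positivity
  have h0 := summable_gauss hc4
  have key : ∀ x : ℝ, |x| ≤ 1/2 → ∀ n : ℤ,
      Real.exp (-(c * (x + (n:ℝ))^2)) ≤ Real.exp (-(c/4 * (n:ℝ)^2)) := by
    intro x hx n
    apply Real.exp_le_exp.mpr
    rcases eq_or_ne n 0 with h | h
    · subst h; simp; positivity
    · have h4 : (1:ℝ) ≤ |(n:ℝ)| := by
        have : (1:ℤ) ≤ |n| := Int.one_le_abs h
        exact_mod_cast this
      have h5 : |(n:ℝ)| / 2 ≤ |x + n| := by
        have := abs_sub_abs_le_abs_sub (n:ℝ) (-x)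
        rw [abs_neg, sub_neg_eq_add, add_comm (n:ℝ) x] at this
        linarith
      have h6 : (|(n:ℝ)| / 2)^2 ≤ |x + n|^2 := by
        apply pow_le_pow_left₀ (by positivity) h5
      rw [div_pow, sq_abs, sq_abs] at h6
      nlinarith
  have red : ∀ x : ℝ, |x| ≤ 1/2 →
    Summable (fun n : ℤ => Real.exp (-(c * (x + (n:ℝ))^2))) ∧
    ∑' n : ℤ, Real.exp (-(c * (x + (n:ℝ))^2)) ≤ ∑' n : ℤ, Real.exp (-(c/4 * (n:ℝ)^2)) := by
    intro x hx
    have hs : Summable (fun n : ℤ => Real.exp (-(c * (x + (n:ℝ))^2))) :=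
      Summable.of_nonneg_of_le (fun n => (Real.exp_pos _).le) (key x hx) h0
    exact ⟨hs, hs.tsum_le_tsum (key x hx) h0⟩
  refine ⟨∑' n : ℤ, Real.exp (-(c/4 * (n:ℝ)^2)), ?_, ?_⟩
  · exact h0.tsum_pos (fun n => (Real.exp_pos _).le) 0 (Real.exp_pos _)
  · intro x
    have hx : |x - round x| ≤ 1/2 := abs_sub_round x
    obtain ⟨h1, h2⟩ := red _ hx
    have e1 : ∀ n : ℤ, Real.exp (-(c * (x + (n:ℝ))^2))
        = (fun n : ℤ => Real.exp (-(c * ((x - round x) + (n:ℝ))^2))) (n + round x) := by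
      intro n
      simp only
      congr 3
      push_cast
      ring
    have e2 : (fun n : ℤ => Real.exp (-(c * (x + (n:ℝ))^2)))
        = (fun n : ℤ => Real.exp (-(c * ((x - round x) + (n:ℝ))^2))) ∘ (Equiv.addRight (round x)) := by
      funext n
      rw [e1]; rfl
    rw [e2]
    constructor
    · exact (Equiv.summable_iff _).mpr h1
    · have := Equiv.tsum_eq (Equiv.addRight (round x))
        (fun n : ℤ => Real.exp (-(c * ((x - round x) + (n:ℝ))^2)))
      refine le_trans (le_of_eq ?_) h2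
      exact this

end Pool.Agent.Helper95_SOS
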