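import Mathlib
import Pool.Agent.Helper95_SOS.PiSum

/-!
The additive form of the Regev and Stephens-Davidowitz inequality for theta sums over lattices.
-/

set_option autoImplicit false

open scoped BigOperators

namespace Pool.Agent.Helper95_SOS

section rsd

variable {ι : Type} [Fintype ι] [DecidableEq ι]

/-- parity vector -/
def par (q : ι → ℤ) : ι → ZMod 2 := fun i => (q i : ZMod 2)

theorem par_eq_iff (c d : ι → ℤ) : par c = par d ↔ ∃ b : ι → ℤ, ∀ i, c i = d i + 2 * b i := by
  constructor
  · intro h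
    have h1 : ∀ i, (2:ℤ) ∣ c i - d i := by
      intro i
      have h2 := congrFun h i
      simp only [par] at h2
      have h3 := (ZMod.intCast_eq_intCast_iff_dvd_sub (c i) (d i) 2).mp h2
      have h4 : ((2:ℕ):ℤ) ∣ c i - d i := by
        have := (dvd_neg (a := ((2:ℕ):ℤ))).mpr h3
        simpa using this
      exact_mod_cast h4
    choose b hb using h1
    refine ⟨b, ?_⟩
    intro i
    have := hb i
    linarith
  · rintro ⟨b, hb⟩
    funext i
    simp only [par]
    rw [hb i]
    push_cast
    have h2 : (2 : ZMod 2) = 0 := by decide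
    rw [h2]; ring

/-- the bilinear parity sum -/
theorem parity_sum (u v : (ι → ℤ) → ℝ) (hu : Summable u) (hv : Summable v)
    (hu0 : ∀ q, 0 ≤ u q) (hv0 : ∀ q, 0 ≤ v q) :
    ∑' ab : (ι → ℤ) × (ι → ℤ), u (ab.1 + ab.2) * v (ab.1 - ab.2)
      = ∑ p : ι → ZMod 2, (∑' c, if par c = p then u c else 0) *
          (∑' d, if par d = p then v d else 0) := by
  have hs : ∀ (w : (ι → ℤ) → ℝ), Summable w → (∀ q, 0 ≤ w q) → ∀ p : ι → ZMod 2,
      Summable (fun c => if par c = p then w c else 0) := by
    intro w hw hw0 p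
    refine Summable.of_nonneg_of_le (fun c => ?_) (fun c => ?_) hw
    · split_ifs
      · exact hw0 _
      · exact le_rfl
    · split_ifs
      · exact le_rfl
      · exact hw0 _
  have hn : ∀ (w : (ι → ℤ) → ℝ), (∀ q, 0 ≤ w q) → ∀ p : ι → ZMod 2, ∀ c,
      0 ≤ (if par c = p then w c else 0) := by
    intro w hw0 p c
    split_ifs
    · exact hw0 _
    · exact le_rfl
  have h1 : ∀ p : ι → ZMod 2, HasSum (fun cd : (ι → ℤ) × (ι → ℤ) =>
      (if par cd.1 = p then u cd.1 else 0) * (if par cd.2 = p then v cd.2 else 0))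
      ((∑' c, if par c = p then u c else 0) * (∑' d, if par d = p then v d else 0)) := by
    intro p
    exact HasSum.mul (f := fun c => if par c = p then u c else 0)
      (g := fun c => if par c = p then v c else 0) (hs u hu hu0 p).hasSum (hs v hv hv0 p).hasSum
      (Summable.mul_of_nonneg (f := fun c => if par c = p then u c else 0)
      (g := fun c => if par c = p then v c else 0)
        (hs u hu hu0 p) (hs v hv hv0 p) (hn u hu0 p) (hn v hv0 p))
  have h2 := hasSum_sum (s := Finset.univ) (fun p _ => h1 p)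
  have h3 : (fun cd : (ι → ℤ) × (ι → ℤ) => ∑ p : ι → ZMod 2,
      (if par cd.1 = p then u cd.1 else 0) * (if par cd.2 = p then v cd.2 else 0))
      = fun cd => if par cd.1 = par cd.2 then u cd.1 * v cd.2 else 0 := by
    funext cd
    rw [Finset.sum_eq_single (par cd.1)]
    · simp only [if_true]
      by_cases h : par cd.1 = par cd.2
      · rw [if_pos h, if_pos h.symm]
      · rw [if_neg h, if_neg (fun h' => h h'.symm), mul_zero]
    · intro p _ hp
      rw [if_neg (fun h => hp h.symm), zero_mul]
    · intro h; exact absurd (Finset.mem_univ _) h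
  rw [h3] at h2
  rw [← h2.tsum_eq]
  let g : (ι → ℤ) × (ι → ℤ) → (ι → ℤ) × (ι → ℤ) := fun ab => (ab.1 + ab.2, ab.1 - ab.2)
  have hg : Function.Injective g := by
    intro ab ab' h
    simp only [g, Prod.mk.injEq] at h
    obtain ⟨h1, h2⟩ := h
    have e1 : ∀ i, ab.1 i = ab'.1 i := by
      intro i
      have a1 := congrFun h1 i
      have a2 := congrFun h2 i
      simp only [Pi.add_apply, Pi.sub_apply] at a1 a2
      omega
    have e2 : ∀ i, ab.2 i = ab'.2 i := by
      intro i
      have a1 := congrFun h1 i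
      have a2 := congrFun h2 i
      simp only [Pi.add_apply, Pi.sub_apply] at a1 a2
      omega
    exact Prod.ext (funext e1) (funext e2)
  have hsupp : Function.support (fun cd : (ι → ℤ) × (ι → ℤ) =>
      if par cd.1 = par cd.2 then u cd.1 * v cd.2 else 0) ⊆ Set.range g := by
    intro cd hcd
    rw [Function.mem_support] at hcd
    by_cases h : par cd.1 = par cd.2
    · obtain ⟨b, hb⟩ := (par_eq_iff _ _).mp h
      refine ⟨(cd.1 - b, b), ?_⟩
      simp only [g]
      refine Prod.ext ?_ ?_
      · simp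
      · simp only
        funext i
        simp only [Pi.sub_apply]
        rw [hb i]
        ring
    · exact absurd (if_neg h) hcd
  have h4 := hg.tsum_eq (f := fun cd : (ι → ℤ) × (ι → ℤ) =>
      if par cd.1 = par cd.2 then u cd.1 * v cd.2 else 0) hsupp
  rw [← h4]
  refine tsum_congr (fun ab => ?_)
  simp only [g]
  rw [if_pos]
  rw [par_eq_iff]
  refine ⟨ab.2, ?_⟩
  intro i
  simp only [Pi.add_apply, Pi.sub_apply]
  ring

variable {E : Type} [AddCommGroup E]

/-- the theta sum over the integer points satisfying `P`. -/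
noncomputable def thg (P : (ι → ℤ) → Prop) (Q : E → ℝ) (e : (ι → ℤ) →+ E) (x : E) : ℝ :=
  open Classical in ∑' q : ι → ℤ, if P q then Real.exp (-(Q (x + e q))) else 0

theorem rsd_general (P : (ι → ℤ) → Prop) (hP : ∀ a b, (P a ∧ P b) ↔ (P (a + b) ∧ P (a - b)))
    (Q : E → ℝ) (hQ : ∀ u v, Q (u + v) + Q (u - v) = 2 * Q u + 2 * Q v)
    (hQ0 : ∀ u, 0 ≤ Q u)
    (e : (ι → ℤ) →+ E)
    (hs : ∀ x : E, open Classical in
      Summable (fun q : ι → ℤ => if P q then Real.exp (-(Q (x + e q) / 2)) else 0))
    (x y : E) :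
    2 * thg P Q e x * thg P Q e y ≤ thg P Q e 0 * (thg P Q e (x + y) + thg P Q e (x - y)) := by
  classical
  -- the half weights
  let u : E → (ι → ℤ) → ℝ := fun x q => if P q then Real.exp (-(Q (x + e q) / 2)) else 0
  have hu : ∀ x, Summable (u x) := fun x => by
    have := hs x
    convert this using 2
  have hu0 : ∀ x q, 0 ≤ u x q := by
    intro x q
    simp only [u]
    split_ifs
    · exact (Real.exp_pos _).le
    · exact le_rfl
  let w : E → (ι → ℤ) → ℝ := fun x q => if P q then Real.exp (-(Q (x + e q))) else 0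
  have hw0 : ∀ x q, 0 ≤ w x q := by
    intro x q
    simp only [w]
    split_ifs
    · exact (Real.exp_pos _).le
    · exact le_rfl
  have hwu : ∀ x q, w x q ≤ u x q := by
    intro x q
    simp only [w, u]
    split_ifs
    · apply Real.exp_le_exp.mpr
      have := hQ0 (x + e q)
      linarith
    · exact le_rfl
  have hw : ∀ x, Summable (w x) := fun x =>
    Summable.of_nonneg_of_le (hw0 x) (hwu x) (hu x)
  have hth : ∀ x, thg P Q e x = ∑' q, w x q := by
    intro x
    simp only [thg, w]
  let U : E → (ι → ZMod 2) → ℝ := fun x p => ∑' c, if par c = p then u x c else 0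
  have key : ∀ x y : E, thg P Q e x * thg P Q e y = ∑ p : ι → ZMod 2, U (x + y) p * U (x - y) p := by
    intro x y
    rw [hth, hth]
    rw [(hw x).tsum_mul_tsum (hw y) (Summable.mul_of_nonneg (hw x) (hw y) (hw0 x) (hw0 y))]
    rw [← parity_sum (u (x+y)) (u (x-y)) (hu _) (hu _) (hu0 _) (hu0 _)]
    refine tsum_congr (fun ab => ?_)
    simp only [w, u]
    by_cases h : P ab.1 ∧ P ab.2
    · have h' := (hP _ _).mp h
      rw [if_pos h.1, if_pos h.2, if_pos h'.1, if_pos h'.2, ← Real.exp_add, ← Real.exp_add]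
      congr 1
      have e1 : x + y + e (ab.1 + ab.2) = (x + e ab.1) + (y + e ab.2) := by
        rw [map_add]; abel
      have e2 : x - y + e (ab.1 - ab.2) = (x + e ab.1) - (y + e ab.2) := by
        rw [map_sub]; abel
      rw [e1, e2]
      have := hQ (x + e ab.1) (y + e ab.2)
      linarith
    · have h' : ¬ (P (ab.1 + ab.2) ∧ P (ab.1 - ab.2)) := fun h2 => h ((hP _ _).mpr h2)
      have e1 : (if P ab.1 then Real.exp (-Q (x + e ab.1)) else 0) *
          (if P ab.2 then Real.exp (-Q (y + e ab.2)) else 0) = 0 := by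
        by_cases h1 : P ab.1
        · by_cases h2 : P ab.2
          · exact absurd ⟨h1, h2⟩ h
          · rw [if_neg h2, mul_zero]
        · rw [if_neg h1, zero_mul]
      have e2 : (if P (ab.1 + ab.2) then Real.exp (-(Q (x + y + e (ab.1 + ab.2)) / 2)) else 0) *
          (if P (ab.1 - ab.2) then Real.exp (-(Q (x - y + e (ab.1 - ab.2)) / 2)) else 0) = 0 := by
        by_cases h1 : P (ab.1 + ab.2)
        · by_cases h2 : P (ab.1 - ab.2)
          · exact absurd ⟨h1, h2⟩ h'
          · rw [if_neg h2, mul_zero]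
        · rw [if_neg h1, zero_mul]
      rw [e1, e2]
  have k1 := key x y
  have k2 : ∀ z, thg P Q e 0 * thg P Q e z = ∑ p : ι → ZMod 2, U z p ^ 2 := by
    intro z
    have := key z 0
    rw [add_zero, sub_zero] at this
    rw [mul_comm, this]
    exact Finset.sum_congr rfl (fun p _ => (sq _).symm)
  have k3 := k2 (x + y)
  have k4 := k2 (x - y)
  have k5 : 0 ≤ ∑ p : ι → ZMod 2, (U (x + y) p - U (x - y) p) ^ 2 :=
    Finset.sum_nonneg (fun p _ => sq_nonneg _)
  have k6 : ∑ p : ι → ZMod 2, (U (x + y) p - U (x - y) p) ^ 2 =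
      (∑ p : ι → ZMod 2, U (x + y) p ^ 2) + (∑ p : ι → ZMod 2, U (x - y) p ^ 2)
        - 2 * ∑ p : ι → ZMod 2, U (x + y) p * U (x - y) p := by
    rw [Finset.mul_sum, ← Finset.sum_add_distrib, ← Finset.sum_sub_distrib]
    refine Finset.sum_congr rfl (fun p _ => ?_)
    ring
  rw [k6, ← k3, ← k4, ← k1] at k5
  linarith

end rsd

end Pool.Agent.Helper95_SOS
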