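import Mathlib
import Pool.Agent.Helper95_SOS.Rsd

/-!
Theta sums with positive definite quadratic functions: bounds, monotonicity in the form.
-/

set_option autoImplicit false
set_option linter.unusedSectionVars false

open scoped BigOperators

namespace Pool.Agent.Helper95_SOS

variable {ι : Type} [Fintype ι] [DecidableEq ι]

/-- integer vectors as real vectors -/
def cst {ι : Type} : (ι → ℤ) →+ (ι → ℝ) where
  toFun q := fun i => (q i : ℝ)
  map_zero' := by funext i; simp
  map_add' a b := by funext i; simp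

theorem cst_apply {ι : Type} (q : ι → ℤ) (i : ι) : cst q i = (q i : ℝ) := rfl

/-- parallelogram law -/
def Par {E : Type} [AddCommGroup E] (Q : E → ℝ) : Prop :=
  ∀ u v, Q (u + v) + Q (u - v) = 2 * Q u + 2 * Q v

/-- positive definiteness (bounded below by a multiple of the Euclidean form) -/
def PD (Q : (ι → ℝ) → ℝ) : Prop := ∃ η : ℝ, 0 < η ∧ ∀ z, η * ∑ i, z i ^ 2 ≤ Q z

theorem PD.nonneg {Q : (ι → ℝ) → ℝ} (h : PD Q) (z : ι → ℝ) : 0 ≤ Q z := by
  obtain ⟨η, h0, h1⟩ := h
  exact le_trans (mul_nonneg h0.le (Finset.sum_nonneg (fun i _ => sq_nonneg _))) (h1 z)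

/-- lattice points in the subspace `U` -/
def inU (U : Submodule ℝ (ι → ℝ)) (q : ι → ℤ) : Prop := cst q ∈ U

theorem inU_iff (U : Submodule ℝ (ι → ℝ)) (a b : ι → ℤ) :
    (inU U a ∧ inU U b) ↔ (inU U (a + b) ∧ inU U (a - b)) := by
  unfold inU
  constructor
  · rintro ⟨h1, h2⟩
    rw [map_add, map_sub]
    exact ⟨U.add_mem h1 h2, U.sub_mem h1 h2⟩
  · rintro ⟨h1, h2⟩
    rw [map_add] at h1
    rw [map_sub] at h2
    constructor
    · have h := U.smul_mem (1/2 : ℝ) (U.add_mem h1 h2)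
      have e : (1/2 : ℝ) • ((cst a + cst b) + (cst a - cst b)) = cst a := by
        funext i
        simp only [Pi.smul_apply, Pi.add_apply, Pi.sub_apply, smul_eq_mul]
        ring
      rwa [e] at h
    · have h := U.smul_mem (1/2 : ℝ) (U.sub_mem h1 h2)
      have e : (1/2 : ℝ) • ((cst a + cst b) - (cst a - cst b)) = cst b := by
        funext i
        simp only [Pi.smul_apply, Pi.add_apply, Pi.sub_apply, smul_eq_mul]
        ring
      rwa [e] at h

/-- the theta sum -/
noncomputable def th (U : Submodule ℝ (ι → ℝ)) (Q : (ι → ℝ) → ℝ) (x : ι → ℝ) : ℝ :=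
  thg (inU U) Q cst x

open Classical in
theorem th_eq (U : Submodule ℝ (ι → ℝ)) (Q : (ι → ℝ) → ℝ) (x : ι → ℝ) :
    th U Q x = ∑' q : ι → ℤ, if inU U q then Real.exp (-(Q (x + cst q))) else 0 := rfl

/-- the ratio -/
noncomputable def chi (U : Submodule ℝ (ι → ℝ)) (Q : (ι → ℝ) → ℝ) (x : ι → ℝ) : ℝ :=
  th U Q x / th U Q 0

theorem gauss_prod (c : ℝ) (x : ι → ℝ) (q : ι → ℤ) :
    ∏ i, Real.exp (-(c * (x i + (q i : ℝ))^2)) = Real.exp (-(c * ∑ i, (x + cst q) i ^ 2)) := by
  rw [← Real.exp_sum]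
  congr 1
  rw [Finset.mul_sum, ← Finset.sum_neg_distrib]
  rfl

/-- Gaussian domination -/
theorem exp_dom {c : ℝ} (hc : 0 < c) : ∃ C : ℝ, 0 < C ∧ ∀ x : ι → ℝ,
    Summable (fun q : ι → ℤ => Real.exp (-(c * ∑ i, (x + cst q) i ^ 2))) ∧
    ∑' q : ι → ℤ, Real.exp (-(c * ∑ i, (x + cst q) i ^ 2)) ≤ C := by
  obtain ⟨C, hC, h⟩ := gauss_shift_bound hc
  refine ⟨C ^ (Fintype.card ι), by positivity, fun x => ?_⟩
  have h1 := hasSum_pi_prod (ι := ι) (fun i (n : ℤ) => Real.exp (-(c * (x i + (n : ℝ))^2)))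
    (fun i n => (Real.exp_pos _).le) (fun i => (h (x i)).1)
  have e : (fun q : ι → ℤ => ∏ i, Real.exp (-(c * (x i + (q i : ℝ))^2)))
      = fun q : ι → ℤ => Real.exp (-(c * ∑ i, (x + cst q) i ^ 2)) := by
    funext q; exact gauss_prod c x q
  rw [e] at h1
  refine ⟨h1.summable, ?_⟩
  rw [h1.tsum_eq]
  calc ∏ i : ι, ∑' n : ℤ, Real.exp (-(c * (x i + (n : ℝ))^2))
      ≤ ∏ i : ι, C := by
        apply Finset.prod_le_prod
        · intro i _
          exact tsum_nonneg (fun n => (Real.exp_pos _).le)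
        · intro i _; exact (h (x i)).2
    _ = C ^ (Fintype.card ι) := by simp [Finset.card_univ]

open Classical in
theorem th_bound {Q : (ι → ℝ) → ℝ} (hQ : PD Q) (t : ℝ) (ht : 0 < t) : ∃ C : ℝ, 0 < C ∧
    ∀ (U : Submodule ℝ (ι → ℝ)) (x : ι → ℝ),
    Summable (fun q : ι → ℤ => if inU U q then Real.exp (-(t * Q (x + cst q))) else 0) ∧
    ∑' q : ι → ℤ, (if inU U q then Real.exp (-(t * Q (x + cst q))) else 0) ≤ C := by
  obtain ⟨η, h0, h1⟩ := hQ
  obtain ⟨C, hC, h⟩ := exp_dom (ι := ι) (c := t * η) (by positivity)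
  refine ⟨C, hC, fun U x => ?_⟩
  have hle : ∀ q : ι → ℤ, (if inU U q then Real.exp (-(t * Q (x + cst q))) else 0) ≤
      Real.exp (-(t * η * ∑ i, (x + cst q) i ^ 2)) := by
    intro q
    split_ifs
    · apply Real.exp_le_exp.mpr
      have := h1 (x + cst q)
      nlinarith
    · exact (Real.exp_pos _).le
  have hnn : ∀ q : ι → ℤ, 0 ≤ (if inU U q then Real.exp (-(t * Q (x + cst q))) else 0) := by
    intro q
    split_ifs
    · exact (Real.exp_pos _).le
    · exact le_rfl
  have hs := Summable.of_nonneg_of_le hnn hle (h x).1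
  exact ⟨hs, le_trans (hs.tsum_le_tsum hle (h x).1) (h x).2⟩

open Classical in
theorem th_summable {Q : (ι → ℝ) → ℝ} (hQ : PD Q) (U : Submodule ℝ (ι → ℝ)) (x : ι → ℝ) :
    Summable (fun q : ι → ℤ => if inU U q then Real.exp (-(Q (x + cst q))) else 0) := by
  obtain ⟨C, _, h⟩ := th_bound hQ 1 one_pos
  have := (h U x).1
  simpa using this

open Classical in
theorem th_summable_half {Q : (ι → ℝ) → ℝ} (hQ : PD Q) (U : Submodule ℝ (ι → ℝ)) (x : ι → ℝ) :
    Summable (fun q : ι → ℤ => if inU U q then Real.exp (-(Q (x + cst q) / 2)) else 0) := by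
  obtain ⟨C, _, h⟩ := th_bound hQ (1/2) (by norm_num)
  have := (h U x).1
  refine this.congr (fun q => ?_)
  congr 2
  ring

theorem th_pos {Q : (ι → ℝ) → ℝ} (hQ : PD Q) (U : Submodule ℝ (ι → ℝ)) (x : ι → ℝ) :
    0 < th U Q x := by
  classical
  rw [th_eq]
  refine (th_summable hQ U x).tsum_pos (fun q => ?_) 0 ?_
  · split_ifs
    · exact (Real.exp_pos _).le
    · exact le_rfl
  · rw [if_pos]
    · exact Real.exp_pos _
    · unfold inU; rw [map_zero]; exact U.zero_mem

theorem th_rsd {Q : (ι → ℝ) → ℝ} (hQ : PD Q) (hp : Par Q) (U : Submodule ℝ (ι → ℝ)) (x y : ι → ℝ) :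
    2 * th U Q x * th U Q y ≤ th U Q 0 * (th U Q (x + y) + th U Q (x - y)) :=
  rsd_general (inU U) (inU_iff U) Q hp hQ.nonneg cst (th_summable_half hQ U) x y

theorem th_le_zero {Q : (ι → ℝ) → ℝ} (hQ : PD Q) (hp : Par Q) (U : Submodule ℝ (ι → ℝ)) (x : ι → ℝ) :
    th U Q x ≤ th U Q 0 := by
  obtain ⟨C, hC, h⟩ := th_bound hQ 1 one_pos
  have hb : ∀ x, th U Q x ≤ C := by
    intro x
    have := (h U x).2
    simp only [one_mul] at this
    exact this
  have hbdd : BddAbove (Set.range (fun x => th U Q x)) := ⟨C, by rintro _ ⟨x, rfl⟩; exact hb x⟩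
  set B := ⨆ x, th U Q x with hB
  have hle : ∀ x, th U Q x ≤ B := fun x => le_ciSup hbdd x
  have h0 : 0 < th U Q 0 := th_pos hQ U 0
  have hB0 : 0 < B := lt_of_lt_of_le h0 (hle 0)
  have h1 : ∀ x, 2 * th U Q x ^ 2 ≤ th U Q 0 * (B + th U Q 0) := by
    intro x
    have h2 := th_rsd hQ hp U x x
    rw [sub_self] at h2
    have h3 := hle (x + x)
    nlinarith
  -- B^2 * 2 <= ...
  have h2 : 2 * B ^ 2 ≤ th U Q 0 * (B + th U Q 0) := by
    by_contra hcon
    push Not at hcon
    have h4 : Real.sqrt (th U Q 0 * (B + th U Q 0) / 2) < B := by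
      rw [Real.sqrt_lt' hB0]
      linarith
    obtain ⟨x, hx⟩ := exists_lt_of_lt_ciSup h4
    have h5 := h1 x
    have h6 : th U Q 0 * (B + th U Q 0) / 2 < th U Q x ^ 2 := by
      have h7 : 0 ≤ th U Q 0 * (B + th U Q 0) / 2 := by positivity
      have h8 := Real.sqrt_nonneg (th U Q 0 * (B + th U Q 0) / 2)
      calc th U Q 0 * (B + th U Q 0) / 2 = Real.sqrt (th U Q 0 * (B + th U Q 0) / 2) ^ 2 :=
            (Real.sq_sqrt h7).symm
        _ < th U Q x ^ 2 := by
            apply pow_lt_pow_left₀ hx h8 (by norm_num)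
    linarith
  have h3 : B ≤ th U Q 0 := by
    by_contra hcon
    push Not at hcon
    nlinarith
  exact le_trans (hle x) h3

theorem chi_le_one {Q : (ι → ℝ) → ℝ} (hQ : PD Q) (hp : Par Q) (U : Submodule ℝ (ι → ℝ)) (x : ι → ℝ) :
    chi U Q x ≤ 1 := by
  unfold chi
  rw [div_le_one (th_pos hQ U 0)]
  exact th_le_zero hQ hp U x

theorem chi_nonneg {Q : (ι → ℝ) → ℝ} (hQ : PD Q) (U : Submodule ℝ (ι → ℝ)) (x : ι → ℝ) :
    0 ≤ chi U Q x := div_nonneg (th_pos hQ U x).le (th_pos hQ U 0).le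


/-! ### monotonicity in the form -/

section mono

/-- the extended form with one additional real coordinate -/
def extForm (Q : (ι → ℝ) → ℝ) (r : ℝ) (ℓ : (ι → ℝ) →ₗ[ℝ] ℝ) : (ι → ℝ) × ℝ → ℝ :=
  fun z => Q z.1 + r * (ℓ z.1 + z.2) ^ 2

/-- embedding of the lattice in the extended space -/
def extCst : (ι → ℤ) →+ (ι → ℝ) × ℝ where
  toFun q := (cst q, 0)
  map_zero' := by simp
  map_add' a b := by simp

theorem extForm_par {Q : (ι → ℝ) → ℝ} (hp : Par Q) (r : ℝ) (ℓ : (ι → ℝ) →ₗ[ℝ] ℝ) :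
    Par (extForm Q r ℓ) := by
  intro u v
  simp only [extForm, Prod.fst_add, Prod.fst_sub, Prod.snd_add, Prod.snd_sub, map_add, map_sub]
  have := hp u.1 v.1
  nlinarith

theorem gauss_int_shift {r : ℝ} (c : ℝ) :
    ∫ w : ℝ, Real.exp (-(r * (c + w) ^ 2)) = Real.sqrt (Real.pi / r) := by
  have h1 : ∫ w : ℝ, Real.exp (-(r * (c + w) ^ 2)) = ∫ w : ℝ, Real.exp (-r * w ^ 2) := by
    have := MeasureTheory.integral_add_left_eq_self (μ := MeasureTheory.volume)
      (fun w : ℝ => Real.exp (-r * w ^ 2)) c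
    rw [← this]
    congr 1
    funext w
    congr 1
    ring
  rw [h1]
  exact integral_gaussian r

theorem gauss_integrable_shift {r : ℝ} (hr : 0 < r) (c : ℝ) :
    MeasureTheory.Integrable (fun w : ℝ => Real.exp (-(r * (c + w) ^ 2))) := by
  have h := (integrable_exp_neg_mul_sq hr).comp_add_left c
  refine h.congr (Filter.Eventually.of_forall (fun w => ?_))
  simp only
  congr 1
  ring

open Classical in
theorem ext_integral {Q : (ι → ℝ) → ℝ} (hQ : PD Q) {r : ℝ} (hr : 0 < r)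
    (ℓ : (ι → ℝ) →ₗ[ℝ] ℝ) (U : Submodule ℝ (ι → ℝ)) (f : ι → ℝ) :
    ∫ w : ℝ, thg (inU U) (extForm Q r ℓ) extCst (f, w) = Real.sqrt (Real.pi / r) * th U Q f := by
  have hterm : ∀ (q : ι → ℤ) (w : ℝ),
      (if inU U q then Real.exp (-(extForm Q r ℓ ((f, w) + extCst q))) else 0)
      = (if inU U q then Real.exp (-(Q (f + cst q))) else 0) *
        Real.exp (-(r * (ℓ (f + cst q) + w) ^ 2)) := by
    intro q w
    split_ifs
    · rw [← Real.exp_add]
      congr 1
      simp only [extForm, extCst, AddMonoidHom.coe_mk, ZeroHom.coe_mk, Prod.mk_add_mk, add_zero]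
      ring
    · rw [zero_mul]
  have hF : ∀ q : ι → ℤ, MeasureTheory.Integrable (fun w : ℝ =>
      (if inU U q then Real.exp (-(extForm Q r ℓ ((f, w) + extCst q))) else 0)) := by
    intro q
    simp_rw [hterm]
    exact (gauss_integrable_shift hr _).const_mul _
  have hint : ∀ q : ι → ℤ, ∫ w : ℝ,
      (if inU U q then Real.exp (-(extForm Q r ℓ ((f, w) + extCst q))) else 0)
      = (if inU U q then Real.exp (-(Q (f + cst q))) else 0) * Real.sqrt (Real.pi / r) := by
    intro q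
    simp_rw [hterm]
    rw [MeasureTheory.integral_const_mul, gauss_int_shift]
  have hsum : Summable (fun q : ι → ℤ => ∫ w : ℝ,
      ‖(if inU U q then Real.exp (-(extForm Q r ℓ ((f, w) + extCst q))) else 0)‖) := by
    have e : (fun q : ι → ℤ => ∫ w : ℝ,
      ‖(if inU U q then Real.exp (-(extForm Q r ℓ ((f, w) + extCst q))) else 0)‖)
      = fun q : ι → ℤ => (if inU U q then Real.exp (-(Q (f + cst q))) else 0) *
          Real.sqrt (Real.pi / r) := by
      funext q
      rw [← hint q]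
      congr 1
      funext w
      rw [Real.norm_of_nonneg]
      split_ifs
      · exact (Real.exp_pos _).le
      · exact le_rfl
    rw [e]
    exact (th_summable hQ U f).mul_right _
  have h := MeasureTheory.hasSum_integral_of_summable_integral_norm hF hsum
  have h2 := h.tsum_eq
  have h3 : (∫ w : ℝ, thg (inU U) (extForm Q r ℓ) extCst (f, w)) = ∫ w : ℝ, ∑' q : ι → ℤ,
      (if inU U q then Real.exp (-(extForm Q r ℓ ((f, w) + extCst q))) else 0) := rfl
  rw [h3, ← h2]
  simp_rw [hint]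
  rw [tsum_mul_right, mul_comm]
  rfl

/-- adding a rank one term to the form increases the ratio -/
theorem mono_rank_one {Q : (ι → ℝ) → ℝ} (hQ : PD Q) (hp : Par Q) {r : ℝ} (hr : 0 ≤ r)
    (ℓ : (ι → ℝ) →ₗ[ℝ] ℝ) (U : Submodule ℝ (ι → ℝ)) (f : ι → ℝ) :
    chi U (fun z => Q z + r * (ℓ z) ^ 2) f ≤ chi U Q f := by
  classical
  rcases hr.eq_or_lt with hr | hr
  · subst hr
    simp
  have hPDr : PD (fun z => Q z + r * (ℓ z) ^ 2) := by
    obtain ⟨η, h0, h1⟩ := hQ
    refine ⟨η, h0, fun z => ?_⟩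
    have := h1 z
    have h2 : 0 ≤ r * (ℓ z) ^ 2 := by positivity
    linarith
  have hs : ∀ x : (ι → ℝ) × ℝ,
      Summable (fun q : ι → ℤ => if inU U q then
        Real.exp (-(extForm Q r ℓ (x + extCst q) / 2)) else 0) := by
    intro x
    refine Summable.of_nonneg_of_le (fun q => ?_) (fun q => ?_) (th_summable_half hQ U x.1)
    · split_ifs
      · exact (Real.exp_pos _).le
      · exact le_rfl
    · split_ifs
      · apply Real.exp_le_exp.mpr
        have e1 : (x + extCst q).1 = x.1 + cst q := rfl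
        have : Q (x.1 + cst q) ≤ extForm Q r ℓ (x + extCst q) := by
          unfold extForm
          rw [e1]
          have : 0 ≤ r * (ℓ (x.1 + cst q) + (x + extCst q).2) ^ 2 := by positivity
          linarith
        linarith
      · exact le_rfl
  have hE0 : ∀ u, 0 ≤ extForm Q r ℓ u := by
    intro u
    unfold extForm
    have := hQ.nonneg u.1
    positivity
  have hr2 : 0 < Real.sqrt (Real.pi / r) := Real.sqrt_pos.mpr (by positivity)
  have main : ∀ w : ℝ, 2 * thg (inU U) (extForm Q r ℓ) extCst (f, 0) *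
      thg (inU U) (extForm Q r ℓ) extCst (0, w) ≤
      thg (inU U) (extForm Q r ℓ) extCst 0 * (thg (inU U) (extForm Q r ℓ) extCst (f, w) +
        thg (inU U) (extForm Q r ℓ) extCst (f, -w)) := by
    intro w
    have h := rsd_general (inU U) (inU_iff U) (extForm Q r ℓ) (extForm_par hp r ℓ) hE0 extCst hs
      ((f, 0) : (ι → ℝ) × ℝ) ((0, w) : (ι → ℝ) × ℝ)
    have e1 : ((f, 0) : (ι → ℝ) × ℝ) + (0, w) = (f, w) := by simp
    have e2 : ((f, 0) : (ι → ℝ) × ℝ) - (0, w) = (f, -w) := by simp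
    rw [e1, e2] at h
    exact h
  have hintg : ∀ g : ι → ℝ, MeasureTheory.Integrable
      (fun w : ℝ => thg (inU U) (extForm Q r ℓ) extCst (g, w)) := by
    intro g
    by_contra hcon
    have h1 := MeasureTheory.integral_undef hcon
    rw [ext_integral hQ hr] at h1
    have h2 := th_pos hQ U g
    have : 0 < Real.sqrt (Real.pi / r) * th U Q g := by positivity
    linarith
  have hneg : MeasureTheory.Integrable
      (fun w : ℝ => thg (inU U) (extForm Q r ℓ) extCst (f, -w)) := (hintg f).comp_neg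
  have hnegi : ∫ w : ℝ, thg (inU U) (extForm Q r ℓ) extCst (f, -w) =
      ∫ w : ℝ, thg (inU U) (extForm Q r ℓ) extCst (f, w) :=
    MeasureTheory.integral_neg_eq_self
      (fun w : ℝ => thg (inU U) (extForm Q r ℓ) extCst (f, w)) MeasureTheory.volume
  have hmono := MeasureTheory.integral_mono
    (((hintg 0).const_mul (2 * thg (inU U) (extForm Q r ℓ) extCst (f, 0))))
    (((hintg f).add hneg).const_mul (thg (inU U) (extForm Q r ℓ) extCst 0)) main
  rw [MeasureTheory.integral_const_mul, MeasureTheory.integral_const_mul] at hmono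
  have hadd : ∫ w : ℝ, ((fun w : ℝ => thg (inU U) (extForm Q r ℓ) extCst (f, w)) +
      fun w : ℝ => thg (inU U) (extForm Q r ℓ) extCst (f, -w)) w =
      Real.sqrt (Real.pi / r) * th U Q f + Real.sqrt (Real.pi / r) * th U Q f := by
    have h := MeasureTheory.integral_add (hintg f) hneg
    rw [hnegi, ext_integral hQ hr] at h
    exact h
  rw [hadd, ext_integral hQ hr] at hmono
  have e1 : thg (inU U) (extForm Q r ℓ) extCst (f, 0) = th U (fun z => Q z + r * (ℓ z) ^ 2) f := by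
    unfold th thg
    refine tsum_congr (fun q => ?_)
    simp [extForm, extCst]
  have e2 : thg (inU U) (extForm Q r ℓ) extCst 0 = th U (fun z => Q z + r * (ℓ z) ^ 2) 0 := by
    unfold th thg
    refine tsum_congr (fun q => ?_)
    simp [extForm, extCst]
  rw [e1, e2] at hmono
  unfold chi
  rw [div_le_div_iff₀ (th_pos hPDr U 0) (th_pos hQ U 0)]
  have h5 : Real.sqrt (Real.pi / r) * (th U (fun z => Q z + r * (ℓ z) ^ 2) f * th U Q 0)
      ≤ Real.sqrt (Real.pi / r) * (th U Q f * th U (fun z => Q z + r * (ℓ z) ^ 2) 0) := by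
    nlinarith
  exact le_of_mul_le_mul_left h5 hr2

end mono

end Pool.Agent.Helper95_SOS
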