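import Mathlib
import Pool.Agent.Helper95_SOS.Theta

/-!
Monotonicity in the quadratic form, the relaxation lemma, and the final one-coordinate bound.
-/

set_option autoImplicit false
set_option linter.unusedSectionVars false

open scoped BigOperators

namespace Pool.Agent.Helper95_SOS

variable {ι : Type} [Fintype ι] [DecidableEq ι]

theorem qf_par {E : Type} [AddCommGroup E] [Module ℝ E] (Q : QuadraticForm ℝ E) :
    Par (fun z => Q z) := by
  intro u v
  have h1 := QuadraticMap.map_add Q u v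
  have h2 := QuadraticMap.map_add Q u (-v)
  have h3 : QuadraticMap.polar Q u (-v) = - QuadraticMap.polar Q u v :=
    QuadraticMap.polar_neg_right Q u v
  have h4 : Q (-v) = Q v := QuadraticMap.map_neg Q v
  simp only
  rw [sub_eq_add_neg, h1, h2, h3, h4]
  ring

theorem mono_many {κ : Type} (s : Finset κ) (w : κ → ℝ) (ℓ : κ → ((ι → ℝ) →ₗ[ℝ] ℝ))
    (hw : ∀ i, 0 ≤ w i) {Q : (ι → ℝ) → ℝ} (hQ : PD Q) (hp : Par Q)
    (U : Submodule ℝ (ι → ℝ)) (f : ι → ℝ) :
    PD (fun z => Q z + ∑ i ∈ s, w i * (ℓ i z)^2) ∧ Par (fun z => Q z + ∑ i ∈ s, w i * (ℓ i z)^2) ∧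
    chi U (fun z => Q z + ∑ i ∈ s, w i * (ℓ i z) ^ 2) f ≤ chi U Q f := by
  classical
  induction s using Finset.induction_on with
  | empty => 
      simp only [Finset.sum_empty, add_zero]
      exact ⟨hQ, hp, le_rfl⟩
  | insert a s ha ih =>
      obtain ⟨h1, h2, h3⟩ := ih
      have e : (fun z => Q z + ∑ i ∈ insert a s, w i * (ℓ i z)^2) =
          fun z => (Q z + ∑ i ∈ s, w i * (ℓ i z)^2) + w a * (ℓ a z)^2 := by
        funext z
        rw [Finset.sum_insert ha]
        ring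
      rw [e]
      refine ⟨?_, ?_, ?_⟩
      · obtain ⟨η, h0, h4⟩ := h1
        refine ⟨η, h0, fun z => ?_⟩
        have := h4 z
        have h5 : 0 ≤ w a * (ℓ a z) ^ 2 := mul_nonneg (hw a) (sq_nonneg _)
        linarith
      · intro u v
        have := h2 u v
        simp only [map_add, map_sub] at this ⊢
        nlinarith
      · exact le_trans (mono_rank_one h1 h2 (hw a) (ℓ a) U f) h3

/-- General monotonicity: a larger (dual) form on `U` has a smaller ratio. -/
theorem chi_mono (U : Submodule ℝ (ι → ℝ)) (Q Q' : QuadraticForm ℝ (ι → ℝ))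
    (hQ' : PD (fun z => Q' z)) (hle : ∀ z ∈ U, Q' z ≤ Q z) {f : ι → ℝ} (hf : f ∈ U) :
    chi U (fun z => Q z) f ≤ chi U (fun z => Q' z) f := by
  classical
  obtain ⟨g, hg⟩ := U.subtype.exists_leftInverse_of_injective U.ker_subtype
  let p : (ι → ℝ) →ₗ[ℝ] (ι → ℝ) := U.subtype ∘ₗ g
  have hp1 : ∀ z, p z ∈ U := fun z => (g z).2
  have hp2 : ∀ z ∈ U, p z = z := by
    intro z hz
    have h := LinearMap.congr_fun hg ⟨z, hz⟩
    simp only [LinearMap.comp_apply, LinearMap.id_apply, Submodule.subtype_apply] at h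
    simp only [p, LinearMap.comp_apply, Submodule.subtype_apply]
    rw [h]
  let R : QuadraticForm ℝ (ι → ℝ) := (Q - Q').comp p
  have hR : ∀ z, 0 ≤ R z := by
    intro z
    simp only [R, QuadraticMap.comp_apply, _root_.sub_apply]
    have := hle (p z) (hp1 z)
    linarith
  obtain ⟨w, ⟨eq⟩⟩ := QuadraticForm.equivalent_weightedSumSquares R
  have hRw : ∀ z, R z = ∑ i, w i * (eq z i) ^ 2 := by
    intro z
    rw [← eq.map_app z, QuadraticMap.weightedSumSquares_apply]
    refine Finset.sum_congr rfl (fun i _ => ?_)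
    simp only [smul_eq_mul]
    ring
  have hw : ∀ i, 0 ≤ w i := by
    intro i
    have h1 := hR (eq.toLinearEquiv.symm (Pi.single i 1))
    rw [hRw] at h1
    have h2 : eq (eq.toLinearEquiv.symm (Pi.single i 1)) = Pi.single i (1:ℝ) := by
      have := eq.toLinearEquiv.apply_symm_apply (Pi.single i (1:ℝ))
      exact this
    rw [h2, Finset.sum_eq_single i] at h1
    · simpa using h1
    · intro j _ hj
      rw [Pi.single_eq_of_ne hj]; simp
    · intro h; exact absurd (Finset.mem_univ _) h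
  let ℓ : Fin (Module.finrank ℝ (ι → ℝ)) → ((ι → ℝ) →ₗ[ℝ] ℝ) := fun i =>
    (LinearMap.proj i) ∘ₗ eq.toLinearEquiv.toLinearMap
  have h := (mono_many Finset.univ w ℓ hw hQ' (qf_par Q') U f).2.2
  have e : ∀ z ∈ U, Q z = Q' z + ∑ i, w i * (ℓ i z) ^ 2 := by
    intro z hz
    have h1 := hRw z
    have h2 : R z = Q z - Q' z := by
      simp only [R, QuadraticMap.comp_apply, _root_.sub_apply]
      rw [hp2 z hz]
    rw [h2] at h1
    have h3 : ∀ i, ℓ i z = eq z i := fun i => rfl
    simp_rw [h3]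
    linarith
  have eth : ∀ x ∈ U, th U (fun z => Q z) x = th U (fun z => Q' z + ∑ i, w i * (ℓ i z)^2) x := by
    intro x hx
    rw [th_eq, th_eq]
    refine tsum_congr (fun q => ?_)
    by_cases hq : inU U q
    · rw [if_pos hq, if_pos hq, e _ (U.add_mem hx hq)]
    · rw [if_neg hq, if_neg hq]
  have e2 : chi U (fun z => Q z) f = chi U (fun z => Q' z + ∑ i, w i * (ℓ i z)^2) f := by
    unfold chi
    rw [eth f hf, eth 0 U.zero_mem]
  rw [e2]
  exact h


/-! ### the relaxation lemma -/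

section relax

theorem seq_relax (a b w : ℤ → ℝ) (r z : ℝ) (ha : Summable a) (hb : Summable b)
    (hb0 : ∀ m, 0 ≤ b m) (hbpos : 0 < b 0) (h0 : a 0 = r * b 0)
    (hrsd : ∀ m, 2 * r * b m ≤ a m + a (-m))
    (hw0 : ∀ m, 0 ≤ w m) (hw1 : w 0 = 1) (hweven : ∀ m, w (-m) = w m)
    (hwz : ∀ m, m ≠ 0 → w m ≤ z) (hz0 : 0 ≤ z) (hz1 : z ≤ 1)
    (hY : ∑' m, b m ≤ 2 * b 0) :
    (∑' m, w m * a m) / (∑' m, w m * b m) ≤
      (1 - 2 * z) * r + 2 * z * ((∑' m, a m) / (∑' m, b m)) := by
  have hwle : ∀ m, w m ≤ 1 := by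
    intro m
    rcases eq_or_ne m 0 with h | h
    · rw [h, hw1]
    · exact le_trans (hwz m h) hz1
  have habs : ∀ (c : ℤ → ℝ), (∀ m, 0 ≤ c m) → (∀ m, c m ≤ 1) → ∀ (u : ℤ → ℝ), Summable u →
      Summable (fun m => c m * u m) := by
    intro c hc0 hc1 u hu
    refine Summable.of_norm_bounded hu.abs (fun m => ?_)
    rw [Real.norm_eq_abs, abs_mul, abs_of_nonneg (hc0 m)]
    have := abs_nonneg (u m)
    have := hc1 m
    nlinarith
  let d : ℤ → ℝ := fun m => a m - r * b m
  have hd : Summable d := ha.sub (hb.mul_left r)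
  have hdd : ∀ m, 0 ≤ d m + d (-m) := by
    intro m
    have h1 := hrsd m
    have h2 := hrsd (-m)
    rw [neg_neg] at h2
    simp only [d]
    linarith
  have hpos : ∀ (c : ℤ → ℝ), (∀ m, 0 ≤ c m) → (∀ m, c m ≤ 1) → (∀ m, c (-m) = c m) →
      0 ≤ ∑' m, c m * d m := by
    intro c hc0 hc1 hce
    have hs := habs c hc0 hc1 d hd
    have h1 : ∑' m, c m * d m = ∑' m, c m * d (-m) := by
      rw [← Equiv.tsum_eq (Equiv.neg ℤ) (fun m => c m * d m)]
      refine tsum_congr (fun m => ?_)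
      simp only [Equiv.neg_apply]
      rw [hce]
    have hs2 : Summable (fun m => c m * d (-m)) := by
      have := (Equiv.neg ℤ).summable_iff.mpr hs
      refine this.congr (fun m => ?_)
      simp only [Function.comp, Equiv.neg_apply]
      rw [hce]
    have h2 : 2 * ∑' m, c m * d m = ∑' m, c m * (d m + d (-m)) := by
      rw [two_mul]
      nth_rewrite 2 [h1]
      rw [← hs.tsum_add hs2]
      refine tsum_congr (fun m => ?_)
      ring
    have h3 : 0 ≤ ∑' m, c m * (d m + d (-m)) :=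
      tsum_nonneg (fun m => mul_nonneg (hc0 m) (hdd m))
    linarith
  have d0 : d 0 = 0 := by simp only [d]; rw [h0]; ring
  -- total difference
  have hΔ : 0 ≤ ∑' m, d m := by
    have := hpos (fun _ => 1) (fun _ => zero_le_one) (fun _ => le_rfl) (fun _ => rfl)
    simpa using this
  have hwd := habs w hw0 hwle d hd
  have hΔ1 : ∑' m, w m * d m ≤ z * ∑' m, d m := by
    let c : ℤ → ℝ := fun m => if m = 0 then 0 else z - w m
    have hc := hpos c (fun m => by
        simp only [c]; split_ifs with h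
        · exact le_rfl
        · linarith [hwz m h])
      (fun m => by
        simp only [c]; split_ifs with h
        · exact zero_le_one
        · linarith [hw0 m])
      (fun m => by
        simp only [c, neg_eq_zero]; rw [hweven])
    have e : ∀ m, c m * d m = z * d m - w m * d m := by
      intro m
      simp only [c]
      split_ifs with h
      · rw [h, d0]; ring
      · ring
    simp_rw [e] at hc
    rw [(hd.mul_left z).tsum_sub hwd, tsum_mul_left] at hc
    linarith
  have hwa := habs w hw0 hwle a ha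
  have hwb := habs w hw0 hwle b hb
  have e1 : ∑' m, w m * a m = r * ∑' m, w m * b m + ∑' m, w m * d m := by
    rw [← tsum_mul_left, ← (hwb.mul_left r).tsum_add hwd]
    refine tsum_congr (fun m => ?_)
    simp only [d]; ring
  have e2 : ∑' m, a m = r * ∑' m, b m + ∑' m, d m := by
    rw [← tsum_mul_left, ← (hb.mul_left r).tsum_add hd]
    refine tsum_congr (fun m => ?_)
    simp only [d]; ring
  have hB1 : b 0 ≤ ∑' m, w m * b m := by
    have := hwb.le_tsum 0 (fun m _ => mul_nonneg (hw0 m) (hb0 m))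
    rw [hw1, one_mul] at this
    exact this
  have hB : b 0 ≤ ∑' m, b m := hb.le_tsum 0 (fun m _ => hb0 m)
  set B1 := ∑' m, w m * b m
  set B := ∑' m, b m
  set Δ := ∑' m, d m
  set Δ1 := ∑' m, w m * d m
  have hB1p : 0 < B1 := lt_of_lt_of_le hbpos hB1
  have hBp : 0 < B := lt_of_lt_of_le hbpos hB
  rw [e1, e2]
  have f1 : (r * B1 + Δ1) / B1 = r + Δ1 / B1 := by field_simp
  have f2 : (r * B + Δ) / B = r + Δ / B := by field_simp
  rw [f1, f2]
  have f3 : Δ1 / B1 ≤ z * Δ / b 0 := by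
    have : Δ1 / B1 ≤ z * Δ / B1 := by
      apply div_le_div_of_nonneg_right hΔ1 hB1p.le
    refine le_trans this ?_
    apply div_le_div_of_nonneg_left (mul_nonneg hz0 hΔ) hbpos hB1
  have f4 : Δ / (2 * b 0) ≤ Δ / B := div_le_div_of_nonneg_left hΔ hBp hY
  have f5 : z * Δ / b 0 = 2 * z * (Δ / (2 * b 0)) := by field_simp
  have f6 : 2 * z * (Δ / (2 * b 0)) ≤ 2 * z * (Δ / B) :=
    mul_le_mul_of_nonneg_left f4 (by positivity)
  calc r + Δ1 / B1 ≤ r + 2 * z * (Δ / B) := by linarith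
    _ = (1 - 2 * z) * r + 2 * z * (r + Δ / B) := by ring

/-- total charge functional on a set `Y` -/
def chg (Y : Finset ι) : (ι → ℝ) →ₗ[ℝ] ℝ := ∑ i ∈ Y, LinearMap.proj i

theorem chg_apply (Y : Finset ι) (z : ι → ℝ) : chg Y z = ∑ i ∈ Y, z i := by
  simp [chg]

/-- subspace of charges with zero total charge on `Y` -/
def kill (U : Submodule ℝ (ι → ℝ)) (Y : Finset ι) : Submodule ℝ (ι → ℝ) :=
  U ⊓ LinearMap.ker (chg Y)

theorem mem_kill (U : Submodule ℝ (ι → ℝ)) (Y : Finset ι) (z : ι → ℝ) :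
    z ∈ kill U Y ↔ z ∈ U ∧ ∑ i ∈ Y, z i = 0 := by
  unfold kill
  rw [Submodule.mem_inf, LinearMap.mem_ker, chg_apply]

theorem fiber_sum_gen {Q : (ι → ℝ) → ℝ} (hQ : PD Q) (U : Submodule ℝ (ι → ℝ)) (Y : Finset ι)
    (y : ι) (hy : y ∈ Y) (hyU : (Pi.single y (1:ℝ)) ∈ U) {f : ι → ℝ} (hf : f ∈ U)
    {S : ℝ} (hS : 0 ≤ S) :
    HasSum (fun m : ℤ => Real.exp (-(S * (chg Y f + (m:ℝ))^2)) * th (kill U Y) Q (f + (m:ℝ) • Pi.single y (1:ℝ)))
      (th U (fun z => Q z + S * (chg Y z) ^ 2) f) := by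
  classical
  have hPD : PD (fun z => Q z + S * (chg Y z) ^ 2) := by
    obtain ⟨η, h0, h1⟩ := hQ
    refine ⟨η, h0, fun z => ?_⟩
    have := h1 z
    have h2 : 0 ≤ S * (chg Y z) ^ 2 := by positivity
    linarith
  let F : (ι → ℤ) → ℝ := fun q => if inU U q then
    Real.exp (-(Q (f + cst q) + S * (chg Y (f + cst q)) ^ 2)) else 0
  have hF : HasSum F (th U (fun z => Q z + S * (chg Y z) ^ 2) f) := (th_summable hPD U f).hasSum
  let j : (ι → ℤ) → ℤ := fun q => ∑ i ∈ Y, q i
  have h1 := hF.tsum_fiberwise j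
  suffices hfun : (fun m : ℤ => Real.exp (-(S * (chg Y f + (m:ℝ))^2)) *
      th (kill U Y) Q (f + (m:ℝ) • Pi.single y (1:ℝ))) =
      fun c : ℤ => ∑' (b : ↑(j ⁻¹' {c})), F ↑b by
    rw [hfun]
    exact h1
  funext m
  -- the subtype sum
  rw [tsum_subtype (j ⁻¹' {m}) F]
  rw [← Equiv.tsum_eq (Equiv.addRight (Pi.single y m : ι → ℤ))]
  rw [th_eq, ← tsum_mul_left]
  refine tsum_congr (fun q => ?_)
  have hcs : cst (Pi.single y m : ι → ℤ) = (m:ℝ) • Pi.single y (1:ℝ) := by
    funext i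
    rw [cst_apply]
    by_cases h : i = y
    · subst h; simp
    · simp [Pi.single_eq_of_ne h]
  have hj : j (q + Pi.single y m) = j q + m := by
    simp only [j, Pi.add_apply, Finset.sum_add_distrib]
    rw [Finset.sum_pi_single']
    rw [if_pos hy]
  have hcst : ∑ i ∈ Y, (cst q) i = (j q : ℝ) := by
    simp only [j, cst_apply]
    push_cast
    rfl
  by_cases hq : inU (kill U Y) q
  · have hq' := (mem_kill U Y (cst q)).mp hq
    have hjq : j q = 0 := by
      have := hq'.2
      rw [hcst] at this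
      exact_mod_cast this
    rw [if_pos hq]
    have hmem : (Equiv.addRight (Pi.single y m : ι → ℤ)) q ∈ j ⁻¹' {m} := by
      simp only [Equiv.coe_addRight, Set.mem_preimage, Set.mem_singleton_iff]
      rw [hj, hjq, zero_add]
    rw [Set.indicator_of_mem hmem]
    simp only [F, Equiv.coe_addRight]
    have hU : inU U (q + Pi.single y m) := by
      unfold inU
      rw [map_add, hcs]
      exact U.add_mem hq'.1 (U.smul_mem _ hyU)
    rw [if_pos hU, ← Real.exp_add]
    congr 1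
    have e1 : f + (m:ℝ) • Pi.single y (1:ℝ) + cst q = f + cst (q + Pi.single y m) := by
      rw [map_add, hcs]; abel
    rw [e1]
    have e2 : chg Y (f + cst (q + Pi.single y m)) = chg Y f + m := by
      rw [map_add, map_add, map_add, hcs, chg_apply Y (cst q), hcst, hjq, map_smul,
        chg_apply Y (Pi.single y (1:ℝ))]
      rw [Finset.sum_pi_single', if_pos hy]
      simp
    rw [e2]
    ring
  · rw [if_neg hq, mul_zero]
    by_cases hmem : (Equiv.addRight (Pi.single y m : ι → ℤ)) q ∈ j ⁻¹' {m}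
    · rw [Set.indicator_of_mem hmem]
      simp only [F, Equiv.coe_addRight]
      rw [if_neg]
      intro hU
      apply hq
      simp only [Equiv.coe_addRight, Set.mem_preimage, Set.mem_singleton_iff] at hmem
      rw [hj] at hmem
      have hjq : j q = 0 := by omega
      unfold inU at hU ⊢
      rw [mem_kill]
      constructor
      · have h3 : cst q = cst (q + Pi.single y m) - (m:ℝ) • Pi.single y (1:ℝ) := by
          rw [map_add, hcs]; abel
        rw [h3]
        exact U.sub_mem hU (U.smul_mem _ hyU)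
      · rw [hcst, hjq]; simp
    · rw [Set.indicator_of_notMem hmem]

theorem fiber_sum {Q : (ι → ℝ) → ℝ} (hQ : PD Q) (U : Submodule ℝ (ι → ℝ)) (Y : Finset ι)
    (y : ι) (hy : y ∈ Y) (hyU : (Pi.single y (1:ℝ)) ∈ U) {f : ι → ℝ} (hf : f ∈ kill U Y)
    {S : ℝ} (hS : 0 ≤ S) :
    HasSum (fun m : ℤ => Real.exp (-(S * (m:ℝ)^2)) * th (kill U Y) Q (f + (m:ℝ) • Pi.single y (1:ℝ)))
      (th U (fun z => Q z + S * (chg Y z) ^ 2) f) := by
  have hfU := ((mem_kill U Y f).mp hf).1
  have hfY := ((mem_kill U Y f).mp hf).2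
  have h := fiber_sum_gen hQ U Y y hy hyU hfU hS
  rw [chg_apply, hfY] at h
  simpa using h

theorem exp_tail_two : ∑' m : ℤ, Real.exp (-(2 * (m:ℝ)^2)) ≤ 2 := by
  have hs := summable_gauss (c := 2) (by norm_num)
  have h1 : ∀ m : ℤ, Real.exp (-(2 * (m:ℝ)^2)) ≤ Real.exp (-(2 * |(m:ℝ)|)) := by
    intro m
    apply Real.exp_le_exp.mpr
    have h3 : |(m:ℝ)| ≤ (m:ℝ)^2 := by
      rcases eq_or_ne m 0 with h | h
      · simp [h]
      · have h4 : (1:ℝ) ≤ |(m:ℝ)| := by
          have : (1:ℤ) ≤ |m| := Int.one_le_abs h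
          exact_mod_cast this
        rw [← sq_abs]; nlinarith
    linarith
  have hgeo : HasSum (fun n : ℕ => Real.exp (-2) ^ n) (1 - Real.exp (-2))⁻¹ :=
    hasSum_geometric_of_lt_one (Real.exp_pos _).le (by rw [Real.exp_lt_one_iff]; norm_num)
  have hg1 : ∀ n : ℕ, Real.exp (-(2 * |((n:ℤ):ℝ)|)) = Real.exp (-2) ^ n := by
    intro n
    rw [← Real.exp_nat_mul]
    congr 1
    simp
    ring
  have hg2 : ∀ n : ℕ, Real.exp (-(2 * |((-(n + 1 : ℤ) : ℤ):ℝ)|)) = Real.exp (-2) * Real.exp (-2) ^ n := by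
    intro n
    rw [← pow_succ', ← Real.exp_nat_mul]
    congr 1
    push_cast
    rw [abs_neg, abs_of_nonneg (by positivity)]
    ring
  have hint : HasSum (fun m : ℤ => Real.exp (-(2 * |(m:ℝ)|)))
      ((1 - Real.exp (-2))⁻¹ + Real.exp (-2) * (1 - Real.exp (-2))⁻¹) := by
    refine HasSum.of_nat_of_neg_add_one ?_ ?_
    · rw [funext hg1]
      exact hgeo
    · rw [funext hg2]
      exact hgeo.mul_left (Real.exp (-2))
  have h2 := hs.tsum_le_tsum h1 hint.summable
  rw [hint.tsum_eq] at h2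
  refine le_trans h2 ?_
  have h3 : Real.exp (-2) ≤ 1/4 := by
    have : Real.exp 2 ≥ 4 := by
      have h := Real.add_one_le_exp (1:ℝ)
      have h5 : Real.exp 2 = Real.exp 1 * Real.exp 1 := by rw [← Real.exp_add]; norm_num
      rw [h5]; nlinarith
    rw [Real.exp_neg]
    rw [inv_le_comm₀ (by positivity) (by norm_num)]
    linarith
  have h4 : 0 < Real.exp (-2) := Real.exp_pos _
  have h5 : (1 - Real.exp (-2))⁻¹ ≤ 4/3 := by
    rw [inv_le_comm₀ (by linarith) (by norm_num)]
    linarith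
  have h6 : 0 < (1 - Real.exp (-2))⁻¹ := by
    apply inv_pos.mpr; linarith
  nlinarith

/-- **The relaxation lemma.** -/
theorem relax (U : Submodule ℝ (ι → ℝ)) (Q : (ι → ℝ) → ℝ) (hQ : PD Q) (hp : Par Q)
    (Y : Finset ι) (y : ι) (hy : y ∈ Y) (hyU : (Pi.single y (1:ℝ)) ∈ U) {f : ι → ℝ}
    (hf : f ∈ kill U Y) {S : ℝ} (hS : 2 ≤ S) :
    chi U (fun z => Q z + S * (chg Y z) ^ 2) f ≤
      (1 - 2 * Real.exp (-(S - 2))) * chi (kill U Y) Q f
        + 2 * Real.exp (-(S - 2)) * chi U Q f := by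
  classical
  have h0 : (0 : ι → ℝ) ∈ kill U Y := (kill U Y).zero_mem
  set e : ι → ℝ := Pi.single y (1:ℝ) with he
  set N : (ι → ℝ) → ℤ → ℝ := fun g m => th (kill U Y) Q (g + (m:ℝ) • e) with hN
  have hS0 : 0 ≤ S - 2 := by linarith
  -- the three sums
  have s1 := fiber_sum hQ U Y y hy hyU hf (S := S) (by linarith)
  have s2 := fiber_sum hQ U Y y hy hyU h0 (S := S) (by linarith)
  have s3 := fiber_sum hQ U Y y hy hyU hf (S := 2) (by norm_num)
  have s4 := fiber_sum hQ U Y y hy hyU h0 (S := 2) (by norm_num)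
  let a : ℤ → ℝ := fun m => Real.exp (-(2 * (m:ℝ)^2)) * N f m
  let b : ℤ → ℝ := fun m => Real.exp (-(2 * (m:ℝ)^2)) * N 0 m
  let w : ℤ → ℝ := fun m => Real.exp (-((S - 2) * (m:ℝ)^2))
  have hN0 : N f 0 = th (kill U Y) Q f := by simp [hN]
  have hN00 : N 0 0 = th (kill U Y) Q 0 := by simp [hN]
  have hpos0 := th_pos hQ (kill U Y) 0
  have hposf := th_pos hQ (kill U Y) f
  have main := seq_relax a b w (chi (kill U Y) Q f) (Real.exp (-(S-2))) s3.summable s4.summable
    (fun m => mul_nonneg (Real.exp_pos _).le (th_pos hQ _ _).le)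
    (by simp only [b]; exact mul_pos (Real.exp_pos _) (th_pos hQ _ _))
    (by
      simp only [a, b, hN0, hN00, chi]
      field_simp)
    (by
      intro m
      have h := th_rsd hQ hp (kill U Y) f ((m:ℝ) • e)
      have e1 : N f m = th (kill U Y) Q (f + (m:ℝ) • e) := rfl
      have e2 : N f (-m) = th (kill U Y) Q (f - (m:ℝ) • e) := by
        simp only [hN]
        push_cast
        rw [neg_smul, sub_eq_add_neg]
      have e3 : N 0 m = th (kill U Y) Q ((m:ℝ) • e) := by simp [hN]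
      rw [← e1, ← e2, ← e3] at h
      have e4 : (((-m : ℤ) : ℝ))^2 = (m:ℝ)^2 := by push_cast; ring
      simp only [a, b, chi]
      rw [e4]
      have h2 : 2 * (th (kill U Y) Q f / th (kill U Y) Q 0) * N 0 m ≤ N f m + N f (-m) := by
        rw [mul_div_assoc', div_mul_eq_mul_div, div_le_iff₀ hpos0]
        nlinarith
      have h3 := mul_le_mul_of_nonneg_left h2 (Real.exp_pos (-(2 * (m:ℝ)^2))).le
      nlinarith)
    (fun m => (Real.exp_pos _).le)
    (by simp [w])
    (by intro m; simp [w])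
    (by
      intro m hm
      simp only [w]
      apply Real.exp_le_exp.mpr
      have h4 : (1:ℝ) ≤ (m:ℝ)^2 := by
        have : (1:ℤ) ≤ |m| := Int.one_le_abs hm
        have h5 : (1:ℝ) ≤ |(m:ℝ)| := by exact_mod_cast this
        rw [← sq_abs]; nlinarith
      nlinarith)
    (Real.exp_pos _).le
    (by rw [Real.exp_le_one_iff]; linarith)
    (by
      have hb : ∀ m, b m ≤ Real.exp (-(2 * (m:ℝ)^2)) * b 0 := by
        intro m
        have h1 : N 0 m ≤ N 0 0 := by
          rw [hN00]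
          exact th_le_zero hQ hp _ _
        have h2 : b 0 = N 0 0 := by simp [b]
        rw [h2]
        exact mul_le_mul_of_nonneg_left h1 (Real.exp_pos _).le
      have h3 := s4.summable.tsum_le_tsum hb ((summable_gauss (c := 2) (by norm_num)).mul_right _)
      rw [tsum_mul_right] at h3
      have h4 := exp_tail_two
      have h5 : 0 ≤ b 0 := by
        simp only [b]
        exact mul_nonneg (Real.exp_pos _).le (th_pos hQ _ _).le
      refine le_trans h3 ?_
      exact mul_le_mul_of_nonneg_right h4 h5)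
  have hwa : ∀ (g : ι → ℝ) (m : ℤ), w m * (Real.exp (-(2 * (m:ℝ)^2)) * N g m) =
      Real.exp (-(S * (m:ℝ)^2)) * N g m := by
    intro g m
    simp only [w]
    rw [← mul_assoc, ← Real.exp_add]
    congr 2
    ring
  simp only [a, b] at main
  simp_rw [hwa] at main
  rw [s1.tsum_eq, s2.tsum_eq, s3.tsum_eq, s4.tsum_eq] at main
  have hm := mono_rank_one hQ hp (r := 2) (by norm_num) (chg Y) U f
  have hz : 0 ≤ 2 * Real.exp (-(S - 2)) := by positivity
  have h6 := mul_le_mul_of_nonneg_left hm hz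
  unfold chi at main h6 ⊢
  linarith

/-- the final bound, from the accumulated variance `G` at the site `o`. -/
theorem chi_final (U : Submodule ℝ (ι → ℝ)) (Q : (ι → ℝ) → ℝ) (hQ : PD Q) (hp : Par Q)
    (o : ι) (hoU : (Pi.single o (1:ℝ)) ∈ U) {G t : ℝ} (hG : 4 ≤ G) (ht0 : 0 ≤ t) (ht : t ≤ 1/4) :
    chi U (fun z => Q z + G * (z o) ^ 2) (t • Pi.single o (1:ℝ)) ≤
      2 * Real.exp (-(G * t ^ 2)) := by
  classical
  have hc : ∀ z : ι → ℝ, chg {o} z = z o := by
    intro z; rw [chg_apply]; simp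
  have hfU : t • Pi.single o (1:ℝ) ∈ U := U.smul_mem _ hoU
  have s1 := fiber_sum_gen hQ U {o} o (Finset.mem_singleton_self o) hoU hfU (S := G) (by linarith)
  have s2 := fiber_sum_gen hQ U {o} o (Finset.mem_singleton_self o) hoU U.zero_mem (S := G)
    (by linarith)
  simp_rw [hc] at s1 s2
  have hto : (t • Pi.single o (1:ℝ) : ι → ℝ) o = t := by simp
  rw [hto] at s1
  have hz : (0 : ι → ℝ) o = 0 := rfl
  rw [hz] at s2
  set N0 := th (kill U {o}) Q 0 with hN0
  have hN0p : 0 < N0 := th_pos hQ _ _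
  have hG0 : 0 ≤ G := by linarith
  have hterm : ∀ m : ℤ, Real.exp (-(G * (t + (m:ℝ))^2)) ≤
      Real.exp (-(G * t^2)) * Real.exp (-(2 * (m:ℝ)^2)) := by
    intro m
    rw [← Real.exp_add]
    apply Real.exp_le_exp.mpr
    have h3 : |(m:ℝ)| ≤ (m:ℝ)^2 := by
      rcases eq_or_ne m 0 with h | h
      · simp [h]
      · have h4 : (1:ℝ) ≤ |(m:ℝ)| := by
          have : (1:ℤ) ≤ |m| := Int.one_le_abs h
          exact_mod_cast this
        rw [← sq_abs]; nlinarith
    have h5 : -(m:ℝ) ≤ |(m:ℝ)| := neg_le_abs _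
    have h6 : t ^ 2 + (m:ℝ)^2 / 2 ≤ (t + m)^2 := by nlinarith [abs_nonneg (m:ℝ)]
    have h7 : G * (t^2 + (m:ℝ)^2/2) ≤ G * (t + m)^2 := mul_le_mul_of_nonneg_left h6 hG0
    nlinarith [sq_nonneg (m:ℝ)]
  have hsum : Summable (fun m : ℤ => Real.exp (-(G * t^2)) * Real.exp (-(2 * (m:ℝ)^2)) * N0) :=
    ((summable_gauss (c := 2) (by norm_num)).mul_left _).mul_right _
  have h1 : th U (fun z => Q z + G * (z o) ^ 2) (t • Pi.single o (1:ℝ)) ≤
      2 * Real.exp (-(G * t ^ 2)) * N0 := by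
    rw [← s1.tsum_eq]
    have h2 := s1.summable.tsum_le_tsum (fun m => by
      have ha := hterm m
      have hb : th (kill U {o}) Q (t • Pi.single o (1:ℝ) + (m:ℝ) • Pi.single o (1:ℝ)) ≤ N0 :=
        th_le_zero hQ hp _ _
      exact mul_le_mul ha hb (th_pos hQ _ _).le (by positivity)) hsum
    refine le_trans h2 ?_
    rw [tsum_mul_right, tsum_mul_left]
    have h3 := exp_tail_two
    have h4 : 0 < Real.exp (-(G * t^2)) := Real.exp_pos _
    have h5 : Real.exp (-(G * t^2)) * ∑' m : ℤ, Real.exp (-(2 * (m:ℝ)^2)) ≤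
        Real.exp (-(G * t^2)) * 2 := mul_le_mul_of_nonneg_left h3 h4.le
    have h6 := mul_le_mul_of_nonneg_right h5 hN0p.le
    linarith
  have h2 : N0 ≤ th U (fun z => Q z + G * (z o) ^ 2) 0 := by
    rw [← s2.tsum_eq]
    have h3 := s2.summable.le_tsum 0 (fun m _ => mul_nonneg (Real.exp_pos _).le (th_pos hQ _ _).le)
    simp only [Int.cast_zero, add_zero, zero_smul] at h3
    have e : Real.exp (-(G * (0:ℝ)^2)) = 1 := by simp
    rw [e, one_mul] at h3
    exact h3
  unfold chi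
  rw [div_le_iff₀ (lt_of_lt_of_le hN0p h2)]
  refine le_trans h1 ?_
  exact mul_le_mul_of_nonneg_left h2 (by positivity)

end relax

end Pool.Agent.Helper95_SOS
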