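import Mathlib
import Pool.Agent.Helper95_SOS.Mono

/-!
Poisson duality for Gaussian sums over `ℤ^n`.
-/

set_option autoImplicit false
set_option linter.unusedSectionVars false

open scoped BigOperators

namespace Pool.Agent.Helper95_SOS

open Complex in
theorem poisson_one {a : ℝ} (ha : 0 < a) (b t : ℝ) :
    (∑' n : ℤ, cexp (((-(1/2) * (a * ((n:ℝ) + b)^2) : ℝ) : ℂ) + ((2 * Real.pi * (t * n) : ℝ) : ℂ) * I))
    = ((1 / Real.sqrt (a / (2 * Real.pi)) : ℝ) : ℂ) *
      ∑' q : ℤ, (((Real.exp (-(2 * Real.pi^2 * ((t + q)^2 / a))) : ℝ) : ℂ) *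
        cexp (((-(2 * Real.pi * ((t + q) * b)) : ℝ) : ℂ) * I)) := by
  have hpi := Real.pi_pos
  have ha' : 0 < a / (2 * Real.pi) := by positivity
  have h := Complex.tsum_exp_neg_quadratic (a := ((a / (2 * Real.pi) : ℝ) : ℂ))
    (by rw [Complex.ofReal_re]; exact ha') (-(a * b / (2 * Real.pi) : ℝ) + (t:ℂ) * I)
  have hpic : (Real.pi : ℂ) ≠ 0 := by exact_mod_cast hpi.ne'
  have hac : (a : ℂ) ≠ 0 := by exact_mod_cast ha.ne'
  have e1 : ∀ n : ℤ, cexp (((-(1/2) * (a * ((n:ℝ) + b)^2) : ℝ) : ℂ) +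
      ((2 * Real.pi * (t * n) : ℝ) : ℂ) * I) =
      cexp ((-(a * b^2 / 2) : ℝ) : ℂ) * cexp (-(Real.pi:ℂ) * ((a / (2 * Real.pi) : ℝ) : ℂ) * (n:ℂ) ^ 2 +
        2 * (Real.pi:ℂ) * (-(a * b / (2 * Real.pi) : ℝ) + (t:ℂ) * I) * n) := by
    intro n
    rw [← Complex.exp_add]
    congr 1
    push_cast
    field_simp
    ring
  simp_rw [e1]
  rw [tsum_mul_left, h]
  have e2 : (1 : ℂ) / ((a / (2 * Real.pi) : ℝ) : ℂ) ^ (1 / 2 : ℂ) =
      ((1 / Real.sqrt (a / (2 * Real.pi)) : ℝ) : ℂ) := by
    rw [Real.sqrt_eq_rpow]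
    push_cast
    rw [Complex.ofReal_cpow ha'.le]
    push_cast
    rfl
  rw [e2]
  rw [← Equiv.tsum_eq (Equiv.neg ℤ)]
  rw [mul_left_comm]
  congr 1
  rw [← tsum_mul_left]
  refine tsum_congr (fun q => ?_)
  simp only [Equiv.neg_apply]
  rw [Complex.ofReal_exp, ← Complex.exp_add, ← Complex.exp_add]
  congr 1
  push_cast
  field_simp
  ring_nf
  simp only [I_sq]
  ring_nf
  have hI : (I:ℂ)^2 = -1 := I_sq
  linear_combination (4*(a:ℂ)*b*Real.pi*t*I - 4*(Real.pi:ℂ)^2*t^2*(I^2-1)) * hI


/-- real pairing -/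
def dotp {ι : Type} [Fintype ι] (z φ : ι → ℝ) : ℝ := ∑ i, z i * φ i

/-- Poisson duality statement for the form `A` with dual form `B`. -/
def IsDual {ι : Type} [Fintype ι] [DecidableEq ι] (A B : QuadraticForm ℝ (ι → ℝ)) : Prop :=
  PD (fun z => B z) ∧ (∀ z φ : ι → ℝ, 2 * dotp z φ - A φ ≤ B z) ∧
  ∃ C : ℝ, 0 < C ∧ ∀ t : ι → ℝ,
    (∑' ψ : ι → ℤ, Complex.exp (((-(1/2) * A (cst ψ) : ℝ) : ℂ) +
      ((2 * Real.pi * dotp t (cst ψ) : ℝ) : ℂ) * Complex.I)) =
    ((C * ∑' q : ι → ℤ, Real.exp (-(2 * Real.pi ^ 2 * B (t + cst q))) : ℝ) : ℂ)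

theorem sq_comp_apply {E : Type} [AddCommGroup E] [Module ℝ E] (ℓ : E →ₗ[ℝ] ℝ) (z : E) :
    (QuadraticMap.sq (R := ℝ)).comp ℓ z = (ℓ z)^2 := by
  simp [QuadraticMap.comp_apply, sq]

theorem PD_exp_summable {ι : Type} [Fintype ι] [DecidableEq ι] {Q : (ι → ℝ) → ℝ} (hQ : PD Q)
    {c : ℝ} (hc : 0 < c) (x : ι → ℝ) :
    Summable (fun q : ι → ℤ => Real.exp (-(c * Q (x + cst q)))) := by
  classical
  obtain ⟨C, _, h⟩ := th_bound hQ c hc
  have h1 := (h ⊤ x).1
  refine h1.congr (fun q => ?_)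
  rw [if_pos]
  exact Submodule.mem_top


section induct

variable {n : ℕ}

/-- `φ ↦ (0, φ)` -/
def cons0 (n : ℕ) : (Fin n → ℝ) →ₗ[ℝ] (Fin (n+1) → ℝ) where
  toFun φ := Fin.cons 0 φ
  map_add' a b := by
    funext i
    refine Fin.cases ?_ (fun i => ?_) i <;> simp
  map_smul' c a := by
    funext i
    refine Fin.cases ?_ (fun i => ?_) i <;> simp

theorem cons_eq (x : ℝ) (φ : Fin n → ℝ) :
    (Fin.cons x φ : Fin (n+1) → ℝ) = x • Pi.single 0 (1:ℝ) + cons0 n φ := by
  funext i
  refine Fin.cases ?_ (fun i => ?_) i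
  · simp [cons0]
  · simp [cons0]

theorem dotp_cons (z0 : ℝ) (z : Fin n → ℝ) (x : ℝ) (φ : Fin n → ℝ) :
    dotp (Fin.cons z0 z : Fin (n+1) → ℝ) (Fin.cons x φ) = z0 * x + dotp z φ := by
  unfold dotp
  rw [Fin.sum_univ_succ]
  simp

theorem dotp_lin (ℓ : (Fin n → ℝ) →ₗ[ℝ] ℝ) (φ : Fin n → ℝ) :
    dotp (fun i => ℓ (Pi.single i 1)) φ = ℓ φ := by
  unfold dotp
  rw [LinearMap.pi_apply_eq_sum_univ ℓ φ]
  refine Finset.sum_congr rfl (fun i _ => ?_)
  rw [smul_eq_mul, mul_comm]
  have e : (Pi.single i (1:ℝ) : Fin n → ℝ) = fun j => if i = j then 1 else 0 := by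
    funext j
    by_cases h : j = i
    · subst h; simp
    · rw [Pi.single_eq_of_ne h, if_neg (fun h' => h h'.symm)]
  simp only [e]

theorem split_form (A : QuadraticForm ℝ (Fin (n+1) → ℝ)) (hA : PD (fun z => A z)) :
    ∃ (a : ℝ) (ℓ : (Fin n → ℝ) →ₗ[ℝ] ℝ) (A' : QuadraticForm ℝ (Fin n → ℝ)), 0 < a ∧
      PD (fun z => A' z) ∧ ∀ x φ, A (Fin.cons x φ) = a * (x + ℓ φ)^2 + A' φ := by
  obtain ⟨η, h0, h1⟩ := hA
  set e0 : Fin (n+1) → ℝ := Pi.single 0 1 with he0
  have ha : 0 < A e0 := by
    have h := h1 e0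
    simp only at h
    rw [Fin.sum_univ_succ] at h
    simp [he0] at h
    linarith
  set a := A e0 with haa
  let ℓ : (Fin n → ℝ) →ₗ[ℝ] ℝ := (1 / (2 * a)) • ((A.polarBilin e0) ∘ₗ cons0 n)
  have hℓ : ∀ φ, ℓ φ = (1 / (2 * a)) * QuadraticMap.polar A e0 (cons0 n φ) := by
    intro φ
    simp only [ℓ, LinearMap.smul_apply, LinearMap.comp_apply, QuadraticMap.polarBilin_apply_apply,
      smul_eq_mul]
  let J : (Fin n → ℝ) →ₗ[ℝ] (Fin (n+1) → ℝ) := cons0 n - (LinearMap.toSpanSingleton ℝ _ e0) ∘ₗ ℓ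
  have hJ : ∀ φ, J φ = cons0 n φ - (ℓ φ) • e0 := by
    intro φ
    simp only [J, LinearMap.sub_apply, LinearMap.comp_apply, LinearMap.toSpanSingleton_apply]
  refine ⟨a, ℓ, A.comp J, ha, ?_, ?_⟩
  · refine ⟨η, h0, fun z => ?_⟩
    have h := h1 (J z)
    simp only [QuadraticMap.comp_apply]
    refine le_trans ?_ h
    apply mul_le_mul_of_nonneg_left _ h0.le
    rw [Fin.sum_univ_succ]
    have : ∀ i : Fin n, (J z) i.succ = z i := by
      intro i
      rw [hJ]
      simp [cons0, he0]
    simp_rw [this]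
    nlinarith [sq_nonneg (J z 0)]
  · intro x φ
    have e1 : (Fin.cons x φ : Fin (n+1) → ℝ) = (x + ℓ φ) • e0 + J φ := by
      rw [cons_eq, hJ, add_smul]
      abel
    rw [e1, QuadraticMap.map_add A, QuadraticMap.map_smul]
    have e2 : QuadraticMap.polar A ((x + ℓ φ) • e0) (J φ) = 0 := by
      rw [QuadraticMap.polar_smul_left]
      have : QuadraticMap.polar A e0 (J φ) = 0 := by
        rw [hJ, QuadraticMap.polar_sub_right, QuadraticMap.polar_smul_right,
          QuadraticMap.polar_self]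
        rw [hℓ, smul_eq_mul]
        simp only [two_smul]
        rw [← haa]
        field_simp
        ring
      rw [this, smul_zero]
    rw [e2, smul_eq_mul]
    simp only [QuadraticMap.comp_apply]
    ring

theorem exists_dual_fin : ∀ (n : ℕ) (A : QuadraticForm ℝ (Fin n → ℝ)), PD (fun z => A z) →
    ∃ B, IsDual A B := by
  intro n
  induction n with
  | zero =>
      intro A hA
      refine ⟨0, ?_, ?_, 1, one_pos, ?_⟩
      · refine ⟨1, one_pos, fun z => ?_⟩
        simp
      · intro z φ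
        have : φ = 0 := Subsingleton.elim _ _
        rw [this, QuadraticMap.map_zero]
        simp [dotp]
      · intro t
        have e1 : ∀ ψ : Fin 0 → ℤ, (cst ψ : Fin 0 → ℝ) = 0 := fun ψ => Subsingleton.elim _ _
        simp_rw [e1, QuadraticMap.map_zero]
        simp [dotp]
  | succ n ih =>
      intro A hA
      obtain ⟨a, ℓ, A', ha, hA', hsplit⟩ := split_form A hA
      obtain ⟨B', hB', hBd, C', hC', hth⟩ := ih A' hA'
      set v : Fin n → ℝ := fun i => ℓ (Pi.single i 1) with hv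
      let tl : (Fin (n+1) → ℝ) →ₗ[ℝ] (Fin n → ℝ) :=
        LinearMap.funLeft ℝ ℝ Fin.succ - (LinearMap.toSpanSingleton ℝ _ v) ∘ₗ LinearMap.proj 0
      have htl : ∀ z0 z, tl (Fin.cons z0 z) = z - z0 • v := by
        intro z0 z
        funext i
        simp [tl, LinearMap.funLeft_apply]
      let B : QuadraticForm ℝ (Fin (n+1) → ℝ) :=
        (1 / a) • (QuadraticMap.sq (R := ℝ)).comp (LinearMap.proj 0) + B'.comp tl
      have hB : ∀ z0 z, B (Fin.cons z0 z) = z0^2 / a + B' (z - z0 • v) := by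
        intro z0 z
        simp only [B, _root_.add_apply, _root_.smul_apply, QuadraticMap.comp_apply,
          QuadraticMap.sq_apply, LinearMap.proj_apply, Fin.cons_zero, htl, smul_eq_mul]
        ring
      have hcons : ∀ z : Fin (n+1) → ℝ, z = Fin.cons (z 0) (fun i => z i.succ) := by
        intro z
        funext i
        refine Fin.cases ?_ (fun i => ?_) i <;> simp
      have hPDB : PD (fun z => B z) := by
        obtain ⟨η', h0', h1'⟩ := hB'
        set V := ∑ i, v i ^ 2 with hV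
        have hV0 : 0 ≤ V := Finset.sum_nonneg (fun i _ => sq_nonneg _)
        set K := a * (1 + 2 * V) + 2 / η' with hK
        have hKp : 0 < K := by positivity
        refine ⟨1 / K, by positivity, fun z => ?_⟩
        rw [hcons z]
        simp only
        rw [hB, Fin.sum_univ_succ]
        simp only [Fin.cons_zero, Fin.cons_succ]
        set z0 := z 0
        set z' : Fin n → ℝ := fun i => z i.succ with hz'
        have h2 := h1' (z' - z0 • v)
        simp only at h2
        have h3 : ∑ i, z' i ^ 2 ≤ 2 * (z0^2 * V) + 2 * ∑ i, (z' - z0 • v) i ^ 2 := by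
          rw [hV, Finset.mul_sum, Finset.mul_sum, Finset.mul_sum, ← Finset.sum_add_distrib]
          apply Finset.sum_le_sum
          intro i _
          simp only [Pi.sub_apply, Pi.smul_apply, smul_eq_mul]
          nlinarith [sq_nonneg (z' i - 2 * z0 * v i)]
        set W := ∑ i, (z' - z0 • v) i ^ 2 with hW
        have hW0 : 0 ≤ W := Finset.sum_nonneg (fun i _ => sq_nonneg _)
        have h4 : ∑ i : Fin n, z i.succ ^ 2 = ∑ i, z' i ^ 2 := rfl
        rw [h4, div_mul_eq_mul_div, one_mul, div_le_iff₀ hKp]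
        have h5 : z0^2 * (1 + 2 * V) ≤ z0^2 / a * K := by
          have : z0^2 / a * (a * (1 + 2 * V)) = z0^2 * (1 + 2 * V) := by field_simp
          rw [← this]
          apply mul_le_mul_of_nonneg_left _ (by positivity)
          rw [hK]
          have : 0 < 2 / η' := by positivity
          linarith
        have h6 : 2 * W ≤ B' (z' - z0 • v) * K := by
          have h7 : 2 * W = (η' * W) * (2 / η') := by field_simp
          rw [h7]
          apply mul_le_mul h2 _ (by positivity) (le_trans (by positivity) h2)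
          rw [hK]
          have : 0 ≤ a * (1 + 2 * V) := by positivity
          linarith
        nlinarith
      refine ⟨B, hPDB, ?_, ?_⟩
      · intro z φ
        rw [hcons z, hcons φ, dotp_cons, hsplit, hB]
        set z0 := z 0
        set z' : Fin n → ℝ := fun i => z i.succ with hz'
        set x := φ 0
        set φ' : Fin n → ℝ := fun i => φ i.succ with hφ'
        have h1 := hBd (z' - z0 • v) φ'
        have h2 : dotp (z' - z0 • v) φ' = dotp z' φ' - z0 * ℓ φ' := by
          rw [← dotp_lin ℓ φ']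
          unfold dotp
          rw [Finset.mul_sum, ← Finset.sum_sub_distrib]
          refine Finset.sum_congr rfl (fun i _ => ?_)
          simp only [Pi.sub_apply, Pi.smul_apply, smul_eq_mul, hv]
          ring
        rw [h2] at h1
        have h3 : 2 * (z0 * (x + ℓ φ')) - a * (x + ℓ φ')^2 ≤ z0^2 / a := by
          rw [le_div_iff₀ ha]
          nlinarith [sq_nonneg (z0 - a * (x + ℓ φ'))]
        nlinarith
      · refine ⟨1 / Real.sqrt (a / (2 * Real.pi)) * C', by positivity, fun t => ?_⟩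
        have hcst : ∀ (x : ℤ) (ψ : Fin n → ℤ), (cst (Fin.cons x ψ : Fin (n+1) → ℤ) : Fin (n+1) → ℝ)
            = Fin.cons (x:ℝ) (cst ψ) := by
          intro x ψ
          funext i
          refine Fin.cases ?_ (fun i => ?_) i <;> simp [cst_apply]
        set t0 := t 0 with ht0
        set t' : Fin n → ℝ := fun i => t i.succ with ht'
        have ht : t = Fin.cons t0 t' := hcons t
        let F : (Fin (n+1) → ℤ) → ℂ := fun ψ => Complex.exp (((-(1/2) * A (cst ψ) : ℝ) : ℂ) +
            ((2 * Real.pi * dotp t (cst ψ) : ℝ) : ℂ) * Complex.I)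
        have hFn : ∀ ψ, ‖F ψ‖ = Real.exp (-((1/2) * A (0 + cst ψ))) := by
          intro ψ
          simp only [F]
          rw [Complex.norm_exp]
          congr 1
          simp
        have hFs : Summable F := by
          apply Summable.of_norm
          simp_rw [hFn]
          exact PD_exp_summable hA (by norm_num) 0
        have h1 : ∑' ψ, F ψ = ∑' ψ' : Fin n → ℤ, ∑' x : ℤ, F (Fin.cons x ψ') := by
          rw [← (Fin.consEquiv (fun _ : Fin (n+1) => ℤ)).tsum_eq F]
          rw [← (Equiv.prodComm (Fin n → ℤ) ℤ).tsum_eq]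
          have hs2 : Summable (fun p : (Fin n → ℤ) × ℤ => F (Fin.cons p.2 p.1)) := by
            have := (Fin.consEquiv (fun _ : Fin (n+1) => ℤ)).summable_iff.mpr hFs
            have := (Equiv.prodComm (Fin n → ℤ) ℤ).summable_iff.mpr this
            exact this
          exact hs2.tsum_prod
        let c1 : ℝ := 1 / Real.sqrt (a / (2 * Real.pi))
        let E1 : (Fin n → ℤ) → ℂ := fun ψ' => Complex.exp (((-(1/2) * A' (cst ψ') : ℝ) : ℂ) +
            ((2 * Real.pi * dotp t' (cst ψ') : ℝ) : ℂ) * Complex.I)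
        let g : ℤ → ℝ := fun q => Real.exp (-(2 * Real.pi^2 * ((t0 + q)^2 / a)))
        let H : (Fin n → ℤ) × ℤ → ℂ := fun p => E1 p.1 * (((g p.2 : ℝ) : ℂ) *
          Complex.exp (((-(2 * Real.pi * ((t0 + p.2) * ℓ (cst p.1))) : ℝ) : ℂ) * Complex.I))
        have h2 : ∀ ψ' : Fin n → ℤ, ∑' x : ℤ, F (Fin.cons x ψ') = (c1 : ℂ) * ∑' q : ℤ, H (ψ', q) := by
          intro ψ'
          have e1 : ∀ x : ℤ, F (Fin.cons x ψ') = E1 ψ' *
              Complex.exp (((-(1/2) * (a * ((x:ℝ) + ℓ (cst ψ'))^2) : ℝ) : ℂ) +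
                ((2 * Real.pi * (t0 * x) : ℝ) : ℂ) * Complex.I) := by
            intro x
            simp only [F, E1]
            rw [← Complex.exp_add]
            congr 1
            rw [hcst, ht, dotp_cons, hsplit]
            push_cast
            ring
          simp_rw [e1]
          rw [tsum_mul_left, poisson_one ha]
          have e2 : ∑' q : ℤ, H (ψ', q) = E1 ψ' * ∑' q : ℤ, (((g q : ℝ) : ℂ) *
              Complex.exp (((-(2 * Real.pi * ((t0 + q) * ℓ (cst ψ'))) : ℝ) : ℂ) * Complex.I)) := by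
            rw [← tsum_mul_left]
          rw [e2]
          simp only [c1, g]
          ring
        have hHn : ∀ p, ‖H p‖ = Real.exp (-((1/2) * A' (0 + cst p.1))) * g p.2 := by
          intro p
          simp only [H, E1]
          rw [norm_mul, norm_mul, Complex.norm_exp, Complex.norm_exp, Complex.norm_real,
            Real.norm_of_nonneg (Real.exp_pos _).le]
          have e1 : ((((-(2 * Real.pi * ((t0 + p.2) * ℓ (cst p.1))) : ℝ) : ℂ) * Complex.I)).re = 0 := by
            simp
          rw [e1, Real.exp_zero, mul_one]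
          congr 2
          simp
        have hg : Summable g := by
          obtain ⟨C, _, h⟩ := gauss_shift_bound (c := 2 * Real.pi^2 / a) (by positivity)
          refine (h t0).1.congr (fun q => ?_)
          simp only [g]
          congr 1
          ring
        have hHs : Summable H := by
          apply Summable.of_norm
          simp_rw [hHn]
          exact Summable.mul_of_nonneg (PD_exp_summable hA' (by norm_num) 0) hg
            (fun _ => (Real.exp_pos _).le) (fun _ => (Real.exp_pos _).le)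
        have h3 : ∑' ψ' : Fin n → ℤ, ∑' q : ℤ, H (ψ', q) = ∑' q : ℤ, ∑' ψ' : Fin n → ℤ, H (ψ', q) :=
          (Summable.tsum_comm (f := fun ψ' q => H (ψ', q)) hHs).symm
        have h4 : ∀ q : ℤ, ∑' ψ' : Fin n → ℤ, H (ψ', q) =
            ((g q * (C' * ∑' q' : Fin n → ℤ, Real.exp (-(2 * Real.pi ^ 2 *
              B' ((t' - (t0 + q) • v) + cst q')))) : ℝ) : ℂ) := by
          intro q
          have e1 : ∀ ψ' : Fin n → ℤ, H (ψ', q) = ((g q : ℝ) : ℂ) *
              Complex.exp (((-(1/2) * A' (cst ψ') : ℝ) : ℂ) +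
                ((2 * Real.pi * dotp (t' - (t0 + q) • v) (cst ψ') : ℝ) : ℂ) * Complex.I) := by
            intro ψ'
            simp only [H, E1]
            rw [mul_left_comm, ← Complex.exp_add]
            congr 2
            have : dotp (t' - (t0 + (q:ℝ)) • v) (cst ψ') = dotp t' (cst ψ') - (t0 + q) * ℓ (cst ψ') := by
              rw [← dotp_lin ℓ (cst ψ')]
              unfold dotp
              rw [Finset.mul_sum, ← Finset.sum_sub_distrib]
              refine Finset.sum_congr rfl (fun i _ => ?_)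
              simp only [Pi.sub_apply, Pi.smul_apply, smul_eq_mul, hv]
              ring
            rw [this]
            push_cast
            ring
          simp_rw [e1]
          rw [tsum_mul_left, hth]
          push_cast
          rfl
        have h5 : ∑' q : Fin (n+1) → ℤ, Real.exp (-(2 * Real.pi ^ 2 * B (t + cst q))) =
            ∑' q : ℤ, g q * ∑' q' : Fin n → ℤ, Real.exp (-(2 * Real.pi ^ 2 *
              B' ((t' - (t0 + q) • v) + cst q'))) := by
          have hs : Summable (fun q : Fin (n+1) → ℤ => Real.exp (-(2 * Real.pi ^ 2 * B (t + cst q)))) :=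
            PD_exp_summable hPDB (by positivity) t
          rw [← (Fin.consEquiv (fun _ : Fin (n+1) => ℤ)).tsum_eq]
          have hs2 := (Fin.consEquiv (fun _ : Fin (n+1) => ℤ)).summable_iff.mpr hs
          have h6 := hs2.tsum_prod
          refine h6.trans ?_
          refine tsum_congr (fun q => ?_)
          rw [← tsum_mul_left]
          refine tsum_congr (fun q' => ?_)
          simp only [Function.comp, g]
          have e1 : (Fin.consEquiv (fun _ : Fin (n+1) => ℤ)) (q, q') = Fin.cons q q' := rfl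
          rw [e1, ← Real.exp_add]
          congr 1
          have e2 : t + cst (Fin.cons q q' : Fin (n+1) → ℤ) = Fin.cons (t0 + q) (t' + cst q') := by
            rw [ht, hcst]
            funext i
            refine Fin.cases ?_ (fun i => ?_) i <;> simp
          rw [e2, hB]
          have e3 : t' + cst q' - (t0 + (q:ℝ)) • v = t' - (t0 + (q:ℝ)) • v + cst q' := by abel
          rw [e3]
          ring
        have h7 : ∑' ψ, F ψ = (c1 : ℂ) * ∑' q : ℤ, ((g q * (C' * ∑' q' : Fin n → ℤ,
            Real.exp (-(2 * Real.pi ^ 2 * B' ((t' - (t0 + q) • v) + cst q')))) : ℝ) : ℂ) := by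
          rw [h1]
          simp_rw [h2]
          rw [tsum_mul_left, h3]
          simp_rw [h4]
        refine h7.trans ?_
        rw [← Complex.ofReal_tsum, ← Complex.ofReal_mul]
        congr 1
        rw [h5]
        simp_rw [mul_left_comm _ C']
        rw [tsum_mul_left]
        simp only [c1]
        ring

end induct


theorem exists_dual_gen {ι : Type} [Fintype ι] [DecidableEq ι] (A : QuadraticForm ℝ (ι → ℝ))
    (hA : PD (fun z => A z)) : ∃ B, IsDual A B := by
  let e : ι ≃ Fin (Fintype.card ι) := Fintype.equivFin ι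
  let A' : QuadraticForm ℝ (Fin (Fintype.card ι) → ℝ) := A.comp (LinearMap.funLeft ℝ ℝ e)
  have hA'v : ∀ φ, A' φ = A (fun i => φ (e i)) := fun φ => rfl
  have hA' : PD (fun z => A' z) := by
    obtain ⟨η, h0, h1⟩ := hA
    refine ⟨η, h0, fun z => ?_⟩
    have h := h1 (fun i => z (e i))
    simp only [hA'v]
    refine le_trans (le_of_eq ?_) h
    congr 1
    rw [← Equiv.sum_comp e (fun i => z i ^ 2)]
  obtain ⟨B', hB', hBd, C, hC, hth⟩ := exists_dual_fin _ A' hA'
  let B : QuadraticForm ℝ (ι → ℝ) := B'.comp (LinearMap.funLeft ℝ ℝ e.symm)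
  have hBv : ∀ z, B z = B' (fun i => z (e.symm i)) := fun z => rfl
  have hdot : ∀ z φ : ι → ℝ, dotp (fun i => z (e.symm i)) (fun i => φ (e.symm i)) = dotp z φ := by
    intro z φ
    unfold dotp
    exact Equiv.sum_comp e.symm (fun i => z i * φ i)
  have hAe : ∀ φ : ι → ℝ, A' (fun i => φ (e.symm i)) = A φ := by
    intro φ
    rw [hA'v]
    simp
  refine ⟨B, ?_, ?_, C, hC, ?_⟩
  · obtain ⟨η, h0, h1⟩ := hB'
    refine ⟨η, h0, fun z => ?_⟩
    have h := h1 (fun i => z (e.symm i))
    simp only [hBv]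
    refine le_trans (le_of_eq ?_) h
    congr 1
    rw [← Equiv.sum_comp e.symm (fun i => z i ^ 2)]
  · intro z φ
    have h := hBd (fun i => z (e.symm i)) (fun i => φ (e.symm i))
    rw [hdot, hAe] at h
    exact h
  · intro t
    have h := hth (fun i => t (e.symm i))
    have hc : ∀ ψ : ι → ℤ, (cst (fun i => ψ (e.symm i)) : Fin (Fintype.card ι) → ℝ) =
        fun i => (cst ψ) (e.symm i) := fun ψ => rfl
    let E : (ι → ℤ) ≃ (Fin (Fintype.card ι) → ℤ) := Equiv.arrowCongr e (Equiv.refl ℤ)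
    have hE : ∀ ψ, E ψ = fun i => ψ (e.symm i) := fun ψ => rfl
    rw [← E.tsum_eq, ← E.tsum_eq] at h
    simp_rw [hE, hc, hdot, hAe] at h
    refine h.trans ?_
    congr 2

theorem exists_dual {ι : Type} [Fintype ι] [DecidableEq ι] (A : QuadraticForm ℝ (ι → ℝ))
    (hA : PD (fun z => A z)) : ∃ B : QuadraticForm ℝ (ι → ℝ), PD (fun z => B z) ∧
      (∀ z φ : ι → ℝ, 2 * dotp z φ - A φ ≤ B z) ∧
      ∀ t : ι → ℝ, ∑' ψ : ι → ℤ, Real.exp (-((1/2) * A (cst ψ))) * Real.cos (2 * Real.pi * dotp t (cst ψ))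
        = chi ⊤ (fun z => 2 * Real.pi^2 * B z) t * ∑' ψ : ι → ℤ, Real.exp (-((1/2) * A (cst ψ))) := by
  classical
  obtain ⟨B, hB, hBd, C, hC, hth⟩ := exists_dual_gen A hA
  refine ⟨B, hB, hBd, fun t => ?_⟩
  have hPD : PD (fun z => 2 * Real.pi^2 * B z) := by
    obtain ⟨η, h0, h1⟩ := hB
    refine ⟨2 * Real.pi^2 * η, by positivity, fun z => ?_⟩
    have := h1 z
    rw [mul_assoc]
    exact mul_le_mul_of_nonneg_left this (by positivity)
  have hths : ∀ t : ι → ℝ, th ⊤ (fun z => 2 * Real.pi^2 * B z) t =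
      ∑' q : ι → ℤ, Real.exp (-(2 * Real.pi ^ 2 * B (t + cst q))) := by
    intro t
    rw [th_eq]
    refine tsum_congr (fun q => ?_)
    rw [if_pos]
    exact Submodule.mem_top
  have hre : ∀ t : ι → ℝ, ∑' ψ : ι → ℤ, Real.exp (-((1/2) * A (cst ψ))) *
      Real.cos (2 * Real.pi * dotp t (cst ψ)) = C * th ⊤ (fun z => 2 * Real.pi^2 * B z) t := by
    intro t
    have h := congrArg Complex.re (hth t)
    rw [Complex.ofReal_re, ← hths] at h
    rw [← h]
    have hs : Summable (fun ψ : ι → ℤ => Complex.exp (((-(1/2) * A (cst ψ) : ℝ) : ℂ) +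
      ((2 * Real.pi * dotp t (cst ψ) : ℝ) : ℂ) * Complex.I)) := by
      apply Summable.of_norm
      have : ∀ ψ : ι → ℤ, ‖Complex.exp (((-(1/2) * A (cst ψ) : ℝ) : ℂ) +
        ((2 * Real.pi * dotp t (cst ψ) : ℝ) : ℂ) * Complex.I)‖ =
          Real.exp (-((1/2) * A (0 + cst ψ))) := by
        intro ψ
        rw [Complex.norm_exp]
        congr 1
        simp
      simp_rw [this]
      exact PD_exp_summable hA (by norm_num) 0
    rw [Complex.re_tsum hs]
    refine tsum_congr (fun ψ => ?_)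
    rw [Complex.exp_add, Complex.exp_mul_I, ← Complex.ofReal_exp, ← Complex.ofReal_cos,
      ← Complex.ofReal_sin]
    rw [Complex.re_ofReal_mul, Complex.add_re, Complex.ofReal_re, Complex.mul_I_re,
      Complex.ofReal_im, neg_zero, add_zero]
    congr 2
    ring
  have h0 := hre 0
  have hd0 : ∀ φ : ι → ℝ, dotp (0 : ι → ℝ) φ = 0 := by
    intro φ; simp [dotp]
  simp_rw [hd0, mul_zero, Real.cos_zero, mul_one] at h0
  rw [hre t, h0]
  unfold chi
  have := th_pos hPD ⊤ 0
  field_simp

end Pool.Agent.Helper95_SOS
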