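import Pool.Agent.Helper95_SOS.Stage
import Pool.Agent.Helper95_SOS.Dual

/-!
The multiscale induction for the ratio of theta sums.
-/

set_option autoImplicit false

open scoped BigOperators

namespace Pool.Agent.Helper95_SOS

theorem MA.const {V : Type} [DecidableEq V] (s : Set V) {c : ℝ} (hc : 0 ≤ c) :
    MA s (fun _ : V → ℝ => c) where
  dep := fun _ _ _ => rfl
  aff := by intro _ _ _; ring
  nn := by intro _ _; exact hc
  mono := by intro _ _ _ _; exact le_rfl

theorem single_le {κ : Type} (I : Finset κ) (f : κ → ℝ) (hf : ∀ i, 0 ≤ f i) {a : κ} (ha : a ∈ I) :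
    f a ≤ ∑ i ∈ I, f i := Finset.single_le_sum (fun i _ => hf i) ha

/-- total failure polynomial -/
noncomputable def Ftot (K : ℕ) (x : Var → ℝ) : ℝ :=
  ∑ k ∈ Finset.range K, ∑ Q ∈ bx (dk k + 1), ap k Q x +
    ∑ j ∈ Finset.range (K+1), ∑ z ∈ bx 8, x (Var.blk j z) + x Var.outer

theorem Ftot_MA (K : ℕ) : MA Set.univ (Ftot K) := by
  have h1 : MA Set.univ (fun x : Var → ℝ => ∑ k ∈ Finset.range K, ∑ Q ∈ bx (dk k + 1), ap k Q x) :=
    MA.sum _ _ (fun k _ => MA.sum _ _ (fun Q _ => (ap_MA k Q).weaken (Set.subset_univ _)))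
  have h2 : MA Set.univ (fun x : Var → ℝ => ∑ j ∈ Finset.range (K+1), ∑ z ∈ bx 8, x (Var.blk j z)) :=
    MA.sum _ _ (fun j _ => MA.sum _ _ (fun z _ => (MA.var _).weaken (Set.subset_univ _)))
  exact MA.add (MA.add h1 h2) ((MA.var _).weaken (Set.subset_univ _))

theorem fail {K : ℕ} {M : ℤ} {Bad : ℕ → Pt → Prop} {ω : Set Var} {xv : Var → ℝ}
    (hM : ∀ k, k < K → 2 * lam (k+1) + Rk k ≤ M)
    (hxv : ∀ v, 0 ≤ xv v) (hs : ∀ s, Var.site s ∈ ω → 1 ≤ xv (Var.site s))
    (hb : ∀ j, j ≤ K → ∀ z, Bad j z → 1 ≤ xv (Var.blk j z)) {k : ℕ} (hk : k < K)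
    (ho : ∀ j, j < k → ∀ z, Var.omg j z ∈ ω → 1 ≤ xv (Var.omg j z)) (hE : ¬ Em K M Bad ω k) :
    1 ≤ Ftot K xv := by
  unfold Em at hE
  push Not at hE
  obtain ⟨x, hx, hxn⟩ := hE
  have n1 : 0 ≤ ∑ k ∈ Finset.range K, ∑ Q ∈ bx (dk k + 1), ap k Q xv :=
    Finset.sum_nonneg (fun k _ => Finset.sum_nonneg (fun Q _ => (ap_MA k Q).nn xv hxv))
  have n2 : 0 ≤ ∑ j ∈ Finset.range (K+1), ∑ z ∈ bx 8, xv (Var.blk j z) :=
    Finset.sum_nonneg (fun k _ => Finset.sum_nonneg (fun Q _ => hxv _))
  have n3 := hxv Var.outer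
  have hR := Rk_pos k
  have hl := lam_pos k
  have hl' := lam_succ_ge k
  unfold Ftot
  rcases live_claim hxv hs hb k hk.le ho x hx (by have := hM k hk; omega) with h | h
  · obtain ⟨j, hkj, hjK, z, hz, y, hy, hxy⟩ := h
    have h1 := hb j hjK z hz
    have hly : nm y ≤ 3 * lam j := by
      have h2 := nm_add_le y x
      rw [nm_sub_comm] at h2
      have h3 := lam_mono (show k + 1 ≤ j from hkj)
      omega
    have hzm : z ∈ bx 8 := by
      rw [mem_bx, nm_le_iff, abs_le, abs_le]
      rw [nm_le_iff, abs_le, abs_le] at hly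
      unfold region at hy
      simp only [Set.mem_ofPred_eq] at hy
      have hlj := lam_pos j
      have l1 : lam j * (-8) ≤ lam j * z.1 := by omega
      have l2 : lam j * z.1 ≤ lam j * 8 := by omega
      have l3 : lam j * (-8) ≤ lam j * z.2 := by omega
      have l4 : lam j * z.2 ≤ lam j * 8 := by omega
      exact ⟨⟨le_of_mul_le_mul_left l1 hlj, le_of_mul_le_mul_left l2 hlj⟩,
        ⟨le_of_mul_le_mul_left l3 hlj, le_of_mul_le_mul_left l4 hlj⟩⟩
    have h2 : xv (Var.blk j z) ≤ ∑ z ∈ bx 8, xv (Var.blk j z) :=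
      Finset.single_le_sum (f := fun z => xv (Var.blk j z)) (fun w _ => hxv _) hzm
    have h3 : ∑ z ∈ bx 8, xv (Var.blk j z) ≤ ∑ j ∈ Finset.range (K+1), ∑ z ∈ bx 8, xv (Var.blk j z) :=
      Finset.single_le_sum (f := fun j => ∑ z ∈ bx 8, xv (Var.blk j z))
        (fun j _ => Finset.sum_nonneg (fun w _ => hxv _)) (Finset.mem_range.mpr (by omega))
    linarith
  · have hc : cell k x ∈ bx (dk k + 1) := by
      rw [mem_bx, nm_le_iff, abs_le, abs_le]
      rw [nm_le_iff, abs_le, abs_le, ← dk_mul] at hxn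
      have c1 := cell_bounds k x.1
      have c2 := cell_bounds k x.2
      unfold cell
      simp only
      have l1 : Rk k * (-(dk k + 1)) < Rk k * (x.1 / Rk k + 1) := by
        have : Rk k * (-(dk k + 1)) = -(dk k * Rk k) - Rk k := by ring
        rw [mul_add, mul_one]; omega
      have l2 : Rk k * (x.1 / Rk k) ≤ Rk k * (dk k) := by
        have : Rk k * dk k = dk k * Rk k := by ring
        omega
      have l3 : Rk k * (-(dk k + 1)) < Rk k * (x.2 / Rk k + 1) := by
        have : Rk k * (-(dk k + 1)) = -(dk k * Rk k) - Rk k := by ring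
        rw [mul_add, mul_one]; omega
      have l4 : Rk k * (x.2 / Rk k) ≤ Rk k * (dk k) := by
        have : Rk k * dk k = dk k * Rk k := by ring
        omega
      have g1 := lt_of_mul_lt_mul_left l1 hR.le
      have g2 := le_of_mul_le_mul_left l2 hR
      have g3 := lt_of_mul_lt_mul_left l3 hR.le
      have g4 := le_of_mul_le_mul_left l4 hR
      omega
    have h2 := single_le (bx (dk k + 1)) (fun Q => ap k Q xv) (fun w => (ap_MA k w).nn xv hxv) hc
    have h4 := single_le (Finset.range K) (fun k => ∑ Q ∈ bx (dk k + 1), ap k Q xv)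
        (fun j => Finset.sum_nonneg (fun w _ => (ap_MA j w).nn xv hxv)) (Finset.mem_range.mpr hk)
    linarith

/-! ### dependence -/

section dep
variable {K : ℕ} {N M : ℤ} {Bad : ℕ → Pt → Prop} {ω ω' : Set Var}

/-- two outcomes agree up to stage `k` -/
def agree (k : ℕ) (ω ω' : Set Var) : Prop := (∀ x, Var.site x ∈ ω ↔ Var.site x ∈ ω') ∧
  ∀ j, j < k → ∀ z, Var.omg j z ∈ ω ↔ Var.omg j z ∈ ω'

theorem live_agree {j k : ℕ} (h : agree k ω ω') (hj : j ≤ k) : live K M Bad ω j = live K M Bad ω' j :=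
  live_dep j h.1 (fun i hi => h.2 i (lt_of_lt_of_le hi hj))

theorem Em_agree {j k : ℕ} (h : agree k ω ω') (hj : j ≤ k) : Em K M Bad ω j ↔ Em K M Bad ω' j := by
  unfold Em
  rw [live_agree h hj]

theorem obst_agree {k : ℕ} (h : agree k ω ω') : ∀ j, j ≤ k → obst K M Bad ω (j+1) = obst K M Bad ω' (j+1) := by
  intro j
  induction j with
  | zero =>
      intro hj
      simp only [obst, cen]
      rw [live_agree h hj]
  | succ j ih =>
      intro hj
      have h1 := ih (by omega)
      show obst K M Bad ω (j+1) ∪ {O | ∃ c ∈ cen K M Bad ω (j+1), O = lball c (rho (j+1))} =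
        obst K M Bad ω' (j+1) ∪ {O | ∃ c ∈ cen K M Bad ω' (j+1), O = lball c (rho (j+1))}
      rw [h1]
      simp only [cen]
      rw [live_agree h hj]

theorem Yk_agree {j k : ℕ} (h : agree k ω ω') (hj : j ≤ k) (c : Pt) :
    Yk K N M Bad ω j c = Yk K N M Bad ω' j c := by
  ext i
  rw [mem_Yk, mem_Yk, live_agree h hj]

theorem Us_agree {k : ℕ} (h : agree k ω ω') : ∀ j, j ≤ k → Us K N M Bad ω j = Us K N M Bad ω' j := by
  intro j
  induction j with
  | zero =>
      intro _
      ext z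
      rw [mem_Us_zero, mem_Us_zero]
      simp only [h.1]
  | succ j ih =>
      intro hj
      ext z
      rw [mem_Us_succ, mem_Us_succ, ih (by omega), live_agree h (show j ≤ k by omega)]
      have h2 := h.2 j (by omega)
      simp only [h2, Yk_agree (K := K) (M := M) (Bad := Bad) h (show j ≤ k by omega)]

end dep

/-! ### forms -/

section forms
variable {K : ℕ} {N M m : ℤ} {Bad : ℕ → Pt → Prop} {ω : Set Var}

variable (K M m Bad ω) in
/-- gradients of the allowed functions -/
noncomputable def Ws (k : ℕ) : Submodule ℝ (HH m) := (Vs K M Bad ω k).map (grad m)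

/-- the form at a stage -/
noncomputable def Qf (T : (Ix N → ℝ) →ₗ[ℝ] HH m) (o : Ix N) (W : Submodule ℝ (HH m)) (a g η : ℝ) :
    QuadraticForm ℝ (Ix N → ℝ) :=
  a • pform W T + g • ((QuadraticMap.sq (R := ℝ)).comp (LinearMap.proj o)) +
    η • ∑ i, (QuadraticMap.sq (R := ℝ)).comp (LinearMap.proj i)

theorem Qf_apply (T : (Ix N → ℝ) →ₗ[ℝ] HH m) (o : Ix N) (W : Submodule ℝ (HH m)) (a g η : ℝ)
    (z : Ix N → ℝ) : Qf T o W a g η z = a * ‖W.starProjection (T z)‖^2 + g * (z o)^2 + η * ∑ i, (z i)^2 := by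
  unfold Qf
  simp only [_root_.add_apply, _root_.smul_apply, pform_apply, _root_.sum_apply,
    sq_comp_apply, LinearMap.proj_apply, smul_eq_mul]

theorem Qf_PD (T : (Ix N → ℝ) →ₗ[ℝ] HH m) (o : Ix N) (W : Submodule ℝ (HH m)) {a g η : ℝ}
    (ha : 0 ≤ a) (hg : 0 ≤ g) (hη : 0 < η) : PD (fun z => Qf T o W a g η z) := by
  refine ⟨η, hη, fun z => ?_⟩
  simp only [Qf_apply]
  have h1 : 0 ≤ a * ‖W.starProjection (T z)‖^2 := by positivity
  have h2 : 0 ≤ g * (z o)^2 := by positivity
  linarith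

/-- **gain at one stage** -/
theorem stage_gain (T : (Ix N → ℝ) →ₗ[ℝ] HH m)
    (hT : ∀ z, ∀ φ ∈ Supp M, inner ℝ (T z) (grad m φ) = ∑ i, z i * φ i.1)
    {k : ℕ} (o : Ix N) (ho : o.1 = 0) (hE : ∀ j, j ≤ k → Em K M Bad ω j) (hMk : 2 * lam (k+1) ≤ M)
    {z : Ix N → ℝ} (hz : z ∈ Us K N M Bad ω k) :
    ‖(Ws K M m Bad ω (k+1)).starProjection (T z)‖^2 +
      ((∑ c ∈ isoF K M Bad ω k, (chg (Yk K N M Bad ω k c) z)^2 / (648 / (k + 13))) +
        (z o)^2 / (648 / (k+13))) ≤
      ‖(Ws K M m Bad ω k).starProjection (T z)‖^2 := by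
  classical
  obtain ⟨π, hπ⟩ := exists_flat k (fun j hj => hE j hj.le)
  have hEk := hE k le_rfl
  have hlk := lam_pos (k+1)
  have hlk' := lam_succ_ge k
  have hl := lam_pos k
  have hrl := rho_le k
  have hrp := rho_pos k
  have hRk : Rk k = 32 * lam k := rfl
  -- centres
  let pc : Option Pt → Pt := fun c => match c with
    | none => 0
    | some c => ctr k c
  have hpc : ∀ c ∈ Finset.insertNone (isoF K M Bad ω k), pc c ∈ cen K M Bad ω k := by
    intro c hc
    cases c with
    | none => left; rfl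
    | some c =>
        right
        rw [Finset.mem_insertNone] at hc
        exact ⟨c, (mem_isoF k c).mp (hc c rfl), rfl⟩
  have hctr0 : ∀ c, iso k c (live K M Bad ω k) → 2 * lam (k+1) - Rk k ≤ nm (ctr k c) := by
    intro c hc
    obtain ⟨x, hx, hxg, _⟩ := hc.1
    have h1 := hEk x hx
    have h2 := grp_ball hxg
    have h3 := nm_add_le x (ctr k c)
    omega
  have hpcne : ∀ c ∈ Finset.insertNone (isoF K M Bad ω k), ∀ c' ∈ Finset.insertNone (isoF K M Bad ω k),
      c ≠ c' → pc c ≠ pc c' := by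
    have h0 : nm (0:Pt) = 0 := by simp [nm]
    intro c hc c' hc' hne heq
    rw [Finset.mem_insertNone] at hc hc'
    cases c with
    | none =>
        cases c' with
        | none => exact hne rfl
        | some c' =>
            have h1 := hctr0 c' ((mem_isoF k c').mp (hc' c' rfl))
            have h2 : (0:Pt) = ctr k c' := heq
            rw [← h2, h0] at h1
            omega
    | some c =>
        cases c' with
        | none =>
            have h1 := hctr0 c ((mem_isoF k c).mp (hc c rfl))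
            have h2 : ctr k c = (0:Pt) := heq
            rw [h2, h0] at h1
            omega
        | some c' =>
            have hne' : c ≠ c' := fun h => hne (by rw [h])
            have h1 := iso_sep ((mem_isoF k c).mp (hc c rfl)) ((mem_isoF k c').mp (hc' c' rfl)) hne'
            have h2 : ctr k c = ctr k c' := heq
            rw [h2, sub_self, h0] at h1
            omega
  set hb : Pt → Pt → ℝ := fun p => bump π p (bb k) (k+13) with hhb
  have hbV : ∀ p ∈ cen K M Bad ω k, hb p ∈ Vs K M Bad ω k := fun p hp => hb_mem_Vs hπ hEk hMk hp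
  have key := proj_split (Ws K M m Bad ω k) (Ws K M m Bad ω (k+1))
    (Submodule.map_mono (Vs_anti k)) (Finset.insertNone (isoF K M Bad ω k))
    (fun c => grad m (hb (pc c))) (c0 := 648 / (k + 13)) (by positivity)
    (fun c hc => Submodule.mem_map_of_mem (hbV _ (hpc c hc)))
    (fun c hc v hv => by
      obtain ⟨φ, hφ, rfl⟩ := hv
      exact hb_orth hπ m (hpc c hc) hφ)
    (fun c hc c' hc' hne => hb_pair hπ m hEk (hpc c hc) (hpc c' hc') (hpcne c hc c' hc' hne))
    (fun c hc => by
      rw [norm_grad]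
      exact hb_energy hπ (pc c) (bx m)) (T z)
  -- pairings
  have hpair : ∀ p ∈ cen K M Bad ω k, inner ℝ (T z) (grad m (hb p)) = z o * hb p 0 +
      ∑ i ∈ Finset.univ.filter (fun i : Ix N => i.1 ∈ live K M Bad ω k), z i * hb p i.1 := by
    intro p hp
    have h1 := hbV p hp
    rw [hT z _ h1.1.1]
    exact charge_id k o ho hE z hz _ h1.2
  have e0 : inner ℝ (T z) (grad m (hb 0)) = z o := by
    rw [hpair 0 (Or.inl rfl)]
    have h1 : hb 0 0 = 1 := by
      apply hb_one hπ
      simp [nm]; omega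
    rw [h1, mul_one, Finset.sum_eq_zero, add_zero]
    intro i hi
    rw [Finset.mem_filter] at hi
    have h2 : hb 0 i.1 = 0 := by
      apply hb_zero hπ
      rw [sub_zero]
      have := hEk i.1 hi.2
      omega
    rw [h2, mul_zero]
  have ec : ∀ c ∈ isoF K M Bad ω k, inner ℝ (T z) (grad m (hb (ctr k c))) =
      chg (Yk K N M Bad ω k c) z := by
    intro c hc
    rw [mem_isoF] at hc
    rw [hpair (ctr k c) (Or.inr ⟨c, hc, rfl⟩)]
    have h1 : hb (ctr k c) 0 = 0 := by
      apply hb_zero hπ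
      have := hctr0 c hc
      rw [nm_sub_comm, sub_zero]
      omega
    rw [h1, mul_zero, zero_add, chg_apply]
    have h2 : Yk K N M Bad ω k c ⊆ Finset.univ.filter (fun i : Ix N => i.1 ∈ live K M Bad ω k) := by
      intro i hi
      rw [mem_Yk] at hi
      rw [Finset.mem_filter]
      exact ⟨Finset.mem_univ _, hi.1⟩
    rw [← Finset.sum_subset h2]
    · refine Finset.sum_congr rfl (fun i hi => ?_)
      rw [mem_Yk] at hi
      have h3 : hb (ctr k c) i.1 = 1 := by
        apply hb_one hπ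
        have := grp_ball hi.2
        omega
      rw [h3, mul_one]
    · intro i hi hi'
      rw [Finset.mem_filter] at hi
      rw [mem_Yk] at hi'
      have h3 : hb (ctr k c) i.1 = 0 := by
        apply hb_zero hπ
        by_contra hcon
        push Not at hcon
        exact hi' ⟨hi.2, hc.2.2 i.1 hi.2 (ball_box (by omega))⟩
      rw [h3, mul_zero]
  rw [Finset.sum_insertNone] at key
  have e1 : ∑ c ∈ isoF K M Bad ω k, (inner ℝ (T z) (grad m (hb (pc (some c)))))^2 / (648 / ((k:ℝ) + 13)) =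
      ∑ c ∈ isoF K M Bad ω k, (chg (Yk K N M Bad ω k c) z)^2 / (648 / (k + 13)) := by
    refine Finset.sum_congr rfl (fun c hc => ?_)
    have : pc (some c) = ctr k c := rfl
    rw [this, ec c hc]
  have e2 : pc none = 0 := rfl
  rw [e1, e2, e0] at key
  linarith

end forms

end Pool.Agent.Helper95_SOS
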