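import Pool.Agent.Helper95_SOS.Weight

/-!
The bound of the characteristic function of the height at the origin.
-/

set_option autoImplicit false

open scoped BigOperators

namespace Pool.Agent.Helper95_SOS

theorem del_le (n : ℕ) {S : ℝ} (h : (n:ℝ) + 3 ≤ S) : del S ≤ (1/2)^n := by
  unfold del
  have h1 : Real.exp (-(S - 2)) ≤ Real.exp (-((n:ℝ) + 1)) := by
    apply Real.exp_le_exp.mpr; linarith
  have h2 : Real.exp (-((n:ℝ) + 1)) = (Real.exp (-1))^(n+1) := by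
    rw [← Real.exp_nat_mul]
    congr 1
    push_cast; ring
  have h3 : Real.exp (-1) ≤ 1/2 := by
    rw [Real.exp_neg, ← one_div]
    apply one_div_le_one_div_of_le (by norm_num)
    have := Real.add_one_le_exp (1:ℝ)
    linarith
  have h4 : (Real.exp (-1))^(n+1) ≤ (1/2)^(n+1) := pow_le_pow_left₀ (Real.exp_pos _).le h3 _
  have h5 : ((1:ℝ)/2)^(n+1) = (1/2)^n * (1/2) := pow_succ _ _
  linarith

theorem Au_PD {N : ℤ} (o : Ix N) (u : Bd N → ℝ) (hu : ∀ p, 0 < u p) : PD (fun z => Au u z) := by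
  obtain ⟨i0, _, h0⟩ := Finset.exists_min_image Finset.univ (fun i : Ix N => u (Sum.inr i))
    ⟨o, Finset.mem_univ o⟩
  refine ⟨u (Sum.inr i0), hu _, fun z => ?_⟩
  simp only
  rw [Au_apply, Fintype.sum_sum_type]
  have h1 : 0 ≤ ∑ p : Ix N × Ix N, u (Sum.inl p) * (lbd (Sum.inl p) z)^2 :=
    Finset.sum_nonneg (fun p _ => mul_nonneg (hu _).le (sq_nonneg _))
  have h2 : u (Sum.inr i0) * ∑ i, z i ^ 2 ≤ ∑ i : Ix N, u (Sum.inr i) * (lbd (Sum.inr i) z)^2 := by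
    rw [Finset.mul_sum]
    apply Finset.sum_le_sum
    intro i _
    rw [lbd_inr]
    exact mul_le_mul_of_nonneg_right (h0 i (Finset.mem_univ i)) (sq_nonneg _)
  linarith

theorem dotp_single {N : ℤ} (o : Ix N) (t : ℝ) (ψ : Ix N → ℤ) :
    dotp (t • Pi.single o (1:ℝ)) (cst ψ) = t * (ψ o : ℝ) := by
  unfold dotp
  rw [Finset.sum_eq_single o]
  · simp [cst_apply]
  · intro i _ hi
    simp [hi]
  · intro h; exact absurd (Finset.mem_univ o) h

theorem Ftot_ge_outer (K : ℕ) {x : Var → ℝ} (hx : ∀ v, 0 ≤ x v) : x Var.outer ≤ Ftot K x := by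
  unfold Ftot
  have n1 : 0 ≤ ∑ k ∈ Finset.range K, ∑ Q ∈ bx (dk k + 1), ap k Q x :=
    Finset.sum_nonneg (fun k _ => Finset.sum_nonneg (fun Q _ => (ap_MA k Q).nn x hx))
  have n2 : 0 ≤ ∑ j ∈ Finset.range (K+1), ∑ z ∈ bx 8, x (Var.blk j z) :=
    Finset.sum_nonneg (fun k _ => Finset.sum_nonneg (fun Q _ => hx _))
  linarith

theorem gauss_bound {K : ℕ} {M N : ℤ} (hM0 : 0 ≤ M) (hM3 : 2 * M + 3 ≤ 2^(lx K + 8))
    (hMk : ∀ k, k < K → 2 * lam (k+1) + Rk k ≤ M) (hMN : M ≤ N) {κ : ℝ} (hκ : 0 < κ) (hκ1 : κ ≤ 1)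
    (ha : 648 ≤ Real.pi^2 / (2 * κ)) (o : Ix N) (ho : o.1 = 0) {t : ℝ} (ht0 : 0 ≤ t)
    (ht : t ≤ 1/4) (hG : 4 ≤ Gk (Real.pi^2 / (2 * κ)) K) (tp : Bd N → ℝ) (u : Bd N → ℝ)
    (hu : ∀ p, 0 < u p) :
    ∑' ψ, Wt ∅ tp u ψ * Real.cos (2 * Real.pi * (t * (ψ o : ℝ))) ≤
      (2 * Real.exp (-(Gk (Real.pi^2 / (2 * κ)) K * t^2)) + Ftot K (xm K M κ (fun p => min (u p) 1))) *
        ∑' ψ, Wt ∅ tp u ψ := by
  classical
  obtain ⟨B, hBPD, hB, hdual⟩ := exists_dual (Au u) (Au_PD o u hu)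
  have h1 := hdual (t • Pi.single o (1:ℝ))
  simp_rw [dotp_single] at h1
  simp_rw [Wt_empty]
  rw [h1]
  have hZ : 0 ≤ ∑' ψ : Ix N → ℤ, Real.exp (-((1/2) * Au u (cst ψ))) :=
    tsum_nonneg (fun ψ => (Real.exp_pos _).le)
  apply mul_le_mul_of_nonneg_right _ hZ
  have hmm : ∀ p, 0 ≤ min (u p) 1 := fun p => le_min (hu p).le zero_le_one
  have hxn := xm_nonneg (K := K) (M := M) hκ hmm
  by_cases hout : ∑ p ∈ (bset K M Var.outer : Finset (Bd N)), min (u p) 1 ≤ eps K κ Var.outer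
  · refine chi_top (K := K) (M := M) (N := N) (m := M + 1)
      (Bad := fun k z => eps K κ (Var.blk k z) < ∑ p ∈ (bset K M (Var.blk k z) : Finset (Bd N)), min (u p) 1)
      (fun j z => hxn (Var.blk j z)) (hxn Var.outer) (fun j _ z hz => ?_) (Au u) B hBPD hB hκ le_rfl
      (fun φ hφ => ?_) hMk hMN o ho ha ht0 ht hG
    · have he := eps_pos K hκ (Var.blk j z)
      show 1 ≤ (∑ p ∈ (bset K M (Var.blk j z) : Finset (Bd N)), min (u p) 1) / eps K κ (Var.blk j z)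
      rw [le_div_iff₀ he, one_mul]
      exact hz.le
    · refine energy hM0 le_rfl hM3 u (fun p => (hu p).le) hκ hκ1 _ (fun k _ z hz => ?_) hout hφ
      exact not_lt.mp hz
  · push Not at hout
    have he := eps_pos K hκ Var.outer
    have h2 : 1 ≤ xm K M κ (fun p => min (u p) 1) Var.outer := by
      show 1 ≤ (∑ p ∈ (bset K M Var.outer : Finset (Bd N)), min (u p) 1) / eps K κ Var.outer
      rw [le_div_iff₀ he, one_mul]
      exact hout.le
    have h3 := Ftot_ge_outer K hxn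
    have hPD2 : PD (fun z => 2 * Real.pi^2 * B z) := by
      obtain ⟨η, h4, h5⟩ := hBPD
      refine ⟨2 * Real.pi^2 * η, by positivity, fun z => ?_⟩
      have := mul_le_mul_of_nonneg_left (h5 z) (by positivity : 0 ≤ 2 * Real.pi^2)
      simp only at this ⊢
      linarith
    have hPar : Par (fun z => 2 * Real.pi^2 * B z) := by
      have := qf_par ((2 * Real.pi^2) • B)
      intro a b
      have h6 := this a b
      simp only [_root_.smul_apply, smul_eq_mul] at h6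
      exact h6
    have h4 := chi_le_one hPD2 hPar ⊤ (t • Pi.single o (1:ℝ))
    have h5 : 0 ≤ 2 * Real.exp (-(Gk (Real.pi^2 / (2 * κ)) K * t^2)) := by positivity
    linarith

/-! ### choice of the inverse temperature -/

theorem lx_ge (k : ℕ) : k * k ≤ lx k := by
  induction k with
  | zero => simp [lx]
  | succ k ih =>
      show (k+1)*(k+1) ≤ lx k + (3*k+37)
      nlinarith

theorem lx_le (k : ℕ) : lx k + 8 ≤ 64 * 4^k := by
  induction k with
  | zero => simp [lx]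
  | succ k ih =>
      show lx k + (3*k+37) + 8 ≤ 64 * 4^(k+1)
      have h : k + 1 ≤ 4^k := by
        have : k < 4^k := Nat.lt_pow_self (by norm_num)
        omega
      rw [pow_succ]
      omega

theorem decay {s : ℝ} (hs : 0 < s) : ∃ B : ℝ, 0 < B ∧ ∀ k : ℕ,
    (2:ℝ)^(31*k) * ((lam k : ℤ) : ℝ)^(-s) ≤ B := by
  refine ⟨(2:ℝ)^(961/(4*s)), by positivity, fun k => ?_⟩
  have h1 : ((lam k : ℤ) : ℝ) = (2:ℝ)^(lx k) := by unfold lam; push_cast; rfl
  rw [h1, ← Real.rpow_natCast 2 (lx k), ← Real.rpow_mul (by norm_num), ← Real.rpow_natCast 2 (31*k),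
    ← Real.rpow_add (by norm_num)]
  apply Real.rpow_le_rpow_of_exponent_le (by norm_num)
  have h2 : ((k:ℝ) * k) ≤ (lx k : ℝ) := by exact_mod_cast lx_ge k
  have h3 : s * ((k:ℝ) * k) ≤ s * (lx k : ℝ) := mul_le_mul_of_nonneg_left h2 hs.le
  rw [le_div_iff₀ (by positivity)]
  push_cast
  nlinarith [sq_nonneg (2 * s * k - 31)]

theorem beta_blk0 {C κ β : ℝ} (hκ : 0 < κ) (h : β * (3 * C * (1024 / κ) * 2^214) ≤ 1) :
    3 * (β * 1^2 * (1 * C)) / (κ / (256 * 2^0 * (0+2)^2)) ≤ (1/2)^214 := by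
  have e214 : (2:ℝ)^214 * (1/2)^214 = 1 := by rw [← mul_pow]; norm_num
  have e2 : 3 * (β * 1^2 * (1 * C)) / (κ / (256 * 2^0 * (0+2)^2)) =
      (β * (3 * C * (1024 / κ) * 2^214)) * (1/2)^214 := by
    have e3 : (β * (3 * C * (1024 / κ) * 2^214)) * (1/2)^214 =
        β * (3 * C * (1024 / κ)) * ((2:ℝ)^214 * (1/2)^214) := by ring
    rw [e3, e214]
    field_simp
    norm_num
    ring
  rw [e2]
  have h2 : (0:ℝ) < (1/2)^214 := by positivity
  have := mul_le_mul_of_nonneg_right h h2.le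
  rw [one_mul] at this
  exact this

theorem beta_blkS {C κ β X Y B : ℝ} (hκ : 0 < κ) (hC : 0 ≤ C) (hβ : 0 < β) (hX0 : 0 ≤ X) (k : ℕ)
    (hY : Y^2 ≤ 2^(4*k+16)) (hX : 2^(31*k) * X ≤ B)
    (h : β * ((3 * C) * (256 / κ) * 2^325 * B) ≤ 1) :
    3 * β * C * 2^(6*k+74) * X / (κ / (256 * 2^(k+1) * Y^2)) ≤ (1/2)^(20*(k+1)+214) := by
  have q1 : 0 ≤ 3 * β * C * 2^(6*k+74) * X := by positivity
  have q2 : (0:ℝ) ≤ 256 * 2^(k+1) := by positivity
  have q3 : 0 ≤ (3 * C) * (256 / κ) * 2^325 := by positivity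
  have h5 : 3 * β * C * 2^(6*k+74) * X / (κ / (256 * 2^(k+1) * Y^2)) ≤
      3 * β * C * 2^(6*k+74) * X * (256 * 2^(k+1) * 2^(4*k+16)) / κ := by
    rw [div_div_eq_mul_div]
    apply div_le_div_of_nonneg_right _ hκ.le
    apply mul_le_mul_of_nonneg_left _ q1
    exact mul_le_mul_of_nonneg_left hY q2
  refine le_trans h5 ?_
  have e3 : (2:ℝ)^325 * 2^(31*k) = 2^(6*k+74) * 2^(k+1) * 2^(4*k+16) * 2^(20*(k+1)+214) := by
    rw [← pow_add, ← pow_add, ← pow_add, ← pow_add]; congr 1; ring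
  have e4 : ((2:ℝ)^(20*(k+1)+214)) * (1/2)^(20*(k+1)+214) = 1 := by
    rw [← mul_pow]; norm_num
  have h9 : (0:ℝ) < (1/2)^(20*(k+1)+214) := by positivity
  generalize ((1:ℝ)/2)^(20*(k+1)+214) = w at *
  generalize (2:ℝ)^(20*(k+1)+214) = w' at *
  generalize (2:ℝ)^325 = w'' at *
  have e2 : 3 * β * C * 2^(6*k+74) * X * (256 * 2^(k+1) * 2^(4*k+16)) / κ =
      (β * ((3 * C) * (256 / κ) * w'' * (2^(31*k) * X))) * w := by
    calc 3 * β * C * 2^(6*k+74) * X * (256 * 2^(k+1) * 2^(4*k+16)) / κ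
        = (3 * β * C * X * (256 / κ)) * (2^(6*k+74) * 2^(k+1) * 2^(4*k+16)) * 1 := by ring
      _ = (3 * β * C * X * (256 / κ)) * ((2^(6*k+74) * 2^(k+1) * 2^(4*k+16) * w')) * w := by
          rw [← e4]; ring
      _ = (3 * β * C * X * (256 / κ)) * (w'' * 2^(31*k)) * w := by rw [e3]
      _ = _ := by ring
  rw [e2]
  have h7 := mul_le_mul_of_nonneg_left hX q3
  have h8 := mul_le_mul_of_nonneg_left h7 hβ.le
  have h10 := mul_le_mul_of_nonneg_right (le_trans h8 h) h9.le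
  rw [one_mul] at h10
  exact h10

theorem beta_out {C κ β X Y B Z l lq : ℝ} (hκ : 0 < κ) (hC : 0 ≤ C) (hβ : 0 < β) (hX0 : 0 ≤ X)
    (hlq : 0 ≤ lq) (K : ℕ) (hZ : Z ≤ 16641 * l^2) (hlX : l^2 * lq = X)
    (hY : Y^2 ≤ 4096 * 2^(4*K)) (hX : 2^(31*K) * X ≤ B)
    (h : β * (100 * (12 * 16641 * C * (8/κ) * 4096 * B)) ≤ 1) :
    3 * (4 * Z * (β * (lq * C))) / (κ / (8 * Y^2)) ≤ 1/100 := by
  have h5 : 3 * (4 * Z * (β * (lq * C))) / (κ / (8 * Y^2)) ≤
      3 * (4 * (16641 * l^2) * (β * (lq * C))) * (8 * (4096 * 2^(4*K))) / κ := by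
    rw [div_div_eq_mul_div]
    apply div_le_div_of_nonneg_right _ hκ.le
    apply mul_le_mul
    · apply mul_le_mul_of_nonneg_left _ (by norm_num)
      apply mul_le_mul_of_nonneg_right _ (by positivity)
      apply mul_le_mul_of_nonneg_left hZ (by norm_num)
    · apply mul_le_mul_of_nonneg_left hY (by norm_num)
    · positivity
    · positivity
  refine le_trans h5 ?_
  have h7 : (2:ℝ)^(4*K) * X ≤ B := by
    have h8 : (2:ℝ)^(4*K) ≤ 2^(31*K) := pow_le_pow_right₀ (by norm_num) (by omega)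
    have := mul_le_mul_of_nonneg_right h8 hX0
    linarith
  have e2 : 3 * (4 * (16641 * l^2) * (β * (lq * C))) * (8 * (4096 * 2^(4*K))) / κ =
      β * (12 * 16641 * C * (8/κ) * 4096 * (2^(4*K) * X)) := by
    rw [← hlX]; ring
  rw [e2]
  have q : 0 ≤ 12 * 16641 * C * (8/κ) * 4096 := by positivity
  have h8 := mul_le_mul_of_nonneg_left h7 q
  have h9 := mul_le_mul_of_nonneg_left h8 hβ.le
  linarith

theorem lamrpow (q : ℝ) (k : ℕ) :
    ((lam k : ℤ) : ℝ)^2 * ((lam k : ℤ) : ℝ)^(-q) = ((lam k : ℤ) : ℝ)^(-(q-2)) := by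
  have hl : (0:ℝ) < ((lam k : ℤ) : ℝ) := by exact_mod_cast lam_pos k
  rw [← Real.rpow_natCast _ 2, ← Real.rpow_add hl]
  congr 1
  push_cast; ring

theorem lx_sq (k : ℕ) : (((lx k : ℕ) : ℝ) + 8)^2 ≤ 4096 * 2^(4*k) := by
  have h3 : ((lx k : ℕ) : ℝ) + 8 ≤ 64 * 4^k := by exact_mod_cast lx_le k
  have h50 : (0:ℝ) ≤ ((lx k : ℕ) : ℝ) + 8 := by
    have := Nat.cast_nonneg (α := ℝ) (lx k)
    linarith
  have h5 := pow_le_pow_left₀ h50 h3 2
  refine le_trans h5 (le_of_eq ?_)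
  rw [mul_pow, ← pow_mul, show (4:ℝ) = 2^2 by norm_num, ← pow_mul]
  rw [show (64:ℝ)^2 = 4096 by norm_num]
  congr 2; ring

theorem exists_beta {q κ : ℝ} (hq : 2 < q) (hκ : 0 < κ) : ∃ β₀ : ℝ, 0 < β₀ ∧ ∀ β : ℝ, 0 < β → β < β₀ →
    (∀ k z K, 3 * (β * ((lam k : ℤ) : ℝ)^2 * (rq q k * Cq q)) / eps K κ (Var.blk k z) ≤
      (1/2)^(20*k+214)) ∧
    (∀ K, 3 * (4 * (2 * (2 * ((Rk K : ℤ) : ℝ)) + 1)^2 * (β * (rq q (K+1) * Cq q))) / eps K κ Var.outer ≤
      1/100) := by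
  obtain ⟨B, hB, hdec⟩ := decay (s := q - 2) (by linarith)
  have hC := Cq_nonneg q
  generalize Cq q = C at *
  -- constants
  obtain ⟨C1, hC1, a1, a2, a3⟩ : ∃ C1 : ℝ, 0 < C1 ∧ (3 * C) * (256 / κ) * 2^325 * B ≤ C1 ∧
      3 * C * (1024 / κ) * 2^214 ≤ C1 ∧ 100 * (12 * 16641 * C * (8/κ) * 4096 * B) ≤ C1 := by
    have p1 : 0 ≤ (3 * C) * (256 / κ) * 2^325 * B := by positivity
    have p2 : 0 ≤ 3 * C * (1024 / κ) * 2^214 := by positivity
    have p3 : 0 ≤ 100 * (12 * 16641 * C * (8/κ) * 4096 * B) := by positivity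
    exact ⟨(3 * C) * (256 / κ) * 2^325 * B + 3 * C * (1024 / κ) * 2^214 +
      100 * (12 * 16641 * C * (8/κ) * 4096 * B) + 1, by linarith, by linarith, by linarith, by linarith⟩
  refine ⟨1 / C1, by positivity, fun β hβ hβ1 => ?_⟩
  have hβC : β * C1 ≤ 1 := by
    rw [lt_div_iff₀ hC1] at hβ1; exact hβ1.le
  have b1 := le_trans (mul_le_mul_of_nonneg_left a1 hβ.le) hβC
  have b2 := le_trans (mul_le_mul_of_nonneg_left a2 hβ.le) hβC
  have b3 := le_trans (mul_le_mul_of_nonneg_left a3 hβ.le) hβC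
  clear a1 a2 a3
  constructor
  · intro k z K
    cases k with
    | zero =>
        simp only [rq, eps]
        have e0 : ((lam 0 : ℤ) : ℝ) = 1 := by simp [lam, lx]
        have e1 : ((lx 0 : ℕ) : ℝ) = 0 := by simp [lx]
        rw [e0, e1]
        exact beta_blk0 hκ b2
    | succ k =>
        simp only [rq, eps]
        have hX0 : 0 ≤ ((lam k : ℤ) : ℝ)^(-(q-2)) :=
          Real.rpow_nonneg (by exact_mod_cast (lam_pos k).le) _
        have e0 : ((lam (k+1) : ℤ) : ℝ) = 2^(3*k+37) * ((lam k : ℤ) : ℝ) := by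
          unfold lam
          rw [show lx (k+1) = lx k + (3*k+37) from rfl, pow_add]
          push_cast; ring
        have e1 : 3 * (β * ((lam (k+1) : ℤ) : ℝ)^2 * (((lam k : ℤ) : ℝ)^(-q) * C)) =
            3 * β * C * 2^(6*k+74) * ((lam k : ℤ) : ℝ)^(-(q-2)) := by
          rw [e0, ← lamrpow, mul_pow, ← pow_mul]
          rw [show (3*k+37)*2 = 6*k+74 by ring]
          ring
        rw [e1]
        have h4 : (((lx (k+1) : ℕ) : ℝ) + 2)^2 ≤ 2^(4*k+16) := by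
          have h5 := lx_sq (k+1)
          have h51 : (0:ℝ) ≤ ((lx (k+1) : ℕ) : ℝ) := Nat.cast_nonneg (lx (k+1))
          have h6 : (((lx (k+1) : ℕ) : ℝ) + 2)^2 ≤ (((lx (k+1) : ℕ) : ℝ) + 8)^2 :=
            pow_le_pow_left₀ (by linarith) (by linarith) 2
          have e2 : (4096:ℝ) * 2^(4*(k+1)) = 2^(4*k+16) := by
            rw [show 4*k+16 = 12 + 4*(k+1) by ring, pow_add (2:ℝ) 12]; norm_num
          rw [e2] at h5
          exact le_trans h6 h5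
        exact beta_blkS hκ hC hβ hX0 k h4 (hdec k) b1
  · intro K
    simp only [rq, eps]
    have hl1 : (1:ℝ) ≤ ((lam K : ℤ) : ℝ) := by exact_mod_cast lam_pos K
    have hX0 : 0 ≤ ((lam K : ℤ) : ℝ)^(-(q-2)) := Real.rpow_nonneg (by linarith) _
    have eR : ((Rk K : ℤ) : ℝ) = 32 * ((lam K : ℤ) : ℝ) := by unfold Rk; push_cast; rfl
    have h1 : (2 * (2 * ((Rk K : ℤ) : ℝ)) + 1)^2 ≤ 16641 * ((lam K : ℤ) : ℝ)^2 := by
      rw [eR]
      have e2 : 16641 * ((lam K : ℤ) : ℝ)^2 = (129 * ((lam K : ℤ) : ℝ))^2 := by ring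
      rw [e2]
      exact pow_le_pow_left₀ (by linarith) (by linarith) 2
    have hrq : 0 ≤ ((lam K : ℤ) : ℝ)^(-q) := Real.rpow_nonneg (by linarith) _
    exact beta_out hκ hC hβ hX0 hrq K h1 (lamrpow q K) (lx_sq K) (hdec K) b3

end Pool.Agent.Helper95_SOS
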