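import Pool.Agent.Helper95_SOS.Top

/-!
Bonds, and the bound of the energy form by the Dirichlet form.
-/

set_option autoImplicit false

open scoped BigOperators

namespace Pool.Agent.Helper95_SOS

/-- bonds -/
abbrev Bd (N : ℤ) := (Ix N × Ix N) ⊕ Ix N

/-- height difference along a bond -/
noncomputable def lbd {N : ℤ} : Bd N → ((Ix N → ℝ) →ₗ[ℝ] ℝ)
  | Sum.inl p => (LinearMap.proj p.1 : (Ix N → ℝ) →ₗ[ℝ] ℝ) - LinearMap.proj p.2
  | Sum.inr i => LinearMap.proj i

/-- Gaussian energy -/
noncomputable def Au {N : ℤ} (u : Bd N → ℝ) : QuadraticForm ℝ (Ix N → ℝ) :=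
  ∑ p, u p • (QuadraticMap.sq (R := ℝ)).comp (lbd p)

theorem Au_apply {N : ℤ} (u : Bd N → ℝ) (φ : Ix N → ℝ) : Au u φ = ∑ p, u p * (lbd p φ)^2 := by
  unfold Au
  simp only [_root_.sum_apply, _root_.smul_apply, sq_comp_apply, smul_eq_mul]

theorem lbd_inl {N : ℤ} (x y : Ix N) (φ : Ix N → ℝ) : lbd (Sum.inl (x, y)) φ = φ x - φ y := rfl

theorem lbd_inr {N : ℤ} (x : Ix N) (φ : Ix N → ℝ) : lbd (Sum.inr x) φ = φ x := rfl

theorem lam_ge (k : ℕ) : (k : ℤ) + 1 ≤ lam k := by
  induction k with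
  | zero => simp [lam, lx]
  | succ k ih =>
      have := lam_succ_ge k
      have := lam_pos k
      push_cast
      omega

theorem exists_lam (r : ℤ) : ∃ k, r ≤ lam k := by
  refine ⟨r.toNat, ?_⟩
  have := lam_ge r.toNat
  omega

/-- level of a distance -/
noncomputable def lev (r : ℤ) : ℕ := Nat.find (exists_lam r)

theorem lev_spec (r : ℤ) : r ≤ lam (lev r) := Nat.find_spec (exists_lam r)

theorem lev_min {r : ℤ} {j : ℕ} (h : j < lev r) : lam j < r := by
  have := Nat.find_min (exists_lam r) h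
  omega

theorem lev_le {r : ℤ} {k : ℕ} (h : r ≤ lam k) : lev r ≤ k := Nat.find_min' (exists_lam r) h

/-- cell of side `lam k` -/
def cl (k : ℕ) (x : Pt) : Pt := (x.1 / lam k, x.2 / lam k)

theorem cl_bounds (k : ℕ) (t : ℤ) : lam k * (t / lam k) ≤ t ∧ t < lam k * (t / lam k) + lam k := by
  have hR := lam_pos k
  have h1 := Int.mul_ediv_add_emod t (lam k)
  have h2 := Int.emod_nonneg t hR.ne'
  have h3 := Int.emod_lt_of_pos t hR
  constructor <;> linarith

open Classical in
/-- variable to which a bond contributes -/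
noncomputable def bvar (K : ℕ) (M : ℤ) {N : ℤ} : Bd N → Option Var
  | Sum.inl p => if p.1.1 = p.2.1 then none else
      if nm (p.1.1 - p.2.1) ≤ lam K then
        some (Var.blk (lev (nm (p.1.1 - p.2.1))) (cl (lev (nm (p.1.1 - p.2.1))) p.1.1))
      else if nm p.1.1 ≤ M ∨ nm p.2.1 ≤ M then some Var.outer else none
  | Sum.inr i => if nm i.1 ≤ M then some Var.outer else none

/-- thresholds -/
noncomputable def eps (K : ℕ) (κ : ℝ) : Var → ℝ
  | Var.blk k _ => κ / (256 * 2^k * ((lx k : ℝ) + 2)^2)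
  | Var.outer => κ / (8 * ((lx K : ℝ) + 8)^2)
  | _ => 1

open Classical in
/-- the bonds of a variable -/
noncomputable def bset (K : ℕ) (M : ℤ) {N : ℤ} (v : Var) : Finset (Bd N) :=
  Finset.univ.filter (fun p => bvar K M p = some v)

theorem mem_bset (K : ℕ) (M : ℤ) {N : ℤ} (v : Var) (p : Bd N) : p ∈ bset K M v ↔ bvar K M p = some v := by
  classical
  unfold bset; rw [Finset.mem_filter]; simp

theorem region_eq (k : ℕ) (z : Pt) (x : Pt) : x ∈ region k z ↔
    x ∈ sqr (lam k * z.1 - lam k, lam k * z.2 - lam k) (2^(lx k + 2)) := by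
  rw [mem_sqr]
  have e : (2:ℤ)^(lx k + 2) = 4 * lam k := by unfold lam; rw [pow_add]; ring
  rw [e]
  unfold region
  simp only [Set.mem_ofPred_eq]
  constructor <;> intro h <;> omega

theorem bond_region {K : ℕ} {M N : ℤ} {k : ℕ} {z : Pt} {x y : Ix N}
    (h : bvar K M (Sum.inl (x, y)) = some (Var.blk k z)) :
    k ≤ K ∧ z = cl k x.1 ∧ k = lev (nm (x.1 - y.1)) ∧ x.1 ∈ region k z ∧ y.1 ∈ region k z ∧ x.1 ≠ y.1 := by
  simp only [bvar] at h
  split_ifs at h with h1 h2 h3
  · injection h with h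
    injection h with hk hz
    have hk' : k = lev (nm (x.1 - y.1)) := hk.symm
    have hz' : z = cl k x.1 := by rw [hk']; exact hz.symm
    have hn := lev_spec (nm (x.1 - y.1))
    rw [← hk', nm_le_iff, abs_le, abs_le] at hn
    simp only [Prod.fst_sub, Prod.snd_sub] at hn
    have c1 := cl_bounds k x.1.1
    have c2 := cl_bounds k x.1.2
    refine ⟨?_, hz', hk', ?_, ?_, h1⟩
    · rw [hk']; exact lev_le h2
    · rw [hz']; unfold region cl; simp only [Set.mem_ofPred_eq]; omega
    · rw [hz']; unfold region cl; simp only [Set.mem_ofPred_eq]; omega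
  · simp at h

theorem class_bound {κ : Type} (P : Finset κ) (u n : κ → ℝ) (hu : ∀ p, 0 ≤ u p) {e E : ℝ} (he : e < 1)
    (hE : 0 ≤ E) (hS : ∑ p ∈ P, min (u p) 1 ≤ e) (hn : ∀ p ∈ P, (n p)^2 ≤ E) :
    ∑ p ∈ P, u p * (n p)^2 ≤ e * E := by
  have h0 : ∀ p, 0 ≤ min (u p) 1 := fun p => le_min (hu p) zero_le_one
  have h1 : ∀ p ∈ P, min (u p) 1 = u p := by
    intro p hp
    have h2 : min (u p) 1 ≤ ∑ p ∈ P, min (u p) 1 :=
      Finset.single_le_sum (f := fun p => min (u p) 1) (fun q _ => h0 q) hp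
    have h3 : min (u p) 1 < 1 := by linarith
    rcases le_total (u p) 1 with h | h
    · exact min_eq_left h
    · rw [min_eq_right h] at h3; exact absurd h3 (lt_irrefl 1)
  calc ∑ p ∈ P, u p * (n p)^2 ≤ ∑ p ∈ P, min (u p) 1 * E := by
        apply Finset.sum_le_sum
        intro p hp
        rw [h1 p hp]
        exact mul_le_mul_of_nonneg_left (hn p hp) (hu p)
    _ = (∑ p ∈ P, min (u p) 1) * E := by rw [Finset.sum_mul]
    _ ≤ e * E := mul_le_mul_of_nonneg_right hS hE

theorem gd_out {M : ℤ} {φ : Pt → ℝ} (hφ : φ ∈ Supp M) {x : Pt} (hx : M + 1 < nm x) : gd φ x = 0 := by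
  have h1 : nm x ≤ nm (x.1 + 1, x.2) + 1 := by
    have := nm_e1 x 0
    simpa using this.2
  have h2 : nm x ≤ nm (x.1, x.2 + 1) + 1 := by
    have := nm_e2 x 0
    simpa using this.2
  have e0 := hφ x (by omega)
  have e1 := hφ (x.1+1, x.2) (by omega)
  have e2 := hφ (x.1, x.2+1) (by omega)
  unfold gd
  rw [e0, e1, e2]; norm_num

theorem gd_sum_total {M m : ℤ} (hm : M + 1 ≤ m) {φ : Pt → ℝ} (hφ : φ ∈ Supp M) (F : Finset Pt) :
    ∑ x ∈ F, gd φ x ≤ ∑ x ∈ bx m, gd φ x := by
  classical
  have h1 : ∑ x ∈ F, gd φ x = ∑ x ∈ F.filter (fun x => x ∈ bx m), gd φ x := by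
    rw [Finset.sum_filter]
    refine Finset.sum_congr rfl (fun x _ => ?_)
    split_ifs with h
    · rfl
    · rw [mem_bx] at h
      exact gd_out hφ (by omega)
  rw [h1]
  apply Finset.sum_le_sum_of_subset_of_nonneg
  · intro x hx; exact (Finset.mem_filter.mp hx).2
  · intro x _ _; exact gd_nonneg φ x

/-- each point is in at most 16 regions -/
theorem overlap (k : ℕ) (Z F : Finset Pt) (g : Pt → ℝ) (hg : ∀ x, 0 ≤ g x)
    (hF : ∀ z ∈ Z, ∀ w ∈ sqr (lam k * z.1 - lam k, lam k * z.2 - lam k) (2^(lx k + 2)), w ∉ F → g w = 0) :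
    ∑ z ∈ Z, ∑ w ∈ sqr (lam k * z.1 - lam k, lam k * z.2 - lam k) (2^(lx k + 2)), g w ≤
      16 * ∑ w ∈ F, g w := by
  classical
  have h1 : ∀ z ∈ Z, ∑ w ∈ sqr (lam k * z.1 - lam k, lam k * z.2 - lam k) (2^(lx k + 2)), g w ≤
      ∑ w ∈ F, if w ∈ region k z then g w else 0 := by
    intro z hz
    rw [← Finset.sum_filter]
    have h2 : ∑ w ∈ sqr (lam k * z.1 - lam k, lam k * z.2 - lam k) (2^(lx k + 2)), g w =
        ∑ w ∈ (sqr (lam k * z.1 - lam k, lam k * z.2 - lam k) (2^(lx k + 2))).filter (fun w => w ∈ F), g w := by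
      rw [Finset.sum_filter]
      refine Finset.sum_congr rfl (fun w hw => ?_)
      split_ifs with h
      · rfl
      · exact hF z hz w hw h
    rw [h2]
    apply Finset.sum_le_sum_of_subset_of_nonneg
    · intro w hw
      rw [Finset.mem_filter] at hw ⊢
      exact ⟨hw.2, (region_eq k z w).mpr hw.1⟩
    · intro w _ _; exact hg w
  refine le_trans (Finset.sum_le_sum h1) ?_
  rw [Finset.sum_comm, Finset.mul_sum]
  apply Finset.sum_le_sum
  intro w _
  rw [← Finset.sum_filter, Finset.sum_const, nsmul_eq_mul]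
  apply mul_le_mul_of_nonneg_right _ (hg w)
  have hsub : Z.filter (fun z => w ∈ region k z) ⊆
      Finset.Icc (w.1 / lam k - 2) (w.1 / lam k + 1) ×ˢ Finset.Icc (w.2 / lam k - 2) (w.2 / lam k + 1) := by
    intro z hz
    have hw := (Finset.mem_filter.mp hz).2
    have hl := lam_pos k
    have c1 := cl_bounds k w.1
    have c2 := cl_bounds k w.2
    unfold region at hw
    simp only [Set.mem_ofPred_eq] at hw
    rw [Finset.mem_product, Finset.mem_Icc, Finset.mem_Icc]
    have f1 : lam k * (w.1 / lam k) < lam k * (z.1 + 3) := by rw [mul_add]; omega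
    have f2 : lam k * z.1 < lam k * (w.1 / lam k + 2) := by rw [mul_add]; omega
    have f3 : lam k * (w.2 / lam k) < lam k * (z.2 + 3) := by rw [mul_add]; omega
    have f4 : lam k * z.2 < lam k * (w.2 / lam k + 2) := by rw [mul_add]; omega
    have g1 := lt_of_mul_lt_mul_left f1 hl.le
    have g2 := lt_of_mul_lt_mul_left f2 hl.le
    have g3 := lt_of_mul_lt_mul_left f3 hl.le
    have g4 := lt_of_mul_lt_mul_left f4 hl.le
    omega
  have h2 := Finset.card_le_card hsub
  rw [Finset.card_product, Int.card_Icc, Int.card_Icc] at h2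
  have e1 : (w.1 / lam k + 1 + 1 - (w.1 / lam k - 2)).toNat = 4 := by omega
  have e2 : (w.2 / lam k + 1 + 1 - (w.2 / lam k - 2)).toNat = 4 := by omega
  rw [e1, e2] at h2
  exact_mod_cast h2

theorem eps_pos (K : ℕ) {κ : ℝ} (hκ : 0 < κ) (v : Var) : 0 < eps K κ v := by
  cases v with
  | site s => simp [eps]
  | omg j z => simp [eps]
  | blk k z => simp only [eps]; positivity
  | outer => simp only [eps]; positivity

theorem eps_lt_one_blk (K : ℕ) {κ : ℝ} (hκ1 : κ ≤ 1) (k : ℕ) (z : Pt) :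
    eps K κ (Var.blk k z) < 1 := by
  simp only [eps]
  rw [div_lt_one (by positivity)]
  have h1 : (1:ℝ) ≤ 2^k := one_le_pow₀ (by norm_num)
  have h2 : (4:ℝ) ≤ ((lx k : ℝ) + 2)^2 := by
    have : (0:ℝ) ≤ (lx k : ℝ) := Nat.cast_nonneg _
    nlinarith
  nlinarith

theorem eps_lt_one_outer (K : ℕ) {κ : ℝ} (hκ1 : κ ≤ 1) : eps K κ Var.outer < 1 := by
  simp only [eps]
  rw [div_lt_one (by positivity)]
  have : (0:ℝ) ≤ (lx K : ℝ) := Nat.cast_nonneg _
  nlinarith

/-- **Energy bound.** -/
theorem energy {K : ℕ} {M N m : ℤ} (hM0 : 0 ≤ M) (hm : M + 1 ≤ m) (hM : 2 * M + 3 ≤ 2^(lx K + 8))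
    (u : Bd N → ℝ) (hu : ∀ p, 0 ≤ u p) {κ : ℝ} (hκ : 0 < κ) (hκ1 : κ ≤ 1)
    (Bad : ℕ → Pt → Prop)
    (hgood : ∀ k, k ≤ K → ∀ z, ¬ Bad k z →
      ∑ p ∈ (bset K M (Var.blk k z) : Finset (Bd N)), min (u p) 1 ≤ eps K κ (Var.blk k z))
    (hout : ∑ p ∈ (bset K M Var.outer : Finset (Bd N)), min (u p) 1 ≤ eps K κ Var.outer)
    {φ : Pt → ℝ} (hφ : φ ∈ Supp M ⊓ constOn (badsets K Bad)) :
    Au u (fun i => φ i.1) ≤ κ * ∑ x ∈ bx m, gd φ x := by
  classical
  set D := ∑ x ∈ bx m, gd φ x with hD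
  have hD0 : 0 ≤ D := Finset.sum_nonneg (fun x _ => gd_nonneg φ x)
  set Φ : Ix N → ℝ := fun i => φ i.1 with hΦ
  rw [Au_apply]
  -- fiberwise decomposition
  set f : Bd N → ℝ := fun p => u p * (lbd p Φ)^2 with hf
  have hf0 : ∀ p, 0 ≤ f p := fun p => mul_nonneg (hu p) (sq_nonneg _)
  -- bonds without variable
  have hnone : ∀ p : Bd N, bvar K M p = none → f p = 0 := by
    intro p hp
    rcases p with ⟨x, y⟩ | x
    · simp only [bvar] at hp
      split_ifs at hp with h1 h2 h3
      · simp only [hf, lbd_inl, hΦ]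
        rw [h1]; simp
      · push Not at h3
        simp only [hf, lbd_inl, hΦ]
        rw [hφ.1 x.1 h3.1, hφ.1 y.1 h3.2]; simp
    · simp only [bvar] at hp
      split_ifs at hp with h1
      push Not at h1
      simp only [hf, lbd_inr, hΦ]
      rw [hφ.1 x.1 h1]; simp
  -- the set of used variables
  let V : Finset Var := insert Var.outer
    ((Finset.range (K+1) ×ˢ bx (N + 1)).image (fun q => Var.blk q.1 q.2))
  have hV : ∀ p : Bd N, ∀ v, bvar K M p = some v → v ∈ V := by
    intro p v hp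
    simp only [V, Finset.mem_insert, Finset.mem_image, Finset.mem_product, Finset.mem_range]
    rcases p with ⟨x, y⟩ | x
    · by_cases hv : ∃ k z, v = Var.blk k z
      · obtain ⟨k, z, rfl⟩ := hv
        right
        have h1 := bond_region hp
        refine ⟨(k, z), ⟨by simp only; omega, ?_⟩, rfl⟩
        rw [h1.2.1, mem_bx, nm_le_iff, abs_le, abs_le]
        have hx := (mem_bx N x.1).mp x.2
        rw [nm_le_iff, abs_le, abs_le] at hx
        have hl := lam_pos k
        have c1 := cl_bounds k x.1.1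
        have c2 := cl_bounds k x.1.2
        unfold cl
        simp only
        obtain ⟨⟨a1, a2⟩, ⟨a3, a4⟩⟩ := hx
        have hN : 0 ≤ N := by omega
        refine ⟨⟨?_, ?_⟩, ⟨?_, ?_⟩⟩
        · by_contra hcon; push Not at hcon; nlinarith
        · by_contra hcon; push Not at hcon; nlinarith
        · by_contra hcon; push Not at hcon; nlinarith
        · by_contra hcon; push Not at hcon; nlinarith
      · left
        push Not at hv
        simp only [bvar] at hp
        split_ifs at hp with h1 h2 h3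
        · injection hp with hp
          exact absurd hp.symm (hv _ _)
        · injection hp with hp
          exact hp.symm
    · left
      simp only [bvar] at hp
      split_ifs at hp
      injection hp with hp
      exact hp.symm
  have hsplit : ∑ p, f p = ∑ v ∈ V, ∑ p ∈ bset K M v, f p := by
    have h1 : ∑ v ∈ V, ∑ p ∈ bset K M v, f p = ∑ p, ∑ v ∈ V, if bvar K M p = some v then f p else 0 := by
      rw [Finset.sum_comm]
      refine Finset.sum_congr rfl (fun v _ => ?_)
      unfold bset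
      rw [Finset.sum_filter]
    rw [h1]
    refine Finset.sum_congr rfl (fun p _ => ?_)
    rcases hb : bvar K M p with _ | v
    · rw [hnone p hb]; simp
    · rw [Finset.sum_eq_single v]
      · simp
      · intro w _ hw
        rw [if_neg]
        intro h
        injection h with h
        exact hw h.symm
      · intro h; exact absurd (hV p v hb) h
  rw [hsplit]
  -- outer
  have hsq0 : ∀ a b : Pt, a ∈ bx (M+1) → b ∈ bx (M+1) → (φ a - φ b)^2 ≤ 4 * ((lx K : ℝ) + 8)^2 * D := by
    intro a b ha hb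
    rw [mem_bx, nm_le_iff, abs_le, abs_le] at ha hb
    have h1 := osc φ (lx K + 8) (-(M+1), -(M+1)) a b
      (by rw [mem_sqr]; simp only; omega) (by rw [mem_sqr]; simp only; omega)
    have h2 := gd_sum_total hm hφ.1 (sqr (-(M+1), -(M+1)) (2^(lx K + 8)))
    have h3 : 4 * ((lx K + 8 : ℕ) : ℝ)^2 * ∑ w ∈ sqr (-(M+1), -(M+1)) (2^(lx K + 8)), gd φ w ≤
        4 * ((lx K + 8 : ℕ) : ℝ)^2 * D := mul_le_mul_of_nonneg_left h2 (by positivity)
    push_cast at h1 h3
    linarith
  have hval : ∀ x : Pt, ∃ x' ∈ bx (M+1), φ x = φ x' := by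
    intro x
    by_cases hx : nm x ≤ M
    · exact ⟨x, (mem_bx _ _).mpr (by omega), rfl⟩
    · push Not at hx
      refine ⟨(M+1, 0), ?_, ?_⟩
      · rw [mem_bx, nm_le_iff, abs_le, abs_le]; simp only; omega
      · rw [hφ.1 x hx, hφ.1 (M+1, 0)]
        rw [lt_nm_iff]; left; rw [lt_abs]; left; simp
  have houter : ∑ p ∈ bset K M Var.outer, f p ≤ (κ / 2) * D := by
    have h1 := class_bound (bset K M Var.outer) u (fun p => lbd p Φ) hu (eps_lt_one_outer K hκ1)
      (E := 4 * ((lx K : ℝ) + 8)^2 * D) (by positivity) hout (by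
        intro p hp
        rcases p with ⟨x, y⟩ | x
        · obtain ⟨x', hx', ex⟩ := hval x.1
          obtain ⟨y', hy', ey⟩ := hval y.1
          rw [lbd_inl]
          simp only [hΦ]
          rw [ex, ey]
          exact hsq0 x' y' hx' hy'
        · obtain ⟨x', hx', ex⟩ := hval x.1
          rw [lbd_inr]
          simp only [hΦ]
          have h0 : φ (M+1, 0) = 0 := by
            apply hφ.1
            rw [lt_nm_iff]; left; rw [lt_abs]; left; simp
          have h2 := hsq0 x' (M+1, 0) hx' (by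
            rw [mem_bx, nm_le_iff, abs_le, abs_le]; simp only; omega)
          rw [h0, sub_zero] at h2
          rw [ex]
          exact h2)
    refine le_trans h1 (le_of_eq ?_)
    simp only [eps]
    have : ((lx K : ℝ) + 8)^2 ≠ 0 := by positivity
    field_simp
    ring
  -- blocks
  have hblk : ∀ k, k ≤ K → ∀ z, ∑ p ∈ bset K M (Var.blk k z), f p ≤
      (κ / (64 * 2^k)) * ∑ w ∈ sqr (lam k * z.1 - lam k, lam k * z.2 - lam k) (2^(lx k + 2)), gd φ w := by
    intro k hk z
    set E := ∑ w ∈ sqr (lam k * z.1 - lam k, lam k * z.2 - lam k) (2^(lx k + 2)), gd φ w with hE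
    have hE0 : 0 ≤ E := Finset.sum_nonneg (fun x _ => gd_nonneg φ x)
    by_cases hbad : Bad k z
    · have h1 : ∑ p ∈ bset K M (Var.blk k z), f p = 0 := by
        apply Finset.sum_eq_zero
        intro p hp
        rw [mem_bset] at hp
        rcases p with ⟨x, y⟩ | x
        · have h2 := bond_region hp
          have h3 := hφ.2 (region k z) ⟨k, hk, z, hbad, rfl⟩ x.1 h2.2.2.2.1 y.1 h2.2.2.2.2.1
          simp only [hf, lbd_inl, hΦ]
          rw [h3]; simp
        · simp only [bvar] at hp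
          split_ifs at hp
          simp at hp
      rw [h1]
      positivity
    · have h1 := class_bound (bset K M (Var.blk k z)) u (fun p => lbd p Φ) hu (eps_lt_one_blk K hκ1 k z)
        (E := 4 * ((lx k : ℝ) + 2)^2 * E) (by positivity) (hgood k hk z hbad) (by
          intro p hp
          rw [mem_bset] at hp
          rcases p with ⟨x, y⟩ | x
          · have h2 := bond_region hp
            have h3 := osc φ (lx k + 2) (lam k * z.1 - lam k, lam k * z.2 - lam k) x.1 y.1
              ((region_eq k z x.1).mp h2.2.2.2.1) ((region_eq k z y.1).mp h2.2.2.2.2.1)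
            push_cast at h3
            rw [lbd_inl]
            exact h3
          · simp only [bvar] at hp
            split_ifs at hp
            simp at hp)
      refine le_trans h1 (le_of_eq ?_)
      simp only [eps]
      have : ((lx k : ℝ) + 2)^2 ≠ 0 := by positivity
      field_simp
      ring
  have hins : Var.outer ∉ (Finset.range (K+1) ×ˢ bx (N + 1)).image (fun q => Var.blk q.1 q.2) := by
    rw [Finset.mem_image]
    rintro ⟨q, _, hq⟩
    simp at hq
  simp only [V]
  rw [Finset.sum_insert hins, Finset.sum_image (by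
    intro a _ b _ h
    simp only [Var.blk.injEq] at h
    exact Prod.ext h.1 h.2), Finset.sum_product]
  have hk : ∀ k ∈ Finset.range (K+1), ∑ z ∈ bx (N+1), ∑ p ∈ bset K M (Var.blk k z), f p ≤
      (κ / 4) * (1/2)^k * D := by
    intro k hk
    have hk' : k ≤ K := by rw [Finset.mem_range] at hk; omega
    refine le_trans (Finset.sum_le_sum (fun z _ => hblk k hk' z)) ?_
    rw [← Finset.mul_sum]
    have h1 := overlap k (bx (N+1)) (bx m) (gd φ) (gd_nonneg φ) (by
      intro z _ w _ hw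
      rw [mem_bx] at hw
      exact gd_out hφ.1 (by omega))
    have h2 := mul_le_mul_of_nonneg_left h1 (by positivity : 0 ≤ κ / (64 * 2^k))
    refine le_trans h2 (le_of_eq ?_)
    rw [← hD, one_div_pow]
    field_simp
    ring
  have hsum := Finset.sum_le_sum hk
  rw [← Finset.sum_mul, ← Finset.mul_sum] at hsum
  have hgeo : ∑ k ∈ Finset.range (K+1), ((1:ℝ)/2)^k ≤ 2 := by
    have h1 := geom_sum_eq (by norm_num : ((1:ℝ)/2) ≠ 1) (K+1)
    rw [h1]
    have h2 : (0:ℝ) < (1/2)^(K+1) := by positivity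
    rw [div_le_iff_of_neg (by norm_num)]
    linarith
  have h3 : κ / 4 * (∑ k ∈ Finset.range (K+1), ((1:ℝ)/2)^k) * D ≤ κ / 4 * 2 * D := by
    apply mul_le_mul_of_nonneg_right _ hD0
    apply mul_le_mul_of_nonneg_left hgeo (by positivity)
  linarith

end Pool.Agent.Helper95_SOS
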