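import Pool.Agent.Helper95_SOS.Osc

/-!
Flattening maps: Lipschitz maps of the plane which are constant on well separated obstacles, and
logarithmic bump functions built from them.
-/

set_option autoImplicit false

open scoped BigOperators

namespace Pool.Agent.Helper95_SOS

/-- the plane with the sup norm -/
abbrev EE := ℝ × ℝ

/-- integer sup norm -/
def nm (x : Pt) : ℤ := max |x.1| |x.2|

/-- embedding -/
def toE (x : Pt) : EE := ((x.1 : ℝ), (x.2 : ℝ))

theorem norm_toE_sub (x y : Pt) : ‖toE x - toE y‖ = ((nm (x - y) : ℤ) : ℝ) := by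
  unfold toE nm
  rw [Prod.mk_sub_mk, Prod.norm_mk, Real.norm_eq_abs, Real.norm_eq_abs]
  simp only [Prod.fst_sub, Prod.snd_sub]
  push_cast
  rfl

theorem nm_le_iff (x : Pt) (r : ℤ) : nm x ≤ r ↔ (|x.1| ≤ r ∧ |x.2| ≤ r) := by
  unfold nm; exact max_le_iff

theorem nm_nonneg (x : Pt) : 0 ≤ nm x := le_trans (abs_nonneg x.1) (le_max_left _ _)

/-- radial profile -/
noncomputable def sig (r0 K r : ℝ) : ℝ := min r (max 0 (K * (r - r0)))

theorem sig_nonneg {r0 K r : ℝ} (hr : 0 ≤ r) : 0 ≤ sig r0 K r := le_min hr (le_max_left _ _)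

theorem sig_le {r0 K r : ℝ} : sig r0 K r ≤ r := min_le_left _ _

theorem sig_ge {r0 K r : ℝ} (hK : 1 ≤ K) (hr : 0 ≤ r) (hr0 : 0 ≤ r0) : r - r0 ≤ sig r0 K r := by
  unfold sig
  apply le_min (by linarith)
  rcases le_total r r0 with h | h
  · exact le_trans (by linarith) (le_max_left _ _)
  · refine le_trans ?_ (le_max_right _ _)
    nlinarith

theorem sig_key {r0 K a b δ : ℝ} (hK : 1 ≤ K) (ha : 0 ≤ a) (hab : a ≤ b) (hr0 : 0 ≤ r0)
    (hδ : b - a ≤ δ) : sig r0 K b * δ + |a * sig r0 K b - b * sig r0 K a| ≤ K * b * δ := by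
  have hb : 0 ≤ b := le_trans ha hab
  have hδ0 : 0 ≤ δ := by linarith
  have hK0 : 0 ≤ K := by linarith
  -- monotonicity of sig r / r
  have hmono : b * sig r0 K a ≤ a * sig r0 K b := by
    unfold sig
    rw [← mul_min_of_nonneg _ _ hb |>.symm, ← mul_min_of_nonneg _ _ ha |>.symm]
    apply min_le_min
    · linarith [mul_comm a b]
    · rw [← mul_max_of_nonneg _ _ hb |>.symm, ← mul_max_of_nonneg _ _ ha |>.symm]
      apply max_le_max
      · simp
      · nlinarith [mul_nonneg (mul_nonneg hK0 hr0) (sub_nonneg.mpr hab)]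
  rw [abs_of_nonneg (by linarith)]
  rcases le_total b r0 with h1 | h1
  · have e1 : sig r0 K b = 0 := by
      unfold sig
      rw [max_eq_left (by nlinarith), min_eq_right hb]
    have e2 : sig r0 K a = 0 := by
      unfold sig
      rw [max_eq_left (by nlinarith), min_eq_right ha]
    rw [e1, e2]
    have := mul_nonneg (mul_nonneg hK0 hb) hδ0
    linarith
  · rcases le_total (K * (b - r0)) b with h2 | h2
    · have e1 : sig r0 K b = K * (b - r0) := by
        unfold sig
        rw [max_eq_right (mul_nonneg hK0 (by linarith)), min_eq_right h2]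
      rcases le_total a r0 with h3 | h3
      · have e2 : sig r0 K a = 0 := by
          unfold sig
          rw [max_eq_left (by nlinarith), min_eq_right ha]
        rw [e1, e2]
        have h4 : a * (b - r0) ≤ r0 * (b - a) := by nlinarith
        have h5 : r0 * (b - a) ≤ r0 * δ := mul_le_mul_of_nonneg_left hδ hr0
        have h6 := mul_le_mul_of_nonneg_left (le_trans h4 h5) hK0
        nlinarith
      · have h4 : K * (a - r0) ≤ a := by nlinarith
        have e2 : sig r0 K a = K * (a - r0) := by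
          unfold sig
          rw [max_eq_right (mul_nonneg hK0 (by linarith)), min_eq_right h4]
        rw [e1, e2]
        have h5 : r0 * (b - a) ≤ r0 * δ := mul_le_mul_of_nonneg_left hδ hr0
        have h6 := mul_le_mul_of_nonneg_left h5 hK0
        nlinarith
    · have e1 : sig r0 K b = b := by
        unfold sig
        rw [min_eq_left (le_trans h2 (le_max_right _ _))]
      rw [e1]
      have h4 : a - sig r0 K a ≤ (K - 1) * δ := by
        rcases le_total a (K * (a - r0)) with h5 | h5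
        · have e2 : sig r0 K a = a := by
            unfold sig
            rw [min_eq_left (le_trans h5 (le_max_right _ _))]
          rw [e2]
          have := mul_nonneg (sub_nonneg.mpr hK) hδ0
          linarith
        · have h6 : K * (a - r0) ≤ sig r0 K a := by
            unfold sig
            exact le_min h5 (le_max_right _ _)
          nlinarith [mul_le_mul_of_nonneg_left hδ (sub_nonneg.mpr hK)]
      have h5 := mul_le_mul_of_nonneg_left h4 hb
      nlinarith

/-- collapse a ball to its centre -/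
noncomputable def coll (c : EE) (r0 K : ℝ) (x : EE) : EE :=
  c + (sig r0 K ‖x - c‖ / ‖x - c‖) • (x - c)

theorem coll_lip (c : EE) {r0 K : ℝ} (hK : 1 ≤ K) (hr0 : 0 ≤ r0) (x y : EE) :
    ‖coll c r0 K x - coll c r0 K y‖ ≤ K * ‖x - y‖ := by
  wlog hab : ‖x - c‖ ≤ ‖y - c‖ generalizing x y
  · have := this y x (le_of_not_ge hab)
    rw [norm_sub_rev, norm_sub_rev x y]
    exact this
  set a := ‖x - c‖ with ha
  set b := ‖y - c‖ with hb
  have ha0 : 0 ≤ a := norm_nonneg _
  rcases eq_or_lt_of_le (le_trans ha0 hab) with hb0 | hb0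
  · have hx : x - c = 0 := by
      rw [← norm_le_zero_iff]; rw [← ha]; linarith
    have hy : y - c = 0 := by
      rw [← norm_le_zero_iff]; rw [← hb]; linarith
    have : x = y := by
      have h1 := sub_eq_zero.mp hx
      have h2 := sub_eq_zero.mp hy
      rw [h1, h2]
    subst this
    simp
  · have hδ : b - a ≤ ‖x - y‖ := by
      rw [hb, ha]
      have h1 := norm_sub_norm_le (y - c) (x - c)
      have h2 : (y - c) - (x - c) = y - x := by abel
      rw [h2] at h1
      rw [norm_sub_rev x y]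
      exact h1
    have key := sig_key (r0 := r0) hK ha0 hab hr0 hδ
    have e : coll c r0 K x - coll c r0 K y =
        (sig r0 K b / b) • (x - y) + (sig r0 K a / a - sig r0 K b / b) • (x - c) := by
      unfold coll
      rw [← ha, ← hb]
      rw [sub_smul, smul_sub (sig r0 K b / b) x y, smul_sub (sig r0 K b / b) y c,
        smul_sub (sig r0 K b / b) x c]
      abel
    rw [e]
    have hsb : 0 ≤ sig r0 K b := sig_nonneg hb0.le
    have h1 : ‖(sig r0 K b / b) • (x - y)‖ = sig r0 K b / b * ‖x - y‖ := by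
      rw [norm_smul, Real.norm_of_nonneg (by positivity)]
    have h2 : ‖(sig r0 K a / a - sig r0 K b / b) • (x - c)‖ = |a * sig r0 K b - b * sig r0 K a| / b := by
      rw [norm_smul, Real.norm_eq_abs, ← ha]
      rcases eq_or_lt_of_le ha0 with h | h
      · have hs : sig r0 K a = 0 := by
          have h3 := sig_nonneg (r0 := r0) (K := K) ha0
          have h4 := sig_le (r0 := r0) (K := K) (r := a)
          linarith
        rw [hs, ← h]
        simp
      · have : sig r0 K a / a - sig r0 K b / b = -((a * sig r0 K b - b * sig r0 K a) / (a * b)) := by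
          field_simp
          ring
        rw [this, abs_neg, abs_div, abs_of_pos (by positivity : 0 < a * b)]
        field_simp
    calc ‖(sig r0 K b / b) • (x - y) + (sig r0 K a / a - sig r0 K b / b) • (x - c)‖
        ≤ sig r0 K b / b * ‖x - y‖ + |a * sig r0 K b - b * sig r0 K a| / b := by
          rw [← h1, ← h2]; exact norm_add_le _ _
      _ = (sig r0 K b * ‖x - y‖ + |a * sig r0 K b - b * sig r0 K a|) / b := by ring
      _ ≤ (K * b * ‖x - y‖) / b := div_le_div_of_nonneg_right key hb0.le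
      _ = K * ‖x - y‖ := by field_simp

theorem coll_disp (c : EE) {r0 K : ℝ} (hK : 1 ≤ K) (hr0 : 0 ≤ r0) (x : EE) :
    ‖coll c r0 K x - x‖ ≤ r0 := by
  set a := ‖x - c‖ with ha
  have ha0 : 0 ≤ a := norm_nonneg _
  have e : coll c r0 K x - x = (sig r0 K a / a - 1) • (x - c) := by
    unfold coll
    rw [← ha, sub_smul, one_smul]
    abel
  rw [e, norm_smul, Real.norm_eq_abs, ← ha]
  rcases eq_or_lt_of_le ha0 with h | h
  · rw [← h]; simpa using hr0
  · have h1 := sig_le (r0 := r0) (K := K) (r := a)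
    have h2 := sig_ge (r0 := r0) (K := K) hK ha0 hr0
    have h3 : |sig r0 K a / a - 1| = (a - sig r0 K a) / a := by
      rw [abs_of_nonpos]
      · field_simp
        ring
      · rw [sub_nonpos, div_le_one h]; exact h1
    rw [h3, div_mul_cancel₀ _ h.ne']
    linarith

theorem coll_center (c : EE) {r0 K : ℝ} (hK : 0 ≤ K) (x : EE) (h : ‖x - c‖ ≤ r0) :
    coll c r0 K x = c := by
  have : sig r0 K ‖x - c‖ = 0 := by
    unfold sig
    rw [max_eq_left (by nlinarith), min_eq_right (norm_nonneg _)]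
  unfold coll
  rw [this]
  simp

theorem coll_far (c : EE) {r0 K : ℝ} (x : EE) (h : ‖x - c‖ ≤ K * (‖x - c‖ - r0)) :
    coll c r0 K x = x := by
  have h1 : sig r0 K ‖x - c‖ = ‖x - c‖ := by
    unfold sig
    rw [min_eq_left (le_trans h (le_max_right _ _))]
  unfold coll
  rw [h1]
  rcases eq_or_ne ‖x - c‖ 0 with h2 | h2
  · have : x - c = 0 := norm_eq_zero.mp h2
    have h3 := sub_eq_zero.mp this
    rw [h3]; simp
  · rw [div_self h2]; simp

open Classical in
/-- collapse all balls around the points of `C` -/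
noncomputable def collAll (C : Set EE) (r0 K r1 : ℝ) (x : EE) : EE :=
  if h : ∃ c ∈ C, ‖x - c‖ < r1 then coll h.choose r0 K x else x

theorem collAll_eq {C : Set EE} {r0 K r1 : ℝ} (hsep : ∀ c ∈ C, ∀ c' ∈ C, c ≠ c' → 2 * r1 + 2 ≤ ‖c - c'‖)
    (hK : 1 ≤ K) (hr1 : r1 ≤ K * (r1 - r0)) {c : EE} (hc : c ∈ C) {x : EE} (hx : ‖x - c‖ < r1 + 2) :
    collAll C r0 K r1 x = coll c r0 K x := by
  unfold collAll
  split_ifs with h
  · have h1 := h.choose_spec
    have : h.choose = c := by
      by_contra hne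
      have h2 := hsep _ h1.1 c hc hne
      have h3 : ‖h.choose - c‖ ≤ ‖x - h.choose‖ + ‖x - c‖ := by
        have := norm_sub_le (x - c) (x - h.choose)
        calc ‖h.choose - c‖ = ‖(x - c) - (x - h.choose)‖ := by congr 1; abel
          _ ≤ ‖x - c‖ + ‖x - h.choose‖ := this
          _ = _ := by ring
      linarith [h1.2]
    rw [this]
  · push Not at h
    have h1 := h c hc
    rw [coll_far]
    nlinarith

theorem collAll_disp {C : Set EE} {r0 K r1 : ℝ} (hK : 1 ≤ K) (hr0 : 0 ≤ r0) (x : EE) :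
    ‖collAll C r0 K r1 x - x‖ ≤ r0 := by
  unfold collAll
  split_ifs with h
  · exact coll_disp _ hK hr0 x
  · simpa using hr0

theorem collAll_lip {C : Set EE} {r0 K r1 : ℝ}
    (hsep : ∀ c ∈ C, ∀ c' ∈ C, c ≠ c' → 2 * r1 + 2 ≤ ‖c - c'‖)
    (hK : 1 ≤ K) (hr0 : 0 ≤ r0) (hr1 : r1 ≤ K * (r1 - r0)) (x y : EE) (hxy : ‖x - y‖ ≤ 2) :
    ‖collAll C r0 K r1 x - collAll C r0 K r1 y‖ ≤ K * ‖x - y‖ := by
  by_cases h : ∃ c ∈ C, ‖x - c‖ < r1
  · obtain ⟨c, hc, hx⟩ := h
    have hy : ‖y - c‖ < r1 + 2 := by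
      have : ‖y - c‖ ≤ ‖x - c‖ + ‖x - y‖ := by
        calc ‖y - c‖ = ‖(x - c) - (x - y)‖ := by congr 1; abel
          _ ≤ ‖x - c‖ + ‖x - y‖ := norm_sub_le _ _
      linarith
    rw [collAll_eq hsep hK hr1 hc (by linarith : ‖x - c‖ < r1 + 2), collAll_eq hsep hK hr1 hc hy]
    exact coll_lip c hK hr0 x y
  · by_cases h' : ∃ c ∈ C, ‖y - c‖ < r1
    · obtain ⟨c, hc, hy⟩ := h'
      have hx : ‖x - c‖ < r1 + 2 := by
        have : ‖x - c‖ ≤ ‖y - c‖ + ‖x - y‖ := by
          calc ‖x - c‖ = ‖(y - c) + (x - y)‖ := by congr 1; abel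
            _ ≤ ‖y - c‖ + ‖x - y‖ := norm_add_le _ _
        linarith
      rw [collAll_eq hsep hK hr1 hc (by linarith : ‖y - c‖ < r1 + 2), collAll_eq hsep hK hr1 hc hx]
      exact coll_lip c hK hr0 x y
    · have e1 : collAll C r0 K r1 x = x := by unfold collAll; rw [dif_neg h]
      have e2 : collAll C r0 K r1 y = y := by unfold collAll; rw [dif_neg h']
      rw [e1, e2]
      nlinarith [norm_nonneg (x - y)]

/-- flattening map, constant on the obstacles `ob` -/
structure Flat (ob : Set (Set Pt)) (lip d : ℝ) (π : Pt → EE) : Prop where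
  lip_le : ∀ x y : Pt, nm (x - y) ≤ 1 → ‖π x - π y‖ ≤ lip
  disp : ∀ x : Pt, ‖π x - toE x‖ ≤ d
  const : ∀ O ∈ ob, ∀ x ∈ O, ∀ y ∈ O, π x = π y

theorem flat_zero : Flat ∅ 1 0 toE where
  lip_le := by
    intro x y h
    rw [norm_toE_sub]
    exact_mod_cast h
  disp := by intro x; simp
  const := by intro O hO; exact absurd hO (Set.notMem_empty _)

/-- lattice ball -/
def lball (c : Pt) (r : ℤ) : Set Pt := {x | nm (x - c) ≤ r}

theorem flat_step {ob : Set (Set Pt)} {lip d : ℝ} {π : Pt → EE} (h : Flat ob lip d π)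
    (hlip : lip ≤ 2) (C : Set Pt) (rad : ℤ) {K r1 : ℝ} (hrad : 0 ≤ rad) (hd : 0 ≤ d)
    (hsep : ∀ c ∈ C, ∀ c' ∈ C, c ≠ c' → 2 * r1 + 2 ≤ ((nm (c - c') : ℤ) : ℝ))
    (hK : 1 ≤ K) (hr1 : r1 ≤ K * (r1 - (rad + d))) (h4 : rad + d ≤ r1) :
    ∃ π', Flat (ob ∪ {O | ∃ c ∈ C, O = lball c rad}) (K * lip) (d + (rad + d)) π' := by
  have hr0 : (0:ℝ) ≤ rad + d := by
    have : (0:ℝ) ≤ rad := by exact_mod_cast hrad
    linarith
  have hsep' : ∀ c ∈ toE '' C, ∀ c' ∈ toE '' C, c ≠ c' → 2 * r1 + 2 ≤ ‖c - c'‖ := by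
    rintro _ ⟨c, hc, rfl⟩ _ ⟨c', hc', rfl⟩ hne
    rw [norm_toE_sub]
    exact hsep c hc c' hc' (fun h => hne (by rw [h]))
  refine ⟨fun x => collAll (toE '' C) (rad + d) K r1 (π x), ?_, ?_, ?_⟩
  · intro x y hxy
    have h1 := h.lip_le x y hxy
    have h2 := collAll_lip hsep' hK hr0 hr1 (π x) (π y) (le_trans h1 hlip)
    refine le_trans h2 (mul_le_mul_of_nonneg_left h1 (by linarith))
  · intro x
    have h1 := h.disp x
    have h2 := collAll_disp (C := toE '' C) (r1 := r1) hK hr0 (π x)
    calc ‖collAll (toE '' C) (rad + d) K r1 (π x) - toE x‖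
        = ‖(collAll (toE '' C) (rad + d) K r1 (π x) - π x) + (π x - toE x)‖ := by congr 1; abel
      _ ≤ _ := norm_add_le _ _
      _ ≤ d + (rad + d) := by linarith
  · intro O hO x hx y hy
    rcases hO with hO | ⟨c, hc, rfl⟩
    · rw [h.const O hO x hx y hy]
    · have key : ∀ w ∈ lball c rad, collAll (toE '' C) (rad + d) K r1 (π w) = toE c := by
        intro w hw
        have h1 : ‖toE w - toE c‖ ≤ rad := by
          rw [norm_toE_sub]; exact_mod_cast hw
        have h2 := h.disp w
        have h3 : ‖π w - toE c‖ ≤ rad + d := by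
          calc ‖π w - toE c‖ = ‖(π w - toE w) + (toE w - toE c)‖ := by congr 1; abel
            _ ≤ _ := norm_add_le _ _
            _ ≤ rad + d := by linarith
        rw [collAll_eq hsep' hK hr1 (Set.mem_image_of_mem _ hc) (by linarith)]
        exact coll_center _ (by linarith) _ h3
      rw [key x hx, key y hy]

end Pool.Agent.Helper95_SOS
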