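import Pool.Agent.Helper95_SOS.Flat

/-!
Gradients, projections in the space of edge fields.
-/

set_option autoImplicit false

open scoped BigOperators

namespace Pool.Agent.Helper95_SOS

/-- finite box -/
noncomputable def bx (m : ℤ) : Finset Pt := Finset.Icc (-m) m ×ˢ Finset.Icc (-m) m

theorem mem_bx (m : ℤ) (x : Pt) : x ∈ bx m ↔ nm x ≤ m := by
  unfold bx
  rw [Finset.mem_product, Finset.mem_Icc, Finset.mem_Icc, nm_le_iff, abs_le, abs_le]

attribute [irreducible] bx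

/-- index type of sites -/
abbrev Ix (N : ℤ) := {x : Pt // x ∈ bx N}

/-- space of edge fields -/
abbrev HH (m : ℤ) := EuclideanSpace ℝ (Ix m × Bool)

/-- gradient -/
noncomputable def grad (m : ℤ) : (Pt → ℝ) →ₗ[ℝ] HH m where
  toFun φ := WithLp.toLp 2 (fun j : Ix m × Bool => if j.2 then
    φ (j.1.1.1, j.1.1.2 + 1) - φ j.1.1 else φ (j.1.1.1 + 1, j.1.1.2) - φ j.1.1)
  map_add' a b := by
    ext j
    simp only [Pi.add_apply, PiLp.add_apply]
    split_ifs <;> ring
  map_smul' c a := by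
    ext j
    simp only [Pi.smul_apply, smul_eq_mul, RingHom.id_apply, PiLp.smul_apply]
    split_ifs <;> ring

theorem grad_apply (m : ℤ) (φ : Pt → ℝ) (j : Ix m × Bool) : grad m φ j = if j.2 then
    φ (j.1.1.1, j.1.1.2 + 1) - φ j.1.1 else φ (j.1.1.1 + 1, j.1.1.2) - φ j.1.1 := rfl

theorem norm_grad (m : ℤ) (φ : Pt → ℝ) : ‖grad m φ‖^2 = ∑ x ∈ bx m, gd φ x := by
  rw [EuclideanSpace.real_norm_sq_eq, Fintype.sum_prod_type]
  rw [← Finset.sum_coe_sort (bx m)]
  refine Finset.sum_congr rfl (fun x _ => ?_)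
  rw [Fintype.sum_bool]
  have e1 : (grad m φ).ofLp (x, true) = φ (x.1.1, x.1.2 + 1) - φ x.1 := rfl
  have e2 : (grad m φ).ofLp (x, false) = φ (x.1.1 + 1, x.1.2) - φ x.1 := rfl
  rw [e1, e2]
  unfold gd
  ring

theorem gd_zero {φ : Pt → ℝ} {x : Pt} (h : gd φ x = 0) :
    φ (x.1 + 1, x.2) - φ x = 0 ∧ φ (x.1, x.2 + 1) - φ x = 0 := by
  unfold gd at h
  have h1 := sq_nonneg (φ (x.1 + 1, x.2) - φ x)
  have h2 := sq_nonneg (φ (x.1, x.2 + 1) - φ x)
  constructor
  · apply pow_eq_zero_iff (two_ne_zero) |>.mp; linarith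
  · apply pow_eq_zero_iff (two_ne_zero) |>.mp; linarith

theorem inner_grad_zero (m : ℤ) (φ ψ : Pt → ℝ) (h : ∀ x, gd φ x = 0 ∨ gd ψ x = 0) :
    inner ℝ (grad m φ) (grad m ψ) = 0 := by
  rw [PiLp.inner_apply]
  apply Finset.sum_eq_zero
  rintro ⟨x, b⟩ _
  have e1 : ∀ φ : Pt → ℝ, (grad m φ).ofLp (x, true) = φ (x.1.1, x.1.2 + 1) - φ x.1 := fun _ => rfl
  have e2 : ∀ φ : Pt → ℝ, (grad m φ).ofLp (x, false) = φ (x.1.1 + 1, x.1.2) - φ x.1 := fun _ => rfl
  rcases h x.1 with h | h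
  · have h' := gd_zero h
    cases b
    · rw [e2 φ, h'.1]; simp
    · rw [e1 φ, h'.2]; simp
  · have h' := gd_zero h
    cases b
    · rw [e2 ψ, h'.1]; simp
    · rw [e1 ψ, h'.2]; simp

/-- functions vanishing outside the box `M` -/
def Supp (M : ℤ) : Submodule ℝ (Pt → ℝ) where
  carrier := {φ | ∀ x, M < nm x → φ x = 0}
  add_mem' := by
    intro a b ha hb x hx
    simp only [Pi.add_apply, ha x hx, hb x hx, add_zero]
  zero_mem' := by intro x _; rfl
  smul_mem' := by
    intro c a ha x hx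
    simp only [Pi.smul_apply, ha x hx, smul_zero]

theorem mem_Supp (M : ℤ) (φ : Pt → ℝ) : φ ∈ Supp M ↔ ∀ x, M < nm x → φ x = 0 := Iff.rfl

theorem grad_inj {M m : ℤ} (hm : M + 1 ≤ m) {φ : Pt → ℝ} (hφ : φ ∈ Supp M) (h : grad m φ = 0) :
    φ = 0 := by
  have h0 : ∀ x ∈ bx m, gd φ x = 0 := by
    have h1 : ∑ x ∈ bx m, gd φ x = 0 := by
      rw [← norm_grad, h]; simp
    exact (Finset.sum_eq_zero_iff_of_nonneg (fun x _ => gd_nonneg φ x)).mp h1
  have key : ∀ n : ℕ, ∀ x : Pt, M + 1 - x.1 ≤ n → φ x = 0 := by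
    intro n
    induction n with
    | zero =>
        intro x hx
        apply hφ
        rw [show nm x = max |x.1| |x.2| from rfl, lt_max_iff]
        left
        rw [lt_abs]; left
        push_cast at hx
        omega
    | succ n ih =>
        intro x hx
        by_cases hx' : M < nm x
        · exact hφ x hx'
        · push Not at hx'
          have h1 := gd_zero (h0 x ((mem_bx m x).mpr (by omega)))
          have h2 := ih (x.1 + 1, x.2) (by simp only; push_cast at hx; omega)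
          linarith [h1.1]
  funext x
  exact key (M + 1 - x.1).toNat x (Int.self_le_toNat _)

theorem exists_T (N : ℤ) {M m : ℤ} (hm : M + 1 ≤ m) :
    ∃ T : (Ix N → ℝ) →ₗ[ℝ] HH m, ∀ z, ∀ φ ∈ Supp M,
      inner ℝ (T z) (grad m φ) = ∑ i, z i * φ i.1 := by
  let f : Supp M →ₗ[ℝ] HH m := (grad m) ∘ₗ (Supp M).subtype
  have hf : LinearMap.ker f = ⊥ := by
    rw [LinearMap.ker_eq_bot']
    intro φ hφ
    exact Subtype.ext (grad_inj hm φ.2 hφ)
  obtain ⟨g, hg⟩ := LinearMap.exists_leftInverse_of_injective f hf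
  let lf : Ix N → (HH m →ₗ[ℝ] ℝ) := fun i =>
    (LinearMap.proj i.1 : (Pt → ℝ) →ₗ[ℝ] ℝ) ∘ₗ (Supp M).subtype ∘ₗ g
  let t : Ix N → HH m := fun i => (InnerProductSpace.toDual ℝ (HH m)).symm
    (LinearMap.toContinuousLinearMap (lf i))
  have ht : ∀ i v, inner ℝ (t i) v = lf i v := by
    intro i v
    simp only [t]
    rw [InnerProductSpace.toDual_symm_apply]
    rfl
  let T : (Ix N → ℝ) →ₗ[ℝ] HH m :=
    { toFun := fun z => ∑ i, z i • t i
      map_add' := by
        intro a b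
        simp only [Pi.add_apply, add_smul, Finset.sum_add_distrib]
      map_smul' := by
        intro c a
        simp only [Pi.smul_apply, smul_eq_mul, RingHom.id_apply, mul_smul, Finset.smul_sum] }
  refine ⟨T, fun z φ hφ => ?_⟩
  have e : T z = ∑ i, z i • t i := rfl
  rw [e, sum_inner]
  refine Finset.sum_congr rfl (fun i _ => ?_)
  rw [real_inner_smul_left, ht]
  congr 1
  have h1 : g (f ⟨φ, hφ⟩) = ⟨φ, hφ⟩ := by
    have := LinearMap.congr_fun hg ⟨φ, hφ⟩
    simpa using this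
  have h2 : f ⟨φ, hφ⟩ = grad m φ := rfl
  rw [h2] at h1
  simp only [lf, LinearMap.comp_apply, h1, Submodule.subtype_apply, LinearMap.proj_apply]

section proj
variable {H : Type} [NormedAddCommGroup H] [InnerProductSpace ℝ H] [FiniteDimensional ℝ H]

theorem proj_inner (W : Submodule ℝ H) (ζ v : H) (hv : v ∈ W) :
    inner ℝ ζ v = inner ℝ (W.starProjection ζ) v := by
  rw [Submodule.inner_starProjection_left_eq_right]
  rw [Submodule.starProjection_eq_self_iff.mpr hv]

theorem proj_ge (W : Submodule ℝ H) (ζ v : H) (hv : v ∈ W) :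
    2 * inner ℝ ζ v - ‖v‖^2 ≤ ‖W.starProjection ζ‖^2 := by
  rw [proj_inner W ζ v hv]
  have h := norm_sub_sq_real (W.starProjection ζ) v
  have h2 := sq_nonneg ‖W.starProjection ζ - v‖
  linarith

theorem proj_self (W : Submodule ℝ H) (ζ : H) :
    inner ℝ ζ (W.starProjection ζ) = ‖W.starProjection ζ‖^2 := by
  rw [proj_inner W ζ _ (Submodule.starProjection_apply_mem W ζ)]
  exact real_inner_self_eq_norm_sq _

theorem proj_split {κ : Type} (W W' : Submodule ℝ H) (hW : W' ≤ W) (C : Finset κ) (w : κ → H)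
    {c0 : ℝ} (hc0 : 0 < c0) (hw : ∀ c ∈ C, w c ∈ W) (horth : ∀ c ∈ C, ∀ v ∈ W', inner ℝ (w c) v = 0)
    (hpair : ∀ c ∈ C, ∀ c' ∈ C, c ≠ c' → inner ℝ (w c) (w c') = 0)
    (hn : ∀ c ∈ C, ‖w c‖^2 ≤ c0) (ζ : H) :
    ‖W'.starProjection ζ‖^2 + ∑ c ∈ C, (inner ℝ ζ (w c))^2 / c0 ≤ ‖W.starProjection ζ‖^2 := by
  classical
  set p := W'.starProjection ζ with hp
  have hpW' : p ∈ W' := Submodule.starProjection_apply_mem W' ζ
  set s : H := ∑ c ∈ C, (inner ℝ ζ (w c) / c0) • w c with hs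
  have hsW : s ∈ W := Submodule.sum_mem _ (fun c hc => W.smul_mem _ (hw c hc))
  have h1 := proj_ge W ζ (p + s) (W.add_mem (hW hpW') hsW)
  have h2 : inner ℝ ζ (p + s) = ‖p‖^2 + ∑ c ∈ C, (inner ℝ ζ (w c))^2 / c0 := by
    rw [inner_add_right, hp, proj_self, hs, inner_sum]
    congr 1
    refine Finset.sum_congr rfl (fun c _ => ?_)
    rw [real_inner_smul_right]
    ring
  have h3 : inner ℝ p s = 0 := by
    rw [hs, inner_sum]
    apply Finset.sum_eq_zero
    intro c hc
    rw [real_inner_smul_right, real_inner_comm (w c) p, horth c hc p hpW', mul_zero]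
  have h4 : ‖s‖^2 ≤ ∑ c ∈ C, (inner ℝ ζ (w c))^2 / c0 := by
    rw [← real_inner_self_eq_norm_sq, hs, sum_inner]
    apply Finset.sum_le_sum
    intro c hc
    rw [inner_sum, Finset.sum_eq_single c]
    · rw [real_inner_smul_left, real_inner_smul_right, real_inner_self_eq_norm_sq]
      have := hn c hc
      have h5 : inner ℝ ζ (w c) / c0 * (inner ℝ ζ (w c) / c0 * ‖w c‖^2) ≤
          inner ℝ ζ (w c) / c0 * (inner ℝ ζ (w c) / c0 * c0) := by
        have h6 := mul_le_mul_of_nonneg_left this (mul_self_nonneg (inner ℝ ζ (w c) / c0))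
        linarith
      refine le_trans h5 (le_of_eq ?_)
      field_simp
    · intro c' hc' hne
      rw [real_inner_smul_left, real_inner_smul_right, hpair c hc c' hc' hne.symm]
      ring
    · intro h; exact absurd hc h
  have h5 : ‖p + s‖^2 = ‖p‖^2 + ‖s‖^2 := by
    rw [norm_add_sq_real, h3]; ring
  rw [h2, h5] at h1
  linarith

/-- the quadratic form `z ↦ ‖P_W (T z)‖²` -/
noncomputable def pform {E : Type} [AddCommGroup E] [Module ℝ E] (W : Submodule ℝ H) (T : E →ₗ[ℝ] H) :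
    QuadraticForm ℝ E :=
  (LinearMap.BilinMap.toQuadraticMap (innerₗ H)).comp ((W.starProjection : H →L[ℝ] H).toLinearMap ∘ₗ T)

theorem pform_apply {E : Type} [AddCommGroup E] [Module ℝ E] (W : Submodule ℝ H) (T : E →ₗ[ℝ] H)
    (z : E) : pform W T z = ‖W.starProjection (T z)‖^2 := by
  unfold pform
  rw [QuadraticMap.comp_apply, LinearMap.BilinMap.toQuadraticMap_apply]
  simp only [LinearMap.comp_apply, innerₗ_apply_apply]
  exact real_inner_self_eq_norm_sq _

end proj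

end Pool.Agent.Helper95_SOS
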