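import Pool.Agent.Helper95_SOS.Chi

/-!
The downward induction over the scales.
-/

set_option autoImplicit false

open scoped BigOperators

namespace Pool.Agent.Helper95_SOS

/-- relaxation strength at stage `k` -/
noncomputable def Sk (a : ℝ) (k : ℕ) : ℝ := a * (k + 13) / 648

/-- accumulated gain at the origin -/
noncomputable def Gk (a : ℝ) (k : ℕ) : ℝ := ∑ j ∈ Finset.range k, Sk a j

/-- probability of not relaxing -/
noncomputable def del (S : ℝ) : ℝ := 2 * Real.exp (-(S - 2))

open Classical in
/-- valuation -/
noncomputable def xval (xb : ℕ → Pt → ℝ) (xo : ℝ) (a : ℝ) (k : ℕ) (ω : Set Var) : Var → ℝ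
  | Var.site s => if Var.site s ∈ ω then 1 else 0
  | Var.omg j z => if j < k then (if Var.omg j z ∈ ω then 1 else 0) else del (Sk a j)
  | Var.blk j z => xb j z
  | Var.outer => xo

/-- final valuation -/
noncomputable def xfin (xb : ℕ → Pt → ℝ) (xo : ℝ) (a s : ℝ) : Var → ℝ
  | Var.site _ => del s
  | Var.omg j _ => del (Sk a j)
  | Var.blk j z => xb j z
  | Var.outer => xo

theorem del_nonneg (S : ℝ) : 0 ≤ del S := by unfold del; positivity

section main
variable {K : ℕ} {N M m : ℤ} {Bad : ℕ → Pt → Prop} {xb : ℕ → Pt → ℝ} {xo a : ℝ}
  (hxb : ∀ j z, 0 ≤ xb j z) (hxo : 0 ≤ xo) (hbad : ∀ j, j ≤ K → ∀ z, Bad j z → 1 ≤ xb j z)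

include hxb hxo in
theorem xval_nonneg (k : ℕ) (ω : Set Var) : ∀ v, 0 ≤ xval xb xo a k ω v := by
  intro v
  cases v with
  | site s => simp only [xval]; split_ifs <;> norm_num
  | omg j z =>
      simp only [xval]
      split_ifs
      · norm_num
      · norm_num
      · exact del_nonneg _
  | blk j z => exact hxb j z
  | outer => exact hxo

include hxb hxo hbad in
theorem xval_fail (hM : ∀ k, k < K → 2 * lam (k+1) + Rk k ≤ M) {ω : Set Var} {j k : ℕ} (hj : j < K)
    (hjk : j ≤ k) (hE : ¬ Em K M Bad ω j) : 1 ≤ Ftot K (xval xb xo a k ω) := by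
  apply fail hM (xval_nonneg hxb hxo k ω) (ω := ω) (Bad := Bad) (k := j)
  · intro s hs
    simp only [xval]
    rw [if_pos hs]
  · intro i hi z hz
    exact hbad i hi z hz
  · exact hj
  · intro i hi z hz
    simp only [xval]
    rw [if_pos (by omega), if_pos hz]
  · exact hE

include hxb hxo hbad in
theorem chi_stage (T : (Ix N → ℝ) →ₗ[ℝ] HH m)
    (hT : ∀ z, ∀ φ ∈ Supp M, inner ℝ (T z) (grad m φ) = ∑ i, z i * φ i.1)
    (hM : ∀ k, k < K → 2 * lam (k+1) + Rk k ≤ M) (hMN : M ≤ N)
    (o : Ix N) (ho : o.1 = 0) (ha : 648 ≤ a) {η : ℝ} (hη : 0 < η) {t : ℝ} (ht0 : 0 ≤ t)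
    (ht : t ≤ 1/4) (hG : 4 ≤ Gk a K) :
    ∀ i k : ℕ, k + i = K → ∀ ω : Set Var,
      chi (Us K N M Bad ω k) (fun z => Qf T o (Ws K M m Bad ω k) a (Gk a k) η z)
        (t • Pi.single o (1:ℝ)) ≤
        2 * Real.exp (-(Gk a K * t^2)) + Ftot K (xval xb xo a k ω) := by
  classical
  have ha0 : 0 < a := by linarith
  have hGn : ∀ k, 0 ≤ Gk a k := by
    intro k
    unfold Gk
    apply Finset.sum_nonneg
    intro j _
    unfold Sk
    positivity
  have hc0 : 0 ≤ 2 * Real.exp (-(Gk a K * t^2)) := by positivity
  -- trivial bound in the case of failure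
  have triv : ∀ (ω : Set Var) (j k : ℕ), j < K → j ≤ k → ¬ Em K M Bad ω j →
      chi (Us K N M Bad ω k) (fun z => Qf T o (Ws K M m Bad ω k) a (Gk a k) η z)
        (t • Pi.single o (1:ℝ)) ≤
        2 * Real.exp (-(Gk a K * t^2)) + Ftot K (xval xb xo a k ω) := by
    intro ω j k hj hjk hE
    have h1 := xval_fail (a := a) hxb hxo hbad hM hj hjk hE
    have h2 := chi_le_one (Qf_PD T o (Ws K M m Bad ω k) ha0.le (hGn k) hη)
      (qf_par (Qf T o (Ws K M m Bad ω k) a (Gk a k) η)) (Us K N M Bad ω k) (t • Pi.single o (1:ℝ))
    linarith
  intro i
  induction i with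
  | zero =>
      intro k hk ω
      have hkK : k = K := by omega
      subst hkK
      by_cases hE : ∀ j, j < k → Em k M Bad ω j
      · have h1 := chi_final (Us k N M Bad ω k) (fun z => Qf T o (Ws k M m Bad ω k) a 0 η z)
          (Qf_PD T o _ ha0.le le_rfl hη) (qf_par _) o (single_o_mem k o ho hE) hG ht0 ht
        have e : (fun z => Qf T o (Ws k M m Bad ω k) a (Gk a k) η z) =
            fun z => Qf T o (Ws k M m Bad ω k) a 0 η z + Gk a k * (z o)^2 := by
          funext z
          rw [Qf_apply, Qf_apply]
          ring
        rw [e]
        have h2 := (Ftot_MA k).nn (xval xb xo a k ω) (xval_nonneg hxb hxo k ω)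
        linarith
      · push Not at hE
        obtain ⟨j, hj, hEj⟩ := hE
        exact triv ω j k hj hj.le hEj
  | succ i ih =>
      intro k hk ω
      have hkK : k < K := by omega
      by_cases hE : ∀ j, j ≤ k → Em K M Bad ω j
      swap
      · push Not at hE
        obtain ⟨j, hj, hEj⟩ := hE
        exact triv ω j k (by omega) hj hEj
      have ihk := ih (k+1) (by omega)
      -- first step : monotonicity
      set S := Sk a k with hS
      have hS3 : 3 ≤ S := by
        rw [hS]; unfold Sk
        rw [le_div_iff₀ (by norm_num)]
        have : (0:ℝ) ≤ k := Nat.cast_nonneg k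
        nlinarith
      set f : Ix N → ℝ := t • Pi.single o (1:ℝ) with hf
      have hfU : f ∈ Us K N M Bad ω k :=
        (Us K N M Bad ω k).smul_mem _ (single_o_mem k o ho (fun j hj => hE j hj.le))
      set W1 := Ws K M m Bad ω (k+1) with hW1
      let Q1 : QuadraticForm ℝ (Ix N → ℝ) := Qf T o W1 a (Gk a (k+1)) η +
        S • ∑ c ∈ isoF K M Bad ω k, (QuadraticMap.sq (R := ℝ)).comp (chg (Yk K N M Bad ω k c))
      have hQ1 : ∀ z, Q1 z = Qf T o W1 a (Gk a (k+1)) η z +
          S * ∑ c ∈ isoF K M Bad ω k, (chg (Yk K N M Bad ω k c) z)^2 := by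
        intro z
        simp only [Q1, _root_.add_apply, _root_.smul_apply, _root_.sum_apply, sq_comp_apply, smul_eq_mul]
      have hGs : Gk a (k+1) = Gk a k + S := by
        unfold Gk; rw [Finset.sum_range_succ]
      have hPD1 : PD (fun z => Q1 z) := by
        obtain ⟨η', h1, h2⟩ := Qf_PD T o W1 ha0.le (hGn (k+1)) hη
        refine ⟨η', h1, fun z => ?_⟩
        simp only [hQ1]
        have h3 := h2 z
        have h4 : 0 ≤ S * ∑ c ∈ isoF K M Bad ω k, (chg (Yk K N M Bad ω k c) z)^2 :=
          mul_nonneg (by linarith) (Finset.sum_nonneg (fun c _ => sq_nonneg _))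
        linarith
      have hle : ∀ z ∈ Us K N M Bad ω k, Q1 z ≤ Qf T o (Ws K M m Bad ω k) a (Gk a k) η z := by
        intro z hz
        have hg := stage_gain T hT o ho hE (by have := hM k hkK; have := Rk_pos k; omega) hz
        rw [hQ1, Qf_apply, Qf_apply, hGs]
        have h1 := mul_le_mul_of_nonneg_left hg ha0.le
        have h2 : a * ((∑ c ∈ isoF K M Bad ω k, (chg (Yk K N M Bad ω k c) z)^2 / (648 / ((k:ℝ) + 13))) +
            (z o)^2 / (648 / ((k:ℝ)+13))) =
            S * ∑ c ∈ isoF K M Bad ω k, (chg (Yk K N M Bad ω k c) z)^2 + S * (z o)^2 := by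
          rw [hS]
          unfold Sk
          rw [← Finset.sum_div]
          have : (k:ℝ) + 13 ≠ 0 := by positivity
          field_simp
        rw [mul_add, h2] at h1
        linarith
      have hm1 := chi_mono (Us K N M Bad ω k) (Qf T o (Ws K M m Bad ω k) a (Gk a k) η) Q1 hPD1 hle hfU
      refine le_trans hm1 ?_
      -- second step : relaxation
      let Yv : Var → Finset (Ix N) := fun v => match v with
        | Var.omg _ c => Yk K N M Bad ω k c
        | _ => ∅
      let yy : Var → Ix N := fun v => if h : (Yv v).Nonempty then h.choose else o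
      let C : Finset Var := (isoF K M Bad ω k).image (Var.omg k)
      have hinj : ∀ c c', Var.omg k c = Var.omg k c' → c = c' := by
        intro c c' h; injection h
      have hCmem : ∀ v, v ∈ C ↔ ∃ c, iso k c (live K M Bad ω k) ∧ Var.omg k c = v := by
        intro v
        simp only [C, Finset.mem_image, mem_isoF]
      have hCne : ∀ v ∈ C, (Yv v).Nonempty := by
        intro v hv
        obtain ⟨c, hc, rfl⟩ := (hCmem v).mp hv
        obtain ⟨x, hx, hxg, _⟩ := hc.1
        have hxM := live_iso_in hc (grp_sub_box k c hxg)
        have hxN : x ∈ bx N := (mem_bx N x).mpr (by omega)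
        refine ⟨⟨x, hxN⟩, ?_⟩
        show (⟨x, hxN⟩ : Ix N) ∈ Yk K N M Bad ω k c
        rw [mem_Yk]
        exact ⟨hx, hxg⟩
      have hyy : ∀ v ∈ C, yy v ∈ Yv v := by
        intro v hv
        have h := hCne v hv
        simp only [yy]
        rw [dif_pos h]
        exact h.choose_spec
      have h0 : (0:Pt) ∉ live K M Bad ω k := by
        intro hcon
        have := hE k le_rfl _ hcon
        have := lam_pos (k+1)
        simp [nm] at *
        omega
      have hsum : (fun z => Q1 z) = fun z => Qf T o W1 a (Gk a (k+1)) η z +
          S * ∑ v ∈ C, (chg (Yv v) z)^2 := by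
        funext z
        rw [hQ1]
        congr 2
        simp only [C]
        rw [Finset.sum_image (fun c _ c' _ h => hinj c c' h)]
      rw [hsum]
      have hF := MA.add (MA.const (Set.univ : Set Var) hc0) (Ftot_MA K)
      have hrel := relax_many Yv yy f hS3 (fun z => Qf T o W1 a (Gk a (k+1)) η z)
        (Qf_PD T o W1 ha0.le (hGn (k+1)) hη) (qf_par _) hF C (Us K N M Bad ω k) (xval xb xo a k ω)
        hyy
        (fun v hv => by
          apply single_mem
          obtain ⟨c, hc, rfl⟩ := (hCmem v).mp hv
          exact ((mem_Yk k c _).mp (hyy _ hv)).1)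
        (fun v hv v' hv' hne => by
          obtain ⟨c, hc, rfl⟩ := (hCmem v).mp hv
          obtain ⟨c', hc', rfl⟩ := (hCmem v').mp hv'
          have hne' : c ≠ c' := fun h => hne (by rw [h])
          show Disjoint (Yk K N M Bad ω k c) (Yk K N M Bad ω k c')
          rw [Finset.disjoint_left]
          intro i hi hi'
          rw [mem_Yk] at hi hi'
          exact iso_grp_disj hc hc' hne' hi.2 hi'.2)
        hfU
        (fun v hv => by
          obtain ⟨c, hc, rfl⟩ := (hCmem v).mp hv
          apply Finset.sum_eq_zero
          intro i hi
          have hi' : i ∈ Yk K N M Bad ω k c := hi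
          rw [mem_Yk] at hi'
          have hio : i ≠ o := by
            rintro rfl
            rw [ho] at hi'
            exact h0 hi'.1
          simp [hf, hio])
        (fun T' hT' => by
          -- the new outcome
          let ω' : Set Var := {v | (v ∈ C ∧ v ∉ T') ∨ (v ∈ ω ∧ ∀ c, v ≠ Var.omg k c)}
          have hCo : ∀ v ∈ C, ∃ c, v = Var.omg k c := by
            intro v hv
            obtain ⟨c, _, rfl⟩ := (hCmem v).mp hv
            exact ⟨c, rfl⟩
          have hω : ∀ v, (∀ c, v ≠ Var.omg k c) → (v ∈ ω' ↔ v ∈ ω) := by
            intro v hv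
            constructor
            · rintro (⟨h1, _⟩ | ⟨h1, _⟩)
              · obtain ⟨c, hc⟩ := hCo v h1
                exact absurd hc (hv c)
              · exact h1
            · intro h
              exact Or.inr ⟨h, hv⟩
          have hωk : ∀ c, (Var.omg k c ∈ ω' ↔ (Var.omg k c ∈ C ∧ Var.omg k c ∉ T')) := by
            intro c
            constructor
            · rintro (h | ⟨_, h⟩)
              · exact h
              · exact absurd rfl (h c)
            · intro h; exact Or.inl h
          have hag : agree k ω ω' := by
            refine ⟨fun x => ?_, fun j hj z => ?_⟩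
            · exact (hω _ (fun c => by simp)).symm
            · refine (hω _ (fun c h => ?_)).symm
              injection h with h1 h2
              omega
          have hk := ihk ω'
          have eU : killAll (Us K N M Bad ω k) Yv T' = Us K N M Bad ω' (k+1) := by
            ext z
            rw [mem_killAll, mem_Us_succ, Us_agree hag k le_rfl]
            apply and_congr_right
            intro _
            rw [← live_agree (K := K) (M := M) (Bad := Bad) hag le_rfl]
            constructor
            · intro h c hc hcω
              have h1 : Var.omg k c ∈ C := (hCmem _).mpr ⟨c, hc, rfl⟩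
              have h2 : Var.omg k c ∈ T' := by
                by_contra hcon
                exact hcω ((hωk c).mpr ⟨h1, hcon⟩)
              have h3 := h _ h2
              rw [← Yk_agree (K := K) (M := M) (Bad := Bad) hag le_rfl]
              exact h3
            · intro h v hv
              obtain ⟨c, hc, rfl⟩ := (hCmem v).mp (hT' hv)
              have h1 : Var.omg k c ∉ ω' := by
                intro hcon
                exact ((hωk c).mp hcon).2 hv
              have h2 := h c hc h1
              rw [← Yk_agree (K := K) (M := M) (Bad := Bad) hag le_rfl] at h2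
              exact h2
          have eW : Ws K M m Bad ω' (k+1) = W1 := by
            rw [hW1]
            unfold Ws Vs
            rw [obst_agree (K := K) (M := M) (Bad := Bad) hag k le_rfl]
          rw [eU]
          rw [eW] at hk
          refine le_trans hk ?_
          have hmono := (Ftot_MA K).mono (xval xb xo a (k+1) ω')
            (fun v => if v ∈ T' then 0 else if v ∈ C then 1 else xval xb xo a k ω v)
            (xval_nonneg hxb hxo (k+1) ω') (fun v => by
              by_cases hvk : ∃ c, v = Var.omg k c
              · obtain ⟨c, rfl⟩ := hvk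
                simp only [xval]
                rw [if_pos (Nat.lt_succ_self k)]
                by_cases h1 : Var.omg k c ∈ T'
                · rw [if_pos h1, if_neg (fun h => ((hωk c).mp h).2 h1)]
                · rw [if_neg h1]
                  by_cases h2 : Var.omg k c ∈ C
                  · rw [if_pos h2, if_pos ((hωk c).mpr ⟨h2, h1⟩)]
                  · rw [if_neg h2, if_neg (fun h => h2 ((hωk c).mp h).1), if_neg (lt_irrefl k)]
                    exact del_nonneg _
              · push Not at hvk
                have h2 : v ∉ C := by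
                  intro h
                  obtain ⟨c, hc⟩ := hCo v h
                  exact hvk c hc
                have h1 : v ∉ T' := fun h => h2 (hT' h)
                rw [if_neg h1, if_neg h2]
                have h3 := hω v hvk
                cases v with
                | site s =>
                    simp only [xval]
                    by_cases h4 : Var.site s ∈ ω
                    · rw [if_pos h4, if_pos (h3.mpr h4)]
                    · rw [if_neg h4, if_neg (fun h => h4 (h3.mp h))]
                | omg j z =>
                    simp only [xval]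
                    have hjk : j ≠ k := by
                      rintro rfl
                      exact hvk z rfl
                    by_cases h5 : j < k
                    · rw [if_pos h5, if_pos (by omega)]
                      by_cases h4 : Var.omg j z ∈ ω
                      · rw [if_pos h4, if_pos (h3.mpr h4)]
                      · rw [if_neg h4, if_neg (fun h => h4 (h3.mp h))]
                    · rw [if_neg h5, if_neg (by omega)]
                | blk j z => exact le_rfl
                | outer => exact le_rfl)
          linarith)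
      refine le_trans hrel ?_
      have hmono := (Ftot_MA K).mono
        (fun v => if v ∈ C then 2 * Real.exp (-(S - 2)) else xval xb xo a k ω v) (xval xb xo a k ω)
        (fun v => by
          split_ifs
          · positivity
          · exact xval_nonneg hxb hxo k ω v)
        (fun v => by
          by_cases hv : v ∈ C
          · rw [if_pos hv]
            obtain ⟨c, hc, rfl⟩ := (hCmem v).mp hv
            simp only [xval]
            rw [if_neg (lt_irrefl k)]
            exact le_rfl
          · rw [if_neg hv])
      linarith

end main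

end Pool.Agent.Helper95_SOS
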