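import Pool.Agent.Helper95_SOS.Sos

/-!
The energy of the long-range SOS model written as a finite sum over bonds.
-/

set_option autoImplicit false

open scoped BigOperators

namespace Pool.Agent.Helper95_SOS

open Classical in
/-- extension by zero -/
noncomputable def extz {N : ℤ} (φ : Ix N → ℤ) : Pt → ℤ := fun x => if h : x ∈ bx N then φ ⟨x, h⟩ else 0

theorem extz_in {N : ℤ} (φ : Ix N → ℤ) (i : Ix N) : extz φ i.1 = φ i := by
  unfold extz; rw [dif_pos i.2]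

theorem extz_out {N : ℤ} (φ : Ix N → ℤ) {x : Pt} (hx : x ∉ bx N) : extz φ x = 0 := by
  unfold extz; rw [dif_neg hx]

theorem wa_symm (α : ℝ) (x y : Pt) : wa α (x - y) = wa α (y - x) := by
  unfold wa Eu
  simp only [Prod.fst_sub, Prod.snd_sub]
  push_cast
  congr 3
  ring

/-- outside sum of one site -/
noncomputable def Tout (q : ℝ) (N : ℤ) (x : Pt) : ℝ := by
  classical
  exact ∑' y : Pt, if y ∈ bx N then 0 else wa (2*q) (x - y)

open Classical in
theorem hasSum_energy {q : ℝ} (hq : 2 < q) {N : ℤ} (φ : Ix N → ℤ) :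
    HasSum (fun p : Pt × Pt => |((extz φ p.1 : ℤ) : ℝ) - ((extz φ p.2 : ℤ) : ℝ)| * wa (2*q) (p.1 - p.2))
      ((∑ x : Ix N, ∑ y : Ix N, |((φ x : ℤ) : ℝ) - ((φ y : ℤ) : ℝ)| * wa (2*q) (x.1 - y.1)) +
        (∑ x : Ix N, |((φ x : ℤ) : ℝ)| * Tout q N x.1) + (∑ x : Ix N, |((φ x : ℤ) : ℝ)| * Tout q N x.1)) := by
  set ψ : Pt → ℝ := fun x => ((extz φ x : ℤ) : ℝ) with hψ
  have hψi : ∀ i : Ix N, ψ i.1 = ((φ i : ℤ) : ℝ) := by intro i; simp only [hψ]; rw [extz_in]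
  have hψo : ∀ x, x ∉ bx N → ψ x = 0 := by intro x hx; simp only [hψ]; rw [extz_out φ hx]; simp
  -- both inside
  have s1 : HasSum (fun p : Pt × Pt => if p.1 ∈ bx N ∧ p.2 ∈ bx N then |ψ p.1 - ψ p.2| * wa (2*q) (p.1 - p.2) else 0)
      (∑ x : Ix N, ∑ y : Ix N, |((φ x : ℤ) : ℝ) - ((φ y : ℤ) : ℝ)| * wa (2*q) (x.1 - y.1)) := by
    have h : HasSum (fun p : Pt × Pt => if p.1 ∈ bx N ∧ p.2 ∈ bx N then |ψ p.1 - ψ p.2| * wa (2*q) (p.1 - p.2) else 0)
        (∑ b ∈ bx N ×ˢ bx N, (if b.1 ∈ bx N ∧ b.2 ∈ bx N then |ψ b.1 - ψ b.2| * wa (2*q) (b.1 - b.2) else 0)) :=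
      hasSum_sum_of_ne_finset_zero (by
        intro p hp
        rw [Finset.mem_product] at hp
        rw [if_neg hp])
    have e : ∑ b ∈ bx N ×ˢ bx N, (if b.1 ∈ bx N ∧ b.2 ∈ bx N then |ψ b.1 - ψ b.2| * wa (2*q) (b.1 - b.2) else 0) =
        ∑ x : Ix N, ∑ y : Ix N, |((φ x : ℤ) : ℝ) - ((φ y : ℤ) : ℝ)| * wa (2*q) (x.1 - y.1) := by
      rw [Finset.sum_product, ← Finset.sum_coe_sort (bx N)]
      refine Finset.sum_congr rfl (fun x _ => ?_)
      rw [← Finset.sum_coe_sort (bx N)]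
      refine Finset.sum_congr rfl (fun y _ => ?_)
      rw [if_pos ⟨x.2, y.2⟩, hψi, hψi]
    rw [e] at h
    exact h
  -- first inside, second outside
  have s2 : HasSum (fun p : Pt × Pt => if p.1 ∈ bx N ∧ p.2 ∉ bx N then |ψ p.1| * wa (2*q) (p.1 - p.2) else 0)
      (∑ x : Ix N, |((φ x : ℤ) : ℝ)| * Tout q N x.1) := by
    have h1 : ∀ x : Ix N, HasSum (fun p : Pt × Pt => if p.1 = x.1 ∧ p.2 ∉ bx N then
        |ψ p.1| * wa (2*q) (p.1 - p.2) else 0) (|((φ x : ℤ) : ℝ)| * Tout q N x.1) := by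
      intro x
      have hinj : Function.Injective (fun y : Pt => ((x.1, y) : Pt × Pt)) := by
        intro y y' h
        exact (Prod.mk.injEq _ _ _ _ ▸ h).2
      rw [← hinj.hasSum_iff]
      · have h2 := (tail_summable hq N x.1).hasSum.mul_left |((φ x : ℤ) : ℝ)|
        refine h2.congr_fun ?_ |> id
        intro y
        simp only [Function.comp_apply, true_and]
        by_cases hy : y ∈ bx N
        · simp [hy]
        · simp only [hy, not_false_eq_true, if_true, if_false]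
          rw [hψi]
      · rintro ⟨a, b⟩ hab
        rw [if_neg]
        rintro ⟨h2, _⟩
        apply hab
        exact ⟨b, by simp only at h2; rw [← h2]⟩
    have h2 := hasSum_sum (s := (Finset.univ : Finset (Ix N))) (fun x _ => h1 x)
    refine h2.congr_fun ?_ |> id
    rintro ⟨a, b⟩
    simp only
    by_cases ha : a ∈ bx N
    · by_cases hb : b ∈ bx N
      · simp [hb]
      · rw [if_pos ⟨ha, hb⟩, Finset.sum_eq_single (⟨a, ha⟩ : Ix N)]
        · simp [hb]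
        · intro x _ hx
          rw [if_neg]
          rintro ⟨h3, _⟩
          exact hx (Subtype.ext h3.symm)
        · intro h; exact absurd (Finset.mem_univ _) h
    · rw [if_neg (fun h => ha h.1)]
      symm
      apply Finset.sum_eq_zero
      intro x _
      rw [if_neg]
      rintro ⟨h3, _⟩
      exact ha (h3 ▸ x.2)
  -- first outside, second inside
  have s3 : HasSum (fun p : Pt × Pt => if p.2 ∈ bx N ∧ p.1 ∉ bx N then |ψ p.2| * wa (2*q) (p.1 - p.2) else 0)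
      (∑ x : Ix N, |((φ x : ℤ) : ℝ)| * Tout q N x.1) := by
    have h := (Equiv.prodComm Pt Pt).hasSum_iff.mpr s2
    refine h.congr_fun ?_ |> id
    rintro ⟨a, b⟩
    have hw := wa_symm (2*q) a b
    by_cases hb : b ∈ bx N <;> by_cases ha : a ∈ bx N <;> simp [ha, hb, hw]
  have h := (s1.add s2).add s3
  refine h.congr_fun ?_ |> id
  rintro ⟨a, b⟩
  simp only
  by_cases ha : a ∈ bx N <;> by_cases hb : b ∈ bx N
  · simp [ha, hb, hψ]
  · have := hψo b hb
    simp only [hψ] at this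
    simp [ha, hb, hψ, this]
  · have := hψo a ha
    simp only [hψ] at this
    simp [ha, hb, hψ, this]
  · have h1 := hψo a ha
    have h2 := hψo b hb
    simp only [hψ] at h1 h2
    simp [ha, hb, h1, h2]

theorem bond_sum {β q : ℝ} {N : ℤ} (φ : Ix N → ℤ) :
    ∑ p : Bd N, tt β q p * |((nz p φ : ℤ) : ℝ)| =
      β * ((∑ x : Ix N, ∑ y : Ix N, |((φ x : ℤ) : ℝ) - ((φ y : ℤ) : ℝ)| * wa (2*q) (x.1 - y.1)) +
        (∑ x : Ix N, |((φ x : ℤ) : ℝ)| * Tout q N x.1) + (∑ x : Ix N, |((φ x : ℤ) : ℝ)| * Tout q N x.1)) := by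
  classical
  rw [Fintype.sum_sum_type, Fintype.sum_prod_type]
  have a1 : ∑ x : Ix N, ∑ y : Ix N, tt β q (Sum.inl (x, y) : Bd N) * |((nz (Sum.inl (x, y)) φ : ℤ) : ℝ)| =
      β * ∑ x : Ix N, ∑ y : Ix N, |((φ x : ℤ) : ℝ) - ((φ y : ℤ) : ℝ)| * wa (2*q) (x.1 - y.1) := by
    rw [Finset.mul_sum]
    refine Finset.sum_congr rfl (fun x _ => ?_)
    rw [Finset.mul_sum]
    refine Finset.sum_congr rfl (fun y _ => ?_)
    have e : ((nz (Sum.inl (x, y)) φ : ℤ) : ℝ) = ((φ x : ℤ) : ℝ) - ((φ y : ℤ) : ℝ) := by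
      simp only [nz]; push_cast; rfl
    rw [e]
    simp only [tt]
    split_ifs with h
    · have : x = y := Subtype.ext h
      rw [this]; simp
    · ring
  have a2 : ∑ x : Ix N, tt β q (Sum.inr x : Bd N) * |((nz (Sum.inr x) φ : ℤ) : ℝ)| =
      2 * β * ∑ x : Ix N, |((φ x : ℤ) : ℝ)| * Tout q N x.1 := by
    rw [Finset.mul_sum]
    refine Finset.sum_congr rfl (fun x _ => ?_)
    have e : ((nz (Sum.inr x) φ : ℤ) : ℝ) = ((φ x : ℤ) : ℝ) := rfl
    rw [e]
    have e2 : tt β q (Sum.inr x : Bd N) = 2 * β * Tout q N x.1 := by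
      unfold tt Tout
      congr 1
    rw [e2]
    ring
  rw [a1, a2]
  ring

/-- the energy in the form of the problem -/
theorem energy_eq {β q : ℝ} (hq : 2 < q) {N : ℤ} (φ : Ix N → ℤ) :
    -β * ∑' p : (ℤ × ℤ) × (ℤ × ℤ),
      (if p.1 = p.2 then (0 : ℝ) else
        |((extz φ p.1 : ℝ) - (extz φ p.2 : ℝ))| /
          (Real.sqrt ((((p.1.1 - p.2.1 : ℤ)) : ℝ) ^ 2 + (((p.1.2 - p.2.2 : ℤ)) : ℝ) ^ 2)) ^ (2 * q)) =
    -∑ p : Bd N, tt β q p * |((nz p φ : ℤ) : ℝ)| := by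
  have h := hasSum_energy hq φ
  rw [bond_sum, ← h.tsum_eq, neg_mul]
  congr 2
  refine tsum_congr (fun p => ?_)
  split_ifs with hp
  · rw [hp]; simp
  · unfold wa Eu
    rw [mul_one_div]
    rfl

/-- configurations of the problem -/
noncomputable def confEquiv (N : ℕ) : (Ix (N : ℤ) → ℤ) ≃
    {ψ : ℤ × ℤ → ℤ // ∀ x : ℤ × ℤ, ((N : ℤ) < |x.1| ∨ (N : ℤ) < |x.2|) → ψ x = 0} where
  toFun φ := ⟨extz φ, fun x hx => extz_out φ (fun h => by
    rw [mem_bx] at h
    rw [← lt_nm_iff] at hx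
    omega)⟩
  invFun ψ := fun i => ψ.1 i.1
  left_inv φ := by
    funext i
    exact extz_in φ i
  right_inv ψ := by
    apply Subtype.ext
    funext x
    by_cases hx : x ∈ bx (N : ℤ)
    · show extz (fun i : Ix (N : ℤ) => ψ.1 i.1) x = ψ.1 x
      unfold extz
      rw [dif_pos hx]
    · show extz (fun i : Ix (N : ℤ) => ψ.1 i.1) x = ψ.1 x
      rw [extz_out _ hx]
      symm
      apply ψ.2
      rw [mem_bx, not_le, lt_nm_iff] at hx
      exact hx

theorem confEquiv_val (N : ℕ) (φ : Ix (N : ℤ) → ℤ) : (confEquiv N φ).1 = extz φ := rfl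

end Pool.Agent.Helper95_SOS
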