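import Pool.Agent.Helper95_SOS.Energy
import Pool.Agent.Helper95_SOS.Levy

/-!
From the Gaussian model to the SOS model, one bond at a time.
-/

set_option autoImplicit false

open scoped BigOperators

namespace Pool.Agent.Helper95_SOS

/-- integer height difference -/
def nz {N : ℤ} : Bd N → (Ix N → ℤ) → ℤ
  | Sum.inl p, ψ => ψ p.1 - ψ p.2
  | Sum.inr i, ψ => ψ i

theorem lbd_cst {N : ℤ} (p : Bd N) (ψ : Ix N → ℤ) : lbd p (cst ψ) = ((nz p ψ : ℤ) : ℝ) := by
  rcases p with ⟨x, y⟩ | x
  · rw [lbd_inl]; simp only [nz, cst_apply]; push_cast; rfl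
  · rw [lbd_inr]; simp only [nz, cst_apply]

/-- weight of a bond -/
noncomputable def wt {N : ℤ} (T : Finset (Bd N)) (tt u : Bd N → ℝ) (p : Bd N) (n : ℤ) : ℝ :=
  if p ∈ T then Real.exp (-(tt p * |(n:ℝ)|)) else Real.exp (-((1/2) * u p * (n:ℝ)^2))

/-- total weight -/
noncomputable def Wt {N : ℤ} (T : Finset (Bd N)) (tt u : Bd N → ℝ) (ψ : Ix N → ℤ) : ℝ :=
  ∏ p, wt T tt u p (nz p ψ)

theorem wt_nonneg {N : ℤ} (T : Finset (Bd N)) (tt u : Bd N → ℝ) (p : Bd N) (n : ℤ) :
    0 ≤ wt T tt u p n := by
  unfold wt; split_ifs <;> exact (Real.exp_pos _).le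

theorem Wt_nonneg {N : ℤ} (T : Finset (Bd N)) (tt u : Bd N → ℝ) (ψ : Ix N → ℤ) :
    0 ≤ Wt T tt u ψ := Finset.prod_nonneg (fun p _ => wt_nonneg T tt u p _)

theorem wt_le_one {N : ℤ} (T : Finset (Bd N)) (tt u : Bd N → ℝ) (htt : ∀ p, 0 < tt p)
    (hu : ∀ p, 0 < u p) (p : Bd N) (n : ℤ) : wt T tt u p n ≤ 1 := by
  unfold wt
  split_ifs
  · rw [Real.exp_le_one_iff]
    have := mul_nonneg (htt p).le (abs_nonneg (n:ℝ))
    linarith
  · rw [Real.exp_le_one_iff]
    have := mul_nonneg (mul_nonneg (by norm_num : (0:ℝ) ≤ 1/2) (hu p).le) (sq_nonneg (n:ℝ))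
    linarith

theorem summable_exp_abs {c : ℝ} (hc : 0 < c) : Summable (fun n : ℤ => Real.exp (-(c * |(n:ℝ)|))) := by
  have h2 : Summable (fun n : ℕ => Real.exp (-(c * (n:ℝ)))) := by
    have := Real.summable_exp_nat_mul_iff (a := -c)
    have h := this.mpr (by linarith)
    refine h.congr (fun n => ?_)
    ring_nf
  apply Summable.of_nat_of_neg
  · refine h2.congr (fun n => ?_)
    simp
  · refine h2.congr (fun n => ?_)
    simp

theorem wt_summable {N : ℤ} (T : Finset (Bd N)) (tt u : Bd N → ℝ) (htt : ∀ p, 0 < tt p)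
    (hu : ∀ p, 0 < u p) (p : Bd N) : Summable (wt T tt u p) := by
  unfold wt
  by_cases hp : p ∈ T
  · simp only [if_pos hp]
    exact summable_exp_abs (htt p)
  · simp only [if_neg hp]
    exact summable_gauss (c := (1/2) * u p) (by have := hu p; positivity)

theorem Wt_summable {N : ℤ} (T : Finset (Bd N)) (tt u : Bd N → ℝ) (htt : ∀ p, 0 < tt p)
    (hu : ∀ p, 0 < u p) : Summable (Wt T tt u) := by
  have h1 := summable_pi_prod (fun (i : Ix N) (n : ℤ) => wt T tt u (Sum.inr i) n)
    (fun i n => wt_nonneg T tt u _ n) (fun i => wt_summable T tt u htt hu _)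
  refine Summable.of_nonneg_of_le (fun ψ => Wt_nonneg T tt u ψ) (fun ψ => ?_) h1
  unfold Wt
  rw [Fintype.prod_sum_type]
  have h2 : ∏ p : Ix N × Ix N, wt T tt u (Sum.inl p) (nz (Sum.inl p) ψ) ≤ 1 := by
    apply Finset.prod_le_one
    · intro p _; exact wt_nonneg T tt u _ _
    · intro p _; exact wt_le_one T tt u htt hu _ _
  have h3 : 0 ≤ ∏ i : Ix N, wt T tt u (Sum.inr i) (nz (Sum.inr i) ψ) :=
    Finset.prod_nonneg (fun p _ => wt_nonneg T tt u _ _)
  have h4 := mul_le_mul_of_nonneg_right h2 h3
  rw [one_mul] at h4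
  exact h4

theorem mix {N : ℤ} (F : (Bd N → ℝ) → ℝ)
    (hF : ∀ (mm : Bd N → ℝ) (p : Bd N), (∀ q, 0 ≤ mm q) →
      ∃ A b : ℝ, 0 ≤ b ∧ ∀ c, F (Function.update mm p c) = A + b * c)
    (f : (Ix N → ℤ) → ℝ) (hf : ∀ ψ, |f ψ| ≤ 1) (tt : Bd N → ℝ) (htt : ∀ p, 0 < tt p)
    (hG : ∀ u : Bd N → ℝ, (∀ p, 0 < u p) → ∑' ψ, Wt ∅ tt u ψ * f ψ ≤
      F (fun p => min (u p) 1) * ∑' ψ, Wt ∅ tt u ψ) (T : Finset (Bd N)) :
    ∀ u : Bd N → ℝ, (∀ p, 0 < u p) → ∑' ψ, Wt T tt u ψ * f ψ ≤
      F (fun p => if p ∈ T then 3 * tt p else min (u p) 1) * ∑' ψ, Wt T tt u ψ := by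
  classical
  induction T using Finset.induction_on with
  | empty =>
      intro u hu
      simpa using hG u hu
  | insert p0 T hp0 ih =>
      intro u hu
      set Wr : (Ix N → ℤ) → ℝ := fun ψ => ∏ p ∈ Finset.univ.erase p0, wt T tt u p (nz p ψ) with hWr
      have hWr0 : ∀ ψ, 0 ≤ Wr ψ := fun ψ => Finset.prod_nonneg (fun p _ => wt_nonneg T tt u p _)
      have e1 : ∀ v ψ, Wt T tt (Function.update u p0 v) ψ =
          Wr ψ * Real.exp (-((1/2) * v * ((nz p0 ψ : ℤ) : ℝ)^2)) := by
        intro v ψ
        unfold Wt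
        rw [← Finset.mul_prod_erase Finset.univ _ (Finset.mem_univ p0), mul_comm]
        congr 1
        · simp only [hWr]
          refine Finset.prod_congr rfl (fun p hp => ?_)
          have hne : p ≠ p0 := Finset.ne_of_mem_erase hp
          unfold wt
          rw [Function.update_of_ne hne]
        · unfold wt
          rw [if_neg hp0, Function.update_self]
      have e2 : ∀ ψ, Wt (insert p0 T) tt u ψ = Wr ψ * Real.exp (-(tt p0 * |((nz p0 ψ : ℤ) : ℝ)|)) := by
        intro ψ
        unfold Wt
        rw [← Finset.mul_prod_erase Finset.univ _ (Finset.mem_univ p0), mul_comm]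
        congr 1
        · simp only [hWr]
          refine Finset.prod_congr rfl (fun p hp => ?_)
          have hne : p ≠ p0 := Finset.ne_of_mem_erase hp
          unfold wt
          simp only [Finset.mem_insert, hne, false_or]
        · unfold wt
          rw [if_pos (Finset.mem_insert_self _ _)]
      set m0 : Bd N → ℝ := fun p => if p ∈ T then 3 * tt p else min (u p) 1 with hm0
      have hm00 : ∀ q, 0 ≤ m0 q := by
        intro q
        simp only [hm0]
        split_ifs
        · have := htt q; linarith
        · exact le_min (hu q).le zero_le_one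
      obtain ⟨A, b, hb, hAb⟩ := hF m0 p0 hm00
      have key := one_bond Wr f (fun ψ => nz p0 ψ) (htt p0) hb hWr0 hf
        (by
          have := Wt_summable (insert p0 T) tt u htt hu
          refine this.congr (fun ψ => ?_)
          exact e2 ψ)
        (fun v hv => by
          have := Wt_summable T tt (Function.update u p0 v) htt (fun p => by
            by_cases h : p = p0
            · rw [h, Function.update_self]; exact hv
            · rw [Function.update_of_ne h]; exact hu p)
          refine this.congr (fun ψ => ?_)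
          exact e1 v ψ)
        (A := A) (fun v hv => by
          have h1 := ih (Function.update u p0 v) (fun p => by
            by_cases h : p = p0
            · rw [h, Function.update_self]; exact hv
            · rw [Function.update_of_ne h]; exact hu p)
          have e3 : (fun p => if p ∈ T then 3 * tt p else min (Function.update u p0 v p) 1) =
              Function.update m0 p0 (min v 1) := by
            funext p
            by_cases h : p = p0
            · subst h
              rw [Function.update_self, if_neg hp0, Function.update_self]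
            · rw [Function.update_of_ne h, Function.update_of_ne h]
          rw [e3, hAb] at h1
          simp_rw [e1] at h1
          exact h1)
      have e4 : (fun p => if p ∈ insert p0 T then 3 * tt p else min (u p) 1) =
          Function.update m0 p0 (3 * tt p0) := by
        funext p
        by_cases h : p = p0
        · subst h
          rw [Function.update_self, if_pos (Finset.mem_insert_self _ _)]
        · rw [Function.update_of_ne h]
          simp only [hm0, Finset.mem_insert, h, false_or]
      rw [e4, hAb]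
      simp_rw [e2]
      exact key

theorem Wt_empty {N : ℤ} (tt u : Bd N → ℝ) (ψ : Ix N → ℤ) :
    Wt ∅ tt u ψ = Real.exp (-((1/2) * Au u (cst ψ))) := by
  unfold Wt wt
  simp only [Finset.notMem_empty, if_false]
  rw [← Real.exp_sum, Au_apply, Finset.mul_sum, ← Finset.sum_neg_distrib]
  congr 1
  refine Finset.sum_congr rfl (fun p _ => ?_)
  rw [lbd_cst]
  ring

theorem Wt_univ {N : ℤ} (tt u : Bd N → ℝ) (ψ : Ix N → ℤ) :
    Wt Finset.univ tt u ψ = Real.exp (-∑ p, tt p * |((nz p ψ : ℤ) : ℝ)|) := by
  unfold Wt wt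
  simp only [Finset.mem_univ, if_true]
  rw [← Real.exp_sum, ← Finset.sum_neg_distrib]

/-- valuation obtained from bond values -/
noncomputable def xm (K : ℕ) (M : ℤ) {N : ℤ} (κ : ℝ) (mm : Bd N → ℝ) : Var → ℝ :=
  xfin (fun j z => (∑ p ∈ bset K M (Var.blk j z), mm p) / eps K κ (Var.blk j z))
    ((∑ p ∈ bset K M Var.outer, mm p) / eps K κ Var.outer) (Real.pi^2 / (2 * κ)) (Real.pi^2 / (16 * κ))

theorem xm_nonneg {K : ℕ} {M N : ℤ} {κ : ℝ} (hκ : 0 < κ) {mm : Bd N → ℝ} (h : ∀ p, 0 ≤ mm p) :
    ∀ v, 0 ≤ xm K M κ mm v := by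
  intro v
  cases v with
  | site s => exact del_nonneg _
  | omg j z => exact del_nonneg _
  | blk j z => exact div_nonneg (Finset.sum_nonneg (fun p _ => h p)) (eps_pos K hκ _).le
  | outer => exact div_nonneg (Finset.sum_nonneg (fun p _ => h p)) (eps_pos K hκ _).le

theorem bset_sum_update {K : ℕ} {M N : ℤ} (v : Var) (p : Bd N) (mm : Bd N → ℝ) (c : ℝ) :
    ∑ q ∈ bset K M v, Function.update mm p c q =
      ∑ q ∈ bset K M v, Function.update mm p 0 q + (if bvar K M p = some v then c else 0) := by
  classical
  by_cases h : bvar K M p = some v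
  · rw [if_pos h]
    have hp : p ∈ bset K M v := (mem_bset K M v p).mpr h
    rw [← Finset.add_sum_erase _ _ hp, ← Finset.add_sum_erase _ (fun q => Function.update mm p 0 q) hp,
      Function.update_self, Function.update_self, zero_add, add_comm]
    congr 1
    refine Finset.sum_congr rfl (fun q hq => ?_)
    have hne := Finset.ne_of_mem_erase hq
    rw [Function.update_of_ne hne, Function.update_of_ne hne]
  · rw [if_neg h, add_zero]
    refine Finset.sum_congr rfl (fun q hq => ?_)
    have hne : q ≠ p := by
      rintro rfl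
      exact h ((mem_bset K M v q).mp hq)
    rw [Function.update_of_ne hne, Function.update_of_ne hne]

theorem bvar_ne {K : ℕ} {M N : ℤ} (p : Bd N) {v : Var} (h : bvar K M p = some v) :
    (∃ j z, v = Var.blk j z) ∨ v = Var.outer := by
  rcases p with ⟨x, y⟩ | x
  · simp only [bvar] at h
    split_ifs at h with h1 h2 h3
    · injection h with h
      left; exact ⟨_, _, h.symm⟩
    · injection h with h
      right; exact h.symm
  · simp only [bvar] at h
    split_ifs at h
    injection h with h
    right; exact h.symm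

theorem xm_update {K : ℕ} {M N : ℤ} {κ : ℝ} (hκ : 0 < κ) (mm : Bd N → ℝ) (p : Bd N) {v : Var}
    (h : bvar K M p = some v) (c : ℝ) :
    xm K M κ (Function.update mm p c) = Function.update (xm K M κ (Function.update mm p 0)) v
      (xm K M κ (Function.update mm p 0) v + c / eps K κ v) := by
  funext w
  by_cases hwv : w = v
  · subst hwv
    rw [Function.update_self]
    rcases bvar_ne p h with ⟨j, z, rfl⟩ | rfl
    · simp only [xm, xfin]
      rw [bset_sum_update, if_pos h, add_div]
    · simp only [xm, xfin]
      rw [bset_sum_update, if_pos h, add_div]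
  · rw [Function.update_of_ne hwv]
    have hne : bvar K M p ≠ some w := by
      rw [h]; intro hcon; injection hcon with hcon; exact hwv hcon.symm
    cases w with
    | site s => rfl
    | omg j z => rfl
    | blk j z =>
        simp only [xm, xfin]
        rw [bset_sum_update, if_neg hne, add_zero]
    | outer =>
        simp only [xm, xfin]
        rw [bset_sum_update, if_neg hne, add_zero]

theorem F_affine {K : ℕ} {M N : ℤ} {κ : ℝ} (hκ : 0 < κ) {G : (Var → ℝ) → ℝ} (hG : MA Set.univ G)
    (mm : Bd N → ℝ) (p : Bd N) (hm : ∀ q, 0 ≤ mm q) :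
    ∃ A b : ℝ, 0 ≤ b ∧ ∀ c, G (xm K M κ (Function.update mm p c)) = A + b * c := by
  rcases hb : bvar K M p with _ | v
  · refine ⟨G (xm K M κ mm), 0, le_rfl, fun c => ?_⟩
    rw [zero_mul, add_zero]
    congr 1
    have hall : ∀ w, ∑ q ∈ bset K M w, Function.update mm p c q = ∑ q ∈ bset K M w, mm q := by
      intro w
      refine Finset.sum_congr rfl (fun q hq => ?_)
      have hne : q ≠ p := by
        rintro rfl
        rw [mem_bset, hb] at hq
        exact absurd hq (by simp)
      rw [Function.update_of_ne hne]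
    unfold xm
    congr 1
    · funext j z; rw [hall]
    · rw [hall]
  · set x0 := xm K M κ (Function.update mm p 0) with hx0
    have hx0n : ∀ w, 0 ≤ x0 w := by
      apply xm_nonneg hκ
      intro q
      by_cases h : q = p
      · rw [h, Function.update_self]
      · rw [Function.update_of_ne h]; exact hm q
    set g0 := G (Function.update x0 v 0) with hg0
    set g1 := G (Function.update x0 v 1) with hg1
    have hg : g0 ≤ g1 := by
      apply hG.mono
      · intro w
        by_cases h : w = v
        · rw [h, Function.update_self]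
        · rw [Function.update_of_ne h]; exact hx0n w
      · intro w
        by_cases h : w = v
        · rw [h, Function.update_self, Function.update_self]; exact zero_le_one
        · rw [Function.update_of_ne h, Function.update_of_ne h]
    have he := eps_pos K hκ v
    refine ⟨g0 + x0 v * (g1 - g0), (g1 - g0) / eps K κ v, div_nonneg (by linarith) he.le, fun c => ?_⟩
    rw [xm_update hκ mm p hb, hG.aff, ← hx0]
    field_simp
    ring

end Pool.Agent.Helper95_SOS
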