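import Pool.Agent.Helper95_SOS.Chi

/-!
Numerical bounds for the dominating polynomials.
-/

set_option autoImplicit false

open scoped BigOperators

namespace Pool.Agent.Helper95_SOS

theorem card_cpts (Q : Pt) : (cpts Q).card = 1024 := by
  unfold cpts
  rw [Finset.card_product, Int.card_Ico, Int.card_Ico]
  have e1 : (32 * Q.1 + 32 - 32 * Q.1).toNat = 32 := by omega
  have e2 : (32 * Q.2 + 32 - 32 * Q.2).toNat = 32 := by omega
  rw [e1, e2]

theorem card_nblk (Q : Pt) : (nblk Q).card = 2601 := by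
  unfold nblk
  rw [Finset.card_product, Int.card_Icc, Int.card_Icc]
  have e1 : (32 * Q.1 + 40 + 1 - (32 * Q.1 - 10)).toNat = 51 := by omega
  have e2 : (32 * Q.2 + 40 + 1 - (32 * Q.2 - 10)).toNat = 51 := by omega
  rw [e1, e2]

theorem card_four : four.card = 4 := by
  unfold four
  rw [Finset.card_product, Int.card_Icc]
  rfl

theorem Gm_eq (k : ℕ) : Gm k = 2^(3*k+37) := by
  unfold Gm dk
  rw [show 3*k+37 = (3*k+33)+4 by ring, pow_add 2 (3*k+33) 4]
  ring

theorem card_sub (k : ℕ) (Q : Pt) : ((sub k Q).card : ℝ) = 2^(6*k+74) := by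
  unfold sub
  rw [Finset.card_product, Int.card_Ico, Int.card_Ico]
  have e1 : (Gm k * Q.1 + Gm k - Gm k * Q.1).toNat = 2^(3*k+37) := by
    rw [add_sub_cancel_left, Gm_eq]
    norm_cast
  have e2 : (Gm k * Q.2 + Gm k - Gm k * Q.2).toNat = 2^(3*k+37) := by
    rw [add_sub_cancel_left, Gm_eq]
    norm_cast
  rw [e1, e2, ← pow_add]
  push_cast
  congr 1
  ring

theorem card_win (k : ℕ) (Q : Pt) : ((win k Q).card : ℝ) ≤ 2^(6*k+76) := by
  unfold win
  rw [Finset.card_product, Int.card_Ico, Int.card_Ico]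
  have hd : dk k = 2^(3*k+33) := rfl
  have hG := Gm_eq k
  have h33 : (2:ℤ)^(3*k+37) = 16 * 2^(3*k+33) := by
    rw [show 3*k+37 = (3*k+33)+4 by ring, pow_add 2 (3*k+33) 4]; ring
  have h34 : (2:ℤ)^(3*k+38) = 32 * 2^(3*k+33) := by
    rw [show 3*k+38 = (3*k+33)+5 by ring, pow_add 2 (3*k+33) 5]; ring
  have h1 : (1:ℤ) ≤ 2^(3*k+33) := one_le_pow₀ (by norm_num)
  have key : ∀ q : ℤ, (Gm k * q + Gm k + dk k + 3 - (Gm k * q - dk k - 3)).toNat ≤ 2^(3*k+38) := by
    intro q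
    have e : Gm k * q + Gm k + dk k + 3 - (Gm k * q - dk k - 3) = Gm k + 2 * dk k + 6 := by ring
    rw [e, Int.toNat_le]
    push_cast
    rw [hG, hd, h33, h34]
    linarith
  have h2 := Nat.mul_le_mul (key Q.1) (key Q.2)
  rw [← pow_add] at h2
  have h3 : ((((Gm k * Q.1 + Gm k + dk k + 3 - (Gm k * Q.1 - dk k - 3)).toNat *
      (Gm k * Q.2 + Gm k + dk k + 3 - (Gm k * Q.2 - dk k - 3)).toNat : ℕ)) : ℝ) ≤
      ((2^(3*k+38+(3*k+38)) : ℕ) : ℝ) := by exact_mod_cast h2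
  refine le_trans h3 (le_of_eq ?_)
  push_cast
  congr 1
  ring

theorem card_prs (k : ℕ) (Q : Pt) : ((prs k Q).card : ℝ) ≤ 2^(12*k+152) := by
  have h1 : (prs k Q).card ≤ (win k Q ×ˢ win k Q).card := Finset.card_filter_le _ _
  rw [Finset.card_product] at h1
  have h2 : ((prs k Q).card : ℝ) ≤ ((win k Q).card : ℝ) * ((win k Q).card : ℝ) := by exact_mod_cast h1
  have h3 := card_win k Q
  have h4 : (0:ℝ) ≤ ((win k Q).card : ℝ) := Nat.cast_nonneg _
  calc ((prs k Q).card : ℝ) ≤ ((win k Q).card : ℝ) * ((win k Q).card : ℝ) := h2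
    _ ≤ 2^(6*k+76) * 2^(6*k+76) := mul_le_mul h3 h3 h4 (by positivity)
    _ = 2^(12*k+152) := by rw [← pow_add]; congr 1; ring

section num
variable {xv : Var → ℝ} (hxv : ∀ v, 0 ≤ xv v) (hs : ∀ s, xv (Var.site s) ≤ (1/2)^212)
  (ho : ∀ j z, xv (Var.omg j z) ≤ (1/2)^(6*j+98))
  (hb : ∀ j z, xv (Var.blk j z) ≤ (1/2)^(20*j+214))

include hxv hs ho hb in
theorem ap_le (k : ℕ) : ∀ Q, ap k Q xv ≤ (1/2)^(20*k+200) := by
  induction k with
  | zero =>
      intro Q
      have h1 : ∑ s ∈ cpts Q, xv (Var.site s) ≤ 1024 * (1/2)^212 := by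
        have := Finset.sum_le_card_nsmul (cpts Q) (fun s => xv (Var.site s)) ((1/2)^212) (fun s _ => hs s)
        rw [card_cpts, nsmul_eq_mul] at this
        exact_mod_cast this
      have h2 : ∑ z ∈ nblk Q, xv (Var.blk 0 z) ≤ 2601 * (1/2)^214 := by
        have := Finset.sum_le_card_nsmul (nblk Q) (fun z => xv (Var.blk 0 z)) ((1/2)^214)
          (fun z _ => by simpa using hb 0 z)
        rw [card_nblk, nsmul_eq_mul] at this
        exact_mod_cast this
      show ∑ s ∈ cpts Q, xv (Var.site s) + ∑ z ∈ nblk Q, xv (Var.blk 0 z) ≤ _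
      have e1 : (1024:ℝ) * (1/2)^212 = (1/2)^202 := by norm_num
      have e2 : (2601:ℝ) * (1/2)^214 ≤ (1/2)^202 := by norm_num
      have e3 : ((1:ℝ)/2)^202 + (1/2)^202 ≤ (1/2)^(20*0+200) := by norm_num
      linarith
  | succ k ih =>
      intro Q
      set w : ℝ := (1/2)^(20*k+222) with hw
      have hw0 : 0 < w := by positivity
      have hapn : ∀ P, 0 ≤ ap k P xv := fun P => (ap_MA k P).nn xv hxv
      have h1 : ∑ P ∈ sub k Q, ∑ v ∈ four, ap k P xv * xv (Var.omg k (P - v)) ≤ w := by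
        have h2 : ∀ P ∈ sub k Q, ∑ v ∈ four, ap k P xv * xv (Var.omg k (P - v)) ≤
            4 * ((1/2)^(20*k+200) * (1/2)^(6*k+98)) := by
          intro P _
          have := Finset.sum_le_card_nsmul four (fun v => ap k P xv * xv (Var.omg k (P - v)))
            ((1/2)^(20*k+200) * (1/2)^(6*k+98)) (fun v _ =>
              mul_le_mul (ih P) (ho k _) (hxv _) (by positivity))
          rw [card_four, nsmul_eq_mul] at this
          exact_mod_cast this
        have h3 := Finset.sum_le_card_nsmul _ _ _ h2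
        rw [nsmul_eq_mul, card_sub] at h3
        refine le_trans h3 (le_of_eq ?_)
        rw [hw]
        have e : ((1:ℝ)/2)^(20*k+200) * (1/2)^(6*k+98) = (1/2)^(6*k+76) * (1/2)^(20*k+222) := by
          rw [← pow_add, ← pow_add]; congr 1; ring
        rw [e]
        have e2 : (2:ℝ)^(6*k+74) * (4 * ((1/2)^(6*k+76) * (1/2)^(20*k+222))) =
            (2^(6*k+76) * (1/2)^(6*k+76)) * (1/2)^(20*k+222) := by
          rw [show 6*k+76 = (6*k+74)+2 by ring, pow_add (2:ℝ) (6*k+74) 2]; ring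
        rw [e2, ← mul_pow]
        norm_num
      have h2 : ∑ p ∈ prs k Q, ap k p.1 xv * ap k p.2 xv ≤ w := by
        have h3 := Finset.sum_le_card_nsmul (prs k Q) (fun p => ap k p.1 xv * ap k p.2 xv)
          ((1/2)^(20*k+200) * (1/2)^(20*k+200)) (fun p _ =>
            mul_le_mul (ih p.1) (ih p.2) (hapn _) (by positivity))
        rw [nsmul_eq_mul] at h3
        have h4 := mul_le_mul_of_nonneg_right (card_prs k Q)
          (by positivity : (0:ℝ) ≤ (1/2)^(20*k+200) * (1/2)^(20*k+200))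
        refine le_trans (le_trans h3 h4) ?_
        rw [hw]
        have e : ((1:ℝ)/2)^(20*k+200) * (1/2)^(20*k+200) = (1/2)^(12*k+152) * ((1/2)^(20*k+222) * (1/2)^(8*k+26)) := by
          rw [← pow_add, ← pow_add, ← pow_add]; congr 1; ring
        rw [e, ← mul_assoc, ← mul_pow]
        have e2 : ((1:ℝ)/2)^(8*k+26) ≤ 1 := pow_le_one₀ (by norm_num) (by norm_num)
        rw [show (2:ℝ) * (1/2) = 1 by norm_num, one_pow, one_mul]
        have e3 : (0:ℝ) < (1/2)^(20*k+222) := by positivity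
        have e6 := mul_le_mul_of_nonneg_left e2 e3.le
        rw [mul_one] at e6
        exact e6
      have h3 : ∑ z ∈ nblk Q, xv (Var.blk (k+1) z) ≤ w := by
        have h4 := Finset.sum_le_card_nsmul (nblk Q) (fun z => xv (Var.blk (k+1) z))
          ((1/2)^(20*(k+1)+214)) (fun z _ => hb (k+1) z)
        rw [card_nblk, nsmul_eq_mul] at h4
        refine le_trans h4 ?_
        rw [hw]
        have e0 : 20*(k+1)+214 = 12 + (20*k+222) := by ring
        rw [e0, pow_add]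
        have e3 : (0:ℝ) < (1/2)^(20*k+222) := by positivity
        have e5 : (2601:ℝ) * (1/2)^12 ≤ 1 := by norm_num
        push_cast
        rw [← mul_assoc]
        have e6 := mul_le_mul_of_nonneg_right e5 e3.le
        rw [one_mul] at e6
        exact e6
      have e4 : ((1:ℝ)/2)^(20*(k+1)+200) = 4 * w := by
        rw [hw]
        have : 20*k+222 = (20*(k+1)+200) + 2 := by ring
        rw [this, pow_add ((1:ℝ)/2) (20*(k+1)+200) 2]
        ring
      show ∑ P ∈ sub k Q, ∑ v ∈ four, ap k P xv * xv (Var.omg k (P - v)) +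
        ∑ p ∈ prs k Q, ap k p.1 xv * ap k p.2 xv + ∑ z ∈ nblk Q, xv (Var.blk (k+1) z) ≤ _
      rw [e4]
      linarith

theorem card_bx (m : ℕ) : (bx (m : ℤ)).card = (2 * m + 1)^2 := by
  unfold bx
  rw [Finset.card_product, Int.card_Icc]
  have e1 : ((m:ℤ) + 1 - (-(m:ℤ))).toNat = 2 * m + 1 := by omega
  rw [e1]; ring

theorem geo_le (K : ℕ) : ∑ k ∈ Finset.range K, ((1:ℝ)/2)^k ≤ 2 := by
  have h1 := geom_sum_eq (by norm_num : ((1:ℝ)/2) ≠ 1) K
  rw [h1]
  have h2 : (0:ℝ) < (1/2)^K := by positivity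
  rw [div_le_iff_of_neg (by norm_num)]
  linarith

include hxv hs ho hb in
theorem Ftot_le (hout : xv Var.outer ≤ 1/100) (K : ℕ) : Ftot K xv ≤ 1/10 := by
  have h1 : ∀ k ∈ Finset.range K, ∑ Q ∈ bx (dk k + 1), ap k Q xv ≤ (1/2)^130 * (1/2)^k := by
    intro k _
    have h2 := Finset.sum_le_card_nsmul (bx (dk k + 1)) (fun Q => ap k Q xv) ((1/2)^(20*k+200))
      (fun Q _ => ap_le hxv hs ho hb k Q)
    have hd : dk k + 1 = ((2^(3*k+33) + 1 : ℕ) : ℤ) := by unfold dk; push_cast; ring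
    rw [nsmul_eq_mul, hd, card_bx] at h2
    rw [hd]
    refine le_trans h2 ?_
    push_cast
    have h3 : (1:ℝ) ≤ 2^(3*k+33) := one_le_pow₀ (by norm_num)
    have h4 : (2 * ((2:ℝ)^(3*k+33) + 1) + 1)^2 ≤ (2:ℝ)^(6*k+70) := by
      have e : (2:ℝ)^(6*k+70) = (4 * (2^(3*k+33)))^2 * 1 := by
        rw [mul_pow, ← pow_mul, mul_one]
        rw [show (4:ℝ)^2 = 2^4 by norm_num, ← pow_add]
        congr 1; ring
      rw [e]
      have h33 : (8:ℝ) ≤ 2^(3*k+33) := by
        calc (8:ℝ) = 2^3 := by norm_num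
          _ ≤ 2^(3*k+33) := pow_le_pow_right₀ (by norm_num) (by omega)
      rw [mul_one]
      apply pow_le_pow_left₀
      · have : (0:ℝ) < 2^(3*k+33) := by positivity
        linarith
      · linarith
    have h5 := mul_le_mul_of_nonneg_right h4 (by positivity : (0:ℝ) ≤ (1/2)^(20*k+200))
    refine le_trans h5 ?_
    have e : ((1:ℝ)/2)^(20*k+200) = (1/2)^(6*k+70) * ((1/2)^130 * (1/2)^k * (1/2)^(13*k)) := by
      rw [← pow_add, ← pow_add, ← pow_add]; congr 1; ring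
    rw [e, ← mul_assoc, ← mul_pow]
    have e2 : ((1:ℝ)/2)^(13*k) ≤ 1 := pow_le_one₀ (by norm_num) (by norm_num)
    have e3 : (0:ℝ) < (1/2)^130 * (1/2)^k := by positivity
    rw [show (2:ℝ) * (1/2) = 1 by norm_num, one_pow, one_mul]
    have e6 := mul_le_mul_of_nonneg_left e2 e3.le
    rw [mul_one] at e6
    exact e6
  have h2 := Finset.sum_le_sum h1
  rw [← Finset.mul_sum] at h2
  have h3 := geo_le K
  have h4 : ∀ j ∈ Finset.range (K+1), ∑ z ∈ bx 8, xv (Var.blk j z) ≤ (1/2)^200 * (1/2)^j := by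
    intro j _
    have h5 := Finset.sum_le_card_nsmul (bx 8) (fun z => xv (Var.blk j z)) ((1/2)^(20*j+214))
      (fun z _ => hb j z)
    have h8 : (bx 8).card = 289 := card_bx 8
    rw [nsmul_eq_mul, h8] at h5
    refine le_trans h5 ?_
    have e : ((1:ℝ)/2)^(20*j+214) = (1/2)^14 * ((1/2)^200 * (1/2)^j * (1/2)^(19*j)) := by
      rw [← pow_add, ← pow_add, ← pow_add]; congr 1; ring
    rw [e]
    have e2 : ((1:ℝ)/2)^(19*j) ≤ 1 := pow_le_one₀ (by norm_num) (by norm_num)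
    have e3 : (0:ℝ) < (1/2)^200 * (1/2)^j := by positivity
    have e5 : (289:ℝ) * (1/2)^14 ≤ 1 := by norm_num
    have e6 := mul_le_mul_of_nonneg_left e2 e3.le
    rw [mul_one] at e6
    have e7 : (0:ℝ) ≤ (1/2)^200 * (1/2)^j * (1/2)^(19*j) := by positivity
    push_cast
    calc (289:ℝ) * ((1/2)^14 * ((1/2)^200 * (1/2)^j * (1/2)^(19*j)))
        = (289 * (1/2)^14) * ((1/2)^200 * (1/2)^j * (1/2)^(19*j)) := by ring
      _ ≤ 1 * ((1/2)^200 * (1/2)^j * (1/2)^(19*j)) := mul_le_mul_of_nonneg_right e5 e7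
      _ ≤ (1/2)^200 * (1/2)^j := by rw [one_mul]; exact e6
  have h5 := Finset.sum_le_sum h4
  rw [← Finset.mul_sum] at h5
  have h6 := geo_le (K+1)
  have e1 : ((1:ℝ)/2)^130 ≤ 1/1000 := by norm_num
  have e2 : ((1:ℝ)/2)^200 ≤ 1/1000 := by norm_num
  have e3 : (0:ℝ) < (1/2)^130 := by positivity
  have e4 : (0:ℝ) < (1/2)^200 := by positivity
  have m1 : ((1:ℝ)/2)^130 * ∑ k ∈ Finset.range K, ((1:ℝ)/2)^k ≤ 1/1000 * 2 :=
    mul_le_mul e1 h3 (Finset.sum_nonneg (fun k _ => by positivity)) (by norm_num)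
  have m2 : ((1:ℝ)/2)^200 * ∑ k ∈ Finset.range (K+1), ((1:ℝ)/2)^k ≤ 1/1000 * 2 :=
    mul_le_mul e2 h6 (Finset.sum_nonneg (fun k _ => by positivity)) (by norm_num)
  unfold Ftot
  linarith

end num

end Pool.Agent.Helper95_SOS
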