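import Mathlib

/-!
Oscillation of a function on a dyadic square of ℤ² in terms of its Dirichlet energy.
-/

set_option autoImplicit false

open scoped BigOperators

namespace Pool.Agent.Helper95_SOS

/-- lattice points -/
abbrev Pt := ℤ × ℤ

/-- gradient energy density -/
noncomputable def gd (φ : Pt → ℝ) (x : Pt) : ℝ := (φ (x.1 + 1, x.2) - φ x)^2 + (φ (x.1, x.2 + 1) - φ x)^2

theorem gd_nonneg (φ : Pt → ℝ) (x : Pt) : 0 ≤ gd φ x := by unfold gd; positivity

/-- half open square with corner `a` and side `n` -/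
noncomputable def sqr (a : Pt) (n : ℤ) : Finset Pt := Finset.Ico a.1 (a.1 + n) ×ˢ Finset.Ico a.2 (a.2 + n)

theorem mem_sqr (a : Pt) (n : ℤ) (x : Pt) :
    x ∈ sqr a n ↔ (a.1 ≤ x.1 ∧ x.1 < a.1 + n) ∧ (a.2 ≤ x.2 ∧ x.2 < a.2 + n) := by
  unfold sqr
  simp [Finset.mem_product]

/-- index square -/
def isq (n : ℕ) : Finset (ℕ × ℕ) := Finset.range n ×ˢ Finset.range n

/-- sum over a square -/
noncomputable def ssum (φ : Pt → ℝ) (a : Pt) (n : ℕ) : ℝ := ∑ p ∈ isq n, φ (a.1 + p.1, a.2 + p.2)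

/-- energy of a square -/
noncomputable def esq (φ : Pt → ℝ) (a : Pt) (n : ℕ) : ℝ := ∑ p ∈ isq n, gd φ (a.1 + p.1, a.2 + p.2)

theorem esq_nonneg (φ : Pt → ℝ) (a : Pt) (n : ℕ) : 0 ≤ esq φ a n :=
  Finset.sum_nonneg (fun p _ => gd_nonneg φ _)

theorem esq_eq (φ : Pt → ℝ) (a : Pt) (n : ℕ) : esq φ a n = ∑ x ∈ sqr a n, gd φ x := by
  unfold esq
  refine Finset.sum_bij (fun p _ => ((a.1 + p.1, a.2 + p.2) : Pt)) ?_ ?_ ?_ ?_
  · intro p hp
    simp only [isq, Finset.mem_product, Finset.mem_range] at hp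
    rw [mem_sqr]
    simp only
    omega
  · intro p hp q hq h
    simp only [Prod.mk.injEq] at h
    ext <;> omega
  · intro x hx
    rw [mem_sqr] at hx
    refine ⟨((x.1 - a.1).toNat, (x.2 - a.2).toNat), ?_, ?_⟩
    · simp only [isq, Finset.mem_product, Finset.mem_range]
      omega
    · ext <;> simp only <;> omega
  · intro p hp
    rfl

theorem isq_card (n : ℕ) : (isq n).card = n * n := by simp [isq]

/-- sub-square energy -/
theorem esq_mono (φ : Pt → ℝ) (a b : Pt) (n m : ℕ) (h : sqr a n ⊆ sqr b m) :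
    esq φ a n ≤ esq φ b m := by
  rw [esq_eq, esq_eq]
  exact Finset.sum_le_sum_of_subset_of_nonneg h (fun x _ _ => gd_nonneg φ x)

theorem tele1 (φ : Pt → ℝ) (x y : ℤ) (n : ℕ) :
    φ (x + n, y) - φ (x, y) = ∑ l ∈ Finset.range n, (φ (x + l + 1, y) - φ (x + l, y)) := by
  induction n with
  | zero => simp
  | succ n ih =>
      rw [Finset.sum_range_succ, ← ih]
      push_cast
      rw [← add_assoc]
      ring

theorem tele2 (φ : Pt → ℝ) (x y : ℤ) (n : ℕ) :
    φ (x, y + n) - φ (x, y) = ∑ l ∈ Finset.range n, (φ (x, y + l + 1) - φ (x, y + l)) := by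
  induction n with
  | zero => simp
  | succ n ih =>
      rw [Finset.sum_range_succ, ← ih]
      push_cast
      rw [← add_assoc]
      ring

theorem diff1 (φ : Pt → ℝ) (a : Pt) (n : ℕ) (b : Pt) (m : ℕ)
    (h : ∀ l : ℕ, l < n → sqr (a.1 + l, a.2) n ⊆ sqr b m) :
    (ssum φ (a.1 + n, a.2) n - ssum φ a n)^2 ≤ (n:ℝ)^4 * esq φ b m := by
  have e1 : ssum φ (a.1 + n, a.2) n - ssum φ a n =
      ∑ p ∈ isq n, ∑ l ∈ Finset.range n,
        (φ (a.1 + p.1 + l + 1, a.2 + p.2) - φ (a.1 + p.1 + l, a.2 + p.2)) := by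
    unfold ssum
    rw [← Finset.sum_sub_distrib]
    refine Finset.sum_congr rfl (fun p _ => ?_)
    rw [← tele1]
    congr 3
    simp only
    ring
  have e2 : ∑ p ∈ isq n, ∑ l ∈ Finset.range n,
        (φ (a.1 + p.1 + l + 1, a.2 + p.2) - φ (a.1 + p.1 + l, a.2 + p.2)) =
      ∑ q ∈ isq n ×ˢ Finset.range n,
        (φ (a.1 + q.1.1 + q.2 + 1, a.2 + q.1.2) - φ (a.1 + q.1.1 + q.2, a.2 + q.1.2)) := by
    rw [Finset.sum_product]
  have h1 := sq_sum_le_card_mul_sum_sq (s := isq n ×ˢ Finset.range n)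
    (f := fun q => (φ (a.1 + q.1.1 + q.2 + 1, a.2 + q.1.2) - φ (a.1 + q.1.1 + q.2, a.2 + q.1.2)))
  rw [e1, e2]
  refine le_trans h1 ?_
  have hc : ((isq n ×ˢ Finset.range n).card : ℝ) = (n:ℝ)^3 := by
    rw [Finset.card_product, isq_card, Finset.card_range]
    push_cast
    ring
  rw [hc]
  have h2 : ∑ q ∈ isq n ×ˢ Finset.range n,
      (φ (a.1 + q.1.1 + q.2 + 1, a.2 + q.1.2) - φ (a.1 + q.1.1 + q.2, a.2 + q.1.2))^2 ≤
      n * esq φ b m := by
    rw [Finset.sum_product_right]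
    have h3 : ∀ l ∈ Finset.range n, ∑ p ∈ isq n,
        (φ (a.1 + p.1 + l + 1, a.2 + p.2) - φ (a.1 + p.1 + l, a.2 + p.2))^2 ≤ esq φ b m := by
      intro l hl
      refine le_trans ?_ (esq_mono φ (a.1 + l, a.2) b n m (h l (Finset.mem_range.mp hl)))
      unfold esq
      refine Finset.sum_le_sum (fun p _ => ?_)
      unfold gd
      simp only
      have e3 : a.1 + (p.1:ℤ) + l = a.1 + l + p.1 := by ring
      rw [e3]
      have := sq_nonneg (φ (a.1 + l + p.1, a.2 + p.2 + 1) - φ (a.1 + l + p.1, a.2 + p.2))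
      linarith
    have := Finset.sum_le_sum h3
    simpa using this
  have := mul_le_mul_of_nonneg_left h2 (by positivity : (0:ℝ) ≤ (n:ℝ)^3)
  calc (n:ℝ)^3 * ∑ q ∈ isq n ×ˢ Finset.range n,
      (φ (a.1 + q.1.1 + q.2 + 1, a.2 + q.1.2) - φ (a.1 + q.1.1 + q.2, a.2 + q.1.2))^2
      ≤ (n:ℝ)^3 * (n * esq φ b m) := this
    _ = (n:ℝ)^4 * esq φ b m := by ring

theorem diff2 (φ : Pt → ℝ) (a : Pt) (n : ℕ) (b : Pt) (m : ℕ)
    (h : ∀ l : ℕ, l < n → sqr (a.1, a.2 + l) n ⊆ sqr b m) :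
    (ssum φ (a.1, a.2 + n) n - ssum φ a n)^2 ≤ (n:ℝ)^4 * esq φ b m := by
  have e1 : ssum φ (a.1, a.2 + n) n - ssum φ a n =
      ∑ p ∈ isq n, ∑ l ∈ Finset.range n,
        (φ (a.1 + p.1, a.2 + p.2 + l + 1) - φ (a.1 + p.1, a.2 + p.2 + l)) := by
    unfold ssum
    rw [← Finset.sum_sub_distrib]
    refine Finset.sum_congr rfl (fun p _ => ?_)
    rw [← tele2]
    congr 3
    simp only
    ring
  have e2 : ∑ p ∈ isq n, ∑ l ∈ Finset.range n,
        (φ (a.1 + p.1, a.2 + p.2 + l + 1) - φ (a.1 + p.1, a.2 + p.2 + l)) =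
      ∑ q ∈ isq n ×ˢ Finset.range n,
        (φ (a.1 + q.1.1, a.2 + q.1.2 + q.2 + 1) - φ (a.1 + q.1.1, a.2 + q.1.2 + q.2)) := by
    rw [Finset.sum_product]
  have h1 := sq_sum_le_card_mul_sum_sq (s := isq n ×ˢ Finset.range n)
    (f := fun q => (φ (a.1 + q.1.1, a.2 + q.1.2 + q.2 + 1) - φ (a.1 + q.1.1, a.2 + q.1.2 + q.2)))
  rw [e1, e2]
  refine le_trans h1 ?_
  have hc : ((isq n ×ˢ Finset.range n).card : ℝ) = (n:ℝ)^3 := by
    rw [Finset.card_product, isq_card, Finset.card_range]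
    push_cast
    ring
  rw [hc]
  have h2 : ∑ q ∈ isq n ×ˢ Finset.range n,
      (φ (a.1 + q.1.1, a.2 + q.1.2 + q.2 + 1) - φ (a.1 + q.1.1, a.2 + q.1.2 + q.2))^2 ≤
      n * esq φ b m := by
    rw [Finset.sum_product_right]
    have h3 : ∀ l ∈ Finset.range n, ∑ p ∈ isq n,
        (φ (a.1 + p.1, a.2 + p.2 + l + 1) - φ (a.1 + p.1, a.2 + p.2 + l))^2 ≤ esq φ b m := by
      intro l hl
      refine le_trans ?_ (esq_mono φ (a.1, a.2 + l) b n m (h l (Finset.mem_range.mp hl)))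
      unfold esq
      refine Finset.sum_le_sum (fun p _ => ?_)
      unfold gd
      simp only
      have e3 : a.2 + (p.2:ℤ) + l = a.2 + l + p.2 := by ring
      rw [e3]
      have := sq_nonneg (φ (a.1 + p.1 + 1, a.2 + l + p.2) - φ (a.1 + p.1, a.2 + l + p.2))
      linarith
    have := Finset.sum_le_sum h3
    simpa using this
  have := mul_le_mul_of_nonneg_left h2 (by positivity : (0:ℝ) ≤ (n:ℝ)^3)
  calc (n:ℝ)^3 * ∑ q ∈ isq n ×ˢ Finset.range n,
      (φ (a.1 + q.1.1, a.2 + q.1.2 + q.2 + 1) - φ (a.1 + q.1.1, a.2 + q.1.2 + q.2))^2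
      ≤ (n:ℝ)^3 * (n * esq φ b m) := this
    _ = (n:ℝ)^4 * esq φ b m := by ring

/-- average -/
noncomputable def avg (φ : Pt → ℝ) (a : Pt) (n : ℕ) : ℝ := ssum φ a n / (n:ℝ)^2

theorem split1 (φ : Pt → ℝ) (a : Pt) (n : ℕ) :
    ssum φ a (n + n) = ssum φ a n + ssum φ (a.1 + n, a.2) n + ssum φ (a.1, a.2 + n) n
      + ssum φ (a.1 + n, a.2 + n) n := by
  unfold ssum isq
  simp only [Finset.sum_product]
  rw [Finset.sum_range_add (fun i => ∑ j ∈ Finset.range (n + n), φ (a.1 + i, a.2 + j)) n n]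
  have h : ∀ i : ℕ, ∑ j ∈ Finset.range (n + n), φ (a.1 + i, a.2 + j) =
      ∑ j ∈ Finset.range n, φ (a.1 + i, a.2 + j) +
      ∑ j ∈ Finset.range n, φ (a.1 + i, a.2 + n + j) := by
    intro i
    rw [Finset.sum_range_add (fun j : ℕ => φ (a.1 + i, a.2 + j)) n n]
    congr 1
    refine Finset.sum_congr rfl (fun j _ => ?_)
    push_cast
    rw [← add_assoc]
  simp_rw [h]
  rw [Finset.sum_add_distrib, Finset.sum_add_distrib]
  push_cast
  simp_rw [← add_assoc]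
  ring

theorem abs_avg_sub {s t n e : ℝ} (hn : 0 < n) (he : 0 ≤ e) (h : (s - t)^2 ≤ n^4 * e) :
    |s / n^2 - t / n^2| ≤ Real.sqrt e := by
  apply Real.abs_le_sqrt
  rw [← sub_div, div_pow, div_le_iff₀ (by positivity)]
  calc (s - t)^2 ≤ n^4 * e := h
    _ = e * (n^2)^2 := by ring

theorem avg_child (φ : Pt → ℝ) (a : Pt) (n : ℕ) (hn : 0 < n) (v : ℕ × ℕ) (h1 : v.1 ≤ 1) (h2 : v.2 ≤ 1) :
    |avg φ (a.1 + v.1 * n, a.2 + v.2 * n) n - avg φ a (n + n)| ≤ Real.sqrt (esq φ a (n + n)) := by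
  have hnr : (0:ℝ) < n := by exact_mod_cast hn
  set E := esq φ a (n + n) with hE
  have hE0 : 0 ≤ E := esq_nonneg _ _ _
  have d1 := diff1 φ a n a (n + n) (by
    intro l hl x hx
    rw [mem_sqr] at hx ⊢
    push_cast
    simp only at hx
    omega)
  have d2 := diff2 φ a n a (n + n) (by
    intro l hl x hx
    rw [mem_sqr] at hx ⊢
    push_cast
    simp only at hx
    omega)
  have d3 := diff1 φ (a.1, a.2 + n) n a (n + n) (by
    intro l hl x hx
    rw [mem_sqr] at hx ⊢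
    push_cast
    simp only at hx
    omega)
  have d4 := diff2 φ (a.1 + n, a.2) n a (n + n) (by
    intro l hl x hx
    rw [mem_sqr] at hx ⊢
    push_cast
    simp only at hx
    omega)
  have a1 := abs_avg_sub hnr hE0 d1
  have a2 := abs_avg_sub hnr hE0 d2
  have a3 := abs_avg_sub hnr hE0 d3
  have a4 := abs_avg_sub hnr hE0 d4
  have es : avg φ a (n + n) = (ssum φ a n / (n:ℝ)^2 + ssum φ (a.1 + n, a.2) n / (n:ℝ)^2
      + ssum φ (a.1, a.2 + n) n / (n:ℝ)^2 + ssum φ (a.1 + n, a.2 + n) n / (n:ℝ)^2) / 4 := by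
    unfold avg
    rw [split1]
    push_cast
    field_simp
    ring
  simp only at a1 a2 a3 a4
  rw [es]
  set m0 := ssum φ a n / (n:ℝ)^2
  set m1 := ssum φ (a.1 + n, a.2) n / (n:ℝ)^2
  set m2 := ssum φ (a.1, a.2 + n) n / (n:ℝ)^2
  set m3 := ssum φ (a.1 + n, a.2 + n) n / (n:ℝ)^2
  have hv : avg φ (a.1 + v.1 * n, a.2 + v.2 * n) n = m0 ∨ avg φ (a.1 + v.1 * n, a.2 + v.2 * n) n = m1 ∨
      avg φ (a.1 + v.1 * n, a.2 + v.2 * n) n = m2 ∨ avg φ (a.1 + v.1 * n, a.2 + v.2 * n) n = m3 := by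
    have h1' : v.1 = 0 ∨ v.1 = 1 := by omega
    have h2' : v.2 = 0 ∨ v.2 = 1 := by omega
    rcases h1' with h1' | h1' <;> rcases h2' with h2' | h2'
    · left; simp [h1', h2', m0, avg]
    · right; right; left; simp [h1', h2', m2, avg]
    · right; left; simp [h1', h2', m1, avg]
    · right; right; right; simp [h1', h2', m3, avg]
  rw [abs_le] at a1 a2 a3 a4
  rcases hv with hv | hv | hv | hv <;> rw [hv, abs_le] <;> constructor <;> linarith [a1.1, a1.2, a2.1, a2.2, a3.1, a3.2, a4.1, a4.2]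

theorem osc_avg (φ : Pt → ℝ) (j : ℕ) : ∀ (a x : Pt), x ∈ sqr a ((2^j : ℕ) : ℤ) →
    |φ x - avg φ a (2^j)| ≤ j * Real.sqrt (esq φ a (2^j)) := by
  induction j with
  | zero =>
      intro a x hx
      rw [mem_sqr] at hx
      simp only [pow_zero, Nat.cast_one] at hx
      have : x = a := by
        ext <;> omega
      subst this
      simp [avg, ssum, isq]
  | succ j ih =>
      intro a x hx
      rw [mem_sqr] at hx
      have e2 : 2^(j+1) = 2^j + 2^j := by ring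
      rw [e2] at hx ⊢
      push_cast at hx
      set n : ℕ := 2^j with hn
      have hnp : 0 < n := by positivity
      have hnz : ((n:ℕ):ℤ) = 2^j := by rw [hn]; push_cast; rfl
      rw [← hnz] at hx
      obtain ⟨v, hv1, hv2, hxv⟩ : ∃ v : ℕ × ℕ, v.1 ≤ 1 ∧ v.2 ≤ 1 ∧
          x ∈ sqr (a.1 + v.1 * n, a.2 + v.2 * n) (n : ℤ) := by
        rcases lt_or_ge x.1 (a.1 + n) with h1 | h1 <;> rcases lt_or_ge x.2 (a.2 + n) with h2 | h2
        · refine ⟨(0,0), by norm_num, by norm_num, ?_⟩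
          rw [mem_sqr]; simp only; push_cast; omega
        · refine ⟨(0,1), by norm_num, by norm_num, ?_⟩
          rw [mem_sqr]; simp only; push_cast; omega
        · refine ⟨(1,0), by norm_num, by norm_num, ?_⟩
          rw [mem_sqr]; simp only; push_cast; omega
        · refine ⟨(1,1), by norm_num, by norm_num, ?_⟩
          rw [mem_sqr]; simp only; push_cast; omega
      have h1 := ih _ x hxv
      have h2 := avg_child φ a n hnp v hv1 hv2
      have h3 : esq φ (a.1 + v.1 * n, a.2 + v.2 * n) n ≤ esq φ a (n + n) := by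
        apply esq_mono
        intro y hy
        rw [mem_sqr] at hy ⊢
        simp only at hy
        push_cast
        have hv1' : v.1 = 0 ∨ v.1 = 1 := by omega
        have hv2' : v.2 = 0 ∨ v.2 = 1 := by omega
        rcases hv1' with h | h <;> rcases hv2' with h' | h' <;> rw [h, h'] at hy <;> push_cast at hy <;> omega
      have h4 := Real.sqrt_le_sqrt h3
      have h5 : |φ x - avg φ a (n + n)| ≤ |φ x - avg φ (a.1 + v.1 * n, a.2 + v.2 * n) n| +
          |avg φ (a.1 + v.1 * n, a.2 + v.2 * n) n - avg φ a (n + n)| := by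
        have := abs_add_le (φ x - avg φ (a.1 + v.1 * n, a.2 + v.2 * n) n)
          (avg φ (a.1 + v.1 * n, a.2 + v.2 * n) n - avg φ a (n + n))
        simpa using this
      have h6 : (j:ℝ) * Real.sqrt (esq φ (a.1 + v.1 * n, a.2 + v.2 * n) n) ≤
          j * Real.sqrt (esq φ a (n + n)) := mul_le_mul_of_nonneg_left h4 (Nat.cast_nonneg j)
      push_cast
      linarith

/-- **Oscillation bound** on a square of side `2 ^ j`. -/
theorem osc (φ : Pt → ℝ) (j : ℕ) (a x y : Pt) (hx : x ∈ sqr a (2^j)) (hy : y ∈ sqr a (2^j)) :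
    (φ x - φ y)^2 ≤ 4 * (j:ℝ)^2 * ∑ w ∈ sqr a (2^j), gd φ w := by
  have e : ((2:ℤ)^j) = ((2^j : ℕ) : ℤ) := by push_cast; rfl
  rw [e] at hx hy ⊢
  have h1 := osc_avg φ j a x hx
  have h2 := osc_avg φ j a y hy
  rw [← esq_eq]
  set E := esq φ a (2^j)
  have hE : 0 ≤ E := esq_nonneg _ _ _
  have h3 : |φ x - φ y| ≤ 2 * (j * Real.sqrt E) := by
    rw [abs_le] at h1 h2 ⊢
    constructor <;> linarith [h1.1, h1.2, h2.1, h2.2]
  have h4 : (φ x - φ y)^2 ≤ (2 * (j * Real.sqrt E))^2 := by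
    rw [← sq_abs]
    exact pow_le_pow_left₀ (abs_nonneg _) h3 2
  have h5 : (2 * (j * Real.sqrt E))^2 = 4 * (j:ℝ)^2 * E := by
    rw [mul_pow, mul_pow, Real.sq_sqrt hE]
    ring
  linarith

end Pool.Agent.Helper95_SOS
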