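import Pool.Agent.Helper95_SOS.Process

/-!
Multi-affine functions with nonnegative coefficients, and the polynomials which dominate the
live sets.
-/

set_option autoImplicit false

open scoped BigOperators

namespace Pool.Agent.Helper95_SOS

/-- multi-affine, nonnegative and monotone on nonnegative arguments, depending only on `s` -/
structure MA {V : Type} [DecidableEq V] (s : Set V) (F : (V → ℝ) → ℝ) : Prop where
  dep : ∀ x y : V → ℝ, (∀ v ∈ s, x v = y v) → F x = F y
  aff : ∀ (x : V → ℝ) (v : V) (c : ℝ), F (Function.update x v c) =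
    (1 - c) * F (Function.update x v 0) + c * F (Function.update x v 1)
  nn : ∀ x : V → ℝ, (∀ v, 0 ≤ x v) → 0 ≤ F x
  mono : ∀ x y : V → ℝ, (∀ v, 0 ≤ x v) → (∀ v, x v ≤ y v) → F x ≤ F y

namespace MA

variable {V : Type} [DecidableEq V]

theorem upd {s : Set V} {F : (V → ℝ) → ℝ} (h : MA s F) {v : V} (hv : v ∉ s) (x : V → ℝ) (c : ℝ) :
    F (Function.update x v c) = F x := by
  apply h.dep
  intro w hw
  rw [Function.update_of_ne]
  rintro rfl
  exact hv hw

theorem var (v : V) : MA {v} (fun x : V → ℝ => x v) where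
  dep := by intro x y h; exact h v rfl
  aff := by
    intro x w c
    by_cases h : v = w
    · subst h; simp
    · simp only [Function.update_of_ne h]; ring
  nn := by intro x h; exact h v
  mono := by intro x y _ h; exact h v

theorem weaken {s t : Set V} {F : (V → ℝ) → ℝ} (h : MA s F) (hst : s ⊆ t) : MA t F where
  dep := fun x y hxy => h.dep x y (fun v hv => hxy v (hst hv))
  aff := h.aff
  nn := h.nn
  mono := h.mono

theorem zero (s : Set V) : MA s (fun _ : V → ℝ => (0:ℝ)) where
  dep := fun _ _ _ => rfl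
  aff := by intro _ _ _; simp
  nn := by intro _ _; exact le_rfl
  mono := by intro _ _ _ _; exact le_rfl

theorem add {s : Set V} {F G : (V → ℝ) → ℝ} (hF : MA s F) (hG : MA s G) :
    MA s (fun x => F x + G x) where
  dep := fun x y h => by simp only [hF.dep x y h, hG.dep x y h]
  aff := by intro x v c; rw [hF.aff x v c, hG.aff x v c]; ring
  nn := fun x h => add_nonneg (hF.nn x h) (hG.nn x h)
  mono := fun x y h h' => add_le_add (hF.mono x y h h') (hG.mono x y h h')

theorem sum {κ : Type} {s : Set V} (I : Finset κ) (F : κ → (V → ℝ) → ℝ)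
    (h : ∀ i ∈ I, MA s (F i)) : MA s (fun x => ∑ i ∈ I, F i x) := by
  classical
  induction I using Finset.induction_on with
  | empty => simpa using zero s
  | insert a I ha ih =>
      have h1 := h a (Finset.mem_insert_self a I)
      have h2 := ih (fun i hi => h i (Finset.mem_insert_of_mem hi))
      have := add h1 h2
      simpa [Finset.sum_insert ha] using this

theorem mul {s t u : Set V} {F G : (V → ℝ) → ℝ} (hF : MA s F) (hG : MA t G)
    (hd : ∀ v, v ∈ s → v ∈ t → False) (hs : s ⊆ u) (ht : t ⊆ u) : MA u (fun x => F x * G x) where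
  dep := fun x y h => by
    simp only [hF.dep x y (fun v hv => h v (hs hv)), hG.dep x y (fun v hv => h v (ht hv))]
  aff := by
    intro x v c
    by_cases hv : v ∈ s
    · have hv' : v ∉ t := fun h => hd v hv h
      rw [hG.upd hv', hG.upd hv', hG.upd hv', hF.aff x v c]
      ring
    · rw [hF.upd hv, hF.upd hv, hF.upd hv, hG.aff x v c]
      ring
  nn := fun x h => mul_nonneg (hF.nn x h) (hG.nn x h)
  mono := fun x y h h' => mul_le_mul (hF.mono x y h h') (hG.mono x y h h') (hG.nn x h)
    (hF.nn y (fun v => le_trans (h v) (h' v)))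

end MA

/-- ratio of consecutive cell sizes -/
def Gm (k : ℕ) : ℤ := 16 * dk k

theorem Rk_succ (k : ℕ) : Rk (k+1) = Rk k * Gm k := by
  unfold Rk Gm
  rw [lam_succ]; ring

/-- points of a cell of stage 0 -/
noncomputable def cpts (Q : Pt) : Finset Pt := Finset.Ico (32 * Q.1) (32 * Q.1 + 32) ×ˢ Finset.Ico (32 * Q.2) (32 * Q.2 + 32)

/-- blocks near a cell of the same scale -/
noncomputable def nblk (Q : Pt) : Finset Pt :=
  Finset.Icc (32 * Q.1 - 10) (32 * Q.1 + 40) ×ˢ Finset.Icc (32 * Q.2 - 10) (32 * Q.2 + 40)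

/-- the four corners -/
noncomputable def four : Finset Pt := Finset.Icc 0 1 ×ˢ Finset.Icc 0 1

/-- subcells -/
noncomputable def sub (k : ℕ) (Q : Pt) : Finset Pt :=
  Finset.Ico (Gm k * Q.1) (Gm k * Q.1 + Gm k) ×ˢ Finset.Ico (Gm k * Q.2) (Gm k * Q.2 + Gm k)

/-- window of subcells -/
noncomputable def win (k : ℕ) (Q : Pt) : Finset Pt :=
  Finset.Ico (Gm k * Q.1 - dk k - 3) (Gm k * Q.1 + Gm k + dk k + 3) ×ˢ
    Finset.Ico (Gm k * Q.2 - dk k - 3) (Gm k * Q.2 + Gm k + dk k + 3)

/-- nonadjacent pairs -/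
noncomputable def prs (k : ℕ) (Q : Pt) : Finset (Pt × Pt) :=
  (win k Q ×ˢ win k Q).filter (fun p => p.1.1 + 2 ≤ p.2.1 ∨ p.1.2 + 2 ≤ p.2.2)

/-- dominating polynomials -/
noncomputable def ap : ℕ → Pt → (Var → ℝ) → ℝ
  | 0, Q, x => ∑ s ∈ cpts Q, x (Var.site s) + ∑ z ∈ nblk Q, x (Var.blk 0 z)
  | (k+1), Q, x => ∑ P ∈ sub k Q, ∑ v ∈ four, ap k P x * x (Var.omg k (P - v)) +
      ∑ p ∈ prs k Q, ap k p.1 x * ap k p.2 x + ∑ z ∈ nblk Q, x (Var.blk (k+1) z)

/-- window of positions -/
def inw (k : ℕ) (Q : Pt) (p : Pt) : Prop :=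
  (Rk k * Q.1 - 12 * lam k ≤ p.1 ∧ p.1 ≤ Rk k * Q.1 + 44 * lam k) ∧
  (Rk k * Q.2 - 12 * lam k ≤ p.2 ∧ p.2 ≤ Rk k * Q.2 + 44 * lam k)

/-- variables on which `ap k Q` depends -/
def spt (k : ℕ) (Q : Pt) : Set Var := {v | match v with
  | Var.site s => inw k Q s
  | Var.omg j z => j < k ∧ inw k Q (Rk j * z.1, Rk j * z.2)
  | Var.blk j z => j ≤ k ∧ inw k Q (lam j * z.1, lam j * z.2)
  | Var.outer => False}

theorem inw_disj {k : ℕ} {P Q p : Pt} (h : P.1 + 2 ≤ Q.1 ∨ P.2 + 2 ≤ Q.2) (h1 : inw k P p)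
    (h2 : inw k Q p) : False := by
  unfold inw at h1 h2
  have hl := lam_pos k
  have hR : Rk k = 32 * lam k := rfl
  rcases h with h | h
  · have := mul_le_mul_of_nonneg_left h (Rk_pos k).le
    rw [mul_add] at this
    omega
  · have := mul_le_mul_of_nonneg_left h (Rk_pos k).le
    rw [mul_add] at this
    omega

theorem spt_disj {k : ℕ} {P Q : Pt} (h : P.1 + 2 ≤ Q.1 ∨ P.2 + 2 ≤ Q.2) (v : Var) (h1 : v ∈ spt k P)
    (h2 : v ∈ spt k Q) : False := by
  cases v with
  | site s => exact inw_disj h h1 h2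
  | omg j z => exact inw_disj h h1.2 h2.2
  | blk j z => exact inw_disj h h1.2 h2.2
  | outer => exact h1

theorem win_bounds {k : ℕ} {Q P : Pt} (hP : P ∈ win k Q) :
    (Rk (k+1) * Q.1 - 2 * lam (k+1) - 3 * Rk k ≤ Rk k * P.1 ∧
      Rk k * P.1 ≤ Rk (k+1) * Q.1 + Rk (k+1) + 2 * lam (k+1) + 3 * Rk k) ∧
    (Rk (k+1) * Q.2 - 2 * lam (k+1) - 3 * Rk k ≤ Rk k * P.2 ∧
      Rk k * P.2 ≤ Rk (k+1) * Q.2 + Rk (k+1) + 2 * lam (k+1) + 3 * Rk k) := by
  unfold win at hP
  rw [Finset.mem_product, Finset.mem_Ico, Finset.mem_Ico] at hP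
  have hR := (Rk_pos k).le
  have hd := dk_mul k
  have hs := Rk_succ k
  have m1 := mul_le_mul_of_nonneg_left hP.1.1 hR
  have m2 := mul_le_mul_of_nonneg_left hP.1.2.le hR
  have m3 := mul_le_mul_of_nonneg_left hP.2.1 hR
  have m4 := mul_le_mul_of_nonneg_left hP.2.2.le hR
  have e1 : Rk k * (Gm k * Q.1 - dk k - 3) = Rk (k+1) * Q.1 - 2 * lam (k+1) - 3 * Rk k := by
    rw [hs, ← hd]; ring
  have e2 : Rk k * (Gm k * Q.1 + Gm k + dk k + 3) =
      Rk (k+1) * Q.1 + Rk (k+1) + 2 * lam (k+1) + 3 * Rk k := by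
    rw [hs, ← hd]; ring
  have e3 : Rk k * (Gm k * Q.2 - dk k - 3) = Rk (k+1) * Q.2 - 2 * lam (k+1) - 3 * Rk k := by
    rw [hs, ← hd]; ring
  have e4 : Rk k * (Gm k * Q.2 + Gm k + dk k + 3) =
      Rk (k+1) * Q.2 + Rk (k+1) + 2 * lam (k+1) + 3 * Rk k := by
    rw [hs, ← hd]; ring
  rw [e1] at m1
  rw [e2] at m2
  rw [e3] at m3
  rw [e4] at m4
  exact ⟨⟨m1, m2⟩, ⟨m3, m4⟩⟩

theorem inw_mono {k : ℕ} {Q P p : Pt} (hP : P ∈ win k Q) (h : inw k P p) : inw (k+1) Q p := by
  have h1 := win_bounds hP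
  have h2 := lam_succ_ge k
  have h3 := lam_pos k
  have h4 : Rk k = 32 * lam k := rfl
  have h5 : Rk (k+1) = 32 * lam (k+1) := rfl
  unfold inw at h ⊢
  omega

theorem spt_mono {k : ℕ} {Q P : Pt} (hP : P ∈ win k Q) : spt k P ⊆ spt (k+1) Q := by
  intro v hv
  cases v with
  | site s => exact inw_mono hP hv
  | omg j z => exact ⟨Nat.lt_succ_of_lt hv.1, inw_mono hP hv.2⟩
  | blk j z => exact ⟨Nat.le_succ_of_le hv.1, inw_mono hP hv.2⟩
  | outer => exact hv

theorem sub_win {k : ℕ} {Q P : Pt} (hP : P ∈ sub k Q) : P ∈ win k Q := by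
  unfold sub at hP
  unfold win
  rw [Finset.mem_product, Finset.mem_Ico, Finset.mem_Ico] at hP ⊢
  have := dk_ge k
  omega

theorem nblk_spt {k : ℕ} {Q z : Pt} (hz : z ∈ nblk Q) : Var.blk k z ∈ spt k Q := by
  unfold nblk at hz
  rw [Finset.mem_product, Finset.mem_Icc, Finset.mem_Icc] at hz
  refine ⟨le_rfl, ?_⟩
  unfold inw
  have hl := lam_pos k
  have m1 := mul_le_mul_of_nonneg_left hz.1.1 hl.le
  have m2 := mul_le_mul_of_nonneg_left hz.1.2 hl.le
  have m3 := mul_le_mul_of_nonneg_left hz.2.1 hl.le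
  have m4 := mul_le_mul_of_nonneg_left hz.2.2 hl.le
  have e1 : Rk k * Q.1 = lam k * (32 * Q.1) := by unfold Rk; ring
  have e2 : Rk k * Q.2 = lam k * (32 * Q.2) := by unfold Rk; ring
  rw [mul_sub] at m1 m3
  rw [mul_add] at m2 m4
  simp only
  omega

theorem omg_spt {k : ℕ} {Q P v : Pt} (hP : P ∈ sub k Q) (hv : v ∈ four) :
    Var.omg k (P - v) ∈ spt (k+1) Q := by
  unfold sub at hP
  unfold four at hv
  rw [Finset.mem_product, Finset.mem_Ico, Finset.mem_Ico] at hP
  rw [Finset.mem_product, Finset.mem_Icc, Finset.mem_Icc] at hv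
  refine ⟨Nat.lt_succ_self k, ?_⟩
  unfold inw
  have hR := (Rk_pos k).le
  have hs := Rk_succ k
  have h2 := lam_succ_ge k
  have h3 := lam_pos k
  have h4 : Rk k = 32 * lam k := rfl
  have h5 : Rk (k+1) = 32 * lam (k+1) := rfl
  have b1 : Gm k * Q.1 - 1 ≤ (P - v).1 := by simp only [Prod.fst_sub]; omega
  have b2 : (P - v).1 ≤ Gm k * Q.1 + Gm k := by simp only [Prod.fst_sub]; omega
  have b3 : Gm k * Q.2 - 1 ≤ (P - v).2 := by simp only [Prod.snd_sub]; omega
  have b4 : (P - v).2 ≤ Gm k * Q.2 + Gm k := by simp only [Prod.snd_sub]; omega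
  have m1 := mul_le_mul_of_nonneg_left b1 hR
  have m2 := mul_le_mul_of_nonneg_left b2 hR
  have m3 := mul_le_mul_of_nonneg_left b3 hR
  have m4 := mul_le_mul_of_nonneg_left b4 hR
  have e1 : Rk k * (Gm k * Q.1 - 1) = Rk (k+1) * Q.1 - Rk k := by rw [hs]; ring
  have e2 : Rk k * (Gm k * Q.1 + Gm k) = Rk (k+1) * Q.1 + Rk (k+1) := by rw [hs]; ring
  have e3 : Rk k * (Gm k * Q.2 - 1) = Rk (k+1) * Q.2 - Rk k := by rw [hs]; ring
  have e4 : Rk k * (Gm k * Q.2 + Gm k) = Rk (k+1) * Q.2 + Rk (k+1) := by rw [hs]; ring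
  rw [e1] at m1
  rw [e2] at m2
  rw [e3] at m3
  rw [e4] at m4
  simp only
  omega

theorem ap_MA (k : ℕ) : ∀ Q, MA (spt k Q) (ap k Q) := by
  induction k with
  | zero =>
      intro Q
      have h1 : MA (spt 0 Q) (fun x : Var → ℝ => ∑ s ∈ cpts Q, x (Var.site s)) := by
        apply MA.sum
        intro s hs
        apply (MA.var (Var.site s)).weaken
        intro v hv
        rw [Set.mem_singleton_iff] at hv
        subst hv
        show inw 0 Q s
        unfold cpts at hs
        rw [Finset.mem_product, Finset.mem_Ico, Finset.mem_Ico] at hs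
        unfold inw
        have h2 : Rk 0 = 32 := by simp [Rk, lam, lx]
        have h3 : lam 0 = 1 := by simp [lam, lx]
        rw [h2, h3]
        omega
      have h2 : MA (spt 0 Q) (fun x : Var → ℝ => ∑ z ∈ nblk Q, x (Var.blk 0 z)) := by
        apply MA.sum
        intro z hz
        apply (MA.var (Var.blk 0 z)).weaken
        intro v hv
        rw [Set.mem_singleton_iff] at hv
        subst hv
        exact nblk_spt hz
      exact MA.add h1 h2
  | succ k ih =>
      intro Q
      have h1 : MA (spt (k+1) Q) (fun x : Var → ℝ => ∑ P ∈ sub k Q, ∑ v ∈ four,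
          ap k P x * x (Var.omg k (P - v))) := by
        apply MA.sum
        intro P hP
        apply MA.sum
        intro v hv
        refine MA.mul (ih P) (MA.var (Var.omg k (P - v))) ?_ (spt_mono (sub_win hP)) ?_
        · intro w hw hw'
          rw [Set.mem_singleton_iff] at hw'
          subst hw'
          exact lt_irrefl _ hw.1
        · intro w hw
          rw [Set.mem_singleton_iff] at hw
          subst hw
          exact omg_spt hP hv
      have h2 : MA (spt (k+1) Q) (fun x : Var → ℝ => ∑ p ∈ prs k Q, ap k p.1 x * ap k p.2 x) := by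
        apply MA.sum
        intro p hp
        unfold prs at hp
        rw [Finset.mem_filter, Finset.mem_product] at hp
        exact MA.mul (ih p.1) (ih p.2) (spt_disj hp.2) (spt_mono hp.1.1) (spt_mono hp.1.2)
      have h3 : MA (spt (k+1) Q) (fun x : Var → ℝ => ∑ z ∈ nblk Q, x (Var.blk (k+1) z)) := by
        apply MA.sum
        intro z hz
        apply (MA.var (Var.blk (k+1) z)).weaken
        intro v hv
        rw [Set.mem_singleton_iff] at hv
        subst hv
        exact nblk_spt hz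
      exact MA.add (MA.add h1 h2) h3

/-! ### the live claim -/

/-- cell of a point -/
def cell (k : ℕ) (x : Pt) : Pt := (x.1 / Rk k, x.2 / Rk k)

theorem cell_bounds (k : ℕ) (t : ℤ) : Rk k * (t / Rk k) ≤ t ∧ t < Rk k * (t / Rk k) + Rk k := by
  have hR := Rk_pos k
  have h1 := Int.mul_ediv_add_emod t (Rk k)
  have h2 := Int.emod_nonneg t hR.ne'
  have h3 := Int.emod_lt_of_pos t hR
  constructor <;> linarith

theorem Gm_pos (k : ℕ) : 0 < Gm k := by unfold Gm; have := dk_ge k; omega

theorem cell_succ (k : ℕ) (t : ℤ) : Gm k * (t / Rk (k+1)) ≤ t / Rk k ∧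
    t / Rk k < Gm k * (t / Rk (k+1)) + Gm k := by
  have hG := Gm_pos k
  have e : t / Rk (k+1) = (t / Rk k) / Gm k := by
    rw [Rk_succ, Int.ediv_ediv_of_nonneg (Rk_pos k).le]
  rw [e]
  have h1 := Int.mul_ediv_add_emod (t / Rk k) (Gm k)
  have h2 := Int.emod_nonneg (t / Rk k) hG.ne'
  have h3 := Int.emod_lt_of_pos (t / Rk k) hG
  constructor <;> linarith

theorem cell_near (k : ℕ) {s t : ℤ} (h : |s - t| ≤ 2 * lam (k+1) + 2 * Rk k) :
    t / Rk k - dk k - 2 ≤ s / Rk k ∧ s / Rk k ≤ t / Rk k + dk k + 2 := by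
  have hR := Rk_pos k
  rw [← dk_mul, abs_le] at h
  have h1 : t + (-(dk k + 2)) * Rk k ≤ s := by linarith [h.1]
  have h2 : s ≤ t + (dk k + 2) * Rk k := by linarith [h.2]
  have h3 := Int.ediv_le_ediv hR h1
  have h4 := Int.ediv_le_ediv hR h2
  rw [Int.add_mul_ediv_right _ _ hR.ne'] at h3 h4
  constructor <;> linarith

theorem blk_near {k : ℕ} {x y z : Pt} (hy : y ∈ region k z) (hxy : nm (x - y) ≤ 8 * lam k) :
    z ∈ nblk (cell k x) := by
  unfold region at hy
  rw [nm_le_iff, abs_le, abs_le] at hxy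
  simp only [Set.mem_ofPred_eq, Prod.fst_sub, Prod.snd_sub] at hy hxy
  have hl := lam_pos k
  have c1 := cell_bounds k x.1
  have c2 := cell_bounds k x.2
  unfold nblk cell
  rw [Finset.mem_product, Finset.mem_Icc, Finset.mem_Icc]
  have hR : Rk k = 32 * lam k := rfl
  set q1 := x.1 / Rk k
  set q2 := x.2 / Rk k
  rw [hR] at c1 c2
  have f1 : lam k * (32 * q1 - 11) < lam k * z.1 := by
    have : lam k * (32 * q1 - 11) = 32 * lam k * q1 - 11 * lam k := by ring
    omega
  have f2 : lam k * z.1 < lam k * (32 * q1 + 41) := by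
    have : lam k * (32 * q1 + 41) = 32 * lam k * q1 + 41 * lam k := by ring
    omega
  have f3 : lam k * (32 * q2 - 11) < lam k * z.2 := by
    have : lam k * (32 * q2 - 11) = 32 * lam k * q2 - 11 * lam k := by ring
    omega
  have f4 : lam k * z.2 < lam k * (32 * q2 + 41) := by
    have : lam k * (32 * q2 + 41) = 32 * lam k * q2 + 41 * lam k := by ring
    omega
  have g1 := lt_of_mul_lt_mul_left f1 hl.le
  have g2 := lt_of_mul_lt_mul_left f2 hl.le
  have g3 := lt_of_mul_lt_mul_left f3 hl.le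
  have g4 := lt_of_mul_lt_mul_left f4 hl.le
  simp only
  omega

section claim
variable {K : ℕ} {M : ℤ} {Bad : ℕ → Pt → Prop} {ω : Set Var} {xv : Var → ℝ}

theorem nm_sub_comm (x y : Pt) : nm (x - y) = nm (y - x) := by
  unfold nm
  simp only [Prod.fst_sub, Prod.snd_sub]
  rw [abs_sub_comm x.1, abs_sub_comm x.2]

theorem nm_tri (x y z : Pt) : nm (x - z) ≤ nm (x - y) + nm (y - z) := by
  rw [nm_le_iff]
  have h1 : |x.1 - y.1| ≤ nm (x - y) := le_max_left _ _
  have h2 : |x.2 - y.2| ≤ nm (x - y) := le_max_right _ _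
  have h3 : |y.1 - z.1| ≤ nm (y - z) := le_max_left _ _
  have h4 : |y.2 - z.2| ≤ nm (y - z) := le_max_right _ _
  rw [abs_le] at h1 h2 h3 h4
  simp only [Prod.fst_sub, Prod.snd_sub]
  rw [abs_le, abs_le]
  omega

theorem nm_add_le (x y : Pt) : nm x ≤ nm (x - y) + nm y := by
  have := nm_tri x y 0
  simpa using this

theorem live_claim (hxv : ∀ v, 0 ≤ xv v) (hs : ∀ s, Var.site s ∈ ω → 1 ≤ xv (Var.site s))
    (hb : ∀ j, j ≤ K → ∀ z, Bad j z → 1 ≤ xv (Var.blk j z)) (k : ℕ) :
    k ≤ K → (∀ j, j < k → ∀ z, Var.omg j z ∈ ω → 1 ≤ xv (Var.omg j z)) →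
    ∀ x ∈ live K M Bad ω k, nm x ≤ M - Rk k →
      (∃ j, k < j ∧ j ≤ K ∧ ∃ z, Bad j z ∧ ∃ y ∈ region j z, nm (x - y) ≤ 8 * lam k) ∨
      1 ≤ ap k (cell k x) xv := by
  induction k with
  | zero =>
      intro _ _ x hx hxM
      have hR := Rk_pos 0
      rcases hx with hx | ⟨j, hj, z, hz, hxz⟩ | ⟨_, hx⟩
      · omega
      · rcases Nat.eq_zero_or_pos j with hj0 | hj0
        · subst hj0
          right
          have h1 : z ∈ nblk (cell 0 x) := by
            apply blk_near hxz
            have := lam_pos 0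
            simp [nm]; omega
          have h2 : xv (Var.blk 0 z) ≤ ∑ z ∈ nblk (cell 0 x), xv (Var.blk 0 z) :=
            Finset.single_le_sum (f := fun z => xv (Var.blk 0 z)) (fun w _ => hxv _) h1
          have h3 : 0 ≤ ∑ s ∈ cpts (cell 0 x), xv (Var.site s) := Finset.sum_nonneg (fun s _ => hxv _)
          have h4 := hb 0 hj z hz
          show 1 ≤ ∑ s ∈ cpts (cell 0 x), xv (Var.site s) + ∑ z ∈ nblk (cell 0 x), xv (Var.blk 0 z)
          linarith
        · left
          refine ⟨j, hj0, hj, z, hz, x, hxz, ?_⟩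
          have := lam_pos 0
          simp [nm]; omega
      · right
        have h1 : x ∈ cpts (cell 0 x) := by
          have c1 := cell_bounds 0 x.1
          have c2 := cell_bounds 0 x.2
          have h2 : Rk 0 = 32 := by simp [Rk, lam, lx]
          rw [h2] at c1 c2
          unfold cpts cell
          rw [Finset.mem_product, Finset.mem_Ico, Finset.mem_Ico, h2]
          exact ⟨c1, c2⟩
        have h2 : xv (Var.site x) ≤ ∑ s ∈ cpts (cell 0 x), xv (Var.site s) :=
          Finset.single_le_sum (f := fun s => xv (Var.site s)) (fun w _ => hxv _) h1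
        have h3 : 0 ≤ ∑ z ∈ nblk (cell 0 x), xv (Var.blk 0 z) := Finset.sum_nonneg (fun s _ => hxv _)
        have h4 := hs x hx
        show 1 ≤ ∑ s ∈ cpts (cell 0 x), xv (Var.site s) + ∑ z ∈ nblk (cell 0 x), xv (Var.blk 0 z)
        linarith
  | succ k ih =>
      intro hk ho x hx hxM
      have ih' := ih (by omega) (fun j hj => ho j (by omega))
      have hR : Rk k = 32 * lam k := rfl
      have hR' : Rk (k+1) = 32 * lam (k+1) := rfl
      have hl := lam_pos k
      have hl' := lam_succ_ge k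
      have hapn : ∀ P, 0 ≤ ap k P xv := fun P => (ap_MA k P).nn xv hxv
      have n1 : 0 ≤ ∑ P ∈ sub k (cell (k+1) x), ∑ v ∈ four, ap k P xv * xv (Var.omg k (P - v)) :=
        Finset.sum_nonneg (fun P _ => Finset.sum_nonneg (fun v _ => mul_nonneg (hapn P) (hxv _)))
      have n2 : 0 ≤ ∑ p ∈ prs k (cell (k+1) x), ap k p.1 xv * ap k p.2 xv :=
        Finset.sum_nonneg (fun p _ => mul_nonneg (hapn _) (hapn _))
      have n3 : 0 ≤ ∑ z ∈ nblk (cell (k+1) x), xv (Var.blk (k+1) z) :=
        Finset.sum_nonneg (fun p _ => hxv _)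
      have eap : ap (k+1) (cell (k+1) x) xv =
        ∑ P ∈ sub k (cell (k+1) x), ∑ v ∈ four, ap k P xv * xv (Var.omg k (P - v)) +
        ∑ p ∈ prs k (cell (k+1) x), ap k p.1 xv * ap k p.2 xv +
        ∑ z ∈ nblk (cell (k+1) x), xv (Var.blk (k+1) z) := rfl
      -- treatment of bad blocks near x
      have hblk : ∀ u : Pt, nm (u - x) ≤ 2 * lam (k+1) + 2 * Rk k →
          (∃ j, k < j ∧ j ≤ K ∧ ∃ z, Bad j z ∧ ∃ y ∈ region j z, nm (u - y) ≤ 8 * lam k) →
          (∃ j, k + 1 < j ∧ j ≤ K ∧ ∃ z, Bad j z ∧ ∃ y ∈ region j z, nm (x - y) ≤ 8 * lam (k+1)) ∨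
          1 ≤ ap (k+1) (cell (k+1) x) xv := by
        intro u hu hex
        obtain ⟨j, hj, hjK, z, hz, y, hy, huy⟩ := hex
        have hxy : nm (x - y) ≤ 8 * lam (k+1) := by
          have h1 := nm_tri x u y
          rw [nm_sub_comm x u] at h1
          omega
        rcases Nat.lt_or_ge (k+1) j with h | h
        · left; exact ⟨j, h, hjK, z, hz, y, hy, hxy⟩
        · have hjk : j = k + 1 := by omega
          subst hjk
          right
          have h1 : z ∈ nblk (cell (k+1) x) := blk_near hy hxy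
          have h2 : xv (Var.blk (k+1) z) ≤ ∑ z ∈ nblk (cell (k+1) x), xv (Var.blk (k+1) z) :=
            Finset.single_le_sum (f := fun z => xv (Var.blk (k+1) z)) (fun w _ => hxv _) h1
          have h3 := hb (k+1) hk z hz
          rw [eap]
          linarith
      have hx0 : nm (x - x) ≤ 2 * lam (k+1) + 2 * Rk k := by simp [nm]; omega
      by_cases hiso : ∃ z, iso k z (live K M Bad ω k) ∧ x ∈ grp k z
      · obtain ⟨z, hz, hxz⟩ := hiso
        rcases ih' x hx.1 (by omega) with h | h
        · exact hblk x hx0 h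
        · right
          have hω : Var.omg k z ∈ ω := by
            by_contra hcon
            exact hx.2 z hz hcon hxz
          have h1 := ho k (Nat.lt_succ_self k) z hω
          -- z = cell - v
          have hR0 := Rk_pos k
          have hv : cell k x - z ∈ four := by
            have c1 := cell_bounds k x.1
            have c2 := cell_bounds k x.2
            unfold grp at hxz
            simp only [Set.mem_ofPred_eq] at hxz
            unfold four cell
            rw [Finset.mem_product, Finset.mem_Icc, Finset.mem_Icc]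
            simp only [Prod.fst_sub, Prod.snd_sub]
            have l1 : Rk k * z.1 < Rk k * (x.1 / Rk k + 1) := by rw [mul_add, mul_one]; omega
            have l2 : Rk k * (x.1 / Rk k) < Rk k * (z.1 + 2) := by rw [mul_add]; omega
            have l3 : Rk k * z.2 < Rk k * (x.2 / Rk k + 1) := by rw [mul_add, mul_one]; omega
            have l4 : Rk k * (x.2 / Rk k) < Rk k * (z.2 + 2) := by rw [mul_add]; omega
            have g1 := lt_of_mul_lt_mul_left l1 hR0.le
            have g2 := lt_of_mul_lt_mul_left l2 hR0.le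
            have g3 := lt_of_mul_lt_mul_left l3 hR0.le
            have g4 := lt_of_mul_lt_mul_left l4 hR0.le
            omega
          have hP : cell k x ∈ sub k (cell (k+1) x) := by
            unfold sub cell
            rw [Finset.mem_product, Finset.mem_Ico, Finset.mem_Ico]
            exact ⟨cell_succ k x.1, cell_succ k x.2⟩
          have h2 : ap k (cell k x) xv * xv (Var.omg k (cell k x - (cell k x - z))) ≤
              ∑ v ∈ four, ap k (cell k x) xv * xv (Var.omg k (cell k x - v)) :=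
            Finset.single_le_sum (f := fun v => ap k (cell k x) xv * xv (Var.omg k (cell k x - v)))
              (fun v _ => mul_nonneg (hapn _) (hxv _)) hv
          have h3 : ∑ v ∈ four, ap k (cell k x) xv * xv (Var.omg k (cell k x - v)) ≤
              ∑ P ∈ sub k (cell (k+1) x), ∑ v ∈ four, ap k P xv * xv (Var.omg k (P - v)) :=
            Finset.single_le_sum (f := fun P => ∑ v ∈ four, ap k P xv * xv (Var.omg k (P - v)))
              (fun P _ => Finset.sum_nonneg (fun v _ => mul_nonneg (hapn P) (hxv _))) hP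
          rw [sub_sub_cancel] at h2
          have h4 : 1 ≤ ap k (cell k x) xv * xv (Var.omg k z) := by nlinarith
          rw [eap]
          linarith
      · push Not at hiso
        obtain ⟨x1, hx1, x2, hx2, hn1, hn2, hna⟩ := not_iso hx.1 hiso
        have hm1 : nm x1 ≤ M - Rk k := by
          have := nm_add_le x1 x
          omega
        have hm2 : nm x2 ≤ M - Rk k := by
          have := nm_add_le x2 x
          omega
        rcases ih' x1 hx1 hm1 with h1 | h1
        · exact hblk x1 hn1 h1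
        rcases ih' x2 hx2 hm2 with h2 | h2
        · exact hblk x2 hn2 h2
        right
        have hw : ∀ u : Pt, nm (u - x) ≤ 2 * lam (k+1) + 2 * Rk k → cell k u ∈ win k (cell (k+1) x) := by
          intro u hu
          rw [nm_le_iff] at hu
          have w1 := cell_near k hu.1
          have w2 := cell_near k hu.2
          have w3 := cell_succ k x.1
          have w4 := cell_succ k x.2
          unfold win cell
          rw [Finset.mem_product, Finset.mem_Ico, Finset.mem_Ico]
          simp only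
          omega
        have hp : (cell k x1, cell k x2) ∈ prs k (cell (k+1) x) := by
          unfold prs
          rw [Finset.mem_filter, Finset.mem_product]
          exact ⟨⟨hw x1 hn1, hw x2 hn2⟩, hna⟩
        have h3 : ap k (cell k x1) xv * ap k (cell k x2) xv ≤
            ∑ p ∈ prs k (cell (k+1) x), ap k p.1 xv * ap k p.2 xv :=
          Finset.single_le_sum (f := fun p : Pt × Pt => ap k p.1 xv * ap k p.2 xv)
            (fun p _ => mul_nonneg (hapn _) (hapn _)) hp
        have h4 : 1 ≤ ap k (cell k x1) xv * ap k (cell k x2) xv := by nlinarith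
        rw [eap]
        linarith

end claim

end Pool.Agent.Helper95_SOS
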