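import Pool.Agent.Helper95_SOS.Bump

/-!
Scales, live sets and isolated groups of cells.
-/

set_option autoImplicit false

open scoped BigOperators

namespace Pool.Agent.Helper95_SOS

/-- variables -/
inductive Var
  | site (x : Pt)
  | omg (k : ℕ) (z : Pt)
  | blk (k : ℕ) (z : Pt)
  | outer
  deriving DecidableEq

/-- exponents of the scales -/
def lx : ℕ → ℕ
  | 0 => 0
  | (k+1) => lx k + (3 * k + 37)

/-- scales -/
def lam (k : ℕ) : ℤ := 2 ^ (lx k)

/-- cell sizes -/
def Rk (k : ℕ) : ℤ := 32 * lam k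

/-- isolation distance in units of cells -/
def dk (k : ℕ) : ℤ := 2 ^ (3 * k + 33)

/-- obstacle radius -/
def rho (k : ℕ) : ℤ := 2 ^ (2 * k + 27) * Rk k

theorem lam_pos (k : ℕ) : 0 < lam k := by unfold lam; positivity

theorem lam_succ (k : ℕ) : lam (k+1) = 16 * (dk k * lam k) := by
  unfold lam dk
  rw [show lx (k+1) = lx k + (3 * k + 37) from rfl, pow_add,
    show 3 * k + 37 = (3 * k + 33) + 4 by ring, pow_add 2 (3 * k + 33) 4]
  ring

theorem Rk_pos (k : ℕ) : 0 < Rk k := by unfold Rk; have := lam_pos k; omega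

theorem dk_mul (k : ℕ) : dk k * Rk k = 2 * lam (k+1) := by
  rw [lam_succ]; unfold Rk; ring

theorem dk_ge (k : ℕ) : 2^33 ≤ dk k := by
  unfold dk
  exact pow_le_pow_right₀ (by norm_num) (by omega)

theorem lam_succ_ge (k : ℕ) : 2^37 * lam k ≤ lam (k+1) := by
  rw [lam_succ]
  have := dk_ge k
  have := lam_pos k
  nlinarith

theorem rho_pos (k : ℕ) : 0 < rho k := by unfold rho; have := Rk_pos k; positivity

theorem rho_ge (k : ℕ) : 2^27 * Rk k ≤ rho k := by
  unfold rho
  have h : (2:ℤ)^27 ≤ 2^(2*k+27) := pow_le_pow_right₀ (by norm_num) (by omega)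
  exact mul_le_mul_of_nonneg_right h (Rk_pos k).le

theorem dk_eq (k : ℕ) : dk k = 64 * (2^(2*k+27) * 2^k) := by
  unfold dk
  have e : 3 * k + 33 = 6 + ((2*k+27) + k) := by omega
  rw [e, pow_add 2 6, pow_add 2 (2*k+27) k]
  norm_num

theorem rho_le (k : ℕ) : 32 * rho k ≤ lam (k+1) := by
  rw [lam_succ, dk_eq]
  unfold rho Rk
  have h1 : (1:ℤ) ≤ 2^k := one_le_pow₀ (by norm_num)
  have h2 := lam_pos k
  have h4 : (0:ℤ) < 2^(2*k+27) := by positivity
  generalize (2:ℤ)^(2*k+27) = P at *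
  generalize (2:ℤ)^k = Q at *
  generalize lam k = l at *
  have h3 : 0 < P * l := mul_pos h4 h2
  nlinarith

theorem lam_mono {j k : ℕ} (h : j ≤ k) : lam j ≤ lam k := by
  unfold lam
  apply pow_le_pow_right₀ (by norm_num)
  induction k, h using Nat.le_induction with
  | base => exact le_rfl
  | succ m h ih =>
      refine le_trans ih ?_
      show lx m ≤ lx m + (3 * m + 37)
      omega

/-- centre of a group of four cells -/
def ctr (k : ℕ) (z : Pt) : Pt := (Rk k * z.1 + Rk k, Rk k * z.2 + Rk k)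

/-- group of four cells -/
def grp (k : ℕ) (z : Pt) : Set Pt :=
  {x | (Rk k * z.1 ≤ x.1 ∧ x.1 < Rk k * z.1 + 2 * Rk k) ∧
       (Rk k * z.2 ≤ x.2 ∧ x.2 < Rk k * z.2 + 2 * Rk k)}

/-- enlarged box around a group -/
def box (k : ℕ) (z : Pt) : Set Pt :=
  {x | (Rk k * z.1 - 2 * lam (k+1) ≤ x.1 ∧ x.1 < Rk k * z.1 + 2 * Rk k + 2 * lam (k+1)) ∧
       (Rk k * z.2 - 2 * lam (k+1) ≤ x.2 ∧ x.2 < Rk k * z.2 + 2 * Rk k + 2 * lam (k+1))}

/-- isolated group -/
def iso (k : ℕ) (z : Pt) (A : Set Pt) : Prop :=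
  (∃ x ∈ A, x ∈ grp k z ∧ x.1 < Rk k * z.1 + Rk k) ∧
  (∃ x ∈ A, x ∈ grp k z ∧ x.2 < Rk k * z.2 + Rk k) ∧
  (∀ x ∈ A, x ∈ box k z → x ∈ grp k z)

/-- region of a block -/
def region (j : ℕ) (z : Pt) : Set Pt :=
  {x | (lam j * z.1 - lam j ≤ x.1 ∧ x.1 < lam j * z.1 + 3 * lam j) ∧
       (lam j * z.2 - lam j ≤ x.2 ∧ x.2 < lam j * z.2 + 3 * lam j)}

theorem lt_nm_iff (x : Pt) (r : ℤ) : r < nm x ↔ (r < |x.1| ∨ r < |x.2|) := by
  unfold nm; exact lt_max_iff

theorem grp_sub_box (k : ℕ) (z : Pt) : grp k z ⊆ box k z := by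
  intro x hx
  have h1 := lam_pos (k+1)
  unfold grp at hx
  unfold box
  simp only [Set.mem_ofPred_eq] at hx ⊢
  omega

theorem grp_ball {k : ℕ} {z x : Pt} (hx : x ∈ grp k z) : nm (x - ctr k z) ≤ Rk k := by
  rw [nm_le_iff, abs_le, abs_le]
  unfold grp at hx
  unfold ctr
  simp only [Set.mem_ofPred_eq, Prod.fst_sub, Prod.snd_sub] at hx ⊢
  omega

theorem ball_box {k : ℕ} {z x : Pt} (hx : nm (x - ctr k z) ≤ rho k) : x ∈ box k z := by
  rw [nm_le_iff, abs_le, abs_le] at hx
  have h1 := rho_le k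
  have h2 := rho_pos k
  unfold ctr at hx
  unfold box
  simp only [Set.mem_ofPred_eq, Prod.fst_sub, Prod.snd_sub] at hx ⊢
  have h3 := Rk_pos k
  omega

/-- two distinct isolated groups are far apart -/
theorem iso_sep {k : ℕ} {z z' : Pt} {A : Set Pt} (h : iso k z A) (h' : iso k z' A) (hne : z ≠ z') :
    2 * lam (k+1) ≤ nm (ctr k z - ctr k z') := by
  obtain ⟨⟨x1, hx1, hg1, hc1⟩, ⟨x2, hx2, hg2, hc2⟩, hi⟩ := h
  obtain ⟨⟨y1, hy1, kg1, kc1⟩, ⟨y2, hy2, kg2, kc2⟩, ki⟩ := h'
  have hR := Rk_pos k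
  have hL := lam_pos (k+1)
  by_contra hcon
  push Not at hcon
  rw [← Int.le_sub_one_iff, nm_le_iff, abs_le, abs_le] at hcon
  unfold ctr at hcon
  simp only [Prod.fst_sub, Prod.snd_sub] at hcon
  -- every point of one group lies in the box of the other
  have a1 : x1 ∈ grp k z' := ki x1 hx1 (by
    unfold grp at hg1; unfold box; simp only [Set.mem_ofPred_eq] at hg1 ⊢; omega)
  have a2 : x2 ∈ grp k z' := ki x2 hx2 (by
    unfold grp at hg2; unfold box; simp only [Set.mem_ofPred_eq] at hg2 ⊢; omega)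
  have b1 : y1 ∈ grp k z := hi y1 hy1 (by
    unfold grp at kg1; unfold box; simp only [Set.mem_ofPred_eq] at kg1 ⊢; omega)
  have b2 : y2 ∈ grp k z := hi y2 hy2 (by
    unfold grp at kg2; unfold box; simp only [Set.mem_ofPred_eq] at kg2 ⊢; omega)
  unfold grp at a1 a2 b1 b2 hg1 hg2 kg1 kg2
  simp only [Set.mem_ofPred_eq] at a1 a2 b1 b2 hg1 hg2 kg1 kg2
  apply hne
  -- z.1 = z'.1
  have e1 : z.1 = z'.1 := by
    have l1 : Rk k * z'.1 < Rk k * (z.1 + 1) := by rw [mul_add, mul_one]; omega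
    have l2 : Rk k * z.1 < Rk k * (z'.1 + 1) := by rw [mul_add, mul_one]; omega
    have l3 := lt_of_mul_lt_mul_left l1 hR.le
    have l4 := lt_of_mul_lt_mul_left l2 hR.le
    omega
  have e2 : z.2 = z'.2 := by
    have l1 : Rk k * z'.2 < Rk k * (z.2 + 1) := by rw [mul_add, mul_one]; omega
    have l2 : Rk k * z.2 < Rk k * (z'.2 + 1) := by rw [mul_add, mul_one]; omega
    have l3 := lt_of_mul_lt_mul_left l1 hR.le
    have l4 := lt_of_mul_lt_mul_left l2 hR.le
    omega
  exact Prod.ext e1 e2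

theorem iso_grp_disj {k : ℕ} {z z' : Pt} {A : Set Pt} (h : iso k z A) (h' : iso k z' A) (hne : z ≠ z')
    {x : Pt} (hx : x ∈ grp k z) : x ∉ grp k z' := by
  intro hx'
  have h1 := iso_sep h h' hne
  have h2 := grp_ball hx
  have h3 := grp_ball hx'
  have h4 := lam_succ_ge k
  have h5 : Rk k = 32 * lam k := rfl
  have h6 := lam_pos k
  have h7 : nm (ctr k z - ctr k z') ≤ 2 * Rk k := by
    rw [nm_le_iff, abs_le, abs_le] at h2 h3 ⊢
    simp only [Prod.fst_sub, Prod.snd_sub] at h2 h3 ⊢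
    omega
  omega

section live
variable (K : ℕ) (M : ℤ) (Bad : ℕ → Pt → Prop) (ω : Set Var)

/-- point in the region of a bad block -/
def badpt (x : Pt) : Prop := ∃ j, j ≤ K ∧ ∃ z, Bad j z ∧ x ∈ region j z

/-- live sets -/
def live : ℕ → Set Pt
  | 0 => {x | M < nm x ∨ badpt K Bad x ∨ (x ≠ 0 ∧ Var.site x ∈ ω)}
  | (k+1) => {x | x ∈ live k ∧ ∀ z, iso k z (live k) → Var.omg k z ∉ ω → x ∉ grp k z}

theorem live_succ_sub (k : ℕ) : live K M Bad ω (k+1) ⊆ live K M Bad ω k := fun _ hx => hx.1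

theorem live_anti {j k : ℕ} (h : j ≤ k) : live K M Bad ω k ⊆ live K M Bad ω j := by
  induction h with
  | refl => exact subset_rfl
  | step h ih => exact (live_succ_sub K M Bad ω _).trans ih

variable {K M Bad ω}

theorem iso_in {k : ℕ} {A : Set Pt} (hA : ∀ x, M < nm x → x ∈ A) {z : Pt} (h : iso k z A)
    {x : Pt} (hx : x ∈ box k z) : nm x ≤ M := by
  by_contra hcon
  push Not at hcon
  have hR := Rk_pos k
  have h1 := lam_succ_ge k
  have h2 : Rk k = 32 * lam k := rfl
  have h3 := lam_pos k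
  have hg := h.2.2 x (hA x hcon) hx
  rw [lt_nm_iff] at hcon
  -- shifted point
  have key : ∀ y : Pt, M < nm y → y ∈ box k z → y ∉ grp k z → False :=
    fun y hy hb hn => hn (h.2.2 y (hA y hy) hb)
  unfold grp at hg
  simp only [Set.mem_ofPred_eq] at hg
  rcases hcon with hc | hc
  · rcases lt_abs.mp hc with hc | hc
    · apply key (x.1 + 2 * Rk k, x.2)
      · rw [lt_nm_iff]; left; rw [lt_abs]; left; simp only; omega
      · unfold box; simp only [Set.mem_ofPred_eq]; omega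
      · unfold grp; simp only [Set.mem_ofPred_eq]; omega
    · apply key (x.1 - 2 * Rk k, x.2)
      · rw [lt_nm_iff]; left; rw [lt_abs]; right; simp only; omega
      · unfold box; simp only [Set.mem_ofPred_eq]; omega
      · unfold grp; simp only [Set.mem_ofPred_eq]; omega
  · rcases lt_abs.mp hc with hc | hc
    · apply key (x.1, x.2 + 2 * Rk k)
      · rw [lt_nm_iff]; right; rw [lt_abs]; left; simp only; omega
      · unfold box; simp only [Set.mem_ofPred_eq]; omega
      · unfold grp; simp only [Set.mem_ofPred_eq]; omega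
    · apply key (x.1, x.2 - 2 * Rk k)
      · rw [lt_nm_iff]; right; rw [lt_abs]; right; simp only; omega
      · unfold box; simp only [Set.mem_ofPred_eq]; omega
      · unfold grp; simp only [Set.mem_ofPred_eq]; omega

theorem live_out (k : ℕ) : ∀ x, M < nm x → x ∈ live K M Bad ω k := by
  induction k with
  | zero => intro x hx; left; exact hx
  | succ k ih =>
      intro x hx
      refine ⟨ih x hx, fun z hz _ hg => ?_⟩
      have := iso_in ih hz (grp_sub_box k z hg)
      omega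

theorem live_iso_in {k : ℕ} {z : Pt} (h : iso k z (live K M Bad ω k)) {x : Pt}
    (hx : x ∈ box k z) : nm x ≤ M := iso_in (live_out k) h hx

/-- a box contained in the live set is inside or outside of each isolated group -/
theorem clamp_box {k : ℕ} {z : Pt} {A : Set Pt} (h : iso k z A) {a b c d : ℤ}
    (hA : ∀ x : Pt, a ≤ x.1 → x.1 < b → c ≤ x.2 → x.2 < d → x ∈ A) :
    (∀ x : Pt, a ≤ x.1 → x.1 < b → c ≤ x.2 → x.2 < d → x ∈ grp k z) ∨
    (∀ x : Pt, a ≤ x.1 → x.1 < b → c ≤ x.2 → x.2 < d → x ∉ box k z) := by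
  by_cases hex : ∃ p : Pt, (a ≤ p.1 ∧ p.1 < b ∧ c ≤ p.2 ∧ p.2 < d) ∧ p ∈ box k z
  · left
    obtain ⟨p, hp, hpb⟩ := hex
    intro q q1 q2 q3 q4
    by_contra hcon
    have hq : q ∉ box k z := fun hb => hcon (h.2.2 q (hA q q1 q2 q3 q4) hb)
    have hR := Rk_pos k
    have hL := lam_pos (k+1)
    -- clamp
    set u : Pt := (max (Rk k * z.1 - 2 * lam (k+1)) (min q.1 (Rk k * z.1 + 2 * Rk k + 2 * lam (k+1) - 1)),
      max (Rk k * z.2 - 2 * lam (k+1)) (min q.2 (Rk k * z.2 + 2 * Rk k + 2 * lam (k+1) - 1))) with hu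
    have hub : u ∈ box k z := by
      unfold box; simp only [Set.mem_ofPred_eq, hu]; omega
    have hur : a ≤ u.1 ∧ u.1 < b ∧ c ≤ u.2 ∧ u.2 < d := by
      unfold box at hpb; simp only [Set.mem_ofPred_eq] at hpb
      simp only [hu]; omega
    have hug : u ∈ grp k z := h.2.2 u (hA u hur.1 hur.2.1 hur.2.2.1 hur.2.2.2) hub
    unfold box at hq
    unfold grp at hug
    simp only [Set.mem_ofPred_eq, hu] at hq hug
    omega
  · right
    push Not at hex
    intro x h1 h2 h3 h4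
    exact hex x ⟨h1, h2, h3, h4⟩

/-- bad regions are live or inside an isolated group of a previous stage -/
theorem bad_region {j : ℕ} (hj : j ≤ K) {z : Pt} (hb : Bad j z) (k : ℕ) :
    region j z ⊆ live K M Bad ω k ∨
      ∃ i, i < k ∧ ∃ c, iso i c (live K M Bad ω i) ∧ region j z ⊆ grp i c := by
  induction k with
  | zero =>
      left
      intro x hx
      right; left
      exact ⟨j, hj, z, hb, hx⟩
  | succ k ih =>
      rcases ih with ih | ⟨i, hi, c, hc, hr⟩
      · by_cases hex : ∃ c, iso k c (live K M Bad ω k) ∧ region j z ⊆ grp k c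
        · obtain ⟨c, hc, hr⟩ := hex
          right
          exact ⟨k, Nat.lt_succ_self k, c, hc, hr⟩
        · left
          intro x hx
          refine ⟨ih hx, fun c hc _ hg => ?_⟩
          have := clamp_box hc (a := lam j * z.1 - lam j) (b := lam j * z.1 + 3 * lam j)
            (c := lam j * z.2 - lam j) (d := lam j * z.2 + 3 * lam j)
            (fun y h1 h2 h3 h4 => ih ⟨⟨h1, h2⟩, ⟨h3, h4⟩⟩)
          rcases this with h | h
          · exact hex ⟨c, hc, fun y hy => h y hy.1.1 hy.1.2 hy.2.1 hy.2.2⟩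
          · exact h x hx.1.1 hx.1.2 hx.2.1 hx.2.2 (grp_sub_box k c hg)
      · right
        exact ⟨i, Nat.lt_succ_of_lt hi, c, hc, hr⟩

/-- a bad live region is inside or outside an isolated group -/
theorem region_iso {j : ℕ} {z : Pt} {A : Set Pt} (hA : region j z ⊆ A) {k : ℕ} {c : Pt} (hc : iso k c A) :
    region j z ⊆ grp k c ∨ ∀ x ∈ region j z, x ∉ box k c := by
  have := clamp_box hc (a := lam j * z.1 - lam j) (b := lam j * z.1 + 3 * lam j)
            (c := lam j * z.2 - lam j) (d := lam j * z.2 + 3 * lam j)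
            (fun y h1 h2 h3 h4 => hA ⟨⟨h1, h2⟩, ⟨h3, h4⟩⟩)
  rcases this with h | h
  · left; intro y hy; exact h y hy.1.1 hy.1.2 hy.2.1 hy.2.2
  · right; intro y hy; exact h y hy.1.1 hy.1.2 hy.2.1 hy.2.2

/-- the live sets depend only on earlier variables -/
theorem live_dep {ω' : Set Var} (k : ℕ) (hs : ∀ x, Var.site x ∈ ω ↔ Var.site x ∈ ω')
    (ho : ∀ j, j < k → ∀ z, Var.omg j z ∈ ω ↔ Var.omg j z ∈ ω') :
    live K M Bad ω k = live K M Bad ω' k := by
  induction k with
  | zero =>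
      ext x
      simp only [live, Set.mem_ofPred_eq, hs x]
  | succ k ih =>
      have h := ih (fun j hj => ho j (Nat.lt_succ_of_lt hj))
      ext x
      simp only [live, Set.mem_ofPred_eq, h]
      have h2 := ho k (Nat.lt_succ_self k)
      simp only [h2]

/-- a live point which is in no isolated group has two nonadjacent live cells around -/
theorem not_iso {k : ℕ} {A : Set Pt} {x : Pt} (hx : x ∈ A) (hn : ∀ z, iso k z A → x ∉ grp k z) :
    ∃ x1 ∈ A, ∃ x2 ∈ A, nm (x1 - x) ≤ 2 * lam (k+1) + 2 * Rk k ∧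
      nm (x2 - x) ≤ 2 * lam (k+1) + 2 * Rk k ∧
      (x1.1 / Rk k + 2 ≤ x2.1 / Rk k ∨ x1.2 / Rk k + 2 ≤ x2.2 / Rk k) := by
  have hR := Rk_pos k
  have hL := lam_pos (k+1)
  by_contra hcon
  push Not at hcon
  -- cells
  set Q1 := x.1 / Rk k with hQ1
  set Q2 := x.2 / Rk k with hQ2
  have fl : ∀ t : ℤ, Rk k * (t / Rk k) ≤ t ∧ t < Rk k * (t / Rk k) + Rk k := by
    intro t
    have h1 := Int.mul_ediv_add_emod t (Rk k)
    have h2 := Int.emod_nonneg t hR.ne'
    have h3 := Int.emod_lt_of_pos t hR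
    constructor <;> linarith
  -- the window
  have hwin : ∀ y ∈ A, nm (y - x) ≤ 2 * lam (k+1) + 2 * Rk k →
      (Q1 - 1 ≤ y.1 / Rk k ∧ y.1 / Rk k ≤ Q1 + 1) ∧ (Q2 - 1 ≤ y.2 / Rk k ∧ y.2 / Rk k ≤ Q2 + 1) := by
    intro y hy hyn
    have hx0 : nm (x - x) ≤ 2 * lam (k+1) + 2 * Rk k := by
      simp [nm]; omega
    have h1 := hcon y hy x hx hyn hx0
    have h2 := hcon x hx y hy hx0 hyn
    omega
  classical
  let a : ℤ := if ∃ y ∈ A, nm (y - x) ≤ 2 * lam (k+1) + 2 * Rk k ∧ y.1 / Rk k = Q1 - 1 then Q1 - 1 else Q1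
  let b : ℤ := if ∃ y ∈ A, nm (y - x) ≤ 2 * lam (k+1) + 2 * Rk k ∧ y.2 / Rk k = Q2 - 1 then Q2 - 1 else Q2
  have ha : a = Q1 - 1 ∨ a = Q1 := by simp only [a]; split_ifs <;> simp
  have hb : b = Q2 - 1 ∨ b = Q2 := by simp only [b]; split_ifs <;> simp
  -- every live point in the window lies in the group (a,b)
  have hmem : ∀ y ∈ A, nm (y - x) ≤ 2 * lam (k+1) + 2 * Rk k →
      (a ≤ y.1 / Rk k ∧ y.1 / Rk k ≤ a + 1) ∧ (b ≤ y.2 / Rk k ∧ y.2 / Rk k ≤ b + 1) := by
    intro y hy hyn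
    have h1 := hwin y hy hyn
    constructor
    · simp only [a]
      split_ifs with h
      · obtain ⟨w, hw, hwn, hwc⟩ := h
        have h2 := hcon w hw y hy hwn hyn
        omega
      · push Not at h
        have := h y hy hyn
        omega
    · simp only [b]
      split_ifs with h
      · obtain ⟨w, hw, hwn, hwc⟩ := h
        have h2 := hcon w hw y hy hwn hyn
        omega
      · push Not at h
        have := h y hy hyn
        omega
  have hgrp : ∀ y ∈ A, nm (y - x) ≤ 2 * lam (k+1) + 2 * Rk k → y ∈ grp k (a, b) := by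
    intro y hy hyn
    have h1 := hmem y hy hyn
    have h2 := fl y.1
    have h3 := fl y.2
    have m1 := mul_le_mul_of_nonneg_left h1.1.1 hR.le
    have m2 := mul_le_mul_of_nonneg_left h1.1.2 hR.le
    have m3 := mul_le_mul_of_nonneg_left h1.2.1 hR.le
    have m4 := mul_le_mul_of_nonneg_left h1.2.2 hR.le
    unfold grp
    simp only [Set.mem_ofPred_eq]
    rw [mul_add, mul_one] at m2 m4
    omega
  have hx0 : nm (x - x) ≤ 2 * lam (k+1) + 2 * Rk k := by
    simp [nm]; omega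
  have hxg := hgrp x hx hx0
  refine hn (a, b) ⟨?_, ?_, ?_⟩ hxg
  · by_cases h : ∃ y ∈ A, nm (y - x) ≤ 2 * lam (k+1) + 2 * Rk k ∧ y.1 / Rk k = Q1 - 1
    · have ea : a = Q1 - 1 := by simp only [a]; rw [if_pos h]
      obtain ⟨y, hy, hyn, hyc⟩ := h
      refine ⟨y, hy, hgrp y hy hyn, ?_⟩
      have := (fl y.1).2
      rw [hyc] at this
      simp only [ea]
      exact this
    · have ea : a = Q1 := by simp only [a]; rw [if_neg h]
      refine ⟨x, hx, hxg, ?_⟩
      have := (fl x.1).2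
      simp only [ea]
      exact this
  · by_cases h : ∃ y ∈ A, nm (y - x) ≤ 2 * lam (k+1) + 2 * Rk k ∧ y.2 / Rk k = Q2 - 1
    · have eb : b = Q2 - 1 := by simp only [b]; rw [if_pos h]
      obtain ⟨y, hy, hyn, hyc⟩ := h
      refine ⟨y, hy, hgrp y hy hyn, ?_⟩
      have := (fl y.2).2
      rw [hyc] at this
      simp only [eb]
      exact this
    · have eb : b = Q2 := by simp only [b]; rw [if_neg h]
      refine ⟨x, hx, hxg, ?_⟩
      have := (fl x.2).2
      simp only [eb]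
      exact this
  · intro y hy hyb
    apply hgrp y hy
    rw [nm_le_iff, abs_le, abs_le]
    unfold box at hyb
    unfold grp at hxg
    simp only [Set.mem_ofPred_eq] at hyb hxg
    simp only [Prod.fst_sub, Prod.snd_sub]
    omega

end live

end Pool.Agent.Helper95_SOS
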