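import Pool.Agent.Helper95_SOS.Mono
import Pool.Agent.Helper95_SOS.Poly

/-!
Relaxing many constraints.
-/

set_option autoImplicit false

open scoped BigOperators

namespace Pool.Agent.Helper95_SOS

variable {ι : Type} [Fintype ι] [DecidableEq ι]

/-- kill all charges of the sets `Y v`, `v ∈ T` -/
def killAll {V : Type} (U : Submodule ℝ (ι → ℝ)) (Y : V → Finset ι) (T : Finset V) :
    Submodule ℝ (ι → ℝ) where
  carrier := {z | z ∈ U ∧ ∀ v ∈ T, ∑ i ∈ Y v, z i = 0}
  add_mem' := by
    rintro a b ⟨ha, ha'⟩ ⟨hb, hb'⟩
    refine ⟨U.add_mem ha hb, fun v hv => ?_⟩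
    simp only [Pi.add_apply, Finset.sum_add_distrib, ha' v hv, hb' v hv, add_zero]
  zero_mem' := ⟨U.zero_mem, fun v _ => by simp⟩
  smul_mem' := by
    rintro c a ⟨ha, ha'⟩
    refine ⟨U.smul_mem c ha, fun v hv => ?_⟩
    simp only [Pi.smul_apply, smul_eq_mul, ← Finset.mul_sum, ha' v hv, mul_zero]

theorem mem_killAll {V : Type} (U : Submodule ℝ (ι → ℝ)) (Y : V → Finset ι) (T : Finset V)
    (z : ι → ℝ) : z ∈ killAll U Y T ↔ z ∈ U ∧ ∀ v ∈ T, ∑ i ∈ Y v, z i = 0 := Iff.rfl

theorem relax_many {V : Type} [DecidableEq V] (Y : V → Finset ι) (yy : V → ι) (f : ι → ℝ)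
    {S : ℝ} (hS : 3 ≤ S) (Q : (ι → ℝ) → ℝ) (hQ : PD Q) (hp : Par Q) {s : Set V}
    {F : (V → ℝ) → ℝ} (hF : MA s F) (C : Finset V) :
    ∀ (U : Submodule ℝ (ι → ℝ)) (x : V → ℝ), (∀ c ∈ C, yy c ∈ Y c) →
      (∀ c ∈ C, Pi.single (yy c) (1:ℝ) ∈ U) →
      (∀ c ∈ C, ∀ c' ∈ C, c ≠ c' → Disjoint (Y c) (Y c')) → f ∈ U →
      (∀ c ∈ C, ∑ i ∈ Y c, f i = 0) →
      (∀ T ⊆ C, chi (killAll U Y T) Q f ≤ F (fun v => if v ∈ T then 0 else if v ∈ C then 1 else x v)) →
      chi U (fun z => Q z + S * ∑ c ∈ C, (chg (Y c) z)^2) f ≤
        F (fun v => if v ∈ C then 2 * Real.exp (-(S - 2)) else x v) := by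
  induction C using Finset.induction_on with
  | empty =>
      intro U x _ _ _ _ _ hT
      have h := hT ∅ (Finset.Subset.refl _)
      have e : killAll U Y ∅ = U := by
        ext z; rw [mem_killAll]; simp
      rw [e] at h
      simpa using h
  | insert c0 C hc0 ih =>
      intro U x hy hyU hdis hfU hfY hT
      have hm := mono_many C (fun _ => S) (fun c => chg (Y c)) (fun _ => by linarith) hQ hp ⊤ 0
      have hPD : PD (fun z => Q z + S * ∑ c ∈ C, (chg (Y c) z)^2) := by
        have := hm.1
        simpa [Finset.mul_sum] using this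
      have hPar : Par (fun z => Q z + S * ∑ c ∈ C, (chg (Y c) z)^2) := by
        have := hm.2.1
        simpa [Finset.mul_sum] using this
      have hfk : f ∈ kill U (Y c0) := (mem_kill _ _ _).mpr ⟨hfU, hfY c0 (Finset.mem_insert_self _ _)⟩
      have h1 := relax U _ hPD hPar (Y c0) (yy c0) (hy c0 (Finset.mem_insert_self _ _))
        (hyU c0 (Finset.mem_insert_self _ _)) hfk (S := S) (by linarith)
      have e1 : (fun z => Q z + S * ∑ c ∈ insert c0 C, (chg (Y c) z)^2) =
          fun z => (Q z + S * ∑ c ∈ C, (chg (Y c) z)^2) + S * (chg (Y c0) z)^2 := by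
        funext z
        rw [Finset.sum_insert hc0]
        ring
      rw [e1]
      refine le_trans h1 ?_
      set δ := 2 * Real.exp (-(S - 2)) with hδ
      have hδ0 : 0 ≤ δ := by positivity
      -- first outcome
      have ih1 := ih (kill U (Y c0)) (Function.update x c0 0)
        (fun c hc => hy c (Finset.mem_insert_of_mem hc))
        (fun c hc => by
          rw [mem_kill]
          refine ⟨hyU c (Finset.mem_insert_of_mem hc), ?_⟩
          apply Finset.sum_eq_zero
          intro i hi
          have hne : c ≠ c0 := fun h => hc0 (h ▸ hc)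
          have hd := hdis c (Finset.mem_insert_of_mem hc) c0 (Finset.mem_insert_self _ _) hne
          have hi' : i ≠ yy c := by
            rintro rfl
            exact (Finset.disjoint_left.mp hd) (hy c (Finset.mem_insert_of_mem hc)) hi
          exact Pi.single_eq_of_ne hi' _)
        (fun c hc c' hc' hne => hdis c (Finset.mem_insert_of_mem hc) c' (Finset.mem_insert_of_mem hc') hne)
        hfk (fun c hc => hfY c (Finset.mem_insert_of_mem hc))
        (fun T hTC => by
          have h2 := hT (insert c0 T) (Finset.insert_subset_insert _ hTC)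
          have e2 : killAll (kill U (Y c0)) Y T = killAll U Y (insert c0 T) := by
            ext z
            rw [mem_killAll, mem_killAll, mem_kill]
            constructor
            · rintro ⟨⟨h3, h4⟩, h5⟩
              refine ⟨h3, fun v hv => ?_⟩
              rcases Finset.mem_insert.mp hv with rfl | hv
              · exact h4
              · exact h5 v hv
            · rintro ⟨h3, h4⟩
              exact ⟨⟨h3, h4 c0 (Finset.mem_insert_self _ _)⟩,
                fun v hv => h4 v (Finset.mem_insert_of_mem hv)⟩
          rw [e2]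
          refine le_trans h2 (le_of_eq ?_)
          congr 1
          funext v
          by_cases hv0 : v = c0
          · subst hv0
            have hvT : v ∉ T := fun h => hc0 (hTC h)
            simp [hvT, hc0]
          · simp only [Finset.mem_insert, hv0, false_or, ne_eq, not_false_eq_true,
              Function.update_of_ne])
      have ih2 := ih U (Function.update x c0 1)
        (fun c hc => hy c (Finset.mem_insert_of_mem hc))
        (fun c hc => hyU c (Finset.mem_insert_of_mem hc))
        (fun c hc c' hc' hne => hdis c (Finset.mem_insert_of_mem hc) c' (Finset.mem_insert_of_mem hc') hne)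
        hfU (fun c hc => hfY c (Finset.mem_insert_of_mem hc))
        (fun T hTC => by
          have h2 := hT T (hTC.trans (Finset.subset_insert _ _))
          refine le_trans h2 (le_of_eq ?_)
          congr 1
          funext v
          by_cases hv0 : v = c0
          · subst hv0
            have hvT : v ∉ T := fun h => hc0 (hTC h)
            simp [hvT, hc0]
          · simp only [Finset.mem_insert, hv0, false_or, ne_eq, not_false_eq_true,
              Function.update_of_ne])
      have hmain : F (fun v => if v ∈ insert c0 C then δ else x v) =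
          (1 - δ) * F (fun v => if v ∈ C then δ else Function.update x c0 0 v) +
          δ * F (fun v => if v ∈ C then δ else Function.update x c0 1 v) := by
        have h2 := hF.aff (fun v => if v ∈ C then δ else x v) c0 δ
        have e3 : ∀ a : ℝ, Function.update (fun v => if v ∈ C then δ else x v) c0 a =
            fun v => if v ∈ C then δ else Function.update x c0 a v := by
          intro a
          funext v
          by_cases hv0 : v = c0
          · subst hv0
            simp [hc0]
          · simp [hv0]
        rw [← e3, ← e3, ← h2, e3]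
        congr 1
        funext v
        by_cases hv0 : v = c0
        · subst hv0
          simp [hc0]
        · simp [hv0]
      rw [hmain]
      have hδ1 : δ ≤ 1 := by
        rw [hδ]
        have h2 : Real.exp (-(S - 2)) ≤ 1 / 2 := by
          rw [Real.exp_neg, ← one_div]
          apply one_div_le_one_div_of_le (by norm_num)
          have := Real.add_one_le_exp (S - 2)
          linarith
        linarith
      have m1 := mul_le_mul_of_nonneg_left ih1 (by linarith : (0:ℝ) ≤ 1 - δ)
      have m2 := mul_le_mul_of_nonneg_left ih2 hδ0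
      have e4 : 2 * Real.exp (-(S - 2)) = δ := rfl
      linarith

end Pool.Agent.Helper95_SOS
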