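import Pool.Agent.Helper95_SOS.CosBound

/-!
Variance lower bound for the long-range SOS model in a box.
-/

set_option autoImplicit false

open scoped BigOperators

namespace Pool.Agent.Helper95_SOS

/-- the constant `π² / (2 κ)` with `κ = 1/10000` -/
noncomputable def aa : ℝ := Real.pi^2 / (2 * (1/10000))

theorem aa_ge : 45000 ≤ aa := by
  unfold aa
  have h := Real.pi_gt_three
  rw [le_div_iff₀ (by norm_num)]
  nlinarith

theorem Sk_ge (j : ℕ) : 69 * ((j:ℝ) + 13) ≤ Sk aa j := by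
  unfold Sk
  have h := aa_ge
  have hj : (0:ℝ) ≤ j := Nat.cast_nonneg j
  rw [le_div_iff₀ (by norm_num)]
  nlinarith

theorem Gk_ge (K : ℕ) : 4 * (K:ℝ) ≤ Gk aa K := by
  induction K with
  | zero => simp [Gk]
  | succ K ih =>
      unfold Gk at ih ⊢
      rw [Finset.sum_range_succ]
      have := Sk_ge K
      have hj : (0:ℝ) ≤ K := Nat.cast_nonneg K
      push_cast
      nlinarith

/-- the SOS weight -/
noncomputable def sosw (β q : ℝ) {N : ℤ} (ψ : Ix N → ℤ) : ℝ :=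
  Real.exp (-∑ p : Bd N, tt β q p * |((nz p ψ : ℤ) : ℝ)|)

theorem cos_bound {q : ℝ} (hq : 2 < q) : ∃ β₀ : ℝ, 0 < β₀ ∧ ∀ β : ℝ, 0 < β → β < β₀ →
    ∀ K : ℕ, 4 ≤ Gk aa K → ∀ N : ℤ, 2 * Rk K + lam K ≤ N → ∀ o : Ix N, o.1 = 0 →
    ∀ t : ℝ, 0 ≤ t → t ≤ 1/4 →
    ∑' ψ : Ix N → ℤ, sosw β q ψ * Real.cos (2 * Real.pi * (t * (ψ o : ℝ))) ≤
      (2 * Real.exp (-(Gk aa K * t^2)) + 1/10) * ∑' ψ : Ix N → ℤ, sosw β q ψ := by
  classical
  obtain ⟨β₀, hβ₀, hβs⟩ := exists_beta (κ := 1/10000) hq (by norm_num)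
  refine ⟨β₀, hβ₀, fun β hβ hβ1 K hG N hN o ho t ht0 ht => ?_⟩
  obtain ⟨hblk, hout⟩ := hβs β hβ hβ1
  have hl := lam_pos K
  have hR := Rk_pos K
  have hRK : Rk K = 32 * lam K := rfl
  set M := 2 * Rk K with hM
  have hκ : (0:ℝ) < 1/10000 := by norm_num
  have haa : Real.pi^2 / (2 * (1/10000)) = aa := rfl
  have hM3 : 2 * M + 3 ≤ 2^(lx K + 8) := by
    have e : (2:ℤ)^(lx K + 8) = 256 * lam K := by unfold lam; rw [pow_add]; ring
    rw [e]; omega
  have hMk : ∀ k, k < K → 2 * lam (k+1) + Rk k ≤ M := by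
    intro k hk
    have h1 := lam_mono (show k + 1 ≤ K from hk)
    have h2 := lam_succ_ge k
    have h3 := lam_pos k
    have h4 : Rk k = 32 * lam k := rfl
    omega
  have hbd : ∀ ψ : Ix N → ℤ, |Real.cos (2 * Real.pi * (t * (ψ o : ℝ)))| ≤ 1 :=
    fun ψ => Real.abs_cos_le_one _
  have hc0 : 0 ≤ 2 * Real.exp (-(Gk aa K * t^2)) := by positivity
  have hMA := MA.add (MA.const (Set.univ : Set Var) hc0) (Ftot_MA K)
  have key := mix (fun mm : Bd N → ℝ => 2 * Real.exp (-(Gk aa K * t^2)) + Ftot K (xm K M (1/10000) mm))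
    (fun mm p hm => F_affine hκ hMA mm p hm)
    (fun ψ => Real.cos (2 * Real.pi * (t * (ψ o : ℝ)))) hbd (tt β q) (fun p => tt_pos hβ hq p)
    (fun u hu => gauss_bound (by omega) hM3 hMk (by omega) hκ (by norm_num)
      (by rw [haa]; have := aa_ge; linarith) o ho ht0 ht (by rw [haa]; exact hG) (tt β q) u hu)
    Finset.univ (fun _ => 1) (fun _ => one_pos)
  simp_rw [Wt_univ] at key
  simp only [Finset.mem_univ, if_true] at key
  -- numerical bound
  have hx0 : ∀ v, 0 ≤ xm K M (1/10000) (fun p : Bd N => 3 * tt β q p) v :=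
    xm_nonneg hκ (fun p => by have := (tt_pos (N := N) hβ hq p).le; linarith)
  have hF : Ftot K (xm K M (1/10000) (fun p : Bd N => 3 * tt β q p)) ≤ 1/10 := by
    apply Ftot_le hx0
    · intro s
      show del (Real.pi^2 / (16 * (1/10000))) ≤ _
      apply del_le 212
      have h := Real.pi_gt_three
      rw [le_div_iff₀ (by norm_num)]
      push_cast
      nlinarith
    · intro j z
      show del (Sk aa j) ≤ _
      apply del_le
      have h := Sk_ge j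
      have hj : (0:ℝ) ≤ j := Nat.cast_nonneg j
      push_cast
      nlinarith
    · intro j z
      show (∑ p ∈ (bset K M (Var.blk j z) : Finset (Bd N)), 3 * tt β q p) / eps K (1/10000) (Var.blk j z) ≤ _
      refine le_trans ?_ (hblk j z K)
      apply div_le_div_of_nonneg_right _ (eps_pos K hκ _).le
      rw [← Finset.mul_sum]
      apply mul_le_mul_of_nonneg_left _ (by norm_num)
      exact blk_sum hβ hq j z
    · show (∑ p ∈ (bset K M Var.outer : Finset (Bd N)), 3 * tt β q p) / eps K (1/10000) Var.outer ≤ _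
      refine le_trans ?_ (hout K)
      apply div_le_div_of_nonneg_right _ (eps_pos K hκ _).le
      rw [← Finset.mul_sum]
      apply mul_le_mul_of_nonneg_left _ (by norm_num)
      have := outer_sum (K := K) (M := M) (N := N) hβ hq (by omega) (by omega)
      have e : ((M : ℤ) : ℝ) = 2 * ((Rk K : ℤ) : ℝ) := by rw [hM]; push_cast; rfl
      rw [e] at this
      exact this
  have hZ : 0 ≤ ∑' ψ : Ix N → ℤ, sosw β q ψ := tsum_nonneg (fun ψ => (Real.exp_pos _).le)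
  refine le_trans key ?_
  apply mul_le_mul_of_nonneg_right _ hZ
  linarith

theorem sq_le_exp {x : ℝ} (hx : 0 ≤ x) : x^2 ≤ 2 * Real.exp x := by
  have := Real.quadratic_le_exp_of_nonneg hx
  nlinarith

theorem summable_sq_exp {c : ℝ} (hc : 0 < c) :
    Summable (fun n : ℤ => (n:ℝ)^2 * Real.exp (-(c * |(n:ℝ)|))) := by
  have h1 := (summable_exp_abs (c := c/2) (by positivity)).mul_left (8 / c^2)
  refine Summable.of_nonneg_of_le (fun n => by positivity) (fun n => ?_) h1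
  have h2 := sq_le_exp (x := c/2 * |(n:ℝ)|) (by positivity)
  have h3 : (n:ℝ)^2 ≤ 8 / c^2 * Real.exp (c/2 * |(n:ℝ)|) := by
    have h4 : (c/2 * |(n:ℝ)|)^2 = c^2/4 * (n:ℝ)^2 := by
      rw [mul_pow, sq_abs]; ring
    rw [h4] at h2
    rw [div_mul_eq_mul_div, le_div_iff₀ (by positivity)]
    linarith
  have h5 : Real.exp (-(c * |(n:ℝ)|)) = Real.exp (-(c/2 * |(n:ℝ)|)) * Real.exp (-(c/2 * |(n:ℝ)|)) := by
    rw [← Real.exp_add]; congr 1; ring
  have h6 : Real.exp (c/2 * |(n:ℝ)|) * Real.exp (-(c/2 * |(n:ℝ)|)) = 1 := by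
    rw [← Real.exp_add]; simp
  rw [h5]
  have h7 : 0 ≤ Real.exp (-(c/2 * |(n:ℝ)|)) * Real.exp (-(c/2 * |(n:ℝ)|)) := by positivity
  calc (n:ℝ)^2 * (Real.exp (-(c/2 * |(n:ℝ)|)) * Real.exp (-(c/2 * |(n:ℝ)|)))
      ≤ (8 / c^2 * Real.exp (c/2 * |(n:ℝ)|)) * (Real.exp (-(c/2 * |(n:ℝ)|)) * Real.exp (-(c/2 * |(n:ℝ)|))) :=
        mul_le_mul_of_nonneg_right h3 h7
    _ = 8 / c^2 * (Real.exp (c/2 * |(n:ℝ)|) * Real.exp (-(c/2 * |(n:ℝ)|))) * Real.exp (-(c/2 * |(n:ℝ)|)) := by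
        ring
    _ = _ := by rw [h6]; ring

theorem sosw_eq {β q : ℝ} {N : ℤ} (ψ : Ix N → ℤ) : sosw β q ψ = Wt Finset.univ (tt β q) (fun _ => 1) ψ := by
  rw [Wt_univ]; rfl

theorem sosw_summable {β q : ℝ} (hβ : 0 < β) (hq : 2 < q) {N : ℤ} :
    Summable (fun ψ : Ix N → ℤ => sosw β q ψ) := by
  refine (Wt_summable Finset.univ (tt β q) (fun _ => 1) (fun p => tt_pos hβ hq p) (fun _ => one_pos)).congr
    (fun ψ => ?_)
  exact (sosw_eq ψ).symm

theorem sosw_sq_summable {β q : ℝ} (hβ : 0 < β) (hq : 2 < q) {N : ℤ} (o : Ix N) :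
    Summable (fun ψ : Ix N → ℤ => ((ψ o : ℤ) : ℝ)^2 * sosw β q ψ) := by
  classical
  have h1 := summable_pi_prod (fun (i : Ix N) (n : ℤ) =>
      (if i = o then (n:ℝ)^2 else 1) * Real.exp (-(tt β q (Sum.inr i : Bd N) * |(n:ℝ)|)))
    (fun i n => by
      apply mul_nonneg _ (Real.exp_pos _).le
      split_ifs <;> positivity)
    (fun i => by
      have hp := tt_pos (N := N) hβ hq (Sum.inr i)
      by_cases hi : i = o
      · simp only [if_pos hi]
        exact summable_sq_exp hp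
      · simp only [if_neg hi, one_mul]
        exact summable_exp_abs hp)
  refine Summable.of_nonneg_of_le (fun ψ => mul_nonneg (sq_nonneg _) (Real.exp_pos _).le) (fun ψ => ?_) h1
  rw [Finset.prod_mul_distrib]
  have e1 : ∏ i : Ix N, (if i = o then ((ψ i : ℤ) : ℝ)^2 else 1) = ((ψ o : ℤ) : ℝ)^2 := by
    rw [Finset.prod_ite_eq' Finset.univ o (fun i : Ix N => ((ψ i : ℤ) : ℝ)^2)]
    simp
  rw [e1]
  apply mul_le_mul_of_nonneg_left _ (sq_nonneg _)
  rw [← Real.exp_sum]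
  unfold sosw
  apply Real.exp_le_exp.mpr
  rw [Finset.sum_neg_distrib]
  apply neg_le_neg
  rw [Fintype.sum_sum_type]
  have h2 : 0 ≤ ∑ p : Ix N × Ix N, tt β q (Sum.inl p : Bd N) * |((nz (Sum.inl p) ψ : ℤ) : ℝ)| :=
    Finset.sum_nonneg (fun p _ => mul_nonneg (tt_pos hβ hq _).le (abs_nonneg _))
  have h3 : ∑ i : Ix N, tt β q (Sum.inr i : Bd N) * |((ψ i : ℤ) : ℝ)| =
      ∑ i : Ix N, tt β q (Sum.inr i : Bd N) * |((nz (Sum.inr i) ψ : ℤ) : ℝ)| := rfl
  linarith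

/-- **variance lower bound in a box** -/
theorem var_bound {q : ℝ} (hq : 2 < q) : ∃ β₀ : ℝ, 0 < β₀ ∧ ∀ β : ℝ, 0 < β → β < β₀ →
    ∀ K : ℕ, 40 ≤ Gk aa K → ∀ N : ℤ, 2 * Rk K + lam K ≤ N → ∀ o : Ix N, o.1 = 0 →
    (Gk aa K / 100) * ∑' ψ : Ix N → ℤ, sosw β q ψ ≤
      ∑' ψ : Ix N → ℤ, ((ψ o : ℤ) : ℝ)^2 * sosw β q ψ := by
  obtain ⟨β₀, hβ₀, hb⟩ := cos_bound hq
  refine ⟨β₀, hβ₀, fun β hβ hβ1 K hG N hN o ho => ?_⟩
  set G := Gk aa K with hGd
  have hG0 : 0 < G := by linarith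
  set t := Real.sqrt (2 / G) with ht
  have ht2 : t^2 = 2 / G := Real.sq_sqrt (by positivity)
  have ht0 : 0 ≤ t := Real.sqrt_nonneg _
  have ht4 : t ≤ 1/4 := by
    rw [ht]
    rw [show (1:ℝ)/4 = Real.sqrt ((1/4)^2) by rw [Real.sqrt_sq (by norm_num)]]
    apply Real.sqrt_le_sqrt
    rw [div_le_iff₀ hG0]
    linarith
  have h1 := hb β hβ hβ1 K (by linarith) N hN o ho t ht0 ht4
  rw [← hGd, ht2] at h1
  have e1 : G * (2 / G) = 2 := by field_simp
  rw [e1] at h1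
  have hexp : Real.exp (-2) ≤ 1/4 := by
    rw [show (-2:ℝ) = (-1) + (-1) by norm_num, Real.exp_add]
    have h3 : Real.exp (-1) ≤ 1/2 := by
      rw [Real.exp_neg, ← one_div]
      apply one_div_le_one_div_of_le (by norm_num)
      have := Real.add_one_le_exp (1:ℝ)
      linarith
    have := Real.exp_pos (-1)
    nlinarith
  set Z := ∑' ψ : Ix N → ℤ, sosw β q ψ with hZ
  have hZ0 : 0 ≤ Z := tsum_nonneg (fun ψ => (Real.exp_pos _).le)
  have hs1 := sosw_summable (N := N) hβ hq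
  have hs2 := sosw_sq_summable (N := N) hβ hq o
  have hs3 : Summable (fun ψ : Ix N → ℤ => sosw β q ψ * Real.cos (2 * Real.pi * (t * (ψ o : ℝ)))) := by
    refine Summable.of_norm_bounded hs1 (fun ψ => ?_)
    have hw : 0 < sosw β q ψ := Real.exp_pos _
    rw [Real.norm_eq_abs, abs_mul, abs_of_pos hw]
    have := Real.abs_cos_le_one (2 * Real.pi * (t * (ψ o : ℝ)))
    nlinarith
  have h2 : Z - ∑' ψ : Ix N → ℤ, sosw β q ψ * Real.cos (2 * Real.pi * (t * (ψ o : ℝ))) ≤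
      (2 * Real.pi^2 * t^2) * ∑' ψ : Ix N → ℤ, ((ψ o : ℤ) : ℝ)^2 * sosw β q ψ := by
    rw [hZ, ← hs1.tsum_sub hs3, ← tsum_mul_left]
    refine (hs1.sub hs3).tsum_le_tsum (fun ψ => ?_) (hs2.mul_left _)
    have h3 := Real.one_sub_sq_div_two_le_cos (x := 2 * Real.pi * (t * (ψ o : ℝ)))
    have h4 : 0 < sosw β q ψ := Real.exp_pos _
    have h5 := mul_le_mul_of_nonneg_left h3 h4.le
    nlinarith
  rw [ht2] at h2
  have hpi := Real.pi_gt_three
  have hpi2 : Real.pi^2 ≤ 10 := by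
    have := Real.pi_lt_d2
    have h0 := Real.pi_pos
    nlinarith
  have h3 : (2 * Real.exp (-2) + 1/10) * Z ≤ (6/10) * Z := by
    apply mul_le_mul_of_nonneg_right _ hZ0
    linarith
  have h4 : 0 ≤ ∑' ψ : Ix N → ℤ, ((ψ o : ℤ) : ℝ)^2 * sosw β q ψ :=
    tsum_nonneg (fun ψ => mul_nonneg (sq_nonneg _) (Real.exp_pos _).le)
  set V := ∑' ψ : Ix N → ℤ, ((ψ o : ℤ) : ℝ)^2 * sosw β q ψ with hV
  have h5 : 2 * Real.pi^2 * (2 / G) * V ≤ 40 / G * V := by
    apply mul_le_mul_of_nonneg_right _ h4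
    rw [mul_div_assoc']
    apply div_le_div_of_nonneg_right _ hG0.le
    linarith
  have h6 : (4/10) * Z ≤ 40 / G * V := by linarith
  have h7 : G * ((4/10) * Z) ≤ 40 * V := by
    have := mul_le_mul_of_nonneg_left h6 hG0.le
    have e2 : G * (40 / G * V) = 40 * V := by field_simp
    rw [e2] at this
    exact this
  linarith

end Pool.Agent.Helper95_SOS
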