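import Pool.Agent.Helper95_SOS.Relax
import Pool.Agent.Helper95_SOS.Grad

/-!
One stage of the multiscale relaxation.
-/

set_option autoImplicit false

open scoped BigOperators

namespace Pool.Agent.Helper95_SOS

theorem Flat.weaken {ob : Set (Set Pt)} {lip d lip' d' : ℝ} {π : Pt → EE} (h : Flat ob lip d π)
    (h1 : lip ≤ lip') (h2 : d ≤ d') : Flat ob lip' d' π where
  lip_le := fun x y hxy => le_trans (h.lip_le x y hxy) h1
  disp := fun x => le_trans (h.disp x) h2
  const := h.const

/-- functions constant on each set of a family -/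
def constOn (ob : Set (Set Pt)) : Submodule ℝ (Pt → ℝ) where
  carrier := {φ | ∀ O ∈ ob, ∀ x ∈ O, ∀ y ∈ O, φ x = φ y}
  add_mem' := by
    intro a b ha hb O hO x hx y hy
    simp only [Pi.add_apply, ha O hO x hx y hy, hb O hO x hx y hy]
  zero_mem' := by intro O _ x _ y _; rfl
  smul_mem' := by
    intro c a ha O hO x hx y hy
    simp only [Pi.smul_apply, ha O hO x hx y hy]

theorem mem_constOn (ob : Set (Set Pt)) (φ : Pt → ℝ) :
    φ ∈ constOn ob ↔ ∀ O ∈ ob, ∀ x ∈ O, ∀ y ∈ O, φ x = φ y := Iff.rfl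

theorem constOn_anti {ob ob' : Set (Set Pt)} (h : ob ⊆ ob') : constOn ob' ≤ constOn ob :=
  fun _ hφ O hO => hφ O (h hO)

/-- bad sets -/
def badsets (K : ℕ) (Bad : ℕ → Pt → Prop) : Set (Set Pt) :=
  {O | ∃ j, j ≤ K ∧ ∃ z, Bad j z ∧ O = region j z}

section
variable (K : ℕ) (M : ℤ) (Bad : ℕ → Pt → Prop) (ω : Set Var)

/-- centres at stage `k` -/
def cen (k : ℕ) : Set Pt := {p | p = 0 ∨ ∃ c, iso k c (live K M Bad ω k) ∧ p = ctr k c}

/-- obstacles of the stages before `k` -/
def obst : ℕ → Set (Set Pt)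
  | 0 => ∅
  | (k+1) => obst k ∪ {O | ∃ c ∈ cen K M Bad ω k, O = lball c (rho k)}

/-- no live point near the origin -/
def Em (k : ℕ) : Prop := ∀ x ∈ live K M Bad ω k, 2 * lam (k+1) < nm x

/-- functions allowed at stage `k` -/
def Vs (k : ℕ) : Submodule ℝ (Pt → ℝ) := Supp M ⊓ constOn (badsets K Bad) ⊓ constOn (obst K M Bad ω k)

variable {K M Bad ω}

theorem obst_mono {j k : ℕ} (h : j ≤ k) : obst K M Bad ω j ⊆ obst K M Bad ω k := by
  induction h with
  | refl => exact subset_rfl
  | step h ih => exact ih.trans Set.subset_union_left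

theorem Vs_anti (k : ℕ) : Vs K M Bad ω (k+1) ≤ Vs K M Bad ω k :=
  inf_le_inf_left _ (constOn_anti (obst_mono (Nat.le_succ k)))

theorem rho_real (k : ℕ) : (rho k : ℝ) = 2^27 * ((2:ℝ)^k)^2 * (Rk k : ℝ) := by
  unfold rho
  push_cast
  rw [pow_add, pow_mul']
  ring

theorem lam_real (k : ℕ) : 2 * (lam (k+1) : ℝ) = 2^33 * ((2:ℝ)^k)^3 * (Rk k : ℝ) := by
  have h := dk_mul k
  have h1 : (dk k : ℝ) * (Rk k : ℝ) = 2 * (lam (k+1) : ℝ) := by exact_mod_cast h
  rw [← h1]
  unfold dk
  push_cast
  rw [pow_add, ← pow_mul, mul_comm k 3]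
  ring

theorem Rk_ge (k : ℕ) : 32 ≤ Rk k := by
  have := lam_pos k
  unfold Rk; omega

/-- separation of the centres -/
theorem cen_sep {k : ℕ} (hE : Em K M Bad ω k) {p q : Pt} (hp : p ∈ cen K M Bad ω k)
    (hq : q ∈ cen K M Bad ω k) (hne : p ≠ q) : 2 * lam (k+1) - Rk k ≤ nm (p - q) := by
  have key : ∀ c, iso k c (live K M Bad ω k) → 2 * lam (k+1) - Rk k ≤ nm (ctr k c) := by
    intro c hc
    obtain ⟨x, hx, hxg, _⟩ := hc.1
    have h1 := hE x hx
    have h2 := grp_ball hxg
    have h3 := nm_add_le x (ctr k c)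
    omega
  have hR := Rk_pos k
  rcases hp with rfl | ⟨c, hc, rfl⟩
  · rcases hq with rfl | ⟨c', hc', rfl⟩
    · exact absurd rfl hne
    · have := key c' hc'
      rw [nm_sub_comm, sub_zero]
      exact this
  · rcases hq with rfl | ⟨c', hc', rfl⟩
    · have := key c hc
      rw [sub_zero]
      exact this
    · have hne' : c ≠ c' := fun h => hne (by rw [h])
      have := iso_sep hc hc' hne'
      omega

/-- Lipschitz constants -/
noncomputable def lipc (k : ℕ) : ℝ := 2 - (1/2)^k

theorem exists_flat (k : ℕ) : (∀ j, j < k → Em K M Bad ω j) →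
    ∃ π, Flat (obst K M Bad ω k) (lipc k) ((Rk k : ℝ) / 2) π := by
  induction k with
  | zero =>
      intro _
      refine ⟨toE, flat_zero.weaken ?_ ?_⟩
      · unfold lipc; norm_num
      · have h := Rk_ge 0
        have : (32:ℝ) ≤ (Rk 0 : ℝ) := by exact_mod_cast h
        linarith
  | succ k ih =>
      intro hE
      obtain ⟨π, hπ⟩ := ih (fun j hj => hE j (Nat.lt_succ_of_lt hj))
      have hR : (32:ℝ) ≤ (Rk k : ℝ) := by exact_mod_cast Rk_ge k
      set a : ℝ := 2^k with ha
      have ha1 : 1 ≤ a := one_le_pow₀ (by norm_num)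
      set R : ℝ := (Rk k : ℝ) with hRd
      have hrho := rho_real k
      have hlam := lam_real k
      rw [← ha, ← hRd] at hrho hlam
      have hlip : lipc k ≤ 2 := by
        unfold lipc
        have : (0:ℝ) < (1/2)^k := by positivity
        linarith
      have hlipa : lipc k = 2 - 1 / a := by
        unfold lipc
        rw [ha, one_div_pow]
      have hlipa' : lipc (k+1) = 2 - 1 / (2 * a) := by
        unfold lipc
        rw [ha, one_div_pow, pow_succ, mul_comm]
      -- parameters
      set q : ℝ := (rho k : ℝ) + R / 2 with hq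
      have hrp : (0:ℝ) < (rho k : ℝ) := by exact_mod_cast rho_pos k
      have hqp : 0 < q := by rw [hq]; linarith
      set A : ℝ := 8 * a with hA
      have hA1 : 8 ≤ A := by linarith
      have hstep := flat_step (K := A / (A - 1)) (r1 := A * q) hπ hlip (cen K M Bad ω k) (rho k)
        (rho_pos k).le (by linarith) (by
          intro c hc c' hc' hne
          have h1 := cen_sep (hE k (Nat.lt_succ_self k)) hc hc' hne
          have h2 : 2 * (lam (k+1) : ℝ) - R ≤ ((nm (c - c') : ℤ) : ℝ) := by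
            rw [hRd]; exact_mod_cast h1
          refine le_trans ?_ h2
          rw [hlam, hq, hA, hrho]
          have t1 : 1 ≤ a^2 := one_le_pow₀ ha1
          have t3 : a ≤ a^3 := by nlinarith
          have t4 : 1 ≤ a^3 := le_trans ha1 t3
          have t5 : a * R ≤ a^3 * R := mul_le_mul_of_nonneg_right t3 (by linarith)
          have t6 : 1 * R ≤ a^3 * R := mul_le_mul_of_nonneg_right t4 (by linarith)
          have e : 2 * (8 * a * (2^27 * a^2 * R + R / 2)) + 2 = 2^31 * (a^3 * R) + 8 * (a * R) + 2 := by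
            ring
          have e' : 2^33 * a^3 * R - R = 2^33 * (a^3 * R) - R := by ring
          rw [e, e']
          linarith) (by
          rw [le_div_iff₀ (by linarith)]; linarith) (by
          rw [← hq, div_mul_eq_mul_div, le_div_iff₀ (by linarith)]
          apply le_of_eq; ring) (by
          rw [← hq]; nlinarith)
      obtain ⟨π', hπ'⟩ := hstep
      refine ⟨π', hπ'.weaken ?_ ?_⟩
      · rw [hlipa, hlipa', div_mul_eq_mul_div, div_le_iff₀ (by linarith), hA]
        have ha0 : 0 < a := by linarith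
        have e1 : 8 * a * (2 - 1 / a) = 16 * a - 8 := by field_simp; ring
        have e2 : (2 - 1 / (2 * a)) * (8 * a - 1) = 16 * a - 6 + 1 / (2 * a) := by field_simp; ring
        rw [e1, e2]
        have : 0 < 1 / (2 * a) := by positivity
        linarith
      · have h1 := rho_le k
        have h2 := lam_succ_ge k
        have h3 : Rk k = 32 * lam k := rfl
        have h4 : Rk (k+1) = 32 * lam (k+1) := rfl
        have h5 := lam_pos k
        have h6 : 2 * (Rk k + rho k) ≤ Rk (k+1) := by omega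
        have h7 : 2 * (R + (rho k : ℝ)) ≤ (Rk (k+1) : ℝ) := by
          rw [hRd]; exact_mod_cast h6
        linarith

/-- base radius of the bumps -/
def bb (k : ℕ) : ℕ := 2 ^ (lx k + 6)

theorem bb_eq (k : ℕ) : ((bb k : ℕ) : ℤ) = 2 * Rk k := by
  unfold bb Rk lam
  push_cast
  rw [pow_add]
  ring

theorem rho_bb (k : ℕ) : (rho k : ℝ) = 4^(k+13) * (bb k : ℝ) := by
  have h1 : ((bb k : ℕ) : ℝ) = 2 * (Rk k : ℝ) := by exact_mod_cast bb_eq k
  rw [h1]
  unfold rho
  push_cast
  have e : (4:ℝ)^(k+13) = 2^(2*k+26) := by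
    rw [show (4:ℝ) = 2^2 by norm_num, ← pow_mul]; ring_nf
  rw [e, show 2*k+27 = (2*k+26)+1 by ring, pow_succ]
  ring

section bumps
variable {k : ℕ} (hE : ∀ j, j < k → Em K M Bad ω j) {π : Pt → EE}
  (hπ : Flat (obst K M Bad ω k) (lipc k) ((Rk k : ℝ) / 2) π)

theorem lipc_le (k : ℕ) : lipc k ≤ 2 := by
  unfold lipc
  have : (0:ℝ) < (1/2)^k := by positivity
  linarith

theorem bb_ge (k : ℕ) : 16 ≤ bb k := by
  unfold bb
  calc 16 ≤ 2^6 := by norm_num
    _ ≤ 2^(lx k + 6) := Nat.pow_le_pow_right (by norm_num) (by omega)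

theorem bb_d (k : ℕ) : (Rk k : ℝ) / 2 ≤ (bb k : ℝ) / 4 := by
  have h1 : ((bb k : ℕ) : ℝ) = 2 * (Rk k : ℝ) := by exact_mod_cast bb_eq k
  rw [h1]; linarith

include hπ in
theorem hb_one (p x : Pt) (hx : nm (x - p) ≤ 2 * Rk k) : bump π p (bb k) (k+13) x = 1 :=
  bump_one hπ (bb_ge k) (Nat.succ_pos _) (bb_d k) p (by rw [bb_eq]; exact hx)

include hπ in
theorem hb_zero (p x : Pt) (hx : rho k - 1 ≤ nm (x - p)) : bump π p (bb k) (k+13) x = 0 := by
  apply bump_zero hπ (bb_ge k) (bb_d k) p
  rw [← rho_bb]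
  have h1 : (rho k : ℝ) - 1 ≤ ((nm (x - p) : ℤ) : ℝ) := by exact_mod_cast hx
  have h2 := rho_ge k
  have h3 := Rk_ge k
  have h4 : (8:ℤ) ≤ rho k := by nlinarith
  have h5 : (8:ℝ) ≤ (rho k : ℝ) := by exact_mod_cast h4
  linarith

include hπ in
theorem hb_energy (p : Pt) (F : Finset Pt) : ∑ x ∈ F, gd (bump π p (bb k) (k+13)) x ≤ 648 / (k + 13) := by
  have := bump_energy hπ (lipc_le k) (bb_ge k) (Nat.succ_pos (k+12)) (bb_d k) p F
  refine le_trans this (le_of_eq ?_)
  congr 1
  push_cast
  ring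

include hπ in
theorem hb_mem_Vs (hEk : Em K M Bad ω k) (hMk : 2 * lam (k+1) ≤ M) {p : Pt} (hp : p ∈ cen K M Bad ω k) :
    bump π p (bb k) (k+13) ∈ Vs K M Bad ω k := by
  have hlk := lam_pos (k+1)
  have hrl := rho_le k
  refine ⟨⟨?_, ?_⟩, ?_⟩
  · -- support
    intro x hx
    apply hb_zero hπ
    by_contra hcon
    push Not at hcon
    rcases hp with rfl | ⟨c, hc, rfl⟩
    · rw [sub_zero] at hcon
      omega
    · have h1 : x ∈ box k c := ball_box (by omega)
      have h2 := live_iso_in hc h1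
      omega
  · -- bad sets
    rintro O ⟨j, hj, z, hz, rfl⟩ x hx y hy
    rcases bad_region (K := K) (M := M) (ω := ω) hj hz k with hr | ⟨i, hi, c, hc, hr⟩
    · rcases hp with rfl | ⟨c, hc, rfl⟩
      · have key : ∀ w ∈ region j z, bump π 0 (bb k) (k+13) w = 0 := by
          intro w hw
          apply hb_zero hπ
          rw [sub_zero]
          have := hEk w (hr hw)
          omega
        rw [key x hx, key y hy]
      · rcases region_iso hr hc with h | h
        · have key : ∀ w ∈ region j z, bump π (ctr k c) (bb k) (k+13) w = 1 := by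
            intro w hw
            apply hb_one hπ
            have := grp_ball (h hw)
            have := Rk_pos k
            omega
          rw [key x hx, key y hy]
        · have key : ∀ w ∈ region j z, bump π (ctr k c) (bb k) (k+13) w = 0 := by
            intro w hw
            apply hb_zero hπ
            by_contra hcon
            push Not at hcon
            exact h w hw (ball_box (by omega))
          rw [key x hx, key y hy]
    · -- inside an obstacle
      apply bump_const
      have hO : lball (ctr i c) (rho i) ∈ obst K M Bad ω k := by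
        have h1 : lball (ctr i c) (rho i) ∈ obst K M Bad ω (i+1) :=
          Or.inr ⟨ctr i c, Or.inr ⟨c, hc, rfl⟩, rfl⟩
        exact obst_mono hi h1
      have hb : ∀ w ∈ region j z, w ∈ lball (ctr i c) (rho i) := by
        intro w hw
        have h1 := grp_ball (hr hw)
        have h2 := rho_ge i
        have h3 := Rk_pos i
        show nm (w - ctr i c) ≤ rho i
        nlinarith
      exact hπ.const _ hO x (hb x hx) y (hb y hy)
  · intro O hO x hx y hy
    apply bump_const
    exact hπ.const O hO x hx y hy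

theorem nm_e1 (x p : Pt) : nm ((x.1 + 1, x.2) - p) ≤ nm (x - p) + 1 ∧ nm (x - p) ≤ nm ((x.1 + 1, x.2) - p) + 1 := by
  constructor
  · have := nm_tri (x.1+1, x.2) x p
    have h : nm ((x.1+1, x.2) - x) = 1 := by simp [nm]
    omega
  · have := nm_tri x (x.1+1, x.2) p
    have h : nm (x - (x.1+1, x.2)) = 1 := by simp [nm]
    omega

theorem nm_e2 (x p : Pt) : nm ((x.1, x.2 + 1) - p) ≤ nm (x - p) + 1 ∧ nm (x - p) ≤ nm ((x.1, x.2+1) - p) + 1 := by
  constructor
  · have := nm_tri (x.1, x.2+1) x p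
    have h : nm ((x.1, x.2+1) - x) = 1 := by simp [nm]
    omega
  · have := nm_tri x (x.1, x.2+1) p
    have h : nm (x - (x.1, x.2+1)) = 1 := by simp [nm]
    omega

theorem nm_e12 (x p : Pt) : nm ((x.1, x.2 + 1) - p) ≤ nm ((x.1 + 1, x.2) - p) + 1 ∧
    nm ((x.1 + 1, x.2) - p) ≤ nm ((x.1, x.2 + 1) - p) + 1 := by
  constructor
  · have := nm_tri (x.1, x.2+1) (x.1+1, x.2) p
    have h : nm ((x.1, x.2+1) - (x.1+1, x.2)) = 1 := by simp [nm]
    omega
  · have := nm_tri (x.1+1, x.2) (x.1, x.2+1) p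
    have h : nm ((x.1+1, x.2) - (x.1, x.2+1)) = 1 := by simp [nm]
    omega

include hπ in
/-- the gradient of a bump vanishes at `x` or all three points are in the ball -/
theorem hb_gd (p x : Pt) : gd (bump π p (bb k) (k+13)) x = 0 ∨
    (nm (x - p) ≤ rho k ∧ nm ((x.1+1, x.2) - p) ≤ rho k ∧ nm ((x.1, x.2+1) - p) ≤ rho k) := by
  by_cases h : nm (x - p) ≤ rho k ∧ nm ((x.1+1, x.2) - p) ≤ rho k ∧ nm ((x.1, x.2+1) - p) ≤ rho k
  · right; exact h
  · left
    have h1 := nm_e1 x p
    have h2 := nm_e2 x p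
    have h3 := nm_e12 x p
    have z1 := hb_zero hπ p x (by omega)
    have z2 := hb_zero hπ p (x.1+1, x.2) (by omega)
    have z3 := hb_zero hπ p (x.1, x.2+1) (by omega)
    unfold gd
    rw [z1, z2, z3]
    norm_num

include hπ in
theorem hb_orth (m : ℤ) {p : Pt} (hp : p ∈ cen K M Bad ω k) {v : Pt → ℝ} (hv : v ∈ Vs K M Bad ω (k+1)) :
    inner ℝ (grad m (bump π p (bb k) (k+13))) (grad m v) = 0 := by
  apply inner_grad_zero
  intro x
  rcases hb_gd hπ p x with h | ⟨h1, h2, h3⟩
  · left; exact h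
  · right
    have hO : lball p (rho k) ∈ obst K M Bad ω (k+1) := Or.inr ⟨p, hp, rfl⟩
    have e1 := hv.2 _ hO (x.1+1, x.2) h2 x h1
    have e2 := hv.2 _ hO (x.1, x.2+1) h3 x h1
    unfold gd
    rw [e1, e2]
    norm_num

include hπ in
theorem hb_pair (m : ℤ) (hEk : Em K M Bad ω k) {p q : Pt} (hp : p ∈ cen K M Bad ω k)
    (hq : q ∈ cen K M Bad ω k) (hne : p ≠ q) :
    inner ℝ (grad m (bump π p (bb k) (k+13))) (grad m (bump π q (bb k) (k+13))) = 0 := by
  apply inner_grad_zero
  intro x
  rcases hb_gd hπ p x with h | ⟨h1, _, _⟩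
  · left; exact h
  rcases hb_gd hπ q x with h' | ⟨h1', _, _⟩
  · right; exact h'
  exfalso
  have hs := cen_sep hEk hp hq hne
  have ht := nm_tri p x q
  rw [nm_sub_comm p x] at ht
  have hrl := rho_le k
  have hl := lam_succ_ge k
  have hl0 := lam_pos k
  have hR : Rk k = 32 * lam k := rfl
  omega

end bumps

end

/-! ### charges -/

section charges
variable (K : ℕ) (N M : ℤ) (Bad : ℕ → Pt → Prop) (ω : Set Var)

open Classical in
/-- sites of a live group -/
noncomputable def Yk (k : ℕ) (c : Pt) : Finset (Ix N) :=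
  Finset.univ.filter (fun i => i.1 ∈ live K M Bad ω k ∧ i.1 ∈ grp k c)

/-- admissible charges at stage `0` -/
def U0 : Submodule ℝ (Ix N → ℝ) where
  carrier := {z | ∀ i : Ix N, nm i.1 ≤ M → ¬ badpt K Bad i.1 → i.1 ≠ 0 → Var.site i.1 ∉ ω → z i = 0}
  add_mem' := by
    intro a b ha hb i h1 h2 h3 h4
    simp only [Pi.add_apply, ha i h1 h2 h3 h4, hb i h1 h2 h3 h4, add_zero]
  zero_mem' := by intro i _ _ _ _; rfl
  smul_mem' := by
    intro c a ha i h1 h2 h3 h4
    simp only [Pi.smul_apply, ha i h1 h2 h3 h4, smul_zero]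

/-- impose neutrality of the relaxed groups -/
def Ustep (k : ℕ) (U : Submodule ℝ (Ix N → ℝ)) : Submodule ℝ (Ix N → ℝ) where
  carrier := {z | z ∈ U ∧ ∀ c, iso k c (live K M Bad ω k) → Var.omg k c ∉ ω →
    ∑ i ∈ Yk K N M Bad ω k c, z i = 0}
  add_mem' := by
    rintro a b ⟨ha, ha'⟩ ⟨hb, hb'⟩
    refine ⟨U.add_mem ha hb, fun c h1 h2 => ?_⟩
    simp only [Pi.add_apply, Finset.sum_add_distrib, ha' c h1 h2, hb' c h1 h2, add_zero]
  zero_mem' := ⟨U.zero_mem, fun c _ _ => by simp⟩
  smul_mem' := by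
    rintro c a ⟨ha, ha'⟩
    refine ⟨U.smul_mem c ha, fun d h1 h2 => ?_⟩
    simp only [Pi.smul_apply, smul_eq_mul, ← Finset.mul_sum, ha' d h1 h2, mul_zero]

/-- admissible charges -/
def Us : ℕ → Submodule ℝ (Ix N → ℝ)
  | 0 => U0 K N M Bad ω
  | (k+1) => Ustep K N M Bad ω k (Us k)

variable {K N M Bad ω}

theorem mem_Us_zero (z : Ix N → ℝ) : z ∈ Us K N M Bad ω 0 ↔
    ∀ i : Ix N, nm i.1 ≤ M → ¬ badpt K Bad i.1 → i.1 ≠ 0 → Var.site i.1 ∉ ω → z i = 0 := Iff.rfl

theorem mem_Us_succ (k : ℕ) (z : Ix N → ℝ) : z ∈ Us K N M Bad ω (k+1) ↔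
    z ∈ Us K N M Bad ω k ∧ ∀ c, iso k c (live K M Bad ω k) → Var.omg k c ∉ ω →
    ∑ i ∈ Yk K N M Bad ω k c, z i = 0 := Iff.rfl

theorem mem_Yk (k : ℕ) (c : Pt) (i : Ix N) : i ∈ Yk K N M Bad ω k c ↔
    i.1 ∈ live K M Bad ω k ∧ i.1 ∈ grp k c := by
  classical
  unfold Yk
  rw [Finset.mem_filter]
  simp

theorem single_mem (k : ℕ) (i : Ix N) : i.1 ∈ live K M Bad ω k →
    Pi.single i (1:ℝ) ∈ Us K N M Bad ω k := by
  induction k with
  | zero =>
      intro hi
      rw [mem_Us_zero]
      intro j h1 h2 h3 h4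
      apply Pi.single_eq_of_ne
      rintro rfl
      rcases hi with hi | hi | hi
      · omega
      · exact h2 hi
      · exact h4 hi.2
  | succ k ih =>
      intro hi
      rw [mem_Us_succ]
      refine ⟨ih hi.1, fun c hc hω => ?_⟩
      apply Finset.sum_eq_zero
      intro j hj
      rw [mem_Yk] at hj
      apply Pi.single_eq_of_ne
      rintro rfl
      exact hi.2 c hc hω hj.2

theorem single_o_mem (k : ℕ) (o : Ix N) (ho : o.1 = 0) : (∀ j, j < k → Em K M Bad ω j) →
    Pi.single o (1:ℝ) ∈ Us K N M Bad ω k := by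
  induction k with
  | zero =>
      intro _
      rw [mem_Us_zero]
      intro j h1 h2 h3 h4
      apply Pi.single_eq_of_ne
      rintro rfl
      exact h3 ho
  | succ k ih =>
      intro hE
      rw [mem_Us_succ]
      refine ⟨ih (fun j hj => hE j (Nat.lt_succ_of_lt hj)), fun c hc hω => ?_⟩
      apply Finset.sum_eq_zero
      intro j hj
      rw [mem_Yk] at hj
      apply Pi.single_eq_of_ne
      rintro rfl
      have := hE k (Nat.lt_succ_self k) _ hj.1
      rw [ho] at this
      have := lam_pos (k+1)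
      simp [nm] at *
      omega

theorem iso_bx {k : ℕ} {c : Pt} (hc : iso k c (live K M Bad ω k)) : c ∈ bx (M + 1) := by
  have hR := Rk_pos k
  have h1 : ctr k c ∈ box k c := by
    apply ball_box
    have := rho_pos k
    simp [nm]; omega
  have h2 := live_iso_in hc h1
  rw [mem_bx, nm_le_iff, abs_le, abs_le]
  rw [nm_le_iff, abs_le, abs_le] at h2
  unfold ctr at h2
  simp only at h2
  obtain ⟨⟨a1, a2⟩, ⟨a3, a4⟩⟩ := h2
  have hM : 0 ≤ M := by omega
  refine ⟨⟨?_, ?_⟩, ⟨?_, ?_⟩⟩
  · by_contra hcon; push Not at hcon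
    nlinarith
  · by_contra hcon; push Not at hcon
    nlinarith
  · by_contra hcon; push Not at hcon
    nlinarith
  · by_contra hcon; push Not at hcon
    nlinarith

variable (K M Bad ω) in
open Classical in
/-- the finite set of isolated groups -/
noncomputable def isoF (k : ℕ) : Finset Pt := (bx (M+1)).filter (fun c => iso k c (live K M Bad ω k))

theorem mem_isoF (k : ℕ) (c : Pt) : c ∈ isoF K M Bad ω k ↔ iso k c (live K M Bad ω k) := by
  classical
  unfold isoF
  rw [Finset.mem_filter]
  exact ⟨fun h => h.2, fun h => ⟨iso_bx h, h⟩⟩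

open Classical in
theorem charge_id (k : ℕ) (o : Ix N) (ho : o.1 = 0) : (∀ j, j ≤ k → Em K M Bad ω j) →
    ∀ z ∈ Us K N M Bad ω k, ∀ h ∈ constOn (obst K M Bad ω k),
    ∑ i, z i * h i.1 = z o * h 0 +
      ∑ i ∈ Finset.univ.filter (fun i : Ix N => i.1 ∈ live K M Bad ω k), z i * h i.1 := by
  induction k with
  | zero =>
      intro hE z hz h _
      have h0 : (0:Pt) ∉ live K M Bad ω 0 := by
        intro hcon
        have := hE 0 le_rfl _ hcon
        have := lam_pos 1
        simp [nm] at *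
        omega
      have e1 : z o * h 0 = ∑ i : Ix N, if i = o then z i * h i.1 else 0 := by
        rw [Finset.sum_ite_eq' Finset.univ o (fun i : Ix N => z i * h i.1)]
        simp [ho]
      rw [e1, Finset.sum_filter, ← Finset.sum_add_distrib]
      refine Finset.sum_congr rfl (fun i _ => ?_)
      by_cases hio : i = o
      · subst hio
        rw [if_pos rfl, if_neg (by rw [ho]; exact h0), add_zero]
      · rw [if_neg hio, zero_add]
        split_ifs with hl
        · rfl
        · have : z i = 0 := by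
            rw [mem_Us_zero] at hz
            have hl' : ¬ (M < nm i.1 ∨ badpt K Bad i.1 ∨ (i.1 ≠ 0 ∧ Var.site i.1 ∈ ω)) := hl
            push Not at hl'
            have hi0 : i.1 ≠ 0 := fun h => hio (Subtype.ext (by rw [h, ho]))
            exact hz i hl'.1 hl'.2.1 hi0 (hl'.2.2 hi0)
          rw [this, zero_mul]
  | succ k ih =>
      intro hE z hz h hh
      rw [mem_Us_succ] at hz
      have hh' : h ∈ constOn (obst K M Bad ω k) := constOn_anti (obst_mono (Nat.le_succ k)) hh
      rw [ih (fun j hj => hE j (Nat.le_succ_of_le hj)) z hz.1 h hh']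
      congr 1
      -- split
      set rel := (isoF K M Bad ω k).filter (fun c => Var.omg k c ∉ ω) with hrel
      have hsplit : Finset.univ.filter (fun i : Ix N => i.1 ∈ live K M Bad ω k) =
          Finset.univ.filter (fun i : Ix N => i.1 ∈ live K M Bad ω (k+1)) ∪
            rel.biUnion (fun c => Yk K N M Bad ω k c) := by
        ext i
        rw [Finset.mem_union, Finset.mem_filter, Finset.mem_filter, Finset.mem_biUnion]
        constructor
        · rintro ⟨_, hi⟩
          by_cases hex : ∃ c, iso k c (live K M Bad ω k) ∧ Var.omg k c ∉ ω ∧ i.1 ∈ grp k c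
          · right
            obtain ⟨c, h1, h2, h3⟩ := hex
            refine ⟨c, ?_, ?_⟩
            · rw [hrel, Finset.mem_filter, mem_isoF]; exact ⟨h1, h2⟩
            · rw [mem_Yk]; exact ⟨hi, h3⟩
          · left
            push Not at hex
            exact ⟨Finset.mem_univ _, hi, hex⟩
        · rintro (⟨_, hi⟩ | ⟨c, _, hi⟩)
          · exact ⟨Finset.mem_univ _, hi.1⟩
          · rw [mem_Yk] at hi
            exact ⟨Finset.mem_univ _, hi.1⟩
      have hdisj : Disjoint (Finset.univ.filter (fun i : Ix N => i.1 ∈ live K M Bad ω (k+1)))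
          (rel.biUnion (fun c => Yk K N M Bad ω k c)) := by
        rw [Finset.disjoint_left]
        intro i hi hi'
        rw [Finset.mem_filter] at hi
        rw [Finset.mem_biUnion] at hi'
        obtain ⟨c, hc, hic⟩ := hi'
        rw [hrel, Finset.mem_filter, mem_isoF] at hc
        rw [mem_Yk] at hic
        exact hi.2.2 c hc.1 hc.2 hic.2
      rw [hsplit, Finset.sum_union hdisj, Finset.sum_biUnion]
      · have hz0 : ∑ c ∈ rel, ∑ i ∈ Yk K N M Bad ω k c, z i * h i.1 = 0 := by
          apply Finset.sum_eq_zero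
          intro c hc
          rw [hrel, Finset.mem_filter, mem_isoF] at hc
          have hO : lball (ctr k c) (rho k) ∈ obst K M Bad ω (k+1) :=
            Or.inr ⟨ctr k c, Or.inr ⟨c, hc.1, rfl⟩, rfl⟩
          have hconst : ∀ i ∈ Yk K N M Bad ω k c, z i * h i.1 = z i * h (ctr k c) := by
            intro i hi
            rw [mem_Yk] at hi
            congr 1
            apply hh _ hO
            · show nm (i.1 - ctr k c) ≤ rho k
              have h1 := grp_ball hi.2
              have h2 := rho_ge k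
              have h3 := Rk_pos k
              nlinarith
            · show nm (ctr k c - ctr k c) ≤ rho k
              have := rho_pos k
              simp [nm]; omega
          rw [Finset.sum_congr rfl hconst, ← Finset.sum_mul, hz.2 c hc.1 hc.2, zero_mul]
        rw [hz0, add_zero]
      · intro c hc c' hc' hne
        rw [Function.onFun, Finset.disjoint_left]
        intro i hi hi'
        rw [mem_Yk] at hi hi'
        rw [hrel, Finset.mem_coe, Finset.mem_filter, mem_isoF] at hc hc'
        exact iso_grp_disj hc.1 hc'.1 hne hi.2 hi'.2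

end charges

end Pool.Agent.Helper95_SOS
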