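import Pool.Agent.Helper95_SOS.Induct

/-!
From the dual form to the multiscale bound: relaxation of the good sites.
-/

set_option autoImplicit false

open scoped BigOperators

namespace Pool.Agent.Helper95_SOS

theorem sum_shift_le (F B : Finset Pt) (g : Pt → Pt) (hg : Function.Injective g) (φ : Pt → ℝ)
    (hφ : ∀ x, x ∉ B → φ x = 0) : ∑ x ∈ F, (φ (g x))^2 ≤ ∑ y ∈ B, (φ y)^2 := by
  classical
  have h1 : ∑ x ∈ F, (φ (g x))^2 = ∑ y ∈ F.image g, (φ y)^2 := by
    rw [Finset.sum_image (fun x _ y _ h => hg h)]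
  rw [h1]
  have h2 : ∑ y ∈ F.image g, (φ y)^2 = ∑ y ∈ (F.image g).filter (fun y => y ∈ B), (φ y)^2 := by
    rw [Finset.sum_filter]
    refine Finset.sum_congr rfl (fun y _ => ?_)
    split_ifs with h
    · rfl
    · rw [hφ y h]; norm_num
  rw [h2]
  apply Finset.sum_le_sum_of_subset_of_nonneg
  · intro y hy
    exact (Finset.mem_filter.mp hy).2
  · intro y _ _
    positivity

theorem gd_sum_le (F B : Finset Pt) (φ : Pt → ℝ) (hφ : ∀ x, x ∉ B → φ x = 0) :
    ∑ x ∈ F, gd φ x ≤ 8 * ∑ y ∈ B, (φ y)^2 := by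
  have i1 : Function.Injective (fun x : Pt => ((x.1 + 1, x.2) : Pt)) := by
    intro x y h
    simp only [Prod.mk.injEq, add_left_inj] at h
    exact Prod.ext h.1 h.2
  have i2 : Function.Injective (fun x : Pt => ((x.1, x.2 + 1) : Pt)) := by
    intro x y h
    simp only [Prod.mk.injEq, add_left_inj] at h
    exact Prod.ext h.1 h.2
  have h1 := sum_shift_le F B _ i1 φ hφ
  have h2 := sum_shift_le F B _ i2 φ hφ
  have h3 := sum_shift_le F B _ Function.injective_id φ hφ
  simp only [id] at h3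
  have h4 : ∑ x ∈ F, gd φ x ≤ ∑ x ∈ F, (2 * (φ (x.1+1, x.2))^2 + 2 * (φ (x.1, x.2+1))^2 + 4 * (φ x)^2) := by
    apply Finset.sum_le_sum
    intro x _
    unfold gd
    nlinarith [sq_nonneg (φ (x.1+1, x.2) + φ x), sq_nonneg (φ (x.1, x.2+1) + φ x)]
  rw [Finset.sum_add_distrib, Finset.sum_add_distrib, ← Finset.mul_sum, ← Finset.mul_sum,
    ← Finset.mul_sum] at h4
  linarith

section top
variable {K : ℕ} {N M m : ℤ} {Bad : ℕ → Pt → Prop} {xb : ℕ → Pt → ℝ} {xo : ℝ}
  (hxb : ∀ j z, 0 ≤ xb j z) (hxo : 0 ≤ xo) (hbad : ∀ j, j ≤ K → ∀ z, Bad j z → 1 ≤ xb j z)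

/-- lower bound of the dual form by the projection -/
theorem dual_ge_proj (T : (Ix N → ℝ) →ₗ[ℝ] HH m)
    (hT : ∀ z, ∀ φ ∈ Supp M, inner ℝ (T z) (grad m φ) = ∑ i, z i * φ i.1)
    (A B : QuadraticForm ℝ (Ix N → ℝ)) (hB : ∀ z φ : Ix N → ℝ, 2 * dotp z φ - A φ ≤ B z)
    {κ : ℝ} (hκ : 0 < κ)
    (hA : ∀ φ ∈ Supp M ⊓ constOn (badsets K Bad), A (fun i => φ i.1) ≤ κ * ∑ x ∈ bx m, gd φ x)
    (ω : Set Var) (z : Ix N → ℝ) :
    (1/κ) * ‖(Ws K M m Bad ω 0).starProjection (T z)‖^2 ≤ B z := by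
  set p := (Ws K M m Bad ω 0).starProjection (T z) with hp
  have hpm : p ∈ Ws K M m Bad ω 0 := Submodule.starProjection_apply_mem _ _
  obtain ⟨φ, hφ, hφp⟩ := hpm
  have h1 := hB z ((1/κ) • (fun i : Ix N => φ i.1))
  have h2 := hA φ hφ.1
  rw [← norm_grad, hφp] at h2
  have h3 : A ((1/κ) • (fun i : Ix N => φ i.1)) = (1/κ)^2 * A (fun i => φ i.1) := by
    rw [QuadraticMap.map_smul, smul_eq_mul, sq]
  have h4 : dotp z ((1/κ) • (fun i : Ix N => φ i.1)) = (1/κ) * ∑ i, z i * φ i.1 := by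
    unfold dotp
    rw [Finset.mul_sum]
    refine Finset.sum_congr rfl (fun i _ => ?_)
    simp only [Pi.smul_apply, smul_eq_mul]
    ring
  have h5 : ∑ i, z i * φ i.1 = ‖p‖^2 := by
    rw [← hT z φ hφ.1.1, hφp, hp, proj_self]
  rw [h3, h4, h5] at h1
  have h6 : (1/κ)^2 * A (fun i => φ i.1) ≤ (1/κ)^2 * (κ * ‖p‖^2) :=
    mul_le_mul_of_nonneg_left h2 (by positivity)
  have h7 : (1/κ)^2 * (κ * ‖p‖^2) = (1/κ) * ‖p‖^2 := by field_simp
  linarith

open Classical in
/-- lower bound of the dual form by the good sites -/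
theorem dual_ge_sites (A B : QuadraticForm ℝ (Ix N → ℝ))
    (hB : ∀ z φ : Ix N → ℝ, 2 * dotp z φ - A φ ≤ B z) {κ : ℝ} (hκ : 0 < κ)
    (hA : ∀ φ ∈ Supp M ⊓ constOn (badsets K Bad), A (fun i => φ i.1) ≤ κ * ∑ x ∈ bx m, gd φ x)
    (z : Ix N → ℝ) :
    (1/(8*κ)) * ∑ i ∈ Finset.univ.filter (fun i : Ix N => nm i.1 ≤ M ∧ ¬ badpt K Bad i.1 ∧ i.1 ≠ 0),
      (z i)^2 ≤ B z := by
  set good := Finset.univ.filter (fun i : Ix N => nm i.1 ≤ M ∧ ¬ badpt K Bad i.1 ∧ i.1 ≠ 0) with hgood
  let φ : Pt → ℝ := fun x => if h : x ∈ bx N then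
    (if (⟨x, h⟩ : Ix N) ∈ good then (1/(8*κ)) * z ⟨x, h⟩ else 0) else 0
  have hφi : ∀ i : Ix N, φ i.1 = if i ∈ good then (1/(8*κ)) * z i else 0 := by
    intro i
    simp only [φ]
    rw [dif_pos i.2]
  have hφ0 : ∀ x, x ∉ bx N → φ x = 0 := by
    intro x hx
    simp only [φ]
    rw [dif_neg hx]
  have hφz : ∀ x, (M < nm x ∨ badpt K Bad x) → φ x = 0 := by
    intro x hx
    by_cases h : x ∈ bx N
    · simp only [φ]
      rw [dif_pos h, if_neg]
      rw [hgood, Finset.mem_filter]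
      rintro ⟨_, h1, h2, _⟩
      rcases hx with hx | hx
      · simp only at h1; omega
      · exact h2 hx
    · exact hφ0 x h
  have hφm : φ ∈ Supp M ⊓ constOn (badsets K Bad) := by
    refine ⟨fun x hx => hφz x (Or.inl hx), ?_⟩
    rintro O ⟨j, hj, w, hw, rfl⟩ x hx y hy
    rw [hφz x (Or.inr ⟨j, hj, w, hw, hx⟩), hφz y (Or.inr ⟨j, hj, w, hw, hy⟩)]
  have h1 := hB z (fun i => φ i.1)
  have h2 := hA φ hφm
  have h3 := gd_sum_le (bx m) (bx N) φ hφ0
  have h4 : ∑ y ∈ bx N, (φ y)^2 = ∑ i ∈ good, ((1/(8*κ)) * z i)^2 := by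
    rw [← Finset.sum_coe_sort (bx N), ← Finset.sum_subset (Finset.subset_univ good)]
    · refine Finset.sum_congr rfl (fun i hi => ?_)
      rw [hφi, if_pos hi]
    · intro i _ hi
      rw [hφi, if_neg hi]; norm_num
  have h5 : dotp z (fun i => φ i.1) = ∑ i ∈ good, z i * ((1/(8*κ)) * z i) := by
    unfold dotp
    rw [← Finset.sum_subset (Finset.subset_univ good)]
    · refine Finset.sum_congr rfl (fun i hi => ?_)
      show z i * φ i.1 = _
      rw [hφi, if_pos hi]
    · intro i _ hi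
      show z i * φ i.1 = _
      rw [hφi, if_neg hi, mul_zero]
  have h6 : ∑ i ∈ good, z i * ((1/(8*κ)) * z i) = (1/(8*κ)) * ∑ i ∈ good, (z i)^2 := by
    rw [Finset.mul_sum]
    refine Finset.sum_congr rfl (fun i _ => ?_)
    ring
  have h7 : ∑ i ∈ good, ((1/(8*κ)) * z i)^2 = (1/(8*κ))^2 * ∑ i ∈ good, (z i)^2 := by
    rw [Finset.mul_sum]
    refine Finset.sum_congr rfl (fun i _ => ?_)
    ring
  rw [h4, h7] at h3
  rw [h5, h6] at h1
  have h8 := mul_le_mul_of_nonneg_left h3 hκ.le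
  have h9 : κ * (8 * ((1/(8*κ))^2 * ∑ i ∈ good, (z i)^2)) = (1/(8*κ)) * ∑ i ∈ good, (z i)^2 := by
    field_simp
  linarith

include hxb hxo hbad in
theorem chi_top (A B : QuadraticForm ℝ (Ix N → ℝ)) (hBPD : PD (fun z => B z))
    (hB : ∀ z φ : Ix N → ℝ, 2 * dotp z φ - A φ ≤ B z) {κ : ℝ} (hκ : 0 < κ) (hm : M + 1 ≤ m)
    (hA : ∀ φ ∈ Supp M ⊓ constOn (badsets K Bad), A (fun i => φ i.1) ≤ κ * ∑ x ∈ bx m, gd φ x)
    (hM : ∀ k, k < K → 2 * lam (k+1) + Rk k ≤ M) (hMN : M ≤ N)
    (o : Ix N) (ho : o.1 = 0) (ha : 648 ≤ Real.pi^2 / (2 * κ)) {t : ℝ} (ht0 : 0 ≤ t)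
    (ht : t ≤ 1/4) (hG : 4 ≤ Gk (Real.pi^2 / (2 * κ)) K) :
    chi ⊤ (fun z => 2 * Real.pi^2 * B z) (t • Pi.single o (1:ℝ)) ≤
      2 * Real.exp (-(Gk (Real.pi^2 / (2 * κ)) K * t^2)) +
        Ftot K (xfin xb xo (Real.pi^2 / (2 * κ)) (Real.pi^2 / (16 * κ))) := by
  classical
  obtain ⟨T, hT⟩ := exists_T N hm
  obtain ⟨η, hη, hηB⟩ := hBPD
  have hpi := Real.pi_pos
  set a := Real.pi^2 / (2 * κ) with hadef
  set s := Real.pi^2 / (16 * κ) with hsdef
  have hs8 : s = a / 8 := by rw [hadef, hsdef]; field_simp; norm_num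
  have ha0 : 0 < a := by linarith
  have hs3 : 3 ≤ s := by rw [hs8]; linarith
  set good := Finset.univ.filter (fun i : Ix N => nm i.1 ≤ M ∧ ¬ badpt K Bad i.1 ∧ i.1 ≠ 0) with hgood
  set W0 := Ws K M m Bad ∅ 0 with hW0
  have hη' : 0 < Real.pi^2 * η := by positivity
  let Yv : Var → Finset (Ix N) := fun v => match v with
    | Var.site x => Finset.univ.filter (fun i : Ix N => i.1 = x)
    | _ => ∅
  let yy : Var → Ix N := fun v => if h : (Yv v).Nonempty then h.choose else o
  let C : Finset Var := good.image (fun i => Var.site i.1)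
  have hCmem : ∀ v, v ∈ C ↔ ∃ i ∈ good, Var.site i.1 = v := by
    intro v
    simp only [C, Finset.mem_image]
  have hYs : ∀ i : Ix N, Yv (Var.site i.1) = {i} := by
    intro i
    ext j
    simp only [Yv, Finset.mem_filter, Finset.mem_univ, true_and, Finset.mem_singleton]
    exact ⟨fun h => Subtype.ext h, fun h => by rw [h]⟩
  have hyy : ∀ v ∈ C, yy v ∈ Yv v := by
    intro v hv
    obtain ⟨i, hi, rfl⟩ := (hCmem v).mp hv
    have h : (Yv (Var.site i.1)).Nonempty := by rw [hYs]; exact Finset.singleton_nonempty _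
    simp only [yy]
    rw [dif_pos h]
    exact h.choose_spec
  let Q1 : QuadraticForm ℝ (Ix N → ℝ) := Qf T o W0 a 0 (Real.pi^2 * η) +
    s • ∑ i ∈ good, (QuadraticMap.sq (R := ℝ)).comp (LinearMap.proj i)
  have hQ1 : ∀ z, Q1 z = Qf T o W0 a 0 (Real.pi^2 * η) z + s * ∑ i ∈ good, (z i)^2 := by
    intro z
    simp only [Q1, _root_.add_apply, _root_.smul_apply, _root_.sum_apply, sq_comp_apply, smul_eq_mul,
      LinearMap.proj_apply]
  have hPD1 : PD (fun z => Q1 z) := by
    obtain ⟨η', h1, h2⟩ := Qf_PD T o W0 ha0.le le_rfl hη'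
    refine ⟨η', h1, fun z => ?_⟩
    simp only [hQ1]
    have h3 := h2 z
    have h4 : 0 ≤ s * ∑ i ∈ good, (z i)^2 :=
      mul_nonneg (by linarith) (Finset.sum_nonneg (fun c _ => sq_nonneg _))
    linarith
  have hle : ∀ z ∈ (⊤ : Submodule ℝ (Ix N → ℝ)), Q1 z ≤ ((2 * Real.pi^2) • B) z := by
    intro z _
    rw [hQ1, Qf_apply, _root_.smul_apply, smul_eq_mul]
    have h1 := dual_ge_proj (K := K) (M := M) (Bad := Bad) T hT A B hB hκ hA ∅ z
    have h2 := dual_ge_sites (K := K) (M := M) (m := m) (Bad := Bad) A B hB hκ hA z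
    have h3 := hηB z
    have m1 := mul_le_mul_of_nonneg_left h1 (by positivity : 0 ≤ Real.pi^2/2)
    have m2 := mul_le_mul_of_nonneg_left h2 (by positivity : 0 ≤ Real.pi^2/2)
    have m3 := mul_le_mul_of_nonneg_left h3 (by positivity : 0 ≤ Real.pi^2)
    have e1 : Real.pi^2/2 * (1/κ * ‖W0.starProjection (T z)‖^2) = a * ‖W0.starProjection (T z)‖^2 := by
      rw [hadef]; field_simp
    have e2 : Real.pi^2/2 * (1/(8*κ) * ∑ i ∈ good, (z i)^2) = s * ∑ i ∈ good, (z i)^2 := by
      rw [hsdef]; field_simp; norm_num; ring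
    rw [e1] at m1
    rw [← hgood, e2] at m2
    nlinarith
  have hm1 := chi_mono ⊤ ((2 * Real.pi^2) • B) Q1 hPD1 hle (f := t • Pi.single o (1:ℝ)) Submodule.mem_top
  have e0 : (fun z => ((2 * Real.pi^2) • B) z) = fun z => 2 * Real.pi^2 * B z := by
    funext z
    rw [_root_.smul_apply, smul_eq_mul]
  rw [e0] at hm1
  refine le_trans hm1 ?_
  have hsum : (fun z => Q1 z) = fun z => Qf T o W0 a 0 (Real.pi^2 * η) z +
      s * ∑ v ∈ C, (chg (Yv v) z)^2 := by
    funext z
    rw [hQ1]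
    congr 2
    simp only [C]
    rw [Finset.sum_image]
    · refine Finset.sum_congr rfl (fun i _ => ?_)
      rw [hYs, chg_apply, Finset.sum_singleton]
    · intro i _ j _ h
      simp only [Var.site.injEq] at h
      exact Subtype.ext h
  rw [hsum]
  have hc0 : 0 ≤ 2 * Real.exp (-(Gk a K * t^2)) := by positivity
  have hF := MA.add (MA.const (Set.univ : Set Var) hc0) (Ftot_MA K)
  let x0 : Var → ℝ := xval xb xo a 0 ∅
  let x1 : Var → ℝ := xfin xb xo a s
  have hx1 : ∀ v, 0 ≤ x1 v := by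
    intro v
    cases v with
    | site s => exact del_nonneg _
    | omg j z => exact del_nonneg _
    | blk j z => exact hxb j z
    | outer => exact hxo
  have hrel := relax_many Yv yy (t • Pi.single o (1:ℝ)) hs3
    (fun z => Qf T o W0 a 0 (Real.pi^2 * η) z)
    (Qf_PD T o W0 ha0.le le_rfl hη') (qf_par _) hF C ⊤ x1
    hyy (fun v _ => Submodule.mem_top)
    (fun v hv v' hv' hne => by
      obtain ⟨i, hi, rfl⟩ := (hCmem v).mp hv
      obtain ⟨j, hj, rfl⟩ := (hCmem v').mp hv'
      rw [hYs, hYs, Finset.disjoint_singleton]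
      rintro rfl
      exact hne rfl)
    Submodule.mem_top
    (fun v hv => by
      obtain ⟨i, hi, rfl⟩ := (hCmem v).mp hv
      rw [hYs, Finset.sum_singleton]
      have hio : i ≠ o := by
        rintro rfl
        rw [hgood, Finset.mem_filter] at hi
        exact hi.2.2.2 ho
      simp [hio])
    (fun T' hT' => by
      let ω' : Set Var := {v | v ∈ C ∧ v ∉ T'}
      have hk := chi_stage (K := K) (Bad := Bad) hxb hxo hbad T hT hM hMN o ho ha hη' ht0 ht hG K 0
        (by omega) ω'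
      have eU : killAll ⊤ Yv T' = Us K N M Bad ω' 0 := by
        ext z
        rw [mem_killAll, mem_Us_zero]
        constructor
        · rintro ⟨_, h⟩ i h1 h2 h3 h4
          have hig : i ∈ good := by
            rw [hgood, Finset.mem_filter]
            exact ⟨Finset.mem_univ _, h1, h2, h3⟩
          have hiC : Var.site i.1 ∈ C := (hCmem _).mpr ⟨i, hig, rfl⟩
          have hiT : Var.site i.1 ∈ T' := by
            by_contra hcon
            exact h4 ⟨hiC, hcon⟩
          have := h _ hiT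
          rw [hYs, Finset.sum_singleton] at this
          exact this
        · intro h
          refine ⟨Submodule.mem_top, fun v hv => ?_⟩
          obtain ⟨i, hi, rfl⟩ := (hCmem v).mp (hT' hv)
          rw [hYs, Finset.sum_singleton]
          rw [hgood, Finset.mem_filter] at hi
          exact h i hi.2.1 hi.2.2.1 hi.2.2.2 (fun hcon => hcon.2 hv)
      have eG : Gk a 0 = 0 := by simp [Gk]
      have eW : Ws K M m Bad ω' 0 = W0 := rfl
      rw [eU]
      rw [eG, eW] at hk
      refine le_trans hk ?_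
      have hmono := (Ftot_MA K).mono (xval xb xo a 0 ω')
        (fun v => if v ∈ T' then 0 else if v ∈ C then 1 else x1 v)
        (xval_nonneg hxb hxo 0 ω') (fun v => by
          cases v with
          | site w =>
              simp only [xval]
              by_cases h1 : Var.site w ∈ T'
              · rw [if_pos h1, if_neg (fun h => h.2 h1)]
              · rw [if_neg h1]
                by_cases h2 : Var.site w ∈ C
                · rw [if_pos h2, if_pos ⟨h2, h1⟩]
                · rw [if_neg h2, if_neg (fun h => h2 h.1)]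
                  exact hx1 _
          | omg j z =>
              have h2 : Var.omg j z ∉ C := by
                intro h
                obtain ⟨i, _, h3⟩ := (hCmem _).mp h
                exact absurd h3 (by simp)
              rw [if_neg (fun h => h2 (hT' h)), if_neg h2]
              simp only [xval]
              rw [if_neg (Nat.not_lt_zero j)]
              exact le_rfl
          | blk j z =>
              have h2 : Var.blk j z ∉ C := by
                intro h
                obtain ⟨i, _, h3⟩ := (hCmem _).mp h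
                exact absurd h3 (by simp)
              rw [if_neg (fun h => h2 (hT' h)), if_neg h2]
              exact le_rfl
          | outer =>
              have h2 : Var.outer ∉ C := by
                intro h
                obtain ⟨i, _, h3⟩ := (hCmem _).mp h
                exact absurd h3 (by simp)
              rw [if_neg (fun h => h2 (hT' h)), if_neg h2]
              exact le_rfl)
      linarith)
  refine le_trans hrel ?_
  have hmono := (Ftot_MA K).mono
    (fun v => if v ∈ C then 2 * Real.exp (-(s - 2)) else x1 v) x1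
    (fun v => by
      split_ifs
      · positivity
      · exact hx1 v)
    (fun v => by
      by_cases hv : v ∈ C
      · rw [if_pos hv]
        obtain ⟨i, hi, rfl⟩ := (hCmem v).mp hv
        exact le_rfl
      · rw [if_neg hv])
  linarith

end top

end Pool.Agent.Helper95_SOS
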