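import Pool.Agent.Helper95_SOS.Mix
import Pool.Agent.Helper95_SOS.Numeric

/-!
The long-range weights and their sums.
-/

set_option autoImplicit false

open scoped BigOperators

namespace Pool.Agent.Helper95_SOS

/-- Euclidean length -/
noncomputable def Eu (w : Pt) : ℝ := Real.sqrt (((w.1 : ℤ) : ℝ)^2 + ((w.2 : ℤ) : ℝ)^2)

/-- long-range weight -/
noncomputable def wa (α : ℝ) (w : Pt) : ℝ := 1 / (Eu w)^α

/-- comparison weight -/
noncomputable def nq (q : ℝ) (w : Pt) : ℝ := ((nm w : ℤ) : ℝ)^(-q)

theorem nm_le_Eu (w : Pt) : ((nm w : ℤ) : ℝ) ≤ Eu w := by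
  unfold Eu nm
  push_cast
  apply max_le
  · apply Real.abs_le_sqrt
    nlinarith [sq_nonneg ((w.2:ℤ):ℝ)]
  · apply Real.abs_le_sqrt
    nlinarith [sq_nonneg ((w.1:ℤ):ℝ)]

theorem nm_pos {w : Pt} (hw : w ≠ 0) : 1 ≤ nm w := by
  by_contra hcon
  push Not at hcon
  have h := nm_nonneg w
  have h0 : nm w ≤ 0 := by omega
  rw [nm_le_iff] at h0
  have h1 := abs_nonneg w.1
  have h2 := abs_nonneg w.2
  have e1 : w.1 = 0 := abs_eq_zero.mp (by omega)
  have e2 : w.2 = 0 := abs_eq_zero.mp (by omega)
  exact hw (Prod.ext e1 e2)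

theorem wa_nonneg (α : ℝ) (w : Pt) : 0 ≤ wa α w := by
  unfold wa Eu; positivity

theorem wa_pos {α : ℝ} {w : Pt} (hw : w ≠ 0) : 0 < wa α w := by
  have h1 := nm_le_Eu w
  have h2 : (1:ℝ) ≤ ((nm w : ℤ) : ℝ) := by exact_mod_cast nm_pos hw
  have h3 : 0 < Eu w := by linarith
  unfold wa; positivity

theorem nq_nonneg (q : ℝ) (w : Pt) : 0 ≤ nq q w := by
  unfold nq
  apply Real.rpow_nonneg
  exact_mod_cast nm_nonneg w

theorem wa_zero {α : ℝ} (hα : 0 < α) : wa α 0 = 0 := by
  unfold wa Eu
  simp [Real.zero_rpow hα.ne']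

theorem wa_le {q : ℝ} (hq : 0 < q) (w : Pt) : wa (2 * q) w ≤ nq q w * nq q w := by
  by_cases hw : w = 0
  · rw [hw, wa_zero (by linarith)]
    exact mul_nonneg (nq_nonneg _ _) (nq_nonneg _ _)
  · have h1 := nm_le_Eu w
    have h2 : (1:ℝ) ≤ ((nm w : ℤ) : ℝ) := by exact_mod_cast nm_pos hw
    have h3 : 0 < ((nm w : ℤ) : ℝ) := by linarith
    unfold wa nq
    rw [← Real.rpow_add h3, one_div, ← Real.rpow_neg (le_trans h3.le h1)]
    have e : -(2 * q) = -q + -q := by ring
    rw [e]
    exact Real.rpow_le_rpow_of_nonpos h3 h1 (by linarith)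

theorem nq_le_one {q : ℝ} (hq : 0 < q) (w : Pt) : nq q w ≤ 1 := by
  by_cases hw : w = 0
  · subst hw
    unfold nq
    have : nm (0:Pt) = 0 := by simp [nm]
    rw [this]
    rw [Int.cast_zero, Real.zero_rpow (by linarith : -q ≠ 0)]
    exact zero_le_one
  · have h2 : (1:ℝ) ≤ ((nm w : ℤ) : ℝ) := by exact_mod_cast nm_pos hw
    unfold nq
    exact Real.rpow_le_one_of_one_le_of_nonpos h2 (by linarith)

theorem nq_le {q : ℝ} (hq : 0 < q) {r : ℝ} (hr : 0 < r) {w : Pt} (hw : r ≤ ((nm w : ℤ) : ℝ)) :
    nq q w ≤ r^(-q) := by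
  unfold nq
  exact Real.rpow_le_rpow_of_nonpos hr hw (by linarith)

theorem nq_summable {q : ℝ} (hq : 2 < q) : Summable (nq q) := by
  have h := EisensteinSeries.summable_one_div_norm_rpow hq
  have h2 := (finTwoArrowEquiv ℤ).symm.summable_iff.mpr h
  refine h2.congr (fun w => ?_)
  unfold nq nm
  simp only [Function.comp_apply]
  congr 1
  rw [EisensteinSeries.norm_eq_max_natAbs]
  simp [finTwoArrowEquiv]

/-- sup of the comparison sum -/
noncomputable def Cq (q : ℝ) : ℝ := ∑' w, nq q w

theorem Cq_nonneg (q : ℝ) : 0 ≤ Cq q := tsum_nonneg (fun w => nq_nonneg q w)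

theorem sum_nq_le {q : ℝ} (hq : 2 < q) {κ : Type} (F : Finset κ) (g : κ → Pt) (hg : Function.Injective g) :
    ∑ y ∈ F, nq q (g y) ≤ Cq q := by
  classical
  have h1 : ∑ y ∈ F, nq q (g y) = ∑ w ∈ F.image g, nq q w := by
    rw [Finset.sum_image (fun x _ y _ h => hg h)]
  rw [h1]
  exact (nq_summable hq).sum_le_tsum _ (fun w _ => nq_nonneg q w)

theorem wa_summable {q : ℝ} (hq : 2 < q) (x : Pt) : Summable (fun y : Pt => wa (2*q) (x - y)) := by
  have h1 := (Equiv.subLeft x).summable_iff.mpr (nq_summable hq)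
  refine Summable.of_nonneg_of_le (fun y => wa_nonneg _ _) (fun y => ?_) h1
  have h2 := wa_le (by linarith : 0 < q) (x - y)
  have h3 := nq_le_one (by linarith : 0 < q) (x - y)
  have h4 := nq_nonneg q (x - y)
  simp only [Function.comp_apply, Equiv.subLeft_apply]
  nlinarith

open Classical in
/-- bond parameters of the long-range model -/
noncomputable def tt (β q : ℝ) {N : ℤ} : Bd N → ℝ
  | Sum.inl p => if p.1.1 = p.2.1 then 1 else β * wa (2*q) (p.1.1 - p.2.1)
  | Sum.inr i => 2 * β * ∑' y : Pt, if y ∈ bx N then 0 else wa (2*q) (i.1 - y)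

theorem tail_summable {q : ℝ} (hq : 2 < q) (N : ℤ) (x : Pt) :
    Summable (fun y : Pt => if y ∈ bx N then 0 else wa (2*q) (x - y)) := by
  refine Summable.of_nonneg_of_le (fun y => ?_) (fun y => ?_) (wa_summable hq x)
  · split_ifs
    · exact le_rfl
    · exact wa_nonneg _ _
  · split_ifs
    · exact wa_nonneg _ _
    · exact le_rfl

theorem tt_pos {β q : ℝ} (hβ : 0 < β) (hq : 2 < q) {N : ℤ} (p : Bd N) : 0 < tt β q p := by
  rcases p with ⟨x, y⟩ | x
  · simp only [tt]
    split_ifs with h
    · exact one_pos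
    · exact mul_pos hβ (wa_pos (sub_ne_zero.mpr h))
  · simp only [tt]
    apply mul_pos (by linarith)
    apply (tail_summable hq N x.1).tsum_pos (fun y => ?_) (|x.1.1| + |N| + 1, 0)
    · have h1 : ((|x.1.1| + |N| + 1, 0) : Pt) ∉ bx N := by
        rw [mem_bx, nm_le_iff]
        simp only [not_and_or, not_le]
        left
        have := abs_nonneg x.1.1
        have := le_abs_self N
        have := abs_nonneg N
        rw [lt_abs]; left; omega
      rw [if_neg h1]
      apply wa_pos
      intro hcon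
      have h2 := congrArg Prod.fst hcon
      simp only [Prod.fst_sub, Prod.fst_zero] at h2
      have := le_abs_self x.1.1
      have := abs_nonneg N
      omega
    · split_ifs
      · exact le_rfl
      · exact wa_nonneg _ _

/-- scale factor -/
noncomputable def rq (q : ℝ) : ℕ → ℝ
  | 0 => 1
  | (k+1) => ((lam k : ℤ) : ℝ)^(-q)

theorem rq_nonneg (q : ℝ) (k : ℕ) : 0 ≤ rq q k := by
  cases k with
  | zero => exact zero_le_one
  | succ k =>
      simp only [rq]
      apply Real.rpow_nonneg
      exact_mod_cast (lam_pos k).le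

theorem wa_lev {q : ℝ} (hq : 2 < q) {w : Pt} {k : ℕ} (hk : k = lev (nm w)) :
    wa (2*q) w ≤ rq q k * nq q w := by
  have h1 := wa_le (by linarith : 0 < q) w
  refine le_trans h1 (mul_le_mul_of_nonneg_right ?_ (nq_nonneg q w))
  cases k with
  | zero => exact nq_le_one (by linarith) w
  | succ k =>
      simp only [rq]
      apply nq_le (by linarith)
      · exact_mod_cast lam_pos k
      · have : lam k < nm w := lev_min (by omega)
        exact_mod_cast this.le

theorem wa_far {q : ℝ} (hq : 2 < q) {w : Pt} {K : ℕ} (hk : lam K ≤ nm w) :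
    wa (2*q) w ≤ rq q (K+1) * nq q w := by
  have h1 := wa_le (by linarith : 0 < q) w
  refine le_trans h1 (mul_le_mul_of_nonneg_right ?_ (nq_nonneg q w))
  simp only [rq]
  apply nq_le (by linarith)
  · exact_mod_cast lam_pos K
  · exact_mod_cast hk

theorem bset_sum {K : ℕ} {M N : ℤ} (v : Var) (g : Bd N → ℝ) [∀ p : Bd N, Decidable (bvar K M p = some v)] :
    ∑ p ∈ bset K M v, g p = (∑ x : Ix N, ∑ y : Ix N, if bvar K M (Sum.inl (x, y)) = some v then
      g (Sum.inl (x, y)) else 0) + ∑ x : Ix N, if bvar K M (Sum.inr x) = some v then g (Sum.inr x) else 0 := by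
  classical
  have h1 : ∑ p ∈ bset K M v, g p = ∑ p : Bd N, if bvar K M p = some v then g p else 0 := by
    rw [← Finset.sum_filter]
    refine Finset.sum_congr ?_ (fun _ _ => rfl)
    ext p
    rw [mem_bset, Finset.mem_filter]
    simp
  rw [h1, Fintype.sum_sum_type, Fintype.sum_prod_type]

theorem card_cl {N : ℤ} (k : ℕ) (z : Pt) [DecidablePred (fun x : Ix N => z = cl k x.1)] :
    ((Finset.univ.filter (fun x : Ix N => z = cl k x.1)).card : ℝ) ≤ ((lam k : ℤ) : ℝ)^2 := by
  have hl := lam_pos k
  have h1 : (Finset.univ.filter (fun x : Ix N => z = cl k x.1)).card ≤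
      (Finset.Ico (lam k * z.1) (lam k * z.1 + lam k) ×ˢ Finset.Ico (lam k * z.2) (lam k * z.2 + lam k)).card := by
    apply Finset.card_le_card_of_injOn (fun x : Ix N => x.1)
    · intro x hx
      simp only [Finset.coe_filter, Finset.mem_univ, true_and, Set.mem_ofPred_eq] at hx
      simp only [Finset.coe_product, Finset.coe_Ico, Set.mem_prod, Set.mem_Ico]
      rw [hx]
      unfold cl
      exact ⟨cl_bounds k x.1.1, cl_bounds k x.1.2⟩
    · intro x _ y _ h
      exact Subtype.ext h
  rw [Finset.card_product, Int.card_Ico, Int.card_Ico, add_sub_cancel_left, add_sub_cancel_left] at h1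
  have h2 : (((lam k).toNat : ℕ) : ℝ) = ((lam k : ℤ) : ℝ) := by
    have : (((lam k).toNat : ℕ) : ℤ) = lam k := Int.toNat_of_nonneg hl.le
    exact_mod_cast this
  have h3 : ((Finset.univ.filter (fun x : Ix N => z = cl k x.1)).card : ℝ) ≤
      (((lam k).toNat * (lam k).toNat : ℕ) : ℝ) := by exact_mod_cast h1
  refine le_trans h3 (le_of_eq ?_)
  push_cast
  rw [h2]; ring

theorem sub_inj {N : ℤ} (x : Pt) : Function.Injective (fun y : Ix N => x - y.1) := by
  intro y y' h
  simp only at h
  exact Subtype.ext (sub_right_injective h)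

theorem sub_inj' {N : ℤ} (y : Pt) : Function.Injective (fun x : Ix N => x.1 - y) := by
  intro x x' h
  simp only at h
  exact Subtype.ext (sub_left_injective h)

/-- **block sums** -/
theorem blk_sum {K : ℕ} {M N : ℤ} {β q : ℝ} (hβ : 0 < β) (hq : 2 < q) (k : ℕ) (z : Pt) :
    ∑ p ∈ (bset K M (Var.blk k z) : Finset (Bd N)), tt β q p ≤
      β * ((lam k : ℤ) : ℝ)^2 * (rq q k * Cq q) := by
  classical
  rw [bset_sum]
  have h2 : ∑ x : Ix N, (if bvar K M (Sum.inr x) = some (Var.blk k z) then tt β q (Sum.inr x) else 0) = 0 := by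
    apply Finset.sum_eq_zero
    intro x _
    rw [if_neg]
    intro h
    simp only [bvar] at h
    split_ifs at h
    simp at h
  rw [h2, add_zero]
  have h1 : ∀ x : Ix N, ∑ y : Ix N, (if bvar K M (Sum.inl (x, y)) = some (Var.blk k z) then
      tt β q (Sum.inl (x, y)) else 0) ≤ if z = cl k x.1 then β * (rq q k * Cq q) else 0 := by
    intro x
    by_cases hz : z = cl k x.1
    · rw [if_pos hz]
      calc ∑ y : Ix N, (if bvar K M (Sum.inl (x, y)) = some (Var.blk k z) then
          tt β q (Sum.inl (x, y)) else 0) ≤ ∑ y : Ix N, β * (rq q k * nq q (x.1 - y.1)) := by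
            apply Finset.sum_le_sum
            intro y _
            split_ifs with h
            · have h3 := bond_region h
              simp only [tt]
              rw [if_neg h3.2.2.2.2.2]
              exact mul_le_mul_of_nonneg_left (wa_lev hq h3.2.2.1) hβ.le
            · exact mul_nonneg hβ.le (mul_nonneg (rq_nonneg q k) (nq_nonneg q _))
        _ = β * (rq q k * ∑ y : Ix N, nq q (x.1 - y.1)) := by
            rw [Finset.mul_sum, Finset.mul_sum]
        _ ≤ β * (rq q k * Cq q) := by
            apply mul_le_mul_of_nonneg_left _ hβ.le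
            apply mul_le_mul_of_nonneg_left _ (rq_nonneg q k)
            exact sum_nq_le hq Finset.univ _ (sub_inj x.1)
    · rw [if_neg hz]
      apply le_of_eq
      apply Finset.sum_eq_zero
      intro y _
      rw [if_neg]
      intro h
      exact hz (bond_region h).2.1
  refine le_trans (Finset.sum_le_sum (fun x _ => h1 x)) ?_
  rw [← Finset.sum_filter, Finset.sum_const, nsmul_eq_mul]
  have h3 := card_cl (N := N) k z
  have h4 : 0 ≤ β * (rq q k * Cq q) := mul_nonneg hβ.le (mul_nonneg (rq_nonneg q k) (Cq_nonneg q))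
  have h5 := mul_le_mul_of_nonneg_right h3 h4
  refine le_trans h5 (le_of_eq ?_)
  ring

theorem card_M {N M : ℤ} (hM : 0 ≤ M) [DecidablePred (fun x : Ix N => nm x.1 ≤ M)] :
    ((Finset.univ.filter (fun x : Ix N => nm x.1 ≤ M)).card : ℝ) ≤ (2 * (M:ℝ) + 1)^2 := by
  have h1 : (Finset.univ.filter (fun x : Ix N => nm x.1 ≤ M)).card ≤ (bx M).card := by
    apply Finset.card_le_card_of_injOn (fun x : Ix N => x.1)
    · intro x hx
      simp only [Finset.coe_filter, Finset.mem_univ, true_and, Set.mem_ofPred_eq] at hx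
      exact (mem_bx M x.1).mpr hx
    · intro x _ y _ h
      exact Subtype.ext h
  have h2 : M = ((M.toNat : ℕ) : ℤ) := (Int.toNat_of_nonneg hM).symm
  have h2' : (bx M).card = (2 * M.toNat + 1)^2 := by
    rw [← card_bx, Int.toNat_of_nonneg hM]
  rw [h2'] at h1
  have h3 : ((Finset.univ.filter (fun x : Ix N => nm x.1 ≤ M)).card : ℝ) ≤
      (((2 * M.toNat + 1)^2 : ℕ) : ℝ) := by
    exact_mod_cast h1
  refine le_trans h3 (le_of_eq ?_)
  have h4 : ((M.toNat : ℕ) : ℝ) = (M : ℝ) := by exact_mod_cast h2.symm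
  push_cast
  rw [h4]

/-- **outer sum** -/
theorem outer_sum {K : ℕ} {M N : ℤ} {β q : ℝ} (hβ : 0 < β) (hq : 2 < q) (hM : 0 ≤ M)
    (hMN : M + lam K ≤ N) :
    ∑ p ∈ (bset K M Var.outer : Finset (Bd N)), tt β q p ≤
      4 * (2 * (M:ℝ) + 1)^2 * (β * (rq q (K+1) * Cq q)) := by
  classical
  rw [bset_sum]
  set c := β * (rq q (K+1) * Cq q) with hc
  have hc0 : 0 ≤ c := mul_nonneg hβ.le (mul_nonneg (rq_nonneg q _) (Cq_nonneg q))
  have hpt : ∀ x y : Ix N, (if bvar K M (Sum.inl (x, y)) = some Var.outer then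
      tt β q (Sum.inl (x, y)) else 0) ≤
      (if nm x.1 ≤ M then β * (rq q (K+1) * nq q (x.1 - y.1)) else 0) +
      (if nm y.1 ≤ M then β * (rq q (K+1) * nq q (x.1 - y.1)) else 0) := by
    intro x y
    have h0 : 0 ≤ β * (rq q (K+1) * nq q (x.1 - y.1)) :=
      mul_nonneg hβ.le (mul_nonneg (rq_nonneg q _) (nq_nonneg q _))
    by_cases h : bvar K M (Sum.inl (x, y)) = some Var.outer
    · rw [if_pos h]
      simp only [bvar] at h
      split_ifs at h with h1 h2 h3
      · injection h with h
        exact absurd h (by simp)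
      · have h4 : tt β q (Sum.inl (x, y)) ≤ β * (rq q (K+1) * nq q (x.1 - y.1)) := by
          simp only [tt]
          rw [if_neg h1]
          exact mul_le_mul_of_nonneg_left (wa_far hq (by omega)) hβ.le
        rcases h3 with h3 | h3
        · rw [if_pos h3]
          split_ifs <;> linarith
        · rw [if_pos h3]
          split_ifs <;> linarith
    · rw [if_neg h]
      split_ifs <;> linarith
  have h1 : ∑ x : Ix N, ∑ y : Ix N, (if bvar K M (Sum.inl (x, y)) = some Var.outer then
      tt β q (Sum.inl (x, y)) else 0) ≤ 2 * (2 * (M:ℝ) + 1)^2 * c := by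
    refine le_trans (Finset.sum_le_sum (fun x _ => Finset.sum_le_sum (fun y _ => hpt x y))) ?_
    simp only [Finset.sum_add_distrib]
    have a1 : ∑ x : Ix N, ∑ y : Ix N, (if nm x.1 ≤ M then β * (rq q (K+1) * nq q (x.1 - y.1)) else 0) ≤
        (2 * (M:ℝ) + 1)^2 * c := by
      have a2 : ∀ x : Ix N, ∑ y : Ix N, (if nm x.1 ≤ M then β * (rq q (K+1) * nq q (x.1 - y.1)) else 0) ≤
          if nm x.1 ≤ M then c else 0 := by
        intro x
        by_cases h : nm x.1 ≤ M
        · simp only [if_pos h]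
          rw [← Finset.mul_sum, ← Finset.mul_sum, hc]
          apply mul_le_mul_of_nonneg_left _ hβ.le
          apply mul_le_mul_of_nonneg_left _ (rq_nonneg q _)
          exact sum_nq_le hq Finset.univ _ (sub_inj x.1)
        · simp only [if_neg h]; simp
      refine le_trans (Finset.sum_le_sum (fun x _ => a2 x)) ?_
      rw [← Finset.sum_filter, Finset.sum_const, nsmul_eq_mul]
      exact mul_le_mul_of_nonneg_right (card_M hM) hc0
    have b1 : ∑ x : Ix N, ∑ y : Ix N, (if nm y.1 ≤ M then β * (rq q (K+1) * nq q (x.1 - y.1)) else 0) ≤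
        (2 * (M:ℝ) + 1)^2 * c := by
      rw [Finset.sum_comm]
      have b2 : ∀ y : Ix N, ∑ x : Ix N, (if nm y.1 ≤ M then β * (rq q (K+1) * nq q (x.1 - y.1)) else 0) ≤
          if nm y.1 ≤ M then c else 0 := by
        intro y
        by_cases h : nm y.1 ≤ M
        · simp only [if_pos h]
          rw [← Finset.mul_sum, ← Finset.mul_sum, hc]
          apply mul_le_mul_of_nonneg_left _ hβ.le
          apply mul_le_mul_of_nonneg_left _ (rq_nonneg q _)
          exact sum_nq_le hq Finset.univ _ (sub_inj' y.1)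
        · simp only [if_neg h]; simp
      refine le_trans (Finset.sum_le_sum (fun x _ => b2 x)) ?_
      rw [← Finset.sum_filter, Finset.sum_const, nsmul_eq_mul]
      exact mul_le_mul_of_nonneg_right (card_M hM) hc0
    linarith
  have h2 : ∑ x : Ix N, (if bvar K M (Sum.inr x) = some Var.outer then tt β q (Sum.inr x) else 0) ≤
      2 * (2 * (M:ℝ) + 1)^2 * c := by
    have a2 : ∀ x : Ix N, (if bvar K M (Sum.inr x) = some Var.outer then tt β q (Sum.inr x) else 0) ≤
        if nm x.1 ≤ M then 2 * c else 0 := by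
      intro x
      by_cases h : nm x.1 ≤ M
      · rw [if_pos h]
        have hb : bvar K M (Sum.inr x : Bd N) = some Var.outer := by
          simp only [bvar]; rw [if_pos h]
        rw [if_pos hb]
        simp only [tt]
        have h3 : ∑' y : Pt, (if y ∈ bx N then 0 else wa (2*q) (x.1 - y)) ≤ rq q (K+1) * Cq q := by
          have h4 : Summable (fun y : Pt => rq q (K+1) * nq q (x.1 - y)) :=
            ((Equiv.subLeft x.1).summable_iff.mpr (nq_summable hq)).mul_left _
          have h5 : ∑' y : Pt, rq q (K+1) * nq q (x.1 - y) = rq q (K+1) * Cq q := by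
            rw [tsum_mul_left]
            congr 1
            exact (Equiv.subLeft x.1).tsum_eq (nq q)
          rw [← h5]
          refine (tail_summable hq N x.1).tsum_le_tsum (fun y => ?_) h4
          split_ifs with hy
          · exact mul_nonneg (rq_nonneg q _) (nq_nonneg q _)
          · apply wa_far hq
            rw [mem_bx] at hy
            have h6 := nm_add_le y x.1
            rw [nm_sub_comm] at h6
            omega
        rw [hc]
        have h4 := mul_le_mul_of_nonneg_left h3 (by linarith : 0 ≤ 2 * β)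
        linarith
      · rw [if_neg h]
        have hb : bvar K M (Sum.inr x : Bd N) ≠ some Var.outer := by
          simp only [bvar]; rw [if_neg h]; simp
        rw [if_neg hb]
    refine le_trans (Finset.sum_le_sum (fun x _ => a2 x)) ?_
    rw [← Finset.sum_filter, Finset.sum_const, nsmul_eq_mul]
    have h3 := mul_le_mul_of_nonneg_right (card_M (N := N) hM) (by linarith : 0 ≤ 2 * c)
    linarith
  linarith

end Pool.Agent.Helper95_SOS
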